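import Pool.Agent.Lib.MP_87ece0_an.LimW

/-!
DISC: the lower domain in the coordinate `q = exp (-2πiw)` is the image of the unit disc under a
homeomorphism of the plane.
-/

namespace MP87

open Filter Topology Set Metric
open scoped ComplexConjugate

noncomputable section

namespace Disc

/-- the coordinate -/
def q (w : ℂ) : ℂ := Complex.exp (-(2 * Real.pi * Complex.I * w))

theorem q_ne (w : ℂ) : q w ≠ 0 := Complex.exp_ne_zero _

theorem norm_q (w : ℂ) : ‖q w‖ = Real.exp (2 * Real.pi * w.im) := by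
  rw [q, Complex.norm_exp]
  congr 1
  simp [Complex.mul_re, Complex.mul_im]

theorem norm_q_lt_one {w : ℂ} : ‖q w‖ < 1 ↔ w.im < 0 := by
  rw [norm_q, Real.exp_lt_one_iff]
  constructor
  · intro h
    by_contra hc
    push Not at hc
    have := Real.pi_pos
    nlinarith [mul_nonneg (mul_pos two_pos this).le hc]
  · intro h
    have := Real.pi_pos
    nlinarith [mul_pos (mul_pos two_pos this) (neg_pos.2 h)]

theorem norm_q_le {w : ℂ} {a : ℝ} : ‖q w‖ ≤ Real.exp (2 * Real.pi * a) ↔ w.im ≤ a := by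
  rw [norm_q, Real.exp_le_exp]
  have := Real.pi_pos
  constructor
  · intro h
    by_contra hc
    push Not at hc
    nlinarith [mul_lt_mul_of_pos_left hc (mul_pos two_pos this)]
  · intro h
    exact mul_le_mul_of_nonneg_left h (by positivity)

theorem q_eq_q {z w : ℂ} : q z = q w ↔ ∃ n : ℤ, z = w + n := by
  rw [q, q, Complex.exp_eq_exp_iff_exists_int]
  have hpi : (2 * (Real.pi : ℂ) * Complex.I) ≠ 0 := Complex.two_pi_I_ne_zero
  constructor
  · rintro ⟨n, hn⟩
    refine ⟨-n, ?_⟩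
    apply mul_left_cancel₀ hpi
    push_cast
    linear_combination -hn
  · rintro ⟨n, hn⟩
    refine ⟨-n, ?_⟩
    rw [hn]
    push_cast
    ring

theorem q_add_int (w : ℂ) (n : ℤ) : q (w + n) = q w := q_eq_q.2 ⟨n, rfl⟩

theorem q_add_one (w : ℂ) : q (w + 1) = q w := by simpa using q_add_int w 1

theorem exists_q {ζ : ℂ} (h : ζ ≠ 0) : ∃ w, q w = ζ := by
  refine ⟨Complex.log ζ / (-(2 * Real.pi * Complex.I)), ?_⟩
  rw [q]
  have hpi : (2 * (Real.pi : ℂ) * Complex.I) ≠ 0 := Complex.two_pi_I_ne_zero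
  have : -(2 * Real.pi * Complex.I * (Complex.log ζ / (-(2 * Real.pi * Complex.I)))) =
      Complex.log ζ := by
    field_simp
  rw [this, Complex.exp_log h]

theorem q_hasStrictDerivAt (w : ℂ) :
    HasStrictDerivAt q (q w * -(2 * Real.pi * Complex.I)) w := by
  have h1 : HasStrictDerivAt (fun w : ℂ => -(2 * Real.pi * Complex.I * w))
      (-(2 * Real.pi * Complex.I * 1)) w :=
    ((hasStrictDerivAt_id w).const_mul _).neg
  have h2 := h1.cexp
  rw [mul_one] at h2
  exact h2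

theorem q_hasDerivAt (w : ℂ) :
    HasDerivAt q (q w * -(2 * Real.pi * Complex.I)) w := (q_hasStrictDerivAt w).hasDerivAt

theorem q_continuous : Continuous q :=
  continuous_iff_continuousAt.2 fun w => (q_hasDerivAt w).continuousAt

theorem map_nhds (w : ℂ) : map q (𝓝 w) = 𝓝 (q w) :=
  (q_hasStrictDerivAt w).map_nhds_eq
    (mul_ne_zero (q_ne w) (neg_ne_zero.2 Complex.two_pi_I_ne_zero))

/-- a branch of the inverse of `q` -/
def lq (ζ : ℂ) : ℂ := Complex.log ζ / (-(2 * Real.pi * Complex.I))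

theorem q_lq {ζ : ℂ} (h : ζ ≠ 0) : q (lq ζ) = ζ := by
  rw [q, lq]
  have hpi : (2 * (Real.pi : ℂ) * Complex.I) ≠ 0 := Complex.two_pi_I_ne_zero
  have : -(2 * Real.pi * Complex.I * (Complex.log ζ / (-(2 * Real.pi * Complex.I)))) =
      Complex.log ζ := by
    field_simp
  rw [this, Complex.exp_log h]

/-- the map of the `q`-plane induced by a map commuting with the translation by 1 -/
def ind (τ : ℂ → ℂ) (ζ : ℂ) : ℂ := if ζ = 0 then 0 else q (τ (lq ζ))

theorem ind_zero (τ : ℂ → ℂ) : ind τ 0 = 0 := by simp [ind]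

theorem add_int {τ : ℂ → ℂ} (hτ : ∀ z, τ (z + 1) = τ z + 1) (n : ℤ) (z : ℂ) :
    τ (z + n) = τ z + n := by
  induction n using Int.induction_on with
  | zero => simp
  | succ n ih => push_cast at ih ⊢; rw [← add_assoc, hτ, ih, add_assoc]
  | pred n ih =>
    push_cast at ih ⊢
    have h2 := hτ (z + (-(n : ℂ) - 1))
    have : z + (-(n : ℂ) - 1) + 1 = z + -(n : ℂ) := by ring
    rw [this, ih] at h2
    rw [eq_sub_of_add_eq h2.symm]; ring

theorem ind_q {τ : ℂ → ℂ} (hτ : ∀ z, τ (z + 1) = τ z + 1) (w : ℂ) : ind τ (q w) = q (τ w) := by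
  rw [ind, if_neg (q_ne w)]
  obtain ⟨n, hn⟩ := q_eq_q.1 (q_lq (q_ne w))
  rw [hn, add_int hτ, q_add_int]

theorem ind_bound {τ : ℂ → ℂ} {B : ℝ} (hτ : ∀ z, τ (z + 1) = τ z + 1)
    (hb : ∀ z, ‖τ z - z‖ ≤ B) (ζ : ℂ) : ‖ind τ ζ‖ ≤ Real.exp (2 * Real.pi * B) * ‖ζ‖ := by
  by_cases h : ζ = 0
  · simp [h, ind_zero]
  · obtain ⟨w, rfl⟩ := exists_q h
    rw [ind_q hτ, norm_q, norm_q, ← Real.exp_add, Real.exp_le_exp, ← mul_add]
    apply mul_le_mul_of_nonneg_left _ (by positivity)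
    have h1 := (Complex.abs_im_le_norm _).trans (hb w)
    rw [Complex.sub_im] at h1
    linarith [(abs_le.1 h1).2]

theorem ind_continuous {τ : ℂ → ℂ} {B : ℝ} (hτ : ∀ z, τ (z + 1) = τ z + 1)
    (hb : ∀ z, ‖τ z - z‖ ≤ B) (hc : Continuous τ) : Continuous (ind τ) := by
  rw [continuous_iff_continuousAt]
  intro ζ
  by_cases h : ζ = 0
  · subst h
    rw [ContinuousAt, ind_zero]
    refine squeeze_zero_norm (ind_bound hτ hb) ?_
    have : Tendsto (fun ζ : ℂ => Real.exp (2 * Real.pi * B) * ‖ζ‖) (𝓝 0)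
        (𝓝 (Real.exp (2 * Real.pi * B) * ‖(0:ℂ)‖)) := by
      apply Continuous.tendsto
      fun_prop
    simpa using this
  · obtain ⟨w, rfl⟩ := exists_q h
    rw [ContinuousAt, ← map_nhds w, tendsto_map'_iff, ind_q hτ]
    have : (ind τ ∘ q) = q ∘ τ := by
      funext z; exact ind_q hτ z
    rw [this]
    exact (q_continuous.comp hc).continuousAt

theorem ind_ind {τ σ : ℂ → ℂ} (hτ : ∀ z, τ (z + 1) = τ z + 1) (hσ : ∀ z, σ (z + 1) = σ z + 1)
    (h : ∀ z, τ (σ z) = z) (ζ : ℂ) : ind τ (ind σ ζ) = ζ := by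
  by_cases h0 : ζ = 0
  · simp [h0, ind_zero]
  · obtain ⟨w, rfl⟩ := exists_q h0
    rw [ind_q hσ, ind_q hτ, h]

/-- the homeomorphism of the `q`-plane -/
def T (U : Upper) : ℂ ≃ₜ ℂ where
  toFun := ind U.τ
  invFun := ind U.τ.symm
  left_inv := ind_ind U.τ_symm_add_one U.τper fun z => U.τ.symm_apply_apply z
  right_inv := ind_ind U.τper U.τ_symm_add_one fun z => U.τ.apply_symm_apply z
  continuous_toFun := ind_continuous U.τper U.τbdd U.τ.continuous
  continuous_invFun := ind_continuous U.τ_symm_add_one U.τ_symm_bdd U.τ.symm.continuous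

theorem T_q (U : Upper) (w : ℂ) : T U (q w) = q (U.τ w) := ind_q U.τper w

theorem T_symm_q (U : Upper) (w : ℂ) : (T U).symm (q w) = q (U.τ.symm w) :=
  ind_q U.τ_symm_add_one w

theorem T_zero (U : Upper) : T U 0 = 0 := ind_zero _

theorem D_eq (U : Upper) : U.D = T U '' ball 0 1 := by
  have h1 : U.D = insert 0 (q '' U.Om) := rfl
  rw [h1, U.Om_eq]
  ext ζ
  constructor
  · rintro (rfl | ⟨_, ⟨z, hz, rfl⟩, rfl⟩)
    · exact ⟨0, by simp, T_zero U⟩
    · exact ⟨q z, mem_ball_zero_iff.2 (norm_q_lt_one.2 hz), T_q U z⟩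
  · rintro ⟨u, hu, rfl⟩
    by_cases h0 : u = 0
    · rw [h0, T_zero]; exact mem_insert _ _
    · obtain ⟨w, rfl⟩ := exists_q h0
      rw [mem_ball_zero_iff, norm_q_lt_one] at hu
      right
      exact ⟨U.τ w, ⟨w, hu, rfl⟩, (T_q U w).symm⟩

theorem mem_D {U : Upper} {w : ℂ} (hw : w ∈ U.Om) : q w ∈ U.D := Or.inr ⟨w, hw, rfl⟩

theorem mem_D_iff {U : Upper} {w : ℂ} : q w ∈ U.D ↔ w ∈ U.Om := by
  constructor
  · rintro (h | ⟨v, hv, h⟩)
    · exact absurd h (q_ne w)
    · obtain ⟨n, hn⟩ := q_eq_q.1 (show q v = q w from h)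
      rw [hn] at hv
      exact (U.Om_add_int n).1 hv
  · exact mem_D

theorem ball_simplyConnected : IsSimplyConnected (ball (0:ℂ) 1) := by
  have : ContractibleSpace (ball (0:ℂ) 1) :=
    (convex_ball (0:ℂ) 1).contractibleSpace ⟨0, mem_ball_self one_pos⟩
  exact SimplyConnectedSpace.ofContractible _

end Disc

/-- DISC -/
theorem specDisc : SpecDisc := by
  intro U
  rw [Disc.D_eq]
  refine ⟨(Disc.T U).isOpenMap _ isOpen_ball, ?_, ?_⟩
  · rw [isBounded_iff_forall_norm_le]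
    refine ⟨Real.exp (2 * Real.pi * U.B), ?_⟩
    rintro _ ⟨ζ, hζ, rfl⟩
    rw [mem_ball_zero_iff] at hζ
    have := Disc.ind_bound U.τper U.τbdd ζ
    refine this.trans ?_
    have h0 := Real.exp_pos (2 * Real.pi * U.B)
    nlinarith [norm_nonneg ζ]
  · exact ((Disc.T U).isSimplyConnected_image).2 Disc.ball_simplyConnected

end

end MP87
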