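import Pool.Agent.Lib.MP_87ece0_an.Spec
import Pool.Agent.Lib.MP_87ece0_an.Disc

section
/-!
RMT: the Riemann mapping theorem for bounded simply connected domains.
-/
namespace MP87

open Filter Topology Set Metric
open scoped ComplexConjugate

namespace RMT

/-- a uniform local Lipschitz bound for holomorphic functions with values in the unit ball -/
theorem lip_ball {z₀ : ℂ} {r : ℝ} (hr : 0 < r) {F : ℂ → ℂ}
    (hF : DifferentiableOn ℂ F (ball z₀ (2 * r))) (hm : ∀ z ∈ ball z₀ (2 * r), ‖F z‖ ≤ 1)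
    {z : ℂ} (hz : z ∈ ball z₀ r) : ‖F z - F z₀‖ ≤ r⁻¹ * ‖z - z₀‖ := by
  have hder : ∀ w ∈ ball z₀ r, ‖deriv F w‖ ≤ r⁻¹ := by
    intro w hw
    have hlt : ∀ s : ℝ, 0 < s → s < r → ‖deriv F w‖ ≤ 1 / s := by
      intro s hs0 hs
      have hsub : closedBall w s ⊆ ball z₀ (2 * r) := by
        intro u hu
        rw [mem_closedBall] at hu
        rw [mem_ball] at hw ⊢
        have := dist_triangle u w z₀
        linarith
      refine Complex.norm_deriv_le_of_forall_mem_sphere_norm_le hs0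
        (hF.diffContOnCl_ball hsub) fun u hu => hm u (hsub (sphere_subset_closedBall hu))
    have ht : Tendsto (fun s : ℝ => 1 / s) (𝓝[<] r) (𝓝 (1 / r)) := by
      refine tendsto_nhdsWithin_of_tendsto_nhds ?_
      exact tendsto_const_nhds.div tendsto_id hr.ne'
    rw [← one_div]
    refine ge_of_tendsto ht ?_
    filter_upwards [Ioo_mem_nhdsLT hr] with s hs
    exact hlt s hs.1 hs.2
  have := (convex_ball z₀ r).norm_image_sub_le_of_norm_deriv_le (f := F) (C := r⁻¹)
    (fun w hw => (hF.differentiableAt (isOpen_ball.mem_nhds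
      (ball_subset_ball (by linarith) hw)))) hder (mem_ball_self hr) hz
  exact this

/-- pointwise limits along a filter of holomorphic functions with values in the ball are
locally uniform -/
theorem locUnif {ι : Type*} {l : Filter ι} [l.NeBot] {D : Set ℂ} (hD : IsOpen D) {F : ι → ℂ → ℂ}
    {G : ℂ → ℂ} (hF : ∀ n, DifferentiableOn ℂ (F n) D) (hm : ∀ n, ∀ z ∈ D, ‖F n z‖ ≤ 1)
    (hG : ∀ z ∈ D, Tendsto (fun n => F n z) l (𝓝 (G z))) :
    TendstoLocallyUniformlyOn F G l D := by
  rw [Metric.tendstoLocallyUniformlyOn_iff]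
  intro ε hε z₀ hz₀
  obtain ⟨r', hr', hsub⟩ := Metric.isOpen_iff.1 hD z₀ hz₀
  set r := r' / 2 with hr
  have hr0 : 0 < r := by positivity
  have h2 : 2 * r = r' := by rw [hr]; ring
  rw [← h2] at hsub
  have hL : ∀ n, ∀ z ∈ ball z₀ r, ‖F n z - F n z₀‖ ≤ r⁻¹ * ‖z - z₀‖ := fun n z hz =>
    lip_ball hr0 ((hF n).mono hsub) (fun z hz => hm n z (hsub hz)) hz
  have hLG : ∀ z ∈ ball z₀ r, ‖G z - G z₀‖ ≤ r⁻¹ * ‖z - z₀‖ := by
    intro z hz
    have hzD : z ∈ D := hsub (ball_subset_ball (by linarith) hz)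
    exact le_of_tendsto ((hG z hzD).sub (hG z₀ hz₀)).norm
      (Eventually.of_forall fun n => hL n z hz)
  set δ := min r (r * (ε / 4)) with hδ
  have hδ0 : 0 < δ := by positivity
  refine ⟨ball z₀ δ, mem_nhdsWithin_of_mem_nhds (ball_mem_nhds z₀ hδ0), ?_⟩
  filter_upwards [(Metric.tendsto_nhds.1 (hG z₀ hz₀)) (ε / 4) (by positivity)] with n hn z hz
  have hz1 : z ∈ ball z₀ r := ball_subset_ball (min_le_left _ _) hz
  have hz2 : ‖z - z₀‖ < r * (ε / 4) := by
    rw [← dist_eq_norm]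
    exact lt_of_lt_of_le (mem_ball.1 hz) (min_le_right _ _)
  have hb : r⁻¹ * ‖z - z₀‖ ≤ ε / 4 := by
    rw [inv_mul_le_iff₀ hr0]
    exact hz2.le
  have h1 := hL n z hz1
  have h3 := hLG z hz1
  rw [dist_eq_norm] at hn ⊢
  have : G z - F n z = (G z - G z₀) - (F n z - F n z₀) - (F n z₀ - G z₀) := by ring
  rw [this]
  have e1 := norm_sub_le ((G z - G z₀) - (F n z - F n z₀)) (F n z₀ - G z₀)
  have e2 := norm_sub_le (G z - G z₀) (F n z - F n z₀)
  linarith

/-- Hurwitz: a non-constant limit of injective holomorphic functions is injective -/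
theorem hurwitz {ι : Type*} {l : Filter ι} [l.NeBot] {D : Set ℂ} (hD : IsOpen D)
    (hDc : IsPreconnected D) {F : ι → ℂ → ℂ} {G : ℂ → ℂ}
    (hF : ∀ n, DifferentiableOn ℂ (F n) D) (hinj : ∀ n, InjOn (F n) D)
    (hG : TendstoLocallyUniformlyOn F G l D) (hne : ∃ z ∈ D, ∃ w ∈ D, G z ≠ G w) :
    InjOn G D := by
  have hGd : DifferentiableOn ℂ G D := hG.differentiableOn (Eventually.of_forall hF) hD
  intro a ha b hb hab
  by_contra hne'
  have hGa : AnalyticOnNhd ℂ (fun z => G z - G a) D :=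
    ((hGd.sub_const _)).analyticOnNhd hD
  -- the function is not locally zero at b
  have hev : ∀ᶠ z in 𝓝[≠] b, G z - G a ≠ 0 := by
    rcases (hGa b hb).eventually_eq_zero_or_eventually_ne_zero with h | h
    · exfalso
      have := hGa.eqOn_zero_of_preconnected_of_eventuallyEq_zero hDc hb h
      obtain ⟨z, hz, w, hw, hzw⟩ := hne
      apply hzw
      have e1 : G z - G a = 0 := this hz
      have e2 : G w - G a = 0 := this hw
      rw [sub_eq_zero.1 e1, sub_eq_zero.1 e2]
    · exact h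
  rw [eventually_nhdsWithin_iff, Metric.eventually_nhds_iff] at hev
  obtain ⟨ε, hε, hev⟩ := hev
  obtain ⟨r', hr', hsub⟩ := Metric.isOpen_iff.1 hD b hb
  have hdab : 0 < dist a b := dist_pos.2 hne'
  obtain ⟨r, hr0, hr1, hr2, hr3⟩ : ∃ r : ℝ, 0 < r ∧ r < ε ∧ r < r' ∧ r < dist a b := by
    refine ⟨min (min (ε / 2) (r' / 2)) (dist a b / 2), by positivity, ?_, ?_, ?_⟩
    · exact lt_of_le_of_lt ((min_le_left _ _).trans (min_le_left _ _)) (by linarith)
    · exact lt_of_le_of_lt ((min_le_left _ _).trans (min_le_right _ _)) (by linarith)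
    · exact lt_of_le_of_lt (min_le_right _ _) (by linarith)
  have hcb : closedBall b r ⊆ D := (closedBall_subset_ball hr2).trans hsub
  -- minimum on the sphere
  have hcont : ContinuousOn (fun z => ‖G z - G a‖) (sphere b r) :=
    ((hGd.continuousOn.mono (sphere_subset_closedBall.trans hcb)).sub continuousOn_const).norm
  have hsne : (sphere b r).Nonempty := (NormedSpace.sphere_nonempty).2 hr0.le
  obtain ⟨p, hp, hmin⟩ := (isCompact_sphere b r).exists_isMinOn hsne hcont
  set m := ‖G p - G a‖ with hm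
  have hm0 : 0 < m := by
    rw [hm, norm_pos_iff]
    refine hev (y := p) ?_ ?_
    · rw [mem_sphere] at hp
      rw [hp]; exact hr1
    · rw [mem_compl_iff, mem_singleton_iff]
      rintro rfl
      simp only [mem_sphere, dist_self] at hp
      exact hr0.ne hp
  have hunif : TendstoUniformlyOn F G l (closedBall b r) :=
    (tendstoLocallyUniformlyOn_iff_forall_isCompact hD).1 hG _ hcb (isCompact_closedBall b r)
  have ha' : Tendsto (fun n => F n a) l (𝓝 (G a)) := hG.tendsto_at ha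
  have hev1 := (Metric.tendstoUniformlyOn_iff.1 hunif) (m / 8) (by positivity)
  have hev2 := (Metric.tendsto_nhds.1 ha') (m / 8) (by positivity)
  obtain ⟨n, hn1, hn2⟩ := (hev1.and hev2).exists
  -- the function h_n = F n - F n a
  have hclose : ∀ z ∈ closedBall b r, ‖(F n z - F n a) - (G z - G a)‖ ≤ m / 4 := by
    intro z hz
    have h1 := hn1 z hz
    rw [dist_eq_norm] at h1 hn2
    have : (F n z - F n a) - (G z - G a) = -(G z - F n z) - (F n a - G a) := by ring
    rw [this]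
    have e := norm_sub_le (-(G z - F n z)) (F n a - G a)
    rw [norm_neg] at e
    linarith
  have hnz : ∀ z ∈ closedBall b r, F n z - F n a ≠ 0 := by
    intro z hz h0
    have := hinj n (hcb hz) ha (sub_eq_zero.1 h0)
    rw [this, mem_closedBall] at hz
    linarith
  have hdc : DiffContOnCl ℂ (fun z => (F n z - F n a)⁻¹) (ball b r) := by
    have hdd : DifferentiableOn ℂ (fun z => (F n z - F n a)⁻¹) (closedBall b r) :=
      (((hF n).mono hcb).sub_const _).inv hnz
    exact DifferentiableOn.diffContOnCl_ball hdd subset_rfl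
  have hsph : ∀ z ∈ frontier (ball b r), ‖(F n z - F n a)⁻¹‖ ≤ (m / 2)⁻¹ := by
    intro z hz
    rw [frontier_ball b hr0.ne'] at hz
    have h1 := hclose z (sphere_subset_closedBall hz)
    have h2 : m ≤ ‖G z - G a‖ := hmin hz
    have h3 : ‖G z - G a‖ ≤ ‖F n z - F n a‖ + ‖(F n z - F n a) - (G z - G a)‖ := by
      have := norm_sub_le (F n z - F n a) ((F n z - F n a) - (G z - G a))
      rwa [sub_sub_cancel] at this
    rw [norm_inv]
    apply inv_anti₀ (by positivity)
    linarith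
  have hmax := Complex.norm_le_of_forall_mem_frontier_norm_le (isBounded_ball) hdc hsph
    (subset_closure (mem_ball_self hr0))
  have hb0 := hclose b (mem_closedBall_self hr0.le)
  have : G b - G a = 0 := by rw [hab]; ring
  rw [this, sub_zero] at hb0
  have hbne := hnz b (mem_closedBall_self hr0.le)
  rw [norm_inv] at hmax
  have := inv_le_inv₀ (norm_pos_iff.2 hbne) (by positivity : (0:ℝ) < m / 2) |>.1 hmax
  linarith

/-- the Moebius transformation -/
noncomputable def mob (a w : ℂ) : ℂ := (w - a) / (1 - conj a * w)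

theorem mob_den_ne {a w : ℂ} (ha : ‖a‖ < 1) (hw : ‖w‖ < 1) : 1 - conj a * w ≠ 0 := by
  intro h
  have h1 : conj a * w = 1 := (sub_eq_zero.1 h).symm
  have h2 : ‖conj a * w‖ = 1 := by rw [h1, norm_one]
  rw [norm_mul, Complex.norm_conj] at h2
  nlinarith [norm_nonneg a, norm_nonneg w]

theorem mob_norm {a w : ℂ} (ha : ‖a‖ < 1) (hw : ‖w‖ < 1) : ‖mob a w‖ < 1 := by
  have hd := mob_den_ne ha hw
  rw [mob, norm_div, div_lt_one (norm_pos_iff.2 hd)]
  have h1 : ‖w - a‖ ^ 2 < ‖1 - conj a * w‖ ^ 2 := by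
    have e1 : ‖w - a‖ ^ 2 = ‖w‖ ^ 2 + ‖a‖ ^ 2 - 2 * (conj a * w).re := by
      rw [← Complex.normSq_eq_norm_sq, ← Complex.normSq_eq_norm_sq, ← Complex.normSq_eq_norm_sq,
        Complex.normSq_sub]
      congr 2
      rw [mul_comm]
    have e2 : ‖1 - conj a * w‖ ^ 2 = 1 + ‖a‖ ^ 2 * ‖w‖ ^ 2 - 2 * (conj a * w).re := by
      rw [← Complex.normSq_eq_norm_sq, ← Complex.normSq_eq_norm_sq, ← Complex.normSq_eq_norm_sq,
        Complex.normSq_sub, Complex.normSq_one, Complex.normSq_mul, Complex.normSq_conj]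
      simp
    rw [e1, e2]
    have h3 : ‖a‖ ^ 2 < 1 := by nlinarith [norm_nonneg a]
    have h4 : ‖w‖ ^ 2 < 1 := by nlinarith [norm_nonneg w]
    nlinarith
  exact lt_of_pow_lt_pow_left₀ 2 (norm_nonneg _) h1

theorem mob_inj {a : ℂ} (ha : ‖a‖ < 1) : InjOn (mob a) (ball 0 1) := by
  intro z hz w hw h
  rw [mem_ball_zero_iff] at hz hw
  rw [mob, mob, div_eq_div_iff (mob_den_ne ha hz) (mob_den_ne ha hw)] at h
  have h1 : (z - w) * (1 - conj a * a) = 0 := by linear_combination h
  rcases mul_eq_zero.1 h1 with h2 | h2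
  · exact sub_eq_zero.1 h2
  · exact absurd h2 (mob_den_ne ha ha)

theorem mob_hasDerivAt {a w : ℂ} (ha : ‖a‖ < 1) (hw : ‖w‖ < 1) :
    HasDerivAt (mob a) ((1 - conj a * a) / (1 - conj a * w) ^ 2) w := by
  have hd := mob_den_ne ha hw
  have h1 : HasDerivAt (fun w : ℂ => w - a) 1 w := (hasDerivAt_id w).sub_const a
  have h2 : HasDerivAt (fun w : ℂ => 1 - conj a * w) (-(conj a * 1)) w :=
    ((hasDerivAt_id w).const_mul (conj a)).const_sub 1
  have h3 := h1.div h2 hd
  refine h3.congr_deriv ?_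
  congr 1
  ring

theorem mob_eq_zero {a w : ℂ} (ha : ‖a‖ < 1) (hw : ‖w‖ < 1) (h : mob a w = 0) : w = a := by
  rw [mob, div_eq_zero_iff] at h
  rcases h with h | h
  · exact sub_eq_zero.1 h
  · exact absurd h (mob_den_ne ha hw)

/-- the family of the proof -/
structure Fam (D : Set ℂ) (F : ℂ → ℂ) : Prop where
  diff : DifferentiableOn ℂ F D
  inj : InjOn F D
  zero : F 0 = 0
  maps : ∀ z ∈ D, ‖F z‖ < 1

/-- the koebe step: a larger derivative if a point is omitted -/
theorem koebe {D : Set ℂ} (hD : IsOpen D) (h0 : (0:ℂ) ∈ D) (hsc : IsSimplyConnected D)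
    {F : ℂ → ℂ} (hF : Fam D F) {a : ℂ} (ha : ‖a‖ < 1) (hna : ∀ z ∈ D, F z ≠ a) :
    ∃ G : ℂ → ℂ, Fam D G ∧ (deriv F 0 ≠ 0 → ‖deriv F 0‖ < ‖deriv G 0‖) := by
  have ha0 : a ≠ 0 := by
    rintro rfl
    exact hna 0 h0 hF.zero
  -- the function mob a ∘ F has no zero
  set u : ℂ → ℂ := fun z => mob a (F z) with hu
  have huD : ∀ z ∈ D, HasDerivAt u ((1 - conj a * a) / (1 - conj a * F z) ^ 2 * deriv F z) z := by
    intro z hz
    exact (mob_hasDerivAt ha (hF.maps z hz)).comp z
      (hF.diff.differentiableAt (hD.mem_nhds hz)).hasDerivAt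
  have hucont : ContinuousOn u D := fun z hz => (huD z hz).continuousAt.continuousWithinAt
  have hu0 : (0:ℂ) ∉ u '' D := by
    rintro ⟨z, hz, hz0⟩
    exact hna z hz (mob_eq_zero ha (hF.maps z hz) hz0)
  obtain ⟨g, hgc, hg⟩ := Complex.exists_continuousOn_pow_eq hsc hD hucont hu0 two_ne_zero
  have hgn : ∀ z ∈ D, ‖g z‖ < 1 := by
    intro z hz
    have h1 : ‖g z‖ ^ 2 < 1 := by
      rw [← norm_pow, hg z]
      exact mob_norm ha (hF.maps z hz)
    nlinarith [norm_nonneg (g z)]
  have hgne : ∀ z ∈ D, g z ≠ 0 := by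
    intro z hz h
    apply hu0
    refine ⟨z, hz, ?_⟩
    rw [← hg z, h]; simp
  have hgd : ∀ z ∈ D, HasDerivAt g (deriv u z / (2 * g z)) z := by
    intro z hz
    have hsq : HasDerivAt (fun w : ℂ => w ^ 2) (2 * g z) (g z) := by
      simpa using hasDerivAt_pow 2 (g z)
    -- local inverse of the square function
    have hst : HasStrictDerivAt (fun w : ℂ => w ^ 2) (2 * g z) (g z) := by
      simpa using hasStrictDerivAt_pow 2 (g z)
    have h2 : (2 * g z) ≠ 0 := mul_ne_zero two_ne_zero (hgne z hz)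
    have hinv := hst.to_localInverse h2
    have hloc : ∀ᶠ w in 𝓝 z, g w = hst.localInverse (fun w : ℂ => w ^ 2) (2 * g z) (g z) h2 (u w) := by
      have hev := hst.eventually_left_inverse h2
      have hcg : ContinuousAt g z := hgc.continuousAt (hD.mem_nhds hz)
      filter_upwards [hcg.eventually hev] with w hw
      rw [← hg w]
      exact hw.symm
    have huz : HasDerivAt u (deriv u z) z := (huD z hz).differentiableAt.hasDerivAt
    have hsq' : (g z) ^ 2 = u z := hg z
    rw [hsq'] at hinv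
    have hcomp := hinv.hasDerivAt.comp z huz
    have := hcomp.congr_of_eventuallyEq (f₁ := g) hloc
    exact this.congr_deriv (div_eq_inv_mul _ _).symm
  have hginj : InjOn g D := by
    intro z hz w hw hzw
    apply hF.inj hz hw
    apply mob_inj ha (mem_ball_zero_iff.2 (hF.maps z hz)) (mem_ball_zero_iff.2 (hF.maps w hw))
    change u z = u w
    rw [← hg z, ← hg w, hzw]
  set b := g 0 with hb
  have hbn : ‖b‖ < 1 := hgn 0 h0
  have hb0 : b ≠ 0 := hgne 0 h0
  refine ⟨fun z => mob b (g z), ⟨?_, ?_, ?_, ?_⟩, ?_⟩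
  · intro z hz
    exact ((mob_hasDerivAt hbn (hgn z hz)).comp z (hgd z hz)).differentiableAt.differentiableWithinAt
  · intro z hz w hw hzw
    exact hginj hz hw (mob_inj hbn (mem_ball_zero_iff.2 (hgn z hz))
      (mem_ball_zero_iff.2 (hgn w hw)) hzw)
  · show mob b (g 0) = 0
    rw [← hb, mob, sub_self, zero_div]
  · intro z hz
    exact mob_norm hbn (hgn z hz)
  · intro hd0
    have hd : deriv (fun z => mob b (g z)) 0 =
        (1 - conj b * b) / (1 - conj b * b) ^ 2 * (deriv u 0 / (2 * b)) :=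
      ((mob_hasDerivAt hbn (hgn 0 h0)).comp 0 (hgd 0 h0)).deriv
    have hdu : deriv u 0 = (1 - conj a * a) * deriv F 0 := by
      rw [(huD 0 h0).deriv, hF.zero]
      simp
    have hbsq : b ^ 2 = -a := by
      rw [hb, hg 0]
      show mob a (F 0) = -a
      rw [hF.zero, mob]
      simp
    have hna2 : ‖a‖ = ‖b‖ ^ 2 := by
      rw [← norm_pow, hbsq, norm_neg]
    have hca : conj a * a = ((‖a‖ ^ 2 : ℝ) : ℂ) := by
      rw [← Complex.normSq_eq_norm_sq, Complex.normSq_eq_conj_mul_self]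
    have hcb : conj b * b = ((‖b‖ ^ 2 : ℝ) : ℂ) := by
      rw [← Complex.normSq_eq_norm_sq, Complex.normSq_eq_conj_mul_self]
    have hn1 : ‖(1:ℂ) - conj a * a‖ = 1 - ‖b‖ ^ 4 := by
      rw [hca, hna2]
      rw [show (1:ℂ) - (((‖b‖ ^ 2) ^ 2 : ℝ) : ℂ) = ((1 - ‖b‖ ^ 4 : ℝ) : ℂ) by push_cast; ring,
        Complex.norm_real, Real.norm_of_nonneg]
      have : ‖b‖ ^ 4 < 1 := pow_lt_one₀ (norm_nonneg _) hbn (by norm_num)
      linarith
    have hn2 : ‖(1:ℂ) - conj b * b‖ = 1 - ‖b‖ ^ 2 := by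
      rw [hcb, show (1:ℂ) - ((‖b‖ ^ 2 : ℝ) : ℂ) = ((1 - ‖b‖ ^ 2 : ℝ) : ℂ) by push_cast; ring,
        Complex.norm_real, Real.norm_of_nonneg]
      have : ‖b‖ ^ 2 < 1 := pow_lt_one₀ (norm_nonneg _) hbn (by norm_num)
      linarith
    rw [hd, hdu, norm_mul, norm_div, norm_div, norm_mul, norm_mul, norm_pow, hn1, hn2]
    have hbp : 0 < ‖b‖ := norm_pos_iff.2 hb0
    have hb2 : ‖b‖ ^ 2 < 1 := pow_lt_one₀ (norm_nonneg _) hbn (by norm_num)
    have hFp : 0 < ‖deriv F 0‖ := norm_pos_iff.2 hd0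
    have h2n : ‖(2:ℂ)‖ = 2 := by simp
    rw [h2n]
    have key : (1 - ‖b‖ ^ 2) / (1 - ‖b‖ ^ 2) ^ 2 * ((1 - ‖b‖ ^ 4) * ‖deriv F 0‖ / (2 * ‖b‖)) =
        (1 + ‖b‖ ^ 2) / (2 * ‖b‖) * ‖deriv F 0‖ := by
      have : (1 - ‖b‖ ^ 2) ≠ 0 := by linarith
      field_simp
      ring
    rw [key]
    have : 1 < (1 + ‖b‖ ^ 2) / (2 * ‖b‖) := by
      rw [one_lt_div (by positivity)]
      nlinarith
    nlinarith

/-- the Riemann mapping theorem -/
theorem main {D : Set ℂ} (hD : IsOpen D) (hb : Bornology.IsBounded D) (h0 : (0:ℂ) ∈ D)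
    (hsc : IsSimplyConnected D) :
    ∃ F : ℂ → ℂ, DifferentiableOn ℂ F D ∧ BijOn F D (ball 0 1) ∧ F 0 = 0 := by
  have hDc : IsPreconnected D := hsc.isPathConnected.isConnected.isPreconnected
  obtain ⟨δ, hδ, hδD⟩ := Metric.isOpen_iff.1 hD 0 h0
  -- the set of values of the derivative
  set S : Set ℝ := {x | ∃ F : ℂ → ℂ, Fam D F ∧ x = ‖deriv F 0‖} with hS
  obtain ⟨R, hR⟩ := hb.exists_norm_le
  have hR0 : 0 ≤ R := by simpa using hR 0 h0
  set F₀ : ℂ → ℂ := fun z => ((R + 1 : ℝ) : ℂ)⁻¹ * z with hF₀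
  have hF₀fam : Fam D F₀ := by
    refine ⟨?_, ?_, ?_, ?_⟩
    · exact (differentiable_id.const_mul _).differentiableOn
    · intro z _ w _ h
      have : ((R + 1 : ℝ) : ℂ)⁻¹ ≠ 0 := inv_ne_zero (by exact_mod_cast (by linarith : R + 1 ≠ 0))
      exact mul_left_cancel₀ this h
    · simp [hF₀]
    · intro z hz
      rw [hF₀]
      simp only
      rw [norm_mul, norm_inv, Complex.norm_real, Real.norm_of_nonneg (by linarith),
        inv_mul_lt_iff₀ (by linarith)]
      linarith [hR z hz]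
  have hF₀d : 0 < ‖deriv F₀ 0‖ := by
    have : deriv F₀ 0 = ((R + 1 : ℝ) : ℂ)⁻¹ := by
      have h1 : HasDerivAt F₀ (((R + 1 : ℝ) : ℂ)⁻¹ * 1) 0 :=
        (hasDerivAt_id (0:ℂ)).const_mul (((R + 1 : ℝ) : ℂ)⁻¹)
      rw [h1.deriv, mul_one]
    rw [this, norm_inv, Complex.norm_real, Real.norm_of_nonneg (by linarith)]
    positivity
  have hbdd : ∀ F, Fam D F → ‖deriv F 0‖ ≤ 1 / (δ / 2) := by
    intro F hF
    have hsub : closedBall (0:ℂ) (δ / 2) ⊆ D :=
      (closedBall_subset_ball (by linarith)).trans hδD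
    exact Complex.norm_deriv_le_of_forall_mem_sphere_norm_le (by positivity)
      ((hF.diff.mono hδD).diffContOnCl_ball (closedBall_subset_ball (by linarith)))
      fun z hz => (hF.maps z (hsub (sphere_subset_closedBall hz))).le
  have hSne : S.Nonempty := ⟨_, F₀, hF₀fam, rfl⟩
  have hSb : BddAbove S := ⟨1 / (δ / 2), by rintro x ⟨F, hF, rfl⟩; exact hbdd F hF⟩
  have hseq : ∀ n : ℕ, ∃ F, Fam D F ∧ sSup S - 1 / (n + 1) < ‖deriv F 0‖ := by
    intro n
    obtain ⟨x, ⟨F, hF, rfl⟩, hx⟩ := exists_lt_of_lt_csSup hSne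
      (show sSup S - 1 / ((n:ℝ) + 1) < sSup S by
        have : (0:ℝ) < 1 / ((n:ℝ) + 1) := by positivity
        linarith)
    exact ⟨F, hF, hx⟩
  choose F hF hFd using hseq
  set l : Filter ℕ := (Filter.hyperfilter ℕ : Filter ℕ) with hl
  have hle : l ≤ atTop := Nat.hyperfilter_le_atTop
  have hlim : ∀ z ∈ D, ∃ w : ℂ, Tendsto (fun n => F n z) l (𝓝 w) := by
    intro z hz
    have hcomp := isCompact_closedBall (0:ℂ) 1
    have hle' : ((Filter.hyperfilter ℕ).map (fun n => F n z) : Filter ℂ) ≤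
        𝓟 (closedBall (0:ℂ) 1) := by
      rw [le_principal_iff, Ultrafilter.coe_map]
      refine Filter.mem_map.mpr (Filter.univ_mem' fun n => ?_)
      rw [mem_preimage, mem_closedBall_zero_iff]
      exact ((hF n).maps z hz).le
    obtain ⟨a, _, ha⟩ := hcomp.ultrafilter_le_nhds ((Filter.hyperfilter ℕ).map (fun n => F n z)) hle'
    exact ⟨a, ha⟩
  have hlim' : ∃ G : ℂ → ℂ, ∀ z ∈ D, Tendsto (fun n => F n z) l (𝓝 (G z)) := by
    classical
    refine ⟨fun z => if h : z ∈ D then (hlim z h).choose else 0, fun z hz => ?_⟩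
    simp only [hz, dif_pos]
    exact (hlim z hz).choose_spec
  obtain ⟨G, hG⟩ := hlim'
  have hLU : TendstoLocallyUniformlyOn F G l D :=
    locUnif hD (fun n => (hF n).diff) (fun n z hz => ((hF n).maps z hz).le) hG
  have hGd : DifferentiableOn ℂ G D :=
    hLU.differentiableOn (Eventually.of_forall fun n => (hF n).diff) hD
  have hderiv : Tendsto (fun n => deriv (F n) 0) l (𝓝 (deriv G 0)) :=
    (hLU.deriv (Eventually.of_forall fun n => (hF n).diff) hD).tendsto_at h0
  have hGmax : ‖deriv G 0‖ = sSup S := by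
    refine tendsto_nhds_unique hderiv.norm ?_
    have h1 : Tendsto (fun n : ℕ => sSup S - 1 / ((n:ℝ) + 1)) l (𝓝 (sSup S)) := by
      have : Tendsto (fun n : ℕ => sSup S - 1 / ((n:ℝ) + 1)) atTop (𝓝 (sSup S - 0)) :=
        tendsto_const_nhds.sub tendsto_one_div_add_atTop_nhds_zero_nat
      rw [sub_zero] at this
      exact this.mono_left hle
    refine tendsto_of_tendsto_of_tendsto_of_le_of_le h1 tendsto_const_nhds
      (fun n => (hFd n).le) (fun n => le_csSup hSb ⟨F n, hF n, rfl⟩)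
  have hpos : 0 < ‖deriv G 0‖ := by
    rw [hGmax]
    exact lt_of_lt_of_le hF₀d (le_csSup hSb ⟨F₀, hF₀fam, rfl⟩)
  -- non-constant
  have hne : ∃ z ∈ D, ∃ w ∈ D, G z ≠ G w := by
    by_contra hcon
    push Not at hcon
    have : G =ᶠ[𝓝 0] fun _ => G 0 := by
      filter_upwards [hD.mem_nhds h0] with z hz
      exact hcon z hz 0 h0
    have h1 := this.deriv_eq
    rw [deriv_const] at h1
    rw [h1, norm_zero] at hpos
    exact lt_irrefl _ hpos
  have hGinj : InjOn G D := hurwitz hD hDc (fun n => (hF n).diff) (fun n => (hF n).inj) hLU hne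
  have hG0 : G 0 = 0 := by
    refine tendsto_nhds_unique (hG 0 h0) ?_
    simp only [(hF _).zero]
    exact tendsto_const_nhds
  have hGle : ∀ z ∈ D, ‖G z‖ ≤ 1 := fun z hz =>
    le_of_tendsto (hG z hz).norm (Eventually.of_forall fun n => ((hF n).maps z hz).le)
  have hopen : ∀ s ⊆ D, IsOpen s → IsOpen (G '' s) := by
    rcases (hGd.analyticOnNhd hD).is_constant_or_isOpen hDc with ⟨w, hw⟩ | h
    · exfalso
      obtain ⟨z, hz, w', hw', hzw⟩ := hne
      exact hzw ((hw z hz).trans (hw w' hw').symm)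
    · exact h
  have hGlt : ∀ z ∈ D, ‖G z‖ < 1 := by
    intro z hz
    have h1 : G '' D ⊆ closedBall 0 1 := by
      rintro _ ⟨w, hw, rfl⟩
      rw [mem_closedBall_zero_iff]; exact hGle w hw
    have h2 : G '' D ⊆ interior (closedBall 0 1) :=
      interior_maximal h1 (hopen D subset_rfl hD)
    rw [interior_closedBall (0:ℂ) one_ne_zero] at h2
    exact mem_ball_zero_iff.1 (h2 ⟨z, hz, rfl⟩)
  have hGfam : Fam D G := ⟨hGd, hGinj, hG0, hGlt⟩
  refine ⟨G, hGd, ⟨fun z hz => mem_ball_zero_iff.2 (hGlt z hz), hGinj, ?_⟩, hG0⟩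
  intro a ha
  by_contra hna
  rw [mem_ball_zero_iff] at ha
  obtain ⟨H, hH, hHd⟩ := koebe hD h0 hsc hGfam ha (fun z hz h => hna ⟨z, hz, h⟩)
  have h1 := hHd (norm_pos_iff.1 hpos)
  rw [hGmax] at h1
  exact absurd (le_csSup hSb ⟨H, hH, rfl⟩) (not_le.2 h1)

end RMT

/-- RMT -/
theorem specRMT : SpecRMT := fun _ hD hb h0 hsc => RMT.main hD hb h0 hsc

end MP87
end

section
/-!
LOWER: existence of the lower map.
-/
namespace MP87

open Filter Topology Set Metric
open scoped ComplexConjugate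

noncomputable section

namespace LowerM

/-- lifting of differentiability through a local inverse -/
theorem lift_diff {E S H : ℂ → ℂ} {z e : ℂ} (hE : HasStrictDerivAt E e (S z)) (he : e ≠ 0)
    (hS : ContinuousAt S z) (hH : DifferentiableAt ℂ H z) (h : ∀ᶠ w in 𝓝 z, E (S w) = H w) :
    DifferentiableAt ℂ S z := by
  have hinv := hE.to_localInverse he
  have hEz : E (S z) = H z := h.self_of_nhds
  have hloc : ∀ᶠ w in 𝓝 z, S w = hE.localInverse E e (S z) he (H w) := by
    filter_upwards [hS.eventually (hE.eventually_left_inverse he), h] with w hw hw2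
    rw [← hw2]
    exact hw.symm
  rw [hEz] at hinv
  have hcomp := hinv.hasDerivAt.comp z hH.hasDerivAt
  exact (hcomp.congr_of_eventuallyEq (f₁ := S) hloc).differentiableAt

variable {D : Set ℂ} {F : ℂ → ℂ}

theorem open_image (hD : IsOpen D) (hc : IsPreconnected D) (hF : DifferentiableOn ℂ F D)
    (hinj : InjOn F D) {s : Set ℂ} (hs : s ⊆ D) (hso : IsOpen s) : IsOpen (F '' s) := by
  rcases (hF.analyticOnNhd hD).is_constant_or_isOpen hc with ⟨w, hw⟩ | h
  · by_cases hne : s.Nonempty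
    · exfalso
      obtain ⟨a, ha⟩ := hne
      obtain ⟨r, hr, hsub⟩ := Metric.isOpen_iff.1 hso a ha
      have hb : a + ((r / 2 : ℝ) : ℂ) ∈ s := by
        apply hsub
        rw [mem_ball, dist_eq_norm, add_sub_cancel_left, Complex.norm_real, Real.norm_of_nonneg
          (by positivity)]
        linarith
      have := hinj (hs ha) (hs hb) ((hw _ (hs ha)).trans (hw _ (hs hb)).symm)
      have h2 : ((r / 2 : ℝ) : ℂ) = 0 := by
        linear_combination -this
      rw [Complex.ofReal_eq_zero] at h2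
      linarith
    · rw [not_nonempty_iff_eq_empty] at hne
      rw [hne, image_empty]
      exact isOpen_empty
  · exact h s hs hso

theorem inv_cont (hD : IsOpen D) (hc : IsPreconnected D) (hF : DifferentiableOn ℂ F D)
    (hinj : InjOn F D) {a : ℂ} (ha : a ∈ D) : ContinuousAt (Function.invFunOn F D) (F a) := by
  have hl : LeftInvOn (Function.invFunOn F D) F D := hinj.leftInvOn_invFunOn
  rw [ContinuousAt, hl ha]
  intro V hV
  obtain ⟨V', hV', hV'o, haV'⟩ := _root_.mem_nhds_iff.1 hV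
  have ho : IsOpen (F '' (V' ∩ D)) :=
    open_image hD hc hF hinj inter_subset_right (hV'o.inter hD)
  refine Filter.mem_map.2 (mem_of_superset (ho.mem_nhds ⟨a, ⟨haV', ha⟩, rfl⟩) ?_)
  rintro _ ⟨z, ⟨hzV, hzD⟩, rfl⟩
  rw [mem_preimage, hl hzD]
  exact hV' hzV

/-- an injective holomorphic function has a nonvanishing derivative -/
theorem deriv_ne_of_inj (hD : IsOpen D) (hc : IsPreconnected D) (hF : DifferentiableOn ℂ F D)
    (hinj : InjOn F D) {a : ℂ} (ha : a ∈ D) : deriv F a ≠ 0 := by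
  intro h0
  have hl : LeftInvOn (Function.invFunOn F D) F D := hinj.leftInvOn_invFunOn
  have hFa : AnalyticOnNhd ℂ F D := hF.analyticOnNhd hD
  have hda : AnalyticAt ℂ (deriv F) a := (hFa a ha).deriv
  have hev : ∀ᶠ z in 𝓝[≠] a, deriv F z ≠ 0 := by
    rcases hda.eventually_eq_zero_or_eventually_ne_zero with h | h
    · exfalso
      obtain ⟨r, hr, hsub⟩ := Metric.eventually_nhds_iff_ball.1 (h.and (hD.mem_nhds ha))
      have hconst : ∀ z ∈ ball a r, F z = F a := by
        intro z hz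
        have := (convex_ball a r).norm_image_sub_le_of_norm_deriv_le (f := F) (C := 0)
          (fun w hw => hF.differentiableAt (hD.mem_nhds (hsub w hw).2))
          (fun w hw => by rw [(hsub w hw).1, norm_zero]) (mem_ball_self hr) hz
        rw [zero_mul] at this
        exact sub_eq_zero.1 (norm_le_zero_iff.1 this)
      have hb : a + ((r / 2 : ℝ) : ℂ) ∈ ball a r := by
        rw [mem_ball, dist_eq_norm, add_sub_cancel_left, Complex.norm_real, Real.norm_of_nonneg
          (by positivity)]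
        linarith
      have := hinj (hsub _ hb).2 ha (hconst _ hb)
      have h2 : ((r / 2 : ℝ) : ℂ) = 0 := by
        linear_combination this
      rw [Complex.ofReal_eq_zero] at h2
      linarith
    · exact h
  rw [eventually_nhdsWithin_iff] at hev
  obtain ⟨r, hr, hsub⟩ := Metric.eventually_nhds_iff_ball.1 (hev.and (hD.mem_nhds ha))
  set G := Function.invFunOn F D with hG
  have hballD : ball a r ⊆ D := fun z hz => (hsub z hz).2
  have hVo : IsOpen (F '' ball a r) := open_image hD hc hF hinj hballD isOpen_ball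
  have hVn : F '' ball a r ∈ 𝓝 (F a) := hVo.mem_nhds ⟨a, mem_ball_self hr, rfl⟩
  have hGd : DifferentiableOn ℂ G ((F '' ball a r) \ {F a}) := by
    rintro _ ⟨⟨z, hz, rfl⟩, hne⟩
    have hza : z ≠ a := by
      rintro rfl
      exact hne rfl
    have hd := (hF.differentiableAt (hD.mem_nhds (hballD hz))).hasDerivAt
    have hne' : deriv F z ≠ 0 := (hsub z hz).1 hza
    have hGz : G (F z) = z := hl (hballD hz)
    have hcz := inv_cont hD hc hF hinj (hballD hz)
    have h1 : ∀ᶠ y in 𝓝 (F z), F (G y) = y := by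
      filter_upwards [hVo.mem_nhds ⟨z, hz, rfl⟩] with y hy
      obtain ⟨x, hx, rfl⟩ := hy
      rw [hl (hballD hx)]
    have := HasDerivAt.of_local_left_inverse (f := F) (g := G) (a := F z) (f' := deriv F z) hcz
      (by rw [hGz]; exact hd) hne' h1
    exact this.differentiableAt.differentiableWithinAt
  have hGd' : DifferentiableOn ℂ G (F '' ball a r) :=
    (Complex.differentiableOn_compl_singleton_and_continuousAt_iff hVn).1
      ⟨hGd, inv_cont hD hc hF hinj ha⟩
  have hGa : DifferentiableAt ℂ G (F a) := hGd'.differentiableAt hVn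
  have hFd := (hF.differentiableAt (hD.mem_nhds ha)).hasDerivAt
  have hcomp := hGa.hasDerivAt.comp a hFd
  rw [h0, mul_zero] at hcomp
  have hid : (G ∘ F) =ᶠ[𝓝 a] id := by
    filter_upwards [hD.mem_nhds ha] with z hz
    exact hl hz
  have h1 := (hcomp.congr_of_eventuallyEq hid.symm).unique (hasDerivAt_id a)
  exact zero_ne_one h1

/-- a holomorphic function vanishing at 0 only, to first order, is `ζ exp (S ζ)` -/
theorem exists_log (hD : IsOpen D) (hsc : IsSimplyConnected D) (h0 : (0:ℂ) ∈ D)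
    (hF : DifferentiableOn ℂ F D) (hinj : InjOn F D) (hF0 : F 0 = 0) :
    ∃ S : ℂ → ℂ, DifferentiableOn ℂ S D ∧ ∀ ζ ∈ D, F ζ = ζ * Complex.exp (S ζ) := by
  have hc : IsPreconnected D := hsc.isPathConnected.isConnected.isPreconnected
  set H := dslope F 0 with hH
  have hHd : DifferentiableOn ℂ H D :=
    (Complex.differentiableOn_dslope (hD.mem_nhds h0)).2 hF
  have hFH : ∀ ζ, F ζ = ζ * H ζ := by
    intro ζ
    have := sub_smul_dslope F 0 ζ
    rw [sub_zero, hF0, sub_zero, smul_eq_mul] at this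
    exact this.symm
  have hHne : (0:ℂ) ∉ H '' D := by
    rintro ⟨ζ, hζ, h⟩
    by_cases h0' : ζ = 0
    · rw [h0', hH, dslope_same] at h
      exact deriv_ne_of_inj hD hc hF hinj h0 h
    · have h1 := hFH ζ
      rw [h, mul_zero] at h1
      exact h0' (hinj hζ h0 (h1.trans hF0.symm))
  obtain ⟨S, hSc, hS⟩ := Complex.exists_continuousOn_eqOn_exp_comp hsc hD hHd.continuousOn hHne
  refine ⟨S, ?_, ?_⟩
  · intro z hz
    refine (lift_diff (Complex.hasStrictDerivAt_exp (S z)) (Complex.exp_ne_zero _)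
      (hSc.continuousAt (hD.mem_nhds hz)) (hHd.differentiableAt (hD.mem_nhds hz)) ?_
      ).differentiableWithinAt
    filter_upwards [hD.mem_nhds hz] with w hw
    exact hS hw
  · intro ζ hζ
    rw [hFH ζ, ← hS hζ]
    rfl

/-- the part of `D` far from the boundary is compact -/
theorem compact_part (U : Upper) {a : ℝ} (ha : a < 0) :
    ∃ K : Set ℂ, IsCompact K ∧ K ⊆ U.D ∧ ∀ w : ℂ, (U.τ.symm w).im ≤ a → Disc.q w ∈ K := by
  refine ⟨Disc.T U '' closedBall 0 (Real.exp (2 * Real.pi * a)),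
    (isCompact_closedBall _ _).image (Disc.T U).continuous, ?_, ?_⟩
  · rw [Disc.D_eq]
    apply image_mono
    apply closedBall_subset_ball
    rw [Real.exp_lt_one_iff]
    have := Real.pi_pos
    nlinarith [mul_pos (mul_pos two_pos this) (neg_pos.2 ha)]
  · intro w hw
    refine ⟨Disc.q (U.τ.symm w), ?_, ?_⟩
    · rw [mem_closedBall_zero_iff, Disc.norm_q_le]
      exact hw
    · rw [Disc.T_q, U.τ.apply_symm_apply]

theorem near_exists {U : Upper} {a : ℝ} (ha : a < 0) :
    ∃ δ : ℝ, 0 < δ ∧ ∀ w ∈ U.Om, (∃ x : ℝ, ‖w - U.f x‖ < δ) → a < (U.τ.symm w).im := by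
  set t := min (-a / 2) (U.ρ / 2) with ht
  have hρ := U.hρ
  have ht0 : 0 < t := lt_min (by linarith) (by linarith)
  have ht1 : t < U.ρ := lt_of_le_of_lt (min_le_right _ _) (by linarith)
  have hκ := U.hκ
  refine ⟨U.κ * t / 2, by positivity, ?_⟩
  rintro w hw ⟨x, hx⟩
  obtain ⟨z, _, hz2, _, hz4⟩ := U.exists_of_near ht0 ht1 hw hx
  have : U.τ.symm w = z := by
    rw [← hz4, ← U.τf z (by linarith), U.τ.symm_apply_apply]
  rw [this]
  have : t ≤ -a / 2 := min_le_left _ _
  linarith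

end LowerM

open LowerM Disc in
/-- LOWER -/
theorem specLower (hRf : SpecReflect) : SpecLower := by
  intro U
  obtain ⟨hDo, hDb, hDsc⟩ := specDisc U
  have h0D : (0:ℂ) ∈ U.D := mem_insert _ _
  have hDc : IsPreconnected U.D := hDsc.isPathConnected.isConnected.isPreconnected
  obtain ⟨F, hF, hbij, hF0⟩ := specRMT U.D hDo hDb h0D hDsc
  obtain ⟨S, hS, hFS⟩ := exists_log hDo hDsc h0D hF hbij.injOn hF0
  have hpi : (0:ℝ) < Real.pi := Real.pi_pos
  have hρ := U.hρ
  set ψ₀ : ℂ → ℂ := fun w => w + Complex.I * S (q w) / (2 * Real.pi) with hψ₀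
  have hpic : ((Real.pi : ℝ) : ℂ) ≠ 0 := by exact_mod_cast hpi.ne'
  -- the functional equation
  have hqψ : ∀ w ∈ U.Om, q (ψ₀ w) = F (q w) := by
    intro w hw
    rw [hFS _ (mem_D hw), q, hψ₀]
    simp only
    rw [q, ← Complex.exp_add]
    congr 1
    field_simp
    linear_combination (-(S (Complex.exp (-(2 * Real.pi * Complex.I * w))))) * Complex.I_sq
  have hqd : ∀ w, DifferentiableAt ℂ q w := fun w => (q_hasDerivAt w).differentiableAt
  have hψd : DifferentiableOn ℂ ψ₀ U.Om := by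
    intro w hw
    have h1 : DifferentiableAt ℂ (fun w => S (q w)) w :=
      (hS.differentiableAt (hDo.mem_nhds (mem_D hw))).comp w (hqd w)
    exact (differentiableAt_fun_id.add ((h1.const_mul Complex.I).div_const
      (2 * Real.pi))).differentiableWithinAt
  have hψper : ∀ w, ψ₀ (w + 1) = ψ₀ w + 1 := by
    intro w
    simp only [hψ₀, q_add_one]
    ring
  have hψint : ∀ (n : ℤ) w, ψ₀ (w + n) = ψ₀ w + n := fun n w => add_int hψper n w
  have hψneg : ∀ w ∈ U.Om, (ψ₀ w).im < 0 := by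
    intro w hw
    rw [← norm_q_lt_one, hqψ w hw]
    exact mem_ball_zero_iff.1 (hbij.mapsTo (mem_D hw))
  have hψbij : BijOn ψ₀ U.Om {z : ℂ | z.im < 0} := by
    refine ⟨hψneg, ?_, ?_⟩
    · intro w hw v hv h
      have h1 : F (q w) = F (q v) := by rw [← hqψ w hw, ← hqψ v hv, h]
      obtain ⟨n, hn⟩ := q_eq_q.1 (hbij.injOn (mem_D hw) (mem_D hv) h1)
      rw [hn, hψint] at h
      have hn0 : (n : ℂ) = 0 := by linear_combination h
      rw [hn, hn0, add_zero]
    · intro ζ hζ
      have h1 : q ζ ∈ ball (0:ℂ) 1 := mem_ball_zero_iff.2 (norm_q_lt_one.2 hζ)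
      obtain ⟨q₀, hq₀, hq₀'⟩ := hbij.surjOn h1
      rcases hq₀ with h | ⟨w, hw, h⟩
      · exfalso
        rw [h, hF0] at hq₀'
        exact q_ne ζ hq₀'.symm
      · have h2 : q (ψ₀ w) = q ζ := by
          rw [hqψ w hw, ← hq₀', ← h]
          rfl
        obtain ⟨n, hn⟩ := q_eq_q.1 h2.symm
        exact ⟨w + n, (U.Om_add_int n).2 hw, by rw [hψint, hn]⟩
  -- the boundary behaviour
  have hψbd : ∀ ε : ℝ, 0 < ε → ∃ δ : ℝ, 0 < δ ∧
      ∀ w ∈ U.Om, (∃ x : ℝ, ‖w - U.f x‖ < δ) → -ε < (ψ₀ w).im := by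
    intro ε hε
    set r := Real.exp (2 * Real.pi * (-ε)) with hr
    have hr1 : r < 1 := by
      rw [hr, Real.exp_lt_one_iff]
      nlinarith [mul_pos (mul_pos two_pos hpi) hε]
    set G := Function.invFunOn F U.D with hG
    have hl : LeftInvOn G F U.D := hbij.injOn.leftInvOn_invFunOn
    have hGc : ContinuousOn G (closedBall 0 r) := by
      intro y hy
      have hy' : y ∈ ball (0:ℂ) 1 := closedBall_subset_ball hr1 hy
      obtain ⟨a, ha, rfl⟩ := hbij.surjOn hy'
      exact (inv_cont hDo hDc hF hbij.injOn ha).continuousWithinAt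
    have hKc : IsCompact (G '' closedBall 0 r) := (isCompact_closedBall _ _).image_of_continuousOn hGc
    have hKD : G '' closedBall 0 r ⊆ U.D := by
      rintro _ ⟨y, hy, rfl⟩
      have hy' : y ∈ ball (0:ℂ) 1 := closedBall_subset_ball hr1 hy
      obtain ⟨a, ha, rfl⟩ := hbij.surjOn hy'
      rw [hl ha]
      exact ha
    have hK2 : IsCompact ((T U).symm '' (G '' closedBall 0 r)) := hKc.image (T U).symm.continuous
    have hK3 : (T U).symm '' (G '' closedBall 0 r) ⊆ ball 0 1 := by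
      rintro _ ⟨y, hy, rfl⟩
      have := hKD hy
      rw [D_eq] at this
      obtain ⟨u, hu, rfl⟩ := this
      rwa [Homeomorph.symm_apply_apply]
    obtain ⟨r', hr', hK4⟩ := exists_lt_subset_ball hK2.isClosed hK3
    set r'' := max r' (1 / 2) with hr''
    have h1 : r'' < 1 := max_lt hr' (by norm_num)
    have h2 : 0 < r'' := lt_of_lt_of_le (by norm_num) (le_max_right _ _)
    set a := Real.log r'' / (2 * Real.pi) with ha
    have ha0 : a < 0 := div_neg_of_neg_of_pos (Real.log_neg h2 h1) (by positivity)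
    have hexp : Real.exp (2 * Real.pi * a) = r'' := by
      rw [ha, mul_div_cancel₀ _ (by positivity), Real.exp_log h2]
    obtain ⟨δ, hδ, hδ'⟩ := near_exists (U := U) ha0
    refine ⟨δ, hδ, ?_⟩
    intro w hw hx
    by_contra hcon
    push Not at hcon
    have h3 : ‖F (q w)‖ ≤ r := by
      rw [← hqψ w hw, hr, norm_q_le]
      exact hcon
    have h4 : q w ∈ G '' closedBall 0 r :=
      ⟨F (q w), mem_closedBall_zero_iff.2 h3, hl (mem_D hw)⟩
    have h5 : q (U.τ.symm w) ∈ ball (0:ℂ) r' := by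
      apply hK4
      exact ⟨q w, h4, T_symm_q U w⟩
    rw [mem_ball_zero_iff] at h5
    have h6 : (U.τ.symm w).im ≤ a := by
      rw [← norm_q_le, hexp]
      exact h5.le.trans (le_max_left _ _)
    exact absurd (hδ' w hw hx) (not_lt.2 h6)
  -- reflection
  have hrefl := hRf U.ρ (fun z => ψ₀ (U.f z)) hρ ?_ ?_ ?_
  rotate_left
  · intro z hz
    have h1 : DifferentiableAt ℂ ψ₀ (U.f z) :=
      hψd.differentiableAt (U.isOpen_Om.mem_nhds (U.mem_Om hz.1 hz.2))
    exact (h1.comp z (U.diffAt hz.1)).differentiableWithinAt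
  · intro z hz1 hz2
    show ψ₀ (U.f (z + 1)) = ψ₀ (U.f z) + 1
    rw [U.per z hz1, hψper]
  · intro ε hε
    obtain ⟨δ, hδ, hδ'⟩ := hψbd ε hε
    set C := 1 + 2 * U.B / (U.ρ - U.ρ / 2) with hC
    have hC0 : 0 < C := by
      have := U.B_nonneg
      have h1 : 0 < U.ρ - U.ρ / 2 := by linarith
      positivity
    refine ⟨min (δ / C) (U.ρ / 2), by positivity, ?_⟩
    intro z hz1 hz2
    have hz3 : -(U.ρ / 2) < z.im := by
      have := min_le_right (δ / C) (U.ρ / 2)
      linarith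
    have hmem : U.f z ∈ U.Om := U.mem_Om (by linarith) hz2
    have hnear : ‖U.f z - U.f (z.re : ℂ)‖ < δ := by
      have h1 := U.f_lip (a := U.ρ / 2) (by linarith) (z := z) (w := (z.re : ℂ)) hz3.le
        (by simp; linarith)
      have h2 : ‖z - (z.re : ℂ)‖ = -z.im := by
        have : z - (z.re : ℂ) = z.im * Complex.I := by
          apply Complex.ext <;> simp
        rw [this, norm_mul, Complex.norm_I, mul_one, Complex.norm_real, Real.norm_of_nonpos hz2.le]
      rw [h2] at h1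
      have h3 : -z.im < δ / C := by
        have := min_le_left (δ / C) (U.ρ / 2)
        linarith
      rw [lt_div_iff₀ hC0] at h3
      calc _ ≤ _ := h1
        _ = -z.im * C := by ring
        _ < δ := h3
    have h4 := hδ' _ hmem ⟨z.re, hnear⟩
    have h5 := hψneg _ hmem
    rw [abs_lt]
    constructor <;> linarith
  obtain ⟨H, hH1, hH2, hH3, hH4⟩ := hrefl
  have hH0 : (H 0).im = 0 := by
    have h := hH4 0 (by simpa using hρ)
    rw [map_zero] at h
    have := congrArg Complex.im h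
    rw [Complex.conj_im] at this
    linarith
  have hH0c : conj (H 0) = H 0 := by
    apply Complex.ext
    · simp
    · rw [Complex.conj_im, hH0, neg_zero]
  have hHint : ∀ (n : ℤ) (z : ℂ), |z.im| < U.ρ → H (z + n) = H z + n := by
    intro n
    induction n using Int.induction_on with
    | zero => intro z _; simp
    | succ n ih =>
      intro z hz
      push_cast at ih ⊢
      rw [← add_assoc, hH3 (z + n) (by simpa using hz), ih z hz, add_assoc]
    | pred n ih =>
      intro z hz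
      push_cast at ih ⊢
      have h1 : |(z + (-(n : ℂ) - 1)).im| < U.ρ := by simpa using hz
      have h2 := hH3 _ h1
      have : z + (-(n : ℂ) - 1) + 1 = z + -(n : ℂ) := by ring
      rw [this, ih z hz] at h2
      rw [eq_sub_of_add_eq h2.symm]; ring
  -- boundedness
  have hbd1 : ∃ C : ℝ, ∀ z : ℂ, |z.im| ≤ U.ρ / 2 → ‖H z - z‖ ≤ C := by
    have hcomp : IsCompact (Icc (0:ℝ) 1 ×ℂ Icc (-(U.ρ / 2)) (U.ρ / 2)) :=
      isCompact_Icc.reProdIm isCompact_Icc
    have hcont : ContinuousOn (fun z => ‖H z - z‖) (Icc (0:ℝ) 1 ×ℂ Icc (-(U.ρ / 2)) (U.ρ / 2)) := by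
      intro z hz
      have hz2 := (Complex.mem_reProdIm.1 hz).2
      have : |z.im| < U.ρ := lt_of_le_of_lt (abs_le.2 ⟨hz2.1, hz2.2⟩) (by linarith)
      have h1 : ContinuousAt H z :=
        ((hH1 z this).differentiableAt ((Upper.isOpen_strip _).mem_nhds this)).continuousAt
      exact (h1.sub continuousAt_id).norm.continuousWithinAt
    obtain ⟨C, hC⟩ := hcomp.bddAbove_image hcont
    refine ⟨C, fun z hz => ?_⟩
    have h1 : H (z + ((-⌊z.re⌋ : ℤ) : ℂ)) = H z + ((-⌊z.re⌋ : ℤ) : ℂ) :=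
      hHint _ z (lt_of_le_of_lt hz (by linarith))
    have h2 : H z - z = H (z + ((-⌊z.re⌋ : ℤ) : ℂ)) - (z + ((-⌊z.re⌋ : ℤ) : ℂ)) := by
      rw [h1]; ring
    rw [h2]
    apply hC
    refine ⟨_, ?_, rfl⟩
    rw [Complex.mem_reProdIm]
    constructor
    · have e : (z + ((-⌊z.re⌋ : ℤ) : ℂ)).re = z.re - ⌊z.re⌋ := by
        rw [Complex.add_re, Complex.intCast_re]
        push_cast; ring
      rw [e]
      exact ⟨by linarith [Int.floor_le z.re], by linarith [Int.lt_floor_add_one z.re]⟩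
    · have e : (z + ((-⌊z.re⌋ : ℤ) : ℂ)).im = z.im := by
        rw [Complex.add_im, Complex.intCast_im, add_zero]
      rw [e]
      exact abs_le.1 hz
  obtain ⟨C₁, hC₁⟩ := hbd1
  obtain ⟨K, hKc, hKD, hK⟩ := compact_part U (a := -(U.ρ / 2)) (by linarith)
  obtain ⟨C₂, hC₂⟩ := hKc.exists_bound_of_continuousOn (hS.continuousOn.mono hKD)
  have hbdd : ∀ w ∈ U.Om, ‖ψ₀ w - w‖ ≤ max (C₁ + U.B) (C₂ / (2 * Real.pi)) := by
    intro w hw
    rcases le_or_gt (U.τ.symm w).im (-(U.ρ / 2)) with h | h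
    · refine le_trans ?_ (le_max_right _ _)
      have h1 := hC₂ _ (hK w h)
      have h2 : ψ₀ w - w = Complex.I * S (q w) / (2 * Real.pi) := by
        rw [hψ₀]; ring
      rw [h2, norm_div, norm_mul, Complex.norm_I, one_mul]
      have h3 : ‖(2 * (Real.pi : ℂ))‖ = 2 * Real.pi := by
        rw [norm_mul, Complex.norm_real, Real.norm_of_nonneg hpi.le]
        simp
      rw [h3]
      exact div_le_div_of_nonneg_right h1 (by positivity)
    · refine le_trans ?_ (le_max_left _ _)
      set z := U.τ.symm w with hz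
      have hz0 : z.im < 0 := U.mem_Om_iff.1 hw
      have hfz : U.f z = w := by
        rw [← U.τf z (by linarith), hz, U.τ.apply_symm_apply]
      have h1 : ψ₀ w - w = (H z - z) + (z - U.f z) := by
        rw [hH2 z (by linarith) hz0, hfz]
        ring
      rw [h1]
      refine (norm_add_le _ _).trans (add_le_add (hC₁ z ?_) ?_)
      · rw [abs_le]; constructor <;> linarith
      · rw [norm_sub_rev]; exact U.bdd z (by linarith)
  -- the structure
  refine ⟨{ ψ := fun w => ψ₀ w - H 0, c := fun z => H z - H 0,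
            B := max (C₁ + U.B) (C₂ / (2 * Real.pi)) + ‖H 0‖, ψhol := ?_, ψper := ?_, ψbdd := ?_,
            ψbij := ?_, ψbd := ?_, chol := ?_, cper := ?_, cconj := ?_, cψ := ?_, c0 := ?_ }⟩
  · exact hψd.sub_const _
  · intro w _
    show ψ₀ (w + 1) - H 0 = ψ₀ w - H 0 + 1
    rw [hψper]; ring
  · intro w hw
    have h1 : ψ₀ w - H 0 - w = (ψ₀ w - w) - H 0 := by ring
    rw [h1]
    exact (norm_sub_le _ _).trans (add_le_add (hbdd w hw) le_rfl)
  · refine ⟨?_, ?_, ?_⟩
    · intro w hw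
      show (ψ₀ w - H 0).im < 0
      rw [Complex.sub_im, hH0, sub_zero]
      exact hψneg w hw
    · intro w hw v hv h
      exact hψbij.injOn hw hv (sub_left_injective h)
    · intro ζ hζ
      obtain ⟨w, hw, h⟩ := hψbij.surjOn (show ζ + H 0 ∈ {z : ℂ | z.im < 0} by
        show (ζ + H 0).im < 0
        rw [Complex.add_im, hH0, add_zero]; exact hζ)
      exact ⟨w, hw, by simp only [h]; ring⟩
  · intro ε hε
    obtain ⟨δ, hδ, h⟩ := hψbd ε hε
    refine ⟨δ, hδ, fun w hw hx => ?_⟩
    have := h w hw hx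
    rw [Complex.sub_im, hH0, sub_zero]
    exact this
  · exact hH1.sub_const _
  · intro z hz
    show H (z + 1) - H 0 = H z - H 0 + 1
    rw [hH3 z hz]; ring
  · intro z hz
    show H (conj z) - H 0 = conj (H z - H 0)
    rw [hH4 z hz, map_sub, hH0c]
  · intro z h1 h2
    show H z - H 0 = ψ₀ (U.f z) - H 0
    rw [hH2 z h1 h2]
  · show H 0 - H 0 = 0
    ring

end

end MP87
end
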