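import Pool.Agent.Lib.MP_87ece0_an.LimW

/-!
Module BILIP: uniform bi-Lipschitz bounds of the homeomorphisms `Φ`.
-/

namespace MP87

open Filter Topology Set MeasureTheory Metric
open scoped InnerProductSpace ComplexConjugate Laplacian NNReal

noncomputable section

namespace Bilip

/-- the upper bound of chords from the bound of the derivative -/
theorem f_lip_real (U : Upper) {b : ℝ} (hd : ∀ x : ℝ, ‖deriv U.f x‖ ≤ b) (x y : ℝ) :
    ‖U.f x - U.f y‖ ≤ b * |x - y| := by
  have h0 : ∀ x : ℝ, -U.ρ < (x : ℂ).im := fun x => by simpa using U.hρ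
  have hder : ∀ x : ℝ, HasDerivAt (fun t : ℝ => U.f t) (deriv U.f x) x :=
    fun x => (U.diffAt (h0 x)).hasDerivAt.comp_ofReal
  have := (convex_univ (𝕜 := ℝ) (E := ℝ)).norm_image_sub_le_of_norm_hasDerivWithin_le
    (f := fun t : ℝ => U.f t) (f' := fun t : ℝ => deriv U.f t) (C := b)
    (fun t _ => (hder t).hasDerivWithinAt) (fun t _ => hd t) (mem_univ y) (mem_univ x)
  simpa [Real.norm_eq_abs] using this

/-- upper side -/
theorem upper (hDQ : SpecDQ) (U : Upper) {a b : ℝ} (ha : 0 < a) (ha1 : a ≤ 1) (hb : 1 ≤ b)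
    (hd : ∀ x : ℝ, ‖deriv U.f x‖ ≤ b) (hk : ∀ x y : ℝ, a * |x - y| ≤ ‖U.f x - U.f y‖)
    {z w : ℂ} (hz : 0 ≤ z.im) (hw : 0 ≤ w.im) :
    a * ‖z - w‖ ≤ ‖U.f z - U.f w‖ ∧ ‖U.f z - U.f w‖ ≤ b * ‖z - w‖ := by
  set F : ℂ → ℂ := fun z => conj (U.f (conj z)) with hF
  have hnorm : ∀ p q : ℂ, ‖F p - F q‖ = ‖U.f (conj p) - U.f (conj q)‖ := by
    intro p q
    rw [hF]
    simp only
    rw [← map_sub, RCLike.norm_conj]
  have hcn : ∀ p q : ℂ, ‖conj p - conj q‖ = ‖p - q‖ := by
    intro p q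
    rw [← map_sub, RCLike.norm_conj]
  have hdiff : ∀ z : ℂ, z.im < U.ρ → DifferentiableAt ℂ F z := by
    intro z hz
    have h1 : DifferentiableAt ℂ U.f (conj z) := U.diffAt (by rw [Complex.conj_im]; linarith)
    have h2 := h1.conj_conj
    rw [Complex.conj_conj] at h2
    exact h2
  have hderiv : ∀ z : ℂ, z.im < U.ρ → deriv F z = conj (deriv U.f (conj z)) := by
    intro z hz
    have h1 : DifferentiableAt ℂ U.f (conj z) := U.diffAt (by rw [Complex.conj_im]; linarith)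
    have h2 := h1.hasDerivAt.conj_conj
    rw [Complex.conj_conj] at h2
    exact h2.deriv
  have := hDQ F U.ρ U.B a b U.hρ (fun z hz => (hdiff z hz).differentiableWithinAt) ?_ ?_ ?_ ha ha1
    hb ?_ ?_ (conj z) (conj w) (by rw [Complex.conj_im]; linarith)
    (by rw [Complex.conj_im]; linarith)
  · rw [hnorm, hcn, Complex.conj_conj, Complex.conj_conj] at this
    exact this
  · intro z hz
    have h1 : F z - z = conj (U.f (conj z) - conj z) := by
      rw [map_sub, Complex.conj_conj]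
    rw [h1, RCLike.norm_conj]
    exact U.bdd _ (by rw [Complex.conj_im]; linarith [U.hρ])
  · intro p hp q hq h
    have hp' : p.im ≤ 0 := hp
    have hq' : q.im ≤ 0 := hq
    have h1 : U.f (conj p) = U.f (conj q) := (starRingEnd ℂ).injective h
    have h2 := U.f_inj (by rw [Complex.conj_im]; linarith [U.hρ])
      (by rw [Complex.conj_im]; linarith [U.hρ]) h1
    exact (starRingEnd ℂ).injective h2
  · intro z hz
    rw [hderiv z (by linarith [U.hρ])]
    intro h
    exact U.deriv_ne (z := conj z) (by rw [Complex.conj_im]; linarith [U.hρ])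
      (by simpa using h)
  · intro x y
    rw [hnorm, Complex.conj_ofReal, Complex.conj_ofReal]
    exact hk x y
  · intro x y
    rw [hnorm, Complex.conj_ofReal, Complex.conj_ofReal]
    exact f_lip_real U hd x y

variable (s : Stage)

/-- bounds of the welding function -/
theorem c_bounds {M : ℝ} (hM : ∀ x : ℝ, |s.lc x| ≤ M) (x y : ℝ) :
    Real.exp (-M) * |x - y| ≤ |(s.L.c x).re - (s.L.c y).re| ∧
      |(s.L.c x).re - (s.L.c y).re| ≤ Real.exp M * |x - y| := by
  set C : ℝ → ℝ := fun x => (s.L.c x).re with hC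
  have hder : ∀ x : ℝ, HasDerivAt C (Real.exp (s.lc x)) x := by
    intro x
    rw [s.exp_lc]
    exact s.L.c_hasDerivAt_real x
  have key : ∀ x y : ℝ, x ≤ y → Real.exp (-M) * (y - x) ≤ C y - C x ∧
      C y - C x ≤ Real.exp M * (y - x) := by
    intro x y hxy
    rcases hxy.eq_or_lt with rfl | hlt
    · simp
    obtain ⟨ξ, _, hξ⟩ := exists_hasDerivAt_eq_slope C (fun x => Real.exp (s.lc x)) hlt
      (fun t _ => (hder t).continuousAt.continuousWithinAt) (fun t _ => hder t)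
    have h0 : 0 < y - x := by linarith
    have h1 : C y - C x = Real.exp (s.lc ξ) * (y - x) := by
      rw [hξ]; field_simp
    have h2 := abs_le.1 (hM ξ)
    rw [h1]
    constructor
    · exact mul_le_mul_of_nonneg_right (Real.exp_le_exp.2 (by linarith [h2.1])) h0.le
    · exact mul_le_mul_of_nonneg_right (Real.exp_le_exp.2 h2.2) h0.le
  rcases le_total x y with h | h
  · obtain ⟨h1, h2⟩ := key x y h
    have h3 : C x ≤ C y := s.c_strictMono.monotone h
    have e1 : |x - y| = y - x := by rw [abs_sub_comm, abs_of_nonneg (by linarith)]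
    have e2 : |(s.L.c x).re - (s.L.c y).re| = C y - C x := by
      rw [abs_sub_comm, abs_of_nonneg (by linarith)]
    rw [e1, e2]
    exact ⟨h1, h2⟩
  · obtain ⟨h1, h2⟩ := key y x h
    have h3 : C y ≤ C x := s.c_strictMono.monotone h
    have e1 : |x - y| = x - y := abs_of_nonneg (by linarith)
    have e2 : |(s.L.c x).re - (s.L.c y).re| = C x - C y := abs_of_nonneg (by linarith)
    rw [e1, e2]
    exact ⟨h1, h2⟩

/-- the real coordinate change -/
def A (z : ℂ) : ℂ := ((s.L.c z.re).re : ℂ) + z.im * Complex.I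

theorem A_re (z : ℂ) : (A s z).re = (s.L.c z.re).re := by simp [A]

theorem A_im (z : ℂ) : (A s z).im = z.im := by simp [A]

theorem A_bounds {M : ℝ} (hM : ∀ x : ℝ, |s.lc x| ≤ M) (z w : ℂ) :
    Real.exp (-M) * ‖z - w‖ ≤ ‖A s z - A s w‖ ∧ ‖A s z - A s w‖ ≤ Real.exp M * ‖z - w‖ := by
  have hM0 : 0 ≤ M := (abs_nonneg _).trans (hM 0)
  obtain ⟨h1, h2⟩ := c_bounds s hM z.re w.re
  have e1 : Real.exp (-M) ≤ 1 := by rw [Real.exp_le_one_iff]; linarith
  have e2 : 1 ≤ Real.exp M := Real.one_le_exp hM0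
  have hn : ∀ p q : ℂ, ‖p - q‖ = Real.sqrt ((p.re - q.re) ^ 2 + (p.im - q.im) ^ 2) := by
    intro p q
    rw [Complex.norm_eq_sqrt_sq_add_sq, Complex.sub_re, Complex.sub_im]
  have hsq1 : (Real.exp (-M) * (z.re - w.re)) ^ 2 ≤ ((A s z).re - (A s w).re) ^ 2 := by
    rw [A_re, A_re, sq_le_sq, abs_mul, abs_of_pos (Real.exp_pos _)]
    exact h1
  have hsq2 : ((A s z).re - (A s w).re) ^ 2 ≤ (Real.exp M * (z.re - w.re)) ^ 2 := by
    rw [A_re, A_re, sq_le_sq, abs_mul (Real.exp M), abs_of_pos (Real.exp_pos _)]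
    exact h2
  constructor
  · rw [hn z w, hn, A_im, A_im]
    have : Real.exp (-M) * Real.sqrt ((z.re - w.re) ^ 2 + (z.im - w.im) ^ 2) =
        Real.sqrt ((Real.exp (-M)) ^ 2 * ((z.re - w.re) ^ 2 + (z.im - w.im) ^ 2)) := by
      rw [Real.sqrt_mul (sq_nonneg _), Real.sqrt_sq (Real.exp_pos _).le]
    rw [this]
    apply Real.sqrt_le_sqrt
    have h3 : (Real.exp (-M)) ^ 2 * (z.im - w.im) ^ 2 ≤ (z.im - w.im) ^ 2 := by
      have : (Real.exp (-M)) ^ 2 ≤ 1 := pow_le_one₀ (Real.exp_pos _).le e1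
      nlinarith [sq_nonneg (z.im - w.im)]
    nlinarith [hsq1, h3]
  · rw [hn z w, hn, A_im, A_im]
    have : Real.exp M * Real.sqrt ((z.re - w.re) ^ 2 + (z.im - w.im) ^ 2) =
        Real.sqrt ((Real.exp M) ^ 2 * ((z.re - w.re) ^ 2 + (z.im - w.im) ^ 2)) := by
      rw [Real.sqrt_mul (sq_nonneg _), Real.sqrt_sq (Real.exp_pos _).le]
    rw [this]
    apply Real.sqrt_le_sqrt
    have h3 : (z.im - w.im) ^ 2 ≤ (Real.exp M) ^ 2 * (z.im - w.im) ^ 2 := by
      have : 1 ≤ (Real.exp M) ^ 2 := one_le_pow₀ e2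
      nlinarith [sq_nonneg (z.im - w.im)]
    nlinarith [hsq2, h3]

theorem g_real_mem {z : ℂ} (hz : z.im = 0) : ∃ x : ℝ, s.L.c x = z ∧ s.g z = s.U.f x := by
  obtain ⟨x, hx⟩ := s.c_surjective z.re
  have h1 : s.L.c x = z := by
    rw [s.L.c_eq_re x]
    exact Complex.ext (by simpa using hx) (by simp [hz])
  exact ⟨x, h1, by rw [← h1, s.gc]⟩

theorem g_injOn : InjOn s.g {z : ℂ | z.im ≤ 0} := by
  intro z hz w hw h
  have hz' : z.im ≤ 0 := hz
  have hw' : w.im ≤ 0 := hw
  rcases hz'.lt_or_eq with h1 | h1 <;> rcases hw'.lt_or_eq with h2 | h2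
  · rw [← s.ψg z h1, ← s.ψg w h2, h]
  · obtain ⟨x, _, hx⟩ := g_real_mem s h2
    exact absurd (s.gmem z h1) (by rw [h, hx]; exact s.U.not_mem_Om (by simp))
  · obtain ⟨x, _, hx⟩ := g_real_mem s h1
    exact absurd (s.gmem w h2) (by rw [← h, hx]; exact s.U.not_mem_Om (by simp))
  · obtain ⟨x, hx1, hx⟩ := g_real_mem s h1
    obtain ⟨y, hy1, hy⟩ := g_real_mem s h2
    rw [hx, hy] at h
    have h3 := s.U.f_inj (by simpa using s.U.hρ) (by simpa using s.U.hρ) h
    rw [← hx1, ← hy1, h3]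

theorem g_deriv_ne {z : ℂ} (hz : z.im ≤ 0) : deriv s.g z ≠ 0 := by
  rcases hz.lt_or_eq with h1 | h1
  · have hg := (s.g_diffAt (z := z) (by linarith [s.ht])).hasDerivAt
    have hψ : HasDerivAt s.L.ψ (deriv s.L.ψ (s.g z)) (s.g z) :=
      ((s.L.ψhol _ (s.gmem z h1)).differentiableAt
        (s.U.isOpen_Om.mem_nhds (s.gmem z h1))).hasDerivAt
    have hcomp := hψ.comp z hg
    have hid : HasDerivAt (s.L.ψ ∘ s.g) 1 z := by
      refine (hasDerivAt_id z).congr_of_eventuallyEq ?_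
      filter_upwards [(Upper.isOpen_half' 0).mem_nhds h1] with y hy
      exact s.ψg y hy
    have h2 := hcomp.unique hid
    intro h
    rw [h, mul_zero] at h2
    exact zero_ne_one h2
  · obtain ⟨x, hx1, hx⟩ := g_real_mem s h1
    have hg := (s.g_diffAt (z := z) (by linarith [s.ht])).hasDerivAt
    rw [← hx1] at hg ⊢
    have hc : HasDerivAt (fun t : ℝ => s.L.c t) (deriv s.L.c x) x :=
      (s.L.c_diffAt (Lower.real_lt s.U x)).hasDerivAt.comp_ofReal
    have hcomp : HasDerivAt (fun t : ℝ => s.g (s.L.c t)) (deriv s.g (s.L.c x) * deriv s.L.c x) x :=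
      hg.comp x hc
    have hf : HasDerivAt (fun t : ℝ => s.U.f t) (deriv s.U.f x) x :=
      (s.U.diffAt (by simpa using s.U.hρ)).hasDerivAt.comp_ofReal
    have heq : (fun t : ℝ => s.g (s.L.c t)) = fun t : ℝ => s.U.f t := by
      funext t; exact s.gc t
    rw [heq] at hcomp
    have h2 := hcomp.unique hf
    intro h
    rw [h, zero_mul] at h2
    exact s.U.deriv_ne (z := x) (by simpa using s.U.hρ) h2.symm

/-- lower side -/
theorem lower (hDQ : SpecDQ) {M κ : ℝ} (hκ : 0 < κ) (hM : ∀ x : ℝ, |s.lc x| ≤ M)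
    (hd : ∀ x : ℝ, ‖deriv s.U.f x‖ ≤ Real.exp M)
    (hk : ∀ x y : ℝ, κ * |x - y| ≤ ‖s.U.f x - s.U.f y‖) {z w : ℂ} (hz : z.im ≤ 0)
    (hw : w.im ≤ 0) :
    min 1 (κ * Real.exp (-M)) * ‖z - w‖ ≤ ‖s.g z - s.g w‖ ∧
      ‖s.g z - s.g w‖ ≤ Real.exp (2 * M) * ‖z - w‖ := by
  have hM0 : 0 ≤ M := (abs_nonneg _).trans (hM 0)
  refine hDQ s.g s.t s.L.B (min 1 (κ * Real.exp (-M))) (Real.exp (2 * M)) s.ht s.ghol
    (fun z hz => s.g_sub_le' hz) (g_injOn s) (fun z hz => g_deriv_ne s hz)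
    (lt_min one_pos (by positivity)) (min_le_left _ _) (Real.one_le_exp (by linarith)) ?_ ?_
    z w hz hw
  · intro x y
    obtain ⟨p, hp1, hp⟩ := g_real_mem s (z := x) (by simp)
    obtain ⟨q, hq1, hq⟩ := g_real_mem s (z := y) (by simp)
    rw [hp, hq]
    have h1 := (c_bounds s hM p q).2
    rw [hp1, hq1] at h1
    simp only [Complex.ofReal_re] at h1
    calc min 1 (κ * Real.exp (-M)) * |x - y| ≤ (κ * Real.exp (-M)) * |x - y| :=
          mul_le_mul_of_nonneg_right (min_le_right _ _) (abs_nonneg _)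
      _ ≤ (κ * Real.exp (-M)) * (Real.exp M * |p - q|) :=
          mul_le_mul_of_nonneg_left h1 (by positivity)
      _ = κ * |p - q| := by
          rw [show κ * Real.exp (-M) * (Real.exp M * |p - q|) =
            κ * (Real.exp (-M) * Real.exp M) * |p - q| by ring, ← Real.exp_add]
          simp
      _ ≤ _ := hk p q
  · intro x y
    obtain ⟨p, hp1, hp⟩ := g_real_mem s (z := x) (by simp)
    obtain ⟨q, hq1, hq⟩ := g_real_mem s (z := y) (by simp)
    rw [hp, hq]
    have h1 := (c_bounds s hM p q).1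
    rw [hp1, hq1] at h1
    simp only [Complex.ofReal_re] at h1
    have h2 : |p - q| ≤ Real.exp M * |x - y| := by
      calc |p - q| = Real.exp M * (Real.exp (-M) * |p - q|) := by
            rw [← mul_assoc, ← Real.exp_add]; simp
        _ ≤ _ := mul_le_mul_of_nonneg_left h1 (Real.exp_pos _).le
    calc ‖s.U.f p - s.U.f q‖ ≤ Real.exp M * |p - q| := f_lip_real s.U hd p q
      _ ≤ Real.exp M * (Real.exp M * |x - y|) :=
          mul_le_mul_of_nonneg_left h2 (Real.exp_pos _).le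
      _ = Real.exp (2 * M) * |x - y| := by
          rw [← mul_assoc, ← Real.exp_add]; ring_nf

theorem Phi_up {z : ℂ} (hz : 0 ≤ z.im) : s.Phi z = s.U.f z := if_pos hz

theorem Phi_low {z : ℂ} (hz : z.im ≤ 0) : s.Phi z = s.g (A s z) := by
  unfold Stage.Phi
  split_ifs with h
  · have h0 : z.im = 0 := le_antisymm hz h
    have h1 : z = (z.re : ℂ) := Complex.ext (by simp) (by simp [h0])
    have h2 : A s z = s.L.c z.re := by
      rw [s.L.c_eq_re]
      simp [A, h0]
    rw [h2, s.gc]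
    exact congrArg s.U.f h1
  · rfl

/-- a point of the real axis between an upper and a lower point -/
theorem exists_real_between {z w : ℂ} (hz : 0 ≤ z.im) (hw : w.im < 0) :
    ∃ x : ℝ, ‖z - x‖ + ‖(x : ℂ) - w‖ = ‖z - w‖ := by
  set a : ℝ := z.im / (z.im - w.im) with ha
  have h0 : 0 < z.im - w.im := by linarith
  have ha0 : 0 ≤ a := div_nonneg hz h0.le
  have ha1 : a ≤ 1 := by rw [ha, div_le_one h0]; linarith
  have hp : (z + a * (w - z)).im = 0 := by
    have : (z + a * (w - z)).im = z.im + a * (w.im - z.im) := by simp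
    rw [this, ha]
    field_simp
    ring
  have hreal : (((z + a * (w - z)).re : ℝ) : ℂ) = z + a * (w - z) :=
    Complex.ext (by simp) (by rw [Complex.ofReal_im, hp])
  refine ⟨(z + a * (w - z)).re, ?_⟩
  rw [hreal]
  have e1 : z - (z + a * (w - z)) = a * (z - w) := by ring
  have e2 : z + a * (w - z) - w = ((1 - a : ℝ) : ℂ) * (z - w) := by push_cast; ring
  rw [e1, e2, norm_mul, norm_mul, Complex.norm_real, Complex.norm_real, Real.norm_eq_abs,
    Real.norm_eq_abs, abs_of_nonneg ha0, abs_of_nonneg (by linarith)]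
  ring

/-- a point of the curve between a point above and a point below -/
theorem exists_curve_between {p q : ℂ} (hp : p ∉ s.U.Om) (hq : q ∈ s.U.Om) :
    ∃ x : ℝ, ‖p - s.U.f x‖ + ‖s.U.f x - q‖ = ‖p - q‖ := by
  have hp' : 0 ≤ (s.U.τ.symm p).im := by
    rw [s.U.mem_Om_iff] at hp
    exact not_lt.1 hp
  have hq' : (s.U.τ.symm q).im < 0 := s.U.mem_Om_iff.1 hq
  let γ : ℝ → ℝ := fun t => (s.U.τ.symm (p + t * (q - p))).im
  have hγ : Continuous γ := by
    refine Complex.continuous_im.comp (s.U.τ.symm.continuous.comp ?_)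
    fun_prop
  have h0 : γ 0 = (s.U.τ.symm p).im := by simp [γ]
  have h1 : γ 1 = (s.U.τ.symm q).im := by simp [γ]
  obtain ⟨a, ⟨ha0, ha1⟩, ha⟩ : ∃ a ∈ Icc (0 : ℝ) 1, γ a = 0 := by
    have := intermediate_value_Icc' zero_le_one hγ.continuousOn
    apply this
    rw [h0, h1]
    exact ⟨hq'.le, hp'⟩
  set z := s.U.τ.symm (p + a * (q - p)) with hz
  have hz0 : z.im = 0 := ha
  have hzr : z = (z.re : ℂ) := Complex.ext (by simp) (by simp [hz0])
  have h7 : s.U.f z.re = p + a * (q - p) := by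
    rw [← hzr, ← s.U.τf z (by rw [hz0]; linarith [s.U.hρ]), hz, s.U.τ.apply_symm_apply]
  refine ⟨z.re, ?_⟩
  rw [h7]
  have e1 : p - (p + a * (q - p)) = a * (p - q) := by ring
  have e2 : p + a * (q - p) - q = ((1 - a : ℝ) : ℂ) * (p - q) := by push_cast; ring
  rw [e1, e2, norm_mul, norm_mul, Complex.norm_real, Complex.norm_real, Real.norm_eq_abs,
    Real.norm_eq_abs, abs_of_nonneg ha0, abs_of_nonneg (by linarith)]
  ring

/-- two-sided bounds on both closed half planes give two-sided bounds everywhere -/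
theorem both {k K : ℝ} (hk0 : 0 < k)
    (hup : ∀ z w : ℂ, 0 ≤ z.im → 0 ≤ w.im → k * ‖z - w‖ ≤ ‖s.Phi z - s.Phi w‖ ∧
      ‖s.Phi z - s.Phi w‖ ≤ K * ‖z - w‖)
    (hlow : ∀ z w : ℂ, z.im ≤ 0 → w.im ≤ 0 → k * ‖z - w‖ ≤ ‖s.Phi z - s.Phi w‖ ∧
      ‖s.Phi z - s.Phi w‖ ≤ K * ‖z - w‖) (z w : ℂ) :
    k * ‖z - w‖ ≤ ‖s.Phi z - s.Phi w‖ ∧ ‖s.Phi z - s.Phi w‖ ≤ K * ‖z - w‖ := by
  have key : ∀ z w : ℂ, 0 ≤ z.im → w.im < 0 → k * ‖z - w‖ ≤ ‖s.Phi z - s.Phi w‖ ∧
      ‖s.Phi z - s.Phi w‖ ≤ K * ‖z - w‖ := by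
    intro z w hz hw
    constructor
    · have hp : s.Phi z ∉ s.U.Om := by rw [Phi_up s hz]; exact s.U.not_mem_Om hz
      have hq : s.Phi w ∈ s.U.Om := by
        rw [Phi_low s hw.le]
        exact s.gmem _ (by rw [A_im]; exact hw)
      obtain ⟨x, hx⟩ := exists_curve_between s hp hq
      have h1 := (hup z x hz (by simp)).1
      have h2 := (hlow x w (by simp) hw.le).1
      rw [Phi_up s (z := (x : ℂ)) (by simp)] at h1 h2
      have h3 : ‖z - w‖ ≤ ‖z - x‖ + ‖(x : ℂ) - w‖ := by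
        have := norm_add_le (z - x) ((x : ℂ) - w)
        rwa [sub_add_sub_cancel] at this
      rw [← hx]
      nlinarith [mul_le_mul_of_nonneg_left h3 hk0.le]
    · obtain ⟨x, hx⟩ := exists_real_between hz hw
      have h1 := (hup z x hz (by simp)).2
      have h2 := (hlow x w (by simp) hw.le).2
      have h3 : ‖s.Phi z - s.Phi w‖ ≤ ‖s.Phi z - s.Phi x‖ + ‖s.Phi x - s.Phi w‖ := by
        have := norm_add_le (s.Phi z - s.Phi x) (s.Phi x - s.Phi w)
        rwa [sub_add_sub_cancel] at this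
      rw [← hx, mul_add]
      linarith
  rcases le_or_gt 0 z.im with h1 | h1 <;> rcases le_or_gt 0 w.im with h2 | h2
  · exact hup z w h1 h2
  · exact key z w h1 h2
  · have := key w z h2 h1
    rwa [norm_sub_rev w z, norm_sub_rev (s.Phi w)] at this
  · exact hlow z w h1.le h2.le

end Bilip

open Bilip in
/-- BILIP -/
theorem specBilip (hDQ : SpecDQ) : SpecBilip := by
  intro M κ hκ
  set k : ℝ := min 1 (κ * Real.exp (-M)) * Real.exp (-M) with hk
  have hk0 : 0 < k := mul_pos (lt_min one_pos (by positivity)) (Real.exp_pos _)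
  set K₀ : ℝ := Real.exp (2 * M) * Real.exp M + k⁻¹ with hK₀
  have hK0 : 0 < K₀ := by positivity
  refine ⟨K₀.toNNReal, ?_⟩
  intro s hM hd hch
  have hM0 : 0 ≤ M := (abs_nonneg _).trans (hM 0)
  have e1 : Real.exp (-M) ≤ 1 := by rw [Real.exp_le_one_iff]; linarith
  have e2 : 1 ≤ Real.exp M := Real.one_le_exp hM0
  have e3 : 1 ≤ Real.exp (2 * M) := Real.one_le_exp (by linarith)
  have hmin : min 1 (κ * Real.exp (-M)) ≤ min 1 κ := by
    apply min_le_min le_rfl
    exact mul_le_of_le_one_right hκ.le e1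
  have hkle : k ≤ min 1 κ := by
    calc k ≤ min 1 (κ * Real.exp (-M)) * 1 :=
          mul_le_mul_of_nonneg_left e1 (le_min zero_le_one (by positivity))
      _ = min 1 (κ * Real.exp (-M)) := mul_one _
      _ ≤ _ := hmin
  have hKe : Real.exp M ≤ Real.exp (2 * M) * Real.exp M :=
    le_mul_of_one_le_left (Real.exp_pos _).le e3
  have hall := both s (k := k) (K := Real.exp (2 * M) * Real.exp M) hk0 ?_ ?_
  · have hkinv : k⁻¹ ≤ K₀ := by
      have : 0 < Real.exp (2 * M) * Real.exp M := by positivity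
      linarith
    refine ⟨?_, ?_, ?_⟩
    · apply LipschitzWith.of_dist_le_mul
      intro z w
      rw [dist_eq_norm, dist_eq_norm, Real.coe_toNNReal _ hK0.le]
      refine (hall z w).2.trans ?_
      apply mul_le_mul_of_nonneg_right _ (norm_nonneg _)
      have : 0 < k⁻¹ := inv_pos.2 hk0
      linarith
    · apply AntilipschitzWith.of_le_mul_dist
      intro z w
      rw [dist_eq_norm, dist_eq_norm, Real.coe_toNNReal _ hK0.le]
      have h1 := (hall z w).1
      have h2 : ‖z - w‖ ≤ k⁻¹ * ‖s.Phi z - s.Phi w‖ := by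
        rw [inv_mul_eq_div, le_div_iff₀ hk0]
        linarith
      exact h2.trans (mul_le_mul_of_nonneg_right hkinv (norm_nonneg _))
    · intro p
      by_cases hp : p ∈ s.U.Om
      · obtain ⟨x, hx⟩ := s.c_surjective (s.L.ψ p).re
        have hneg := s.L.ψ_neg hp
        refine ⟨⟨x, (s.L.ψ p).im⟩, ?_⟩
        rw [Phi_low s (z := ⟨x, (s.L.ψ p).im⟩) hneg.le]
        have h1 : A s ⟨x, (s.L.ψ p).im⟩ = s.L.ψ p := by
          apply Complex.ext
          · rw [A_re]; exact hx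
          · rw [A_im]
        rw [h1, s.gψ p hp]
      · have h1 : p ∈ s.U.f '' {z : ℂ | 0 ≤ z.im} := by
          by_contra hc
          exact hp hc
        obtain ⟨z, hz, rfl⟩ := h1
        exact ⟨z, Phi_up s hz⟩
  · intro z w hz hw
    rw [Phi_up s hz, Phi_up s hw]
    have h1 := upper hDQ s.U (a := min 1 κ) (b := Real.exp M) (lt_min one_pos hκ)
      (min_le_left _ _) e2 hd
      (fun x y => (mul_le_mul_of_nonneg_right (min_le_right _ _) (abs_nonneg _)).trans (hch x y))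
      hz hw
    exact ⟨(mul_le_mul_of_nonneg_right hkle (norm_nonneg _)).trans h1.1,
      h1.2.trans (mul_le_mul_of_nonneg_right hKe (norm_nonneg _))⟩
  · intro z w hz hw
    rw [Phi_low s hz, Phi_low s hw]
    have h1 := lower s hDQ hκ hM hd hch (z := A s z) (w := A s w) (by rw [A_im]; exact hz)
      (by rw [A_im]; exact hw)
    have h2 := A_bounds s hM z w
    constructor
    · calc k * ‖z - w‖ = min 1 (κ * Real.exp (-M)) * (Real.exp (-M) * ‖z - w‖) := by
            rw [hk]; ring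
        _ ≤ min 1 (κ * Real.exp (-M)) * ‖A s z - A s w‖ :=
            mul_le_mul_of_nonneg_left h2.1 (le_min zero_le_one (by positivity))
        _ ≤ _ := h1.1
    · calc ‖s.g (A s z) - s.g (A s w)‖ ≤ Real.exp (2 * M) * ‖A s z - A s w‖ := h1.2
        _ ≤ Real.exp (2 * M) * (Real.exp M * ‖z - w‖) :=
            mul_le_mul_of_nonneg_left h2.2 (Real.exp_pos _).le
        _ = _ := by ring

end

end MP87
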