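import Pool.Agent.Lib.MP_87ece0_an.Spec

/-!
DIG: the points whose binary digits vanish in sparse windows form a set of dimension one.
-/

namespace MP87.Dig

open Filter Topology Set MeasureTheory Metric
open scoped NNReal

noncomputable section

/-- blocked position -/
def Blk (n w : ℕ → ℕ) (i : ℕ) : Prop := ∃ m, n m ≤ i ∧ i < n m + w m

open Classical in
/-- number of free positions below `k` -/
def fr (n w : ℕ → ℕ) : ℕ → ℕ
  | 0 => 0
  | k + 1 => if Blk n w k then fr n w k else fr n w k + 1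

open Classical in
/-- the first `k` digits of the image of `t`, as an integer -/
def A (n w : ℕ → ℕ) (t : ℝ) : ℕ → ℤ
  | 0 => 0
  | k + 1 => if Blk n w k then 2 * A n w t k
      else 2 * A n w t k + (⌊2 ^ (fr n w k + 1) * t⌋ - 2 * ⌊2 ^ (fr n w k) * t⌋)

variable {n w : ℕ → ℕ}

lemma dig_mem (j : ℕ) (t : ℝ) :
    0 ≤ ⌊2 ^ (j + 1) * t⌋ - 2 * ⌊2 ^ j * t⌋ ∧ ⌊2 ^ (j + 1) * t⌋ - 2 * ⌊2 ^ j * t⌋ ≤ 1 := by
  have h1 := Int.floor_le ((2:ℝ) ^ j * t)
  have h2 := Int.lt_floor_add_one ((2:ℝ) ^ j * t)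
  have h3 := Int.floor_le ((2:ℝ) ^ (j + 1) * t)
  have h4 := Int.lt_floor_add_one ((2:ℝ) ^ (j + 1) * t)
  have e : (2:ℝ) ^ (j + 1) * t = 2 * (2 ^ j * t) := by ring
  rw [e] at h3 h4
  constructor
  · have : (2 * ⌊(2:ℝ) ^ j * t⌋ : ℤ) ≤ ⌊(2:ℝ) ^ (j + 1) * t⌋ := by
      rw [Int.le_floor]; push_cast; rw [e]; linarith
    linarith
  · have : ⌊(2:ℝ) ^ (j + 1) * t⌋ < 2 * ⌊(2:ℝ) ^ j * t⌋ + 2 := by
      rw [Int.floor_lt]; push_cast; rw [e]; linarith
    linarith

lemma A_succ (t : ℝ) (k : ℕ) :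
    2 * A n w t k ≤ A n w t (k + 1) ∧ A n w t (k + 1) ≤ 2 * A n w t k + 1 := by
  rw [A]
  have := dig_mem (fr n w k) t
  split_ifs
  · constructor <;> linarith
  · constructor <;> linarith [this.1, this.2]

lemma mono_lo (t : ℝ) : Monotone (fun k => (A n w t k : ℝ) / 2 ^ k) := by
  apply monotone_nat_of_le_succ
  intro k
  have h := (A_succ (n := n) (w := w) t k).1
  have h' : (2 * A n w t k : ℝ) ≤ A n w t (k + 1) := by exact_mod_cast h
  rw [div_le_div_iff₀ (by positivity) (by positivity), pow_succ]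
  have : (0:ℝ) < 2 ^ k := by positivity
  nlinarith

lemma anti_hi (t : ℝ) : Antitone (fun k => ((A n w t k : ℝ) + 1) / 2 ^ k) := by
  apply antitone_nat_of_succ_le
  intro k
  have h := (A_succ (n := n) (w := w) t k).2
  have h' : (A n w t (k + 1) : ℝ) ≤ 2 * A n w t k + 1 := by exact_mod_cast h
  rw [div_le_div_iff₀ (by positivity) (by positivity), pow_succ]
  have : (0:ℝ) < 2 ^ k := by positivity
  nlinarith

lemma lo_le_hi (t : ℝ) (j k : ℕ) :
    (A n w t j : ℝ) / 2 ^ j ≤ ((A n w t k : ℝ) + 1) / 2 ^ k := by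
  calc (A n w t j : ℝ) / 2 ^ j ≤ (A n w t (max j k) : ℝ) / 2 ^ (max j k) :=
        mono_lo t (le_max_left _ _)
    _ ≤ ((A n w t (max j k) : ℝ) + 1) / 2 ^ (max j k) := by gcongr; linarith
    _ ≤ ((A n w t k : ℝ) + 1) / 2 ^ k := anti_hi t (le_max_right _ _)

/-- the image of `t`: zeros inserted in the blocked positions -/
def X (n w : ℕ → ℕ) (t : ℝ) : ℝ := ⨆ k, (A n w t k : ℝ) / 2 ^ k

lemma lo_le_X (t : ℝ) (k : ℕ) : (A n w t k : ℝ) / 2 ^ k ≤ X n w t := by
  apply le_ciSup (f := fun k => (A n w t k : ℝ) / 2 ^ k)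
  refine ⟨((A n w t 0 : ℝ) + 1) / 2 ^ 0, ?_⟩
  rintro _ ⟨j, rfl⟩
  exact lo_le_hi t j 0

lemma X_le_hi (t : ℝ) (k : ℕ) : X n w t ≤ ((A n w t k : ℝ) + 1) / 2 ^ k :=
  ciSup_le fun j => lo_le_hi t j k

lemma X_mem (t : ℝ) : X n w t ∈ Icc (0:ℝ) 1 := by
  have h1 := lo_le_X (n := n) (w := w) t 0
  have h2 := X_le_hi (n := n) (w := w) t 0
  simp [A] at h1 h2
  exact ⟨h1, h2⟩

lemma gap {t t' : ℝ} (ht : t ∈ Ico (0:ℝ) 1) (ht' : t' ∈ Ico (0:ℝ) 1) (h : t ≤ t') (k : ℕ) :
    ⌊2 ^ fr n w k * t'⌋ - ⌊2 ^ fr n w k * t⌋ ≤ A n w t' k - A n w t k := by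
  induction k with
  | zero =>
    simp only [fr, pow_zero, one_mul, A, sub_zero]
    rw [Int.floor_eq_zero_iff.mpr ht, Int.floor_eq_zero_iff.mpr ht']
    simp
  | succ k ih =>
    have h0 : ⌊(2:ℝ) ^ fr n w k * t⌋ ≤ ⌊(2:ℝ) ^ fr n w k * t'⌋ := by
      apply Int.floor_le_floor; gcongr
    rw [A, A, fr]
    split_ifs
    · linarith
    · linarith

lemma A_blk (t : ℝ) (a : ℕ) : ∀ b : ℕ, (∀ i, a ≤ i → i < a + b → Blk n w i) →
    A n w t (a + b) = 2 ^ b * A n w t a := by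
  intro b
  induction b with
  | zero => intro _; simp
  | succ b ih =>
    intro h
    rw [← add_assoc, A, if_pos (h (a + b) (by omega) (by omega)),
      ih (fun i h1 h2 => h i h1 (by omega))]
    ring

lemma inWin (t : ℝ) : InWin n w (X n w t) := by
  intro m
  refine ⟨A n w t (n m), ?_⟩
  have h1 := lo_le_X (n := n) (w := w) t (n m)
  have h2 := X_le_hi (n := n) (w := w) t (n m + w m)
  rw [A_blk t (n m) (w m) (fun i hi1 hi2 => ⟨m, hi1, hi2⟩)] at h2
  push_cast at h2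
  have hp : (0:ℝ) < 2 ^ n m := by positivity
  have hq : (0:ℝ) < 2 ^ w m := by positivity
  rw [div_le_iff₀ hp] at h1
  rw [le_div_iff₀ (by positivity), pow_add] at h2
  rw [abs_of_nonneg (by linarith), ← one_div, le_div_iff₀ hq]
  nlinarith

open Classical in
lemma fr_add_card (k : ℕ) : fr n w k + ((Finset.range k).filter (Blk n w)).card = k := by
  induction k with
  | zero => simp [fr]
  | succ k ih =>
    rw [Finset.range_add_one, Finset.filter_insert, fr]
    split_ifs with h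
    · rw [Finset.card_insert_of_notMem (by simp)]; omega
    · omega

/-- blocked by one of the windows `0, ..., M` -/
def BlkM (n w : ℕ → ℕ) (M i : ℕ) : Prop := ∃ m ≤ M, n m ≤ i ∧ i < n m + w m

open Classical in
lemma card_le (M k : ℕ) :
    ((Finset.range k).filter (BlkM n w M)).card ≤ ∑ i ∈ Finset.range (M + 1), w i := by
  calc ((Finset.range k).filter (BlkM n w M)).card
      ≤ ((Finset.range (M + 1)).biUnion (fun m => Finset.Ico (n m) (n m + w m))).card := by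
        apply Finset.card_le_card
        intro i hi
        rw [Finset.mem_filter] at hi
        obtain ⟨m, hm, h1, h2⟩ := hi.2
        rw [Finset.mem_biUnion]
        exact ⟨m, Finset.mem_range.mpr (by omega), Finset.mem_Ico.mpr ⟨h1, h2⟩⟩
    _ ≤ ∑ m ∈ Finset.range (M + 1), (Finset.Ico (n m) (n m + w m)).card := Finset.card_biUnion_le
    _ = _ := by simp

open Classical in
lemma card_le' (hs : Sparse n w) (M₀ k : ℕ) (M : ℕ) :
    (((Finset.range k).filter (BlkM n w (M₀ + M))).card : ℝ) ≤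
      (∑ i ∈ Finset.range (M₀ + 1), w i : ℕ) + (k : ℝ) / (M₀ + 1) := by
  induction M with
  | zero =>
    have h := card_le (n := n) (w := w) M₀ k
    have h' : (((Finset.range k).filter (BlkM n w M₀)).card : ℝ) ≤
      (∑ i ∈ Finset.range (M₀ + 1), w i : ℕ) := by exact_mod_cast h
    have : (0:ℝ) ≤ (k : ℝ) / (M₀ + 1) := by positivity
    rw [add_zero]
    exact h'.trans (by linarith)
  | succ M ih =>
    by_cases hk : n (M₀ + (M + 1)) < k
    · have h := card_le (n := n) (w := w) (M₀ + (M + 1)) k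
      have h2 := hs.1 (M₀ + (M + 1))
      set W := ∑ i ∈ Finset.range (M₀ + (M + 1) + 1), w i with hW
      have h' : (((Finset.range k).filter (BlkM n w (M₀ + (M + 1)))).card : ℝ) ≤ W := by
        exact_mod_cast h
      have h3 : (M₀ + 1) * W ≤ k := by
        have : (M₀ + 1) * W ≤ (M₀ + (M + 1) + 1) * W := Nat.mul_le_mul_right _ (by omega)
        omega
      have h4 : (W : ℝ) ≤ (k : ℝ) / (M₀ + 1) := by
        rw [le_div_iff₀ (by positivity)]
        have : (((M₀ + 1) * W : ℕ) : ℝ) ≤ k := by exact_mod_cast h3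
        push_cast at this; linarith
      have : (0:ℝ) ≤ ((∑ i ∈ Finset.range (M₀ + 1), w i : ℕ) : ℝ) := by positivity
      linarith
    · have : (Finset.range k).filter (BlkM n w (M₀ + (M + 1))) =
          (Finset.range k).filter (BlkM n w (M₀ + M)) := by
        apply Finset.filter_congr
        intro i hi
        rw [Finset.mem_range] at hi
        constructor
        · rintro ⟨m, hm, h1, h2⟩
          rcases Nat.lt_or_ge (M₀ + M) m with h | h
          · have : m = M₀ + (M + 1) := by omega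
            subst this; omega
          · exact ⟨m, h, h1, h2⟩
        · rintro ⟨m, hm, h1, h2⟩
          exact ⟨m, by omega, h1, h2⟩
      rw [this]; exact ih

lemma fr_ge (hs : Sparse n w) {s : ℝ} (hs1 : s < 1) :
    ∃ c : ℝ, 0 ≤ c ∧ ∀ k : ℕ, s * k - c ≤ fr n w k := by
  classical
  obtain ⟨M₀, hM⟩ := exists_nat_gt (1 / (1 - s))
  refine ⟨(∑ i ∈ Finset.range (M₀ + 1), w i : ℕ), by positivity, fun k => ?_⟩
  have h1 : (fr n w k : ℝ) + ((Finset.range k).filter (Blk n w)).card = k := by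
    exact_mod_cast fr_add_card (n := n) (w := w) k
  have h2 := card_le' hs M₀ k k
  have h3 : (Finset.range k).filter (Blk n w) = (Finset.range k).filter (BlkM n w (M₀ + k)) := by
    apply Finset.filter_congr
    intro i hi
    rw [Finset.mem_range] at hi
    constructor
    · rintro ⟨m, h1, h2⟩
      refine ⟨m, ?_, h1, h2⟩
      have h4 := hs.1 m
      have h5 : w m ≤ ∑ i ∈ Finset.range (m + 1), w i :=
        Finset.single_le_sum (f := w) (fun _ _ => Nat.zero_le _) (by simp)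
      have h6 : 1 ≤ w m := by omega
      have h7 : (m + 1) * 1 ≤ (m + 1) * ∑ i ∈ Finset.range (m + 1), w i :=
        Nat.mul_le_mul_left _ (h6.trans h5)
      omega
    · rintro ⟨m, _, h1, h2⟩
      exact ⟨m, h1, h2⟩
  rw [h3] at h1
  have h4 : (k : ℝ) / (M₀ + 1) ≤ (1 - s) * k := by
    have h5 : 1 / ((M₀ : ℝ) + 1) ≤ 1 - s := by
      have : 0 < 1 - s := by linarith
      rw [div_le_iff₀ (by positivity)]
      rw [div_lt_iff₀ this] at hM
      nlinarith
    calc (k : ℝ) / (M₀ + 1) = 1 / ((M₀ : ℝ) + 1) * k := by ring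
      _ ≤ (1 - s) * k := by gcongr
  linarith

lemma holder (hs : Sparse n w) {s : ℝ} (hs0 : 0 < s) (hs1 : s < 1) :
    ∃ C : ℝ, 0 ≤ C ∧ ∀ t ∈ Ico (0:ℝ) 1, ∀ t' ∈ Ico (0:ℝ) 1, t ≤ t' →
      t' - t ≤ C * (X n w t' - X n w t) ^ s ∧ X n w t ≤ X n w t' := by
  obtain ⟨c, hc0, hc⟩ := fr_ge hs hs1
  refine ⟨4 * 2 ^ (c + s), by positivity, fun t ht t' ht' h => ?_⟩
  rcases h.eq_or_lt with rfl | hlt
  · simp only [sub_self, le_refl, and_true]
    positivity
  have hδ : 0 < t' - t := by linarith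
  -- growth of `fr`
  have hex : ∃ k : ℕ, 4 ≤ 2 ^ fr n w k * (t' - t) := by
    obtain ⟨j, hj⟩ := exists_nat_gt (4 / (t' - t))
    obtain ⟨k, hk⟩ := exists_nat_gt ((j + c) / s)
    refine ⟨k, ?_⟩
    have h1 := hc k
    rw [div_lt_iff₀ hs0] at hk
    have h2 : (j : ℝ) < fr n w k := by nlinarith
    have h3 : j ≤ fr n w k := by exact_mod_cast h2.le
    have h4 : (j : ℝ) ≤ 2 ^ fr n w k := by
      calc (j : ℝ) ≤ (2 ^ j : ℕ) := by exact_mod_cast Nat.lt_two_pow_self.le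
        _ = (2:ℝ) ^ j := by push_cast; rfl
        _ ≤ 2 ^ fr n w k := pow_le_pow_right₀ (by norm_num) h3
    rw [div_lt_iff₀ hδ] at hj
    nlinarith
  classical
  set k := Nat.find hex with hk
  have hk1 : 4 ≤ 2 ^ fr n w k * (t' - t) := Nat.find_spec hex
  have hk0 : k ≠ 0 := by
    intro h0
    rw [h0] at hk1
    simp only [fr, pow_zero, one_mul] at hk1
    linarith [ht.1, ht'.2]
  obtain ⟨j, hj⟩ := Nat.exists_eq_succ_of_ne_zero hk0
  have hk2 : 2 ^ fr n w j * (t' - t) < 4 := by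
    by_contra hcon
    exact Nat.find_min hex (m := j) (by omega) (not_lt.mp hcon)
  -- the gap
  have hg := gap (n := n) (w := w) ht ht' h k
  have hgr : ((⌊(2:ℝ) ^ fr n w k * t'⌋ - ⌊(2:ℝ) ^ fr n w k * t⌋ : ℤ) : ℝ) ≤
      ((A n w t' k - A n w t k : ℤ) : ℝ) := by exact_mod_cast hg
  push_cast at hgr
  have f1 := Int.floor_le ((2:ℝ) ^ fr n w k * t)
  have f2 := Int.lt_floor_add_one ((2:ℝ) ^ fr n w k * t')
  have l1 := lo_le_X (n := n) (w := w) t' k
  have l2 := X_le_hi (n := n) (w := w) t k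
  have hp : (0:ℝ) < 2 ^ k := by positivity
  have hX : 2 / 2 ^ k ≤ X n w t' - X n w t := by
    have : 2 / 2 ^ k ≤ (A n w t' k : ℝ) / 2 ^ k - ((A n w t k : ℝ) + 1) / 2 ^ k := by
      rw [← sub_div]
      gcongr
      nlinarith
    linarith
  have hXpos : 0 < X n w t' - X n w t := lt_of_lt_of_le (by positivity) hX
  refine ⟨?_, by linarith⟩
  have e1 : t' - t ≤ 4 * (2:ℝ) ^ (-(fr n w j : ℝ)) := by
    rw [Real.rpow_neg (by norm_num), Real.rpow_natCast, ← div_eq_mul_inv,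
      le_div_iff₀ (by positivity)]
    linarith
  have e2 : (2:ℝ) ^ (-(fr n w j : ℝ)) ≤ (2:ℝ) ^ (c - s * j) := by
    apply Real.rpow_le_rpow_of_exponent_le (by norm_num)
    linarith [hc j]
  have e3 : (2:ℝ) ^ (c - s * j) = (2:ℝ) ^ (c + s) * ((2:ℝ) ^ (-(k : ℝ))) ^ s := by
    rw [← Real.rpow_mul (by norm_num), ← Real.rpow_add (by norm_num), hj]
    congr 1; push_cast; ring
  have e4 : ((2:ℝ) ^ (-(k : ℝ))) ^ s ≤ (X n w t' - X n w t) ^ s := by
    apply Real.rpow_le_rpow (by positivity) _ hs0.le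
    rw [Real.rpow_neg (by norm_num), Real.rpow_natCast]
    have : ((2:ℝ) ^ k)⁻¹ ≤ 2 / 2 ^ k := by
      rw [← one_div]; gcongr; norm_num
    linarith
  calc t' - t ≤ 4 * (2:ℝ) ^ (-(fr n w j : ℝ)) := e1
    _ ≤ 4 * (2:ℝ) ^ (c - s * j) := by gcongr
    _ = 4 * 2 ^ (c + s) * ((2:ℝ) ^ (-(k : ℝ))) ^ s := by rw [e3]; ring
    _ ≤ 4 * 2 ^ (c + s) * (X n w t' - X n w t) ^ s := by gcongr

end

end MP87.Dig

namespace MP87

open Set Dig
open scoped NNReal

theorem specDig : SpecDig := by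
  intro n w hs s hs0 hs1
  obtain ⟨C, hC0, hC⟩ := holder hs (s := (s : ℝ)) (by exact_mod_cast hs0) (by exact_mod_cast hs1)
  have hinj : InjOn (X n w) (Ico 0 1) := by
    intro t ht t' ht' he
    have hsne : (s : ℝ) ≠ 0 := by exact_mod_cast hs0.ne'
    rcases le_total t t' with h | h
    · have := (hC t ht t' ht' h).1
      rw [he, sub_self, Real.zero_rpow hsne] at this
      linarith
    · have := (hC t' ht' t ht h).1
      rw [he, sub_self, Real.zero_rpow hsne] at this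
      linarith
  have hinv : ∀ t ∈ Ico (0:ℝ) 1, Function.invFunOn (X n w) (Ico 0 1) (X n w t) = t :=
    fun t ht => hinj.leftInvOn_invFunOn ht
  refine ⟨X n w '' Ico 0 1, Function.invFunOn (X n w) (Ico 0 1), ⟨C, hC0⟩, ?_, ?_, ?_, ?_⟩
  · rintro _ ⟨t, _, rfl⟩; exact X_mem t
  · rintro _ ⟨t, _, rfl⟩; exact inWin t
  · rintro _ ⟨t, ht, rfl⟩ _ ⟨t', ht', rfl⟩
    rw [hinv t ht, hinv t' ht']
    have key : |t - t'| ≤ C * |X n w t - X n w t'| ^ (s : ℝ) := by
      rcases le_total t t' with h | h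
      · have := hC t ht t' ht' h
        rw [abs_sub_comm, abs_of_nonneg (sub_nonneg.mpr h), abs_sub_comm,
          abs_of_nonneg (sub_nonneg.mpr this.2)]
        exact this.1
      · have := hC t' ht' t ht h
        rw [abs_of_nonneg (sub_nonneg.mpr h), abs_of_nonneg (sub_nonneg.mpr this.2)]
        exact this.1
    rw [edist_dist, edist_dist, Real.dist_eq, Real.dist_eq,
      ENNReal.ofReal_rpow_of_nonneg (abs_nonneg _) s.coe_nonneg]
    refine (ENNReal.ofReal_le_ofReal key).trans (le_of_eq ?_)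
    rw [ENNReal.ofReal_mul hC0]
    congr 1
    exact ENNReal.ofReal_eq_coe_nnreal hC0
  · intro t ht
    exact ⟨X n w t, ⟨t, ht, rfl⟩, hinv t ht⟩

end MP87
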