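import Pool.Agent.Lib.MP_87ece0_an.LimW

/-!
MICU: the upper maps with `f' = exp(εφ)`.
-/

namespace MP87

open Filter Topology Set MeasureTheory Metric
open scoped InnerProductSpace ComplexConjugate Laplacian NNReal

noncomputable section

namespace Micu

/-- the disc variable -/
def q (z : ℂ) : ℂ := Complex.exp (2 * Real.pi * Complex.I * z)

theorem q_ne (z : ℂ) : q z ≠ 0 := Complex.exp_ne_zero _

theorem q_add_one (z : ℂ) : q (z + 1) = q z := by
  unfold q
  rw [mul_add, mul_one, Complex.exp_add, Complex.exp_two_pi_mul_I, mul_one]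

theorem q_zero : q 0 = 1 := by simp [q]

theorem norm_q (z : ℂ) : ‖q z‖ = Real.exp (-(2 * Real.pi * z.im)) := by
  unfold q
  rw [Complex.norm_exp]
  congr 1
  simp

theorem hasDerivAt_q (z : ℂ) : HasDerivAt q (2 * Real.pi * Complex.I * q z) z := by
  have h1 : HasDerivAt (fun w : ℂ => 2 * Real.pi * Complex.I * w) (2 * Real.pi * Complex.I) z := by
    simpa using (hasDerivAt_id z).const_mul (2 * Real.pi * Complex.I : ℂ)
  have h2 := h1.cexp
  have h3 : (2 * Real.pi * Complex.I * q z : ℂ) =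
      Complex.exp (2 * Real.pi * Complex.I * z) * (2 * Real.pi * Complex.I) := by
    unfold q; ring
  rw [h3]
  exact h2

theorem two_pi_I_ne : (2 * Real.pi * Complex.I : ℂ) ≠ 0 := Complex.two_pi_I_ne_zero

/-- the primitive in the disc variable -/
theorem hasDerivAt_prim {H G : ℂ → ℂ} {R : ℝ} (hH0 : H 0 = 0)
    (hG : ∀ w ∈ ball (0 : ℂ) R, HasDerivAt G (dslope H 0 w) w) {z : ℂ} (hz : ‖q z‖ < R) :
    HasDerivAt (fun z => G (q z) / (2 * Real.pi * Complex.I)) (H (q z)) z := by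
  have h1 := ((hG (q z) (by simpa using hz)).comp z (hasDerivAt_q z)).div_const
    (2 * Real.pi * Complex.I : ℂ)
  have h2 : dslope H 0 (q z) * (2 * Real.pi * Complex.I * q z) / (2 * Real.pi * Complex.I) =
      H (q z) := by
    rw [dslope_of_ne _ (q_ne z), slope_def_field, hH0]
    have h3 := two_pi_I_ne
    have h4 := q_ne z
    have h5 : (Real.pi : ℂ) ≠ 0 := by exact_mod_cast Real.pi_ne_zero
    field_simp
    ring
  rw [h2] at h1
  exact h1

/-- projection to the half plane `im z ≥ -ρ` -/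
def pr (ρ : ℝ) (z : ℂ) : ℂ := ⟨z.re, max z.im (-ρ)⟩

theorem pr_im (ρ : ℝ) (z : ℂ) : -ρ ≤ (pr ρ z).im := le_max_right _ _

theorem pr_eq {ρ : ℝ} {z : ℂ} (hz : -ρ < z.im) : pr ρ z = z :=
  Complex.ext rfl (max_eq_left hz.le)

theorem pr_add_one (ρ : ℝ) (z : ℂ) : pr ρ (z + 1) = pr ρ z + 1 := by
  apply Complex.ext
  · simp [pr]
  · simp [pr]

theorem pr_lip (ρ : ℝ) (z w : ℂ) : ‖pr ρ z - pr ρ w‖ ≤ ‖z - w‖ := by
  rw [Complex.norm_def, Complex.norm_def]
  apply Real.sqrt_le_sqrt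
  rw [Complex.normSq_apply, Complex.normSq_apply]
  have h1 : (pr ρ z - pr ρ w).re = (z - w).re := rfl
  have h2 : (pr ρ z - pr ρ w).im = max z.im (-ρ) - max w.im (-ρ) := rfl
  have h3 : |max z.im (-ρ) - max w.im (-ρ)| ≤ |z.im - w.im| := by
    have := abs_max_sub_max_le_abs z.im w.im (-ρ)
    exact this
  rw [h1, h2, Complex.sub_im]
  have h4 := sq_le_sq' (by linarith [neg_abs_le (z.im - w.im), (abs_le.1 h3).1, abs_nonneg (max z.im (-ρ) - max w.im (-ρ)), neg_abs_le (max z.im (-ρ) - max w.im (-ρ))]) (abs_le.1 h3).2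
  rw [sq_abs] at h4
  nlinarith

end Micu

open Micu in
theorem specMicU : SpecMicU := by
  intro L hL
  set r : ℝ := 1 - Real.exp (-L) with hr
  have hexp : 0 < Real.exp (-L) := Real.exp_pos _
  have hexp1 : Real.exp (-L) < 1 := by rw [Real.exp_lt_one_iff]; linarith
  have hr0 : 0 < r := by rw [hr]; linarith
  have hr1 : r < 1 := by rw [hr]; linarith
  set R : ℝ := 1 / r with hR
  have hR1 : 1 < R := by rw [hR, lt_div_iff₀ hr0]; linarith
  set R₁ : ℝ := (1 + R) / 2 with hR₁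
  have hR₁1 : 1 < R₁ := by rw [hR₁]; linarith
  have hR₁R : R₁ < R := by rw [hR₁]; linarith
  set ρ : ℝ := Real.log R₁ / (2 * Real.pi) with hρdef
  have hpi := Real.pi_pos
  have hρ : 0 < ρ := div_pos (Real.log_pos hR₁1) (by positivity)
  have hq : ∀ z : ℂ, -ρ ≤ z.im → ‖q z‖ ≤ R₁ := by
    intro z hz
    rw [norm_q, ← Real.exp_log (by linarith : 0 < R₁)]
    apply Real.exp_le_exp.2
    have : 2 * Real.pi * ρ = Real.log R₁ := by rw [hρdef]; field_simp
    nlinarith
  have hqR : ∀ z : ℂ, -ρ ≤ z.im → ‖q z‖ < R := fun z hz => (hq z hz).trans_lt hR₁R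
  have hqc : ∀ z : ℂ, -ρ ≤ z.im → q z ∈ closedBall (0 : ℂ) R₁ := fun z hz => by
    rw [mem_closedBall, dist_zero_right]; exact hq z hz
  have hsub : closedBall (0 : ℂ) R₁ ⊆ ball (0 : ℂ) R := closedBall_subset_ball hR₁R
  have h1mem : (1 : ℂ) ∈ closedBall (0 : ℂ) R₁ := by
    rw [mem_closedBall, dist_zero_right, norm_one]; exact hR₁1.le
  have hball0 : ball (0 : ℂ) R ∈ 𝓝 (0 : ℂ) := ball_mem_nhds _ (by linarith)
  -- the function `Φ`
  set Φ : ℂ → ℂ := fun w => -Complex.I * Complex.log (1 - r * w) with hΦ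
  have hre : ∀ w ∈ ball (0 : ℂ) R, 0 < (1 - r * w).re := by
    intro w hw
    rw [mem_ball, dist_zero_right] at hw
    have h1 : ((r : ℂ) * w).re ≤ ‖(r : ℂ) * w‖ := Complex.re_le_norm _
    rw [norm_mul, Complex.norm_real, Real.norm_eq_abs, abs_of_pos hr0] at h1
    have h2 : r * ‖w‖ < 1 := by
      rw [hR, lt_div_iff₀ hr0] at hw
      linarith
    rw [Complex.sub_re, Complex.one_re]
    linarith
  have hΦd : DifferentiableOn ℂ Φ (ball 0 R) := by
    intro w hw
    apply DifferentiableAt.differentiableWithinAt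
    apply DifferentiableAt.const_mul
    apply DifferentiableAt.clog
    · fun_prop
    · exact Or.inl (hre w hw)
  have hΦ0 : Φ 0 = 0 := by simp [hΦ]
  have hΦs : DifferentiableOn ℂ (dslope Φ 0) (ball 0 R) :=
    (Complex.differentiableOn_dslope hball0).2 hΦd
  obtain ⟨Ψ, hΨ⟩ := hΦs.isExactOn_ball
  have hΨc : ContinuousOn Ψ (closedBall 0 R₁) := fun w hw =>
    (hΨ w (hsub hw)).continuousAt.continuousWithinAt
  obtain ⟨C1', hC1'⟩ := (isCompact_closedBall (0 : ℂ) R₁).exists_bound_of_continuousOn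
    (hΦd.continuousOn.mono hsub)
  obtain ⟨C2', hC2'⟩ := (isCompact_closedBall (0 : ℂ) R₁).exists_bound_of_continuousOn
    (hΦs.continuousOn.mono hsub)
  obtain ⟨C3', hC3'⟩ := (isCompact_closedBall (0 : ℂ) R₁).exists_bound_of_continuousOn hΨc
  have hC1n : 0 ≤ C1' := (norm_nonneg _).trans (hC1' _ h1mem)
  have hC2n : 0 ≤ C2' := (norm_nonneg _).trans (hC2' _ h1mem)
  have hC3n : 0 ≤ C3' := (norm_nonneg _).trans (hC3' _ h1mem)
  set φ : ℂ → ℂ := fun z => Φ (q z) with hφ
  set P : ℂ → ℂ := fun z => Ψ (q z) / (2 * Real.pi * Complex.I) with hP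
  set C : ℝ := C1' + C3' + C1' * C2' * (R₁ + 1) with hCdef
  have hR₁n : 0 ≤ R₁ + 1 := by linarith
  have hCC : 0 ≤ C1' * C2' * (R₁ + 1) := by positivity
  have hC0 : 0 ≤ C := by positivity
  have hnorm2 : ‖(2 * Real.pi * Complex.I : ℂ)‖ = 2 * Real.pi := by
    rw [norm_mul, norm_mul, Complex.norm_I, mul_one, Complex.norm_real, Real.norm_eq_abs,
      abs_of_pos hpi]
    simp
  have h2pi : 1 ≤ 2 * Real.pi := by linarith [Real.pi_gt_three]
  have hPder : ∀ z : ℂ, -ρ ≤ z.im → HasDerivAt P (φ z) z := fun z hz =>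
    hasDerivAt_prim hΦ0 hΨ (hqR z hz)
  have hPb : ∀ z : ℂ, -ρ ≤ z.im → ‖P z‖ ≤ C := by
    intro z hz
    have h1 := hC3' (q z) (hqc z hz)
    simp only [hP]
    rw [norm_div, hnorm2]
    calc ‖Ψ (q z)‖ / (2 * Real.pi) ≤ ‖Ψ (q z)‖ := div_le_self (norm_nonneg _) h2pi
      _ ≤ C3' := h1
      _ ≤ C := by rw [hCdef]; linarith
  have hφb : ∀ z : ℂ, -ρ ≤ z.im → ‖φ z‖ ≤ C1' := fun z hz => hC1' (q z) (hqc z hz)
  refine ⟨ρ, C, 1 / (20 * (C1' + 1)), φ, P, hρ, by positivity, fun z hz => hPder z hz.le, ?_,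
    fun z hz => hPb z hz.le, fun z hz => (hφb z hz.le).trans (by rw [hCdef]; linarith), ?_, ?_, ?_,
    ?_⟩
  · -- φ differentiable
    intro z hz
    have h1 : DifferentiableAt ℂ Φ (q z) := by
      have : q z ∈ ball (0 : ℂ) R := hsub (hqc z (le_of_lt hz))
      exact (hΦd _ this).differentiableAt (isOpen_ball.mem_nhds this)
    exact (h1.comp z (hasDerivAt_q z).differentiableAt).differentiableWithinAt
  · intro z _
    simp only [hP, q_add_one]
  · intro x
    have h1 : (φ x).re = Complex.arg (1 - r * q x) := by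
      simp only [hφ, hΦ]
      simp [Complex.log_im]
    rw [h1, Complex.abs_arg_le_pi_div_two_iff]
    have : q x ∈ ball (0 : ℂ) R := hsub (hqc x (by simpa using hρ.le))
    exact (hre _ this).le
  · simp only [hφ, hΦ, q_zero, mul_one]
    have h1 : (1 - (r : ℂ)) = Complex.exp ((-L : ℝ) : ℂ) := by
      rw [← Complex.ofReal_exp, hr]
      push_cast
      ring
    rw [h1, ← Complex.ofReal_exp, ← Complex.ofReal_log hexp.le, Real.log_exp]
    push_cast
    ring
  · intro ε hε hε1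
    have hεC : ε * C1' ≤ 1 / 20 := by
      have h1 : ε * (20 * (C1' + 1)) < 1 := by
        rw [lt_div_iff₀ (by positivity)] at hε1
        exact hε1
      nlinarith
    -- the function `exp (ε Φ) - 1`
    set HE : ℂ → ℂ := fun w => Complex.exp (ε * Φ w) - 1 with hHE
    have hHEd : DifferentiableOn ℂ HE (ball 0 R) := by
      intro w hw
      have h1 : DifferentiableWithinAt ℂ Φ (ball 0 R) w := hΦd w hw
      exact ((h1.const_mul (ε : ℂ)).cexp).sub_const 1
    have hHE0 : HE 0 = 0 := by simp [hHE, hΦ0]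
    have hHEs : DifferentiableOn ℂ (dslope HE 0) (ball 0 R) :=
      (Complex.differentiableOn_dslope hball0).2 hHEd
    obtain ⟨G, hG⟩ := hHEs.isExactOn_ball
    set f : ℂ → ℂ := fun z => z + (G (q z) / (2 * Real.pi * Complex.I) -
      G 1 / (2 * Real.pi * Complex.I)) with hf
    have hfder : ∀ z : ℂ, -ρ ≤ z.im → HasDerivAt f (Complex.exp (ε * φ z)) z := by
      intro z hz
      have h1 := hasDerivAt_prim hHE0 hG (hqR z hz)
      have h2 := (hasDerivAt_id z).add (h1.sub_const (G 1 / (2 * Real.pi * Complex.I)))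
      have h3 : (1 : ℂ) + HE (q z) = Complex.exp (ε * φ z) := by
        simp only [hHE, hφ]; ring
      rw [h3] at h2
      exact h2
    have hsmall : ∀ w ∈ closedBall (0 : ℂ) R₁, ‖(ε : ℂ) * Φ w‖ ≤ 1 / 20 := by
      intro w hw
      rw [norm_mul, Complex.norm_real, Real.norm_eq_abs, abs_of_pos hε]
      have := mul_le_mul_of_nonneg_left (hC1' w hw) hε.le
      linarith
    -- second order estimate
    have hsec : ∀ z : ℂ, -ρ ≤ z.im → ‖f z - z - ε * (P z - P 0)‖ ≤ C * ε ^ 2 := by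
      intro z hz
      set D : ℂ → ℂ := fun w => G w - ε * Ψ w with hD
      have hDd : ∀ w ∈ closedBall (0 : ℂ) R₁,
          HasDerivAt D (dslope HE 0 w - ε * dslope Φ 0 w) w := fun w hw =>
        (hG w (hsub hw)).sub ((hΨ w (hsub hw)).const_mul (ε : ℂ))
      have hDb : ∀ w ∈ closedBall (0 : ℂ) R₁,
          ‖dslope HE 0 w - ε * dslope Φ 0 w‖ ≤ ε ^ 2 * (C1' * C2') := by
        intro w hw
        by_cases hw0 : w = 0
        · subst hw0
          have h0mem : (0 : ℂ) ∈ ball (0 : ℂ) R := hsub hw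
          have h1 : HasDerivAt Φ (deriv Φ 0) 0 :=
            ((hΦd _ h0mem).differentiableAt (isOpen_ball.mem_nhds h0mem)).hasDerivAt
          have h2 : HasDerivAt HE (Complex.exp (ε * Φ 0) * (ε * deriv Φ 0)) 0 :=
            ((h1.const_mul (ε : ℂ)).cexp).sub_const 1
          rw [dslope_same, dslope_same, h2.deriv, hΦ0, mul_zero, Complex.exp_zero, one_mul,
            sub_self, norm_zero]
          positivity
        · rw [dslope_of_ne _ hw0, dslope_of_ne _ hw0, slope_def_field, slope_def_field, hHE0, hΦ0]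
          have h1 : (HE w - 0) / (w - 0) - ε * ((Φ w - 0) / (w - 0)) =
              (Complex.exp (ε * Φ w) - 1 - ε * Φ w) / w := by
            simp only [hHE, sub_zero]; ring
          rw [h1, norm_div]
          have h2 := Complex.norm_exp_sub_one_sub_id_le
            ((hsmall w hw).trans (by norm_num : (1 : ℝ) / 20 ≤ 1))
          have h3 : ‖(ε : ℂ) * Φ w‖ ^ 2 / ‖w‖ = ε ^ 2 * (‖Φ w‖ * (‖Φ w‖ / ‖w‖)) := by
            rw [norm_mul, Complex.norm_real, Real.norm_eq_abs, abs_of_pos hε]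
            ring
          have h4 : ‖Φ w‖ / ‖w‖ ≤ C2' := by
            have h5 := hC2' w hw
            rw [dslope_of_ne _ hw0, slope_def_field, hΦ0, sub_zero, sub_zero, norm_div] at h5
            exact h5
          calc _ ≤ ‖(ε : ℂ) * Φ w‖ ^ 2 / ‖w‖ := by gcongr
            _ = ε ^ 2 * (‖Φ w‖ * (‖Φ w‖ / ‖w‖)) := h3
            _ ≤ ε ^ 2 * (C1' * C2') := by
              have := hC1' w hw
              gcongr
      have h1 := (convex_closedBall (0 : ℂ) R₁).norm_image_sub_le_of_norm_hasDerivWithin_le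
        (fun w hw => (hDd w hw).hasDerivWithinAt) hDb h1mem (hqc z hz)
      have h2 : f z - z - ε * (P z - P 0) = (D (q z) - D 1) / (2 * Real.pi * Complex.I) := by
        simp only [hf, hP, hD, q_zero]; ring
      rw [h2, norm_div, hnorm2]
      have h3 : ‖q z - 1‖ ≤ R₁ + 1 := by
        refine (norm_sub_le _ _).trans ?_
        rw [norm_one]
        linarith [hq z hz]
      calc ‖D (q z) - D 1‖ / (2 * Real.pi) ≤ ‖D (q z) - D 1‖ := div_le_self (norm_nonneg _) h2pi
        _ ≤ ε ^ 2 * (C1' * C2') * ‖q z - 1‖ := h1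
        _ ≤ ε ^ 2 * (C1' * C2') * (R₁ + 1) := by gcongr
        _ ≤ C * ε ^ 2 := by
          rw [hCdef]
          have : 0 ≤ ε ^ 2 * (C1' + C3') := by positivity
          nlinarith
    -- `h = f - id`
    have hhlip : ∀ z w : ℂ, -ρ ≤ z.im → -ρ ≤ w.im →
        ‖(f z - z) - (f w - w)‖ ≤ 1 / 10 * ‖z - w‖ := by
      intro z w hz hw
      have h1 : ∀ y ∈ {y : ℂ | -ρ ≤ y.im}, HasDerivWithinAt (fun z => f z - z)
          (Complex.exp (ε * φ y) - 1) {y : ℂ | -ρ ≤ y.im} y := fun y hy =>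
        ((hfder y hy).sub (hasDerivAt_id y)).hasDerivWithinAt
      have h2 : ∀ y ∈ {y : ℂ | -ρ ≤ y.im}, ‖Complex.exp (ε * φ y) - 1‖ ≤ 1 / 10 := by
        intro y hy
        have h3 := hsmall (q y) (hqc y hy)
        have h4 := Complex.norm_exp_sub_one_le (h3.trans (by norm_num : (1 : ℝ) / 20 ≤ 1))
        calc _ ≤ 2 * ‖(ε : ℂ) * Φ (q y)‖ := h4
          _ ≤ 2 * (1 / 20) := by gcongr
          _ = 1 / 10 := by norm_num
      exact (convex_halfSpace_im_ge (-ρ)).norm_image_sub_le_of_norm_hasDerivWithin_le h1 h2 hw hz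
    have hinj : ∀ z w : ℂ, -ρ ≤ z.im → -ρ ≤ w.im → 9 / 10 * ‖z - w‖ ≤ ‖f z - f w‖ := by
      intro z w hz hw
      have h1 := hhlip z w hz hw
      have h2 : z - w = (f z - f w) - ((f z - z) - (f w - w)) := by ring
      have h3 : ‖z - w‖ ≤ ‖f z - f w‖ + ‖(f z - z) - (f w - w)‖ := by
        conv_lhs => rw [h2]
        exact norm_sub_le _ _
      linarith
    set B : ℝ := C * ε ^ 2 + ε * (C + C) with hB
    have hbdd : ∀ z : ℂ, -ρ ≤ z.im → ‖f z - z‖ ≤ B := by
      intro z hz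
      have h1 := hsec z hz
      have h2 : f z - z = (f z - z - ε * (P z - P 0)) + ε * (P z - P 0) := by ring
      have h3 : ‖(ε : ℂ) * (P z - P 0)‖ ≤ ε * (C + C) := by
        rw [norm_mul, Complex.norm_real, Real.norm_eq_abs, abs_of_pos hε]
        have h4 := norm_sub_le (P z) (P 0)
        have h5 := hPb z hz
        have h6 := hPb 0 (by simpa using hρ.le)
        gcongr
        linarith
      rw [h2]
      refine (norm_add_le _ _).trans ?_
      rw [hB]
      linarith
    have hper : ∀ z : ℂ, f (z + 1) = f z + 1 := by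
      intro z
      simp only [hf, q_add_one]; ring
    -- the homeomorphism
    set τ₀ : ℂ → ℂ := fun z => z + (f (pr ρ z) - pr ρ z) with hτ₀
    have happ : ApproximatesLinearOn τ₀ ((ContinuousLinearEquiv.refl ℂ ℂ : ℂ ≃L[ℂ] ℂ) : ℂ →L[ℂ] ℂ)
        univ (1 / 10 : ℝ≥0) := by
      intro x _ y _
      have h1 : τ₀ x - τ₀ y - ((ContinuousLinearEquiv.refl ℂ ℂ : ℂ ≃L[ℂ] ℂ) : ℂ →L[ℂ] ℂ) (x - y) =
          (f (pr ρ x) - pr ρ x) - (f (pr ρ y) - pr ρ y) := by
        simp only [hτ₀]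
        simp
        ring
      rw [h1]
      have h2 := hhlip _ _ (pr_im ρ x) (pr_im ρ y)
      have h3 := pr_lip ρ x y
      have h4 : ((1 / 10 : ℝ≥0) : ℝ) = 1 / 10 := by norm_num
      rw [h4]
      linarith
    have hN : (Subsingleton ℂ ∨ (1 / 10 : ℝ≥0) <
        ‖((ContinuousLinearEquiv.refl ℂ ℂ : ℂ ≃L[ℂ] ℂ).symm : ℂ →L[ℂ] ℂ)‖₊⁻¹) := by
      right
      have h1 : ‖((ContinuousLinearEquiv.refl ℂ ℂ : ℂ ≃L[ℂ] ℂ).symm : ℂ →L[ℂ] ℂ)‖₊ = 1 := by
        have : ((ContinuousLinearEquiv.refl ℂ ℂ : ℂ ≃L[ℂ] ℂ).symm : ℂ →L[ℂ] ℂ) =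
            ContinuousLinearMap.id ℂ ℂ := by
          ext
          simp
        rw [this]
        exact nnnorm_one
      rw [h1, inv_one]
      norm_num
    set τ : ℂ ≃ₜ ℂ := happ.toHomeomorph τ₀ hN with hτ
    have hτv : ∀ z, τ z = z + (f (pr ρ z) - pr ρ z) := fun z => rfl
    refine ⟨{ f := f, ρ := ρ, κ := 9 / 10, B := B, τ := τ, hρ := hρ, hκ := by norm_num,
              hol := fun z hz => (hfder z (le_of_lt hz)).differentiableAt.differentiableWithinAt,
              per := fun z _ => hper z,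
              bdd := fun z hz => hbdd z hz.le,
              inj := fun z w hz hw => hinj z w hz.le hw.le,
              τper := ?_, τbdd := ?_, τf := ?_ }, rfl, ?_, ?_, ?_, ?_⟩
    · intro z
      rw [hτv, hτv, pr_add_one, hper]
      ring
    · intro z
      rw [hτv]
      have := hbdd (pr ρ z) (pr_im ρ z)
      simpa using this
    · intro z hz
      rw [hτv, pr_eq hz]
      ring
    · simp only [hf, q_zero]; ring
    · intro z hz
      exact (hfder z hz.le).deriv
    · intro z hz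
      exact hsec z hz.le
    · intro x y
      have := hinj x y (by simpa using hρ.le) (by simpa using hρ.le)
      rw [← Complex.ofReal_sub, Complex.norm_real, Real.norm_eq_abs] at this
      exact this

end

end MP87
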