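import Pool.Agent.Lib.MP_87ece0_an.LimW

section
/-!
Common part of the modules POLEP and POLEM: the Riesz formula in `ℝ^{m+2}` for a bi-Lipschitz
conformal map of the upper half plane.
-/
namespace MP87

open Filter Topology Set MeasureTheory Metric
open scoped InnerProductSpace ComplexConjugate Laplacian NNReal

namespace Pole

noncomputable section

/-- the hypotheses on a conformal map `F` with inverse `I` -/
structure Conf (F I : ℂ → ℂ) (K : ℝ) : Prop where
  hol : DifferentiableOn ℂ F {z : ℂ | 0 < z.im}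
  lip : ∀ z w : ℂ, 0 ≤ z.im → 0 ≤ w.im → ‖F z - F w‖ ≤ K * ‖z - w‖
  anti : ∀ z w : ℂ, 0 ≤ z.im → 0 ≤ w.im → ‖z - w‖ ≤ K * ‖F z - F w‖
  cont : Continuous I
  right : ∀ p : ℂ, 0 ≤ (I p).im → F (I p) = p
  left : ∀ z : ℂ, 0 ≤ z.im → I (F z) = z

variable {F I : ℂ → ℂ} {K : ℝ}

theorem isOpen_up : IsOpen {z : ℂ | 0 < z.im} := isOpen_lt continuous_const Complex.continuous_im

theorem Conf.isOpen (h : Conf F I K) : IsOpen {p : ℂ | 0 < (I p).im} :=
  isOpen_lt continuous_const (Complex.continuous_im.comp h.cont)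

theorem Conf.diffAt (h : Conf F I K) {z : ℂ} (hz : 0 < z.im) : DifferentiableAt ℂ F z :=
  (h.hol z hz).differentiableAt (isOpen_up.mem_nhds hz)

theorem Conf.deriv_ne (h : Conf F I K) {z : ℂ} (hz : 0 < z.im) : deriv F z ≠ 0 := by
  intro h0
  have hd := (h.diffAt hz).hasDerivAt
  rw [h0, hasDerivAt_iff_isLittleO] at hd
  have hK : 0 < |K| + 1 := by positivity
  have h1 := hd.def (c := (2 * (|K| + 1))⁻¹) (by positivity)
  have h2 : ∀ᶠ w in 𝓝 z, (0 : ℝ) ≤ w.im := by
    filter_upwards [isOpen_up.mem_nhds hz] with w hw using le_of_lt hw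
  obtain ⟨e, he, hb⟩ := Metric.eventually_nhds_iff_ball.1 (h1.and h2)
  have hw : z + ((e / 2 : ℝ) : ℂ) ∈ ball z e := by
    rw [mem_ball, dist_eq_norm]
    simp only [add_sub_cancel_left, Complex.norm_real, Real.norm_eq_abs, abs_of_pos (half_pos he)]
    linarith
  obtain ⟨h3, h4⟩ := hb _ hw
  have h5 := h.anti _ z h4 hz.le
  simp only [add_sub_cancel_left, Complex.norm_real, Real.norm_eq_abs, abs_of_pos (half_pos he),
    smul_zero, sub_zero] at h3 h5
  have h6 : K * ‖F (z + ((e / 2 : ℝ) : ℂ)) - F z‖ ≤ (|K| + 1) * ((2 * (|K| + 1))⁻¹ * (e / 2)) := by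
    have : K ≤ |K| + 1 := by linarith [le_abs_self K]
    have h0 := norm_nonneg (F (z + ((e / 2 : ℝ) : ℂ)) - F z)
    calc K * ‖F (z + ((e / 2 : ℝ) : ℂ)) - F z‖ ≤ (|K| + 1) * ‖F (z + ((e / 2 : ℝ) : ℂ)) - F z‖ :=
          mul_le_mul_of_nonneg_right this h0
      _ ≤ _ := mul_le_mul_of_nonneg_left h3 hK.le
  have h7 : (|K| + 1) * ((2 * (|K| + 1))⁻¹ * (e / 2)) = e / 4 := by
    field_simp; ring
  linarith

theorem Conf.harm (h : Conf F I K) :
    InnerProductSpace.HarmonicOnNhd (fun p => max 0 (I p).im) {p : ℂ | 0 < (I p).im} := by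
  have hd : DifferentiableOn ℂ I {p : ℂ | 0 < (I p).im} := by
    intro p hp
    have h1 := (h.diffAt hp).hasDerivAt
    have h2 : HasDerivAt I (deriv F (I p))⁻¹ p := by
      apply HasDerivAt.of_local_left_inverse h.cont.continuousAt h1 (h.deriv_ne hp)
      filter_upwards [h.isOpen.mem_nhds hp] with q hq using h.right q (le_of_lt hq)
    exact h2.differentiableAt.differentiableWithinAt
  intro p hp
  have ha : AnalyticAt ℂ I p := hd.analyticAt (h.isOpen.mem_nhds hp)
  have hh := ha.harmonicAt_im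
  refine (InnerProductSpace.harmonicAt_congr_nhds ?_).1 hh
  filter_upwards [h.isOpen.mem_nhds hp] with q hq
  rw [max_eq_right (le_of_lt hq)]

theorem Conf.image (h : Conf F I K) : F '' {z : ℂ | 0 < z.im} = {p : ℂ | 0 < (I p).im} := by
  ext p
  constructor
  · rintro ⟨z, hz, rfl⟩
    have hz' : 0 < z.im := hz
    show 0 < (I (F z)).im
    rw [h.left z hz'.le]
    exact hz
  · intro hp
    exact ⟨I p, hp, h.right p (le_of_lt hp)⟩

theorem det_smul (a : ℂ) : (a • (1 : ℂ →L[ℝ] ℂ)).det = ‖a‖ ^ 2 := by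
  have h1 : (a • (1 : ℂ →L[ℝ] ℂ)).det = LinearMap.det (Algebra.lmul ℝ ℂ a) := by
    show LinearMap.det _ = _
    congr 1
  rw [h1]
  have h2 : LinearMap.det (Algebra.lmul ℝ ℂ a) = Algebra.norm ℝ a := rfl
  rw [h2, Algebra.norm_complex_apply, Complex.normSq_eq_norm_sq]

/-- the planar formula -/
theorem Conf.planar (h : Conf F I K) (hR : SpecRiesz) {φ : ℂ → ℝ} (hφ : ContDiff ℝ 2 φ)
    (hc : HasCompactSupport φ) :
    ∫ p : ℂ, max 0 (I p).im * (Δ φ) p = ∫ x : ℝ, φ (F x) := by
  rw [← hR F K φ h.hol h.lip h.anti hφ hc]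
  have h1 : ∫ p : ℂ, max 0 (I p).im * (Δ φ) p =
      ∫ p in {p : ℂ | 0 < (I p).im}, max 0 (I p).im * (Δ φ) p := by
    rw [setIntegral_eq_integral_of_forall_compl_eq_zero]
    intro p hp
    have : (I p).im ≤ 0 := not_lt.1 hp
    rw [max_eq_left this, zero_mul]
  rw [h1, ← h.image]
  have h2 : ∀ z ∈ {z : ℂ | 0 < z.im},
      HasFDerivWithinAt F (deriv F z • (1 : ℂ →L[ℝ] ℂ)) {z : ℂ | 0 < z.im} z :=
    fun z hz => (h.diffAt hz).hasDerivAt.complexToReal_fderiv.hasFDerivWithinAt
  have h3 : InjOn F {z : ℂ | 0 < z.im} := by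
    intro z hz w hw hzw
    rw [← h.left z (le_of_lt hz), ← h.left w (le_of_lt hw), hzw]
  rw [integral_image_eq_integral_abs_det_fderiv_smul volume isOpen_up.measurableSet h2 h3]
  apply setIntegral_congr_fun isOpen_up.measurableSet
  intro z hz
  have hz' : 0 < z.im := hz
  simp only [det_smul, smul_eq_mul, h.left z hz'.le, max_eq_right hz'.le]
  rw [abs_of_nonneg (by positivity)]
  ring

theorem prj_continuous {m : ℕ} : Continuous (prj : En (m + 2) → ℂ) := by
  have : (prj : En (m + 2) → ℂ) = fun X => Complex.equivRealProdCLM.symm (X 0, X 1) := by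
    funext X
    apply Complex.ext <;> simp [prj]
  rw [this]
  fun_prop

theorem tl_continuous {m : ℕ} : Continuous (tl : En (m + 2) → En m) := by
  unfold tl
  fun_prop

theorem lap_eq {k : ℕ} (φ : En k → ℝ) (x : En k) : (Δ φ) x =
    ∑ i, fderiv ℝ (fderiv ℝ φ) x (EuclideanSpace.basisFun (Fin k) ℝ i)
      (EuclideanSpace.basisFun (Fin k) ℝ i) := by
  rw [InnerProductSpace.laplacian_eq_iteratedFDeriv_orthonormalBasis φ
    (EuclideanSpace.basisFun (Fin k) ℝ)]
  simp [iteratedFDeriv_two_apply]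

theorem lapA {m : ℕ} {φ : En (m + 2) → ℝ} (hφ : ContDiff ℝ 2 φ) (p : ℂ) (t : En m) :
    (Δ (fun q : ℂ => φ (glue q t))) p =
      fderiv ℝ (fderiv ℝ φ) (glue p t) (Glue.gA m 1) (Glue.gA m 1) +
      fderiv ℝ (fderiv ℝ φ) (glue p t) (Glue.gA m Complex.I) (Glue.gA m Complex.I) := by
  have e1 : (fun q : ℂ => φ (glue q t)) = (fun X => φ (X + Glue.gB m t)) ∘ (Glue.gA m) := by
    funext q; simp [Glue.glue_eq]
  have c1 : ContDiff ℝ 2 (fun X => φ (X + Glue.gB m t)) :=
    hφ.comp (contDiff_id.add contDiff_const)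
  rw [e1, InnerProductSpace.laplacian_eq_iteratedFDeriv_complexPlane]
  simp only [(Glue.gA m).iteratedFDeriv_comp_right c1 _ le_rfl, iteratedFDeriv_comp_add_right,
    ContinuousMultilinearMap.compContinuousLinearMap_apply]
  rw [← Glue.glue_eq]
  simp [iteratedFDeriv_two_apply]

section comp

variable {m : ℕ} {ψ : En (m + 2) → ℝ}

theorem supp_prod (hc : HasCompactSupport ψ) :
    HasCompactSupport (fun q : ℂ × En m => ψ (glue q.1 q.2)) := by
  apply HasCompactSupport.intro
    ((hc.isCompact.image prj_continuous).prod (hc.isCompact.image tl_continuous))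
  intro q hq
  apply image_eq_zero_of_notMem_tsupport
  intro h
  apply hq
  refine ⟨⟨_, h, ?_⟩, ⟨_, h, ?_⟩⟩
  · rw [Glue.prj_glue]
  · rw [Glue.tl_glue]

theorem supp_left (hc : HasCompactSupport ψ) (t : En m) :
    HasCompactSupport (fun q : ℂ => ψ (glue q t)) := by
  apply HasCompactSupport.intro (hc.isCompact.image prj_continuous)
  intro q hq
  apply image_eq_zero_of_notMem_tsupport
  intro h
  exact hq ⟨_, h, Glue.prj_glue _ _⟩

theorem supp_right (hc : HasCompactSupport ψ) (p : ℂ) :
    HasCompactSupport (fun t : En m => ψ (glue p t)) := by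
  apply HasCompactSupport.intro (hc.isCompact.image tl_continuous)
  intro q hq
  apply image_eq_zero_of_notMem_tsupport
  intro h
  exact hq ⟨_, h, Glue.tl_glue _ _⟩

end comp

/-- the Riesz formula in the product -/
theorem Conf.riesz (h : Conf F I K) (hR : SpecRiesz) {m : ℕ} {φ : En (m + 2) → ℝ}
    (hφ : ContDiff ℝ 2 φ) (hc : HasCompactSupport φ) :
    ∫ X in {X : En (m + 2) | 0 < (I (prj X)).im}, max 0 (I (prj X)).im * (Δ φ) X =
      ∫ t : En m, ∫ x : ℝ, φ (glue (F x) t) := by
  have hv : Continuous (fun p : ℂ => max 0 (I p).im) :=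
    continuous_const.max (Complex.continuous_im.comp h.cont)
  have hd : ContDiff ℝ 1 (fderiv ℝ φ) := hφ.fderiv_right (m := 1) le_rfl
  have hdc : HasCompactSupport (fderiv ℝ φ) := hc.fderiv (𝕜 := ℝ)
  have hdd : Continuous (fderiv ℝ (fderiv ℝ φ)) := hd.continuous_fderiv one_ne_zero
  have hddc : HasCompactSupport (fderiv ℝ (fderiv ℝ φ)) := hdc.fderiv (𝕜 := ℝ)
  have hl : Continuous (Δ φ) := by
    have : (Δ φ) = fun x => ∑ i, fderiv ℝ (fderiv ℝ φ) x (EuclideanSpace.basisFun (Fin (m + 2)) ℝ i)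
      (EuclideanSpace.basisFun (Fin (m + 2)) ℝ i) := by funext x; exact lap_eq φ x
    rw [this]
    fun_prop
  have hlc : HasCompactSupport (Δ φ) := by
    apply HasCompactSupport.intro hddc.isCompact
    intro x hx
    rw [lap_eq, image_eq_zero_of_notMem_tsupport hx]
    simp
  set a : En (m + 2) → ℝ := fun X =>
    fderiv ℝ (fderiv ℝ φ) X (Glue.gA m 1) (Glue.gA m 1) +
      fderiv ℝ (fderiv ℝ φ) X (Glue.gA m Complex.I) (Glue.gA m Complex.I) with ha
  have hac : Continuous a := by rw [ha]; fun_prop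
  have has : HasCompactSupport a := by
    apply HasCompactSupport.intro hddc.isCompact
    intro x hx
    simp only [ha]
    rw [image_eq_zero_of_notMem_tsupport hx]
    simp
  have hgc : Continuous (fun q : ℂ × En m => glue q.1 q.2) := Glue.glue_continuous
  have hv1 : Continuous (fun q : ℂ × En m => max 0 (I q.1).im) := hv.comp continuous_fst
  have iA : Integrable (fun q : ℂ × En m => max 0 (I q.1).im * a (glue q.1 q.2))
      (volume.prod volume) := by
    apply Continuous.integrable_of_hasCompactSupport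
    · exact hv1.mul (hac.comp hgc)
    · exact (supp_prod has).mul_left
  have iL : Integrable (fun q : ℂ × En m => max 0 (I q.1).im * (Δ φ) (glue q.1 q.2))
      (volume.prod volume) := by
    apply Continuous.integrable_of_hasCompactSupport
    · exact hv1.mul (hl.comp hgc)
    · exact (supp_prod hlc).mul_left
  have iB : Integrable (fun q : ℂ × En m => max 0 (I q.1).im *
      ((Δ φ) (glue q.1 q.2) - a (glue q.1 q.2))) (volume.prod volume) := by
    have := iL.sub iA
    refine this.congr (Eventually.of_forall fun q => ?_)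
    simp only [Pi.sub_apply]
    ring
  -- reduce to the product
  have s1 : ∫ X in {X : En (m + 2) | 0 < (I (prj X)).im}, max 0 (I (prj X)).im * (Δ φ) X =
      ∫ X : En (m + 2), max 0 (I (prj X)).im * (Δ φ) X := by
    rw [setIntegral_eq_integral_of_forall_compl_eq_zero]
    intro X hX
    have : (I (prj X)).im ≤ 0 := not_lt.1 hX
    rw [max_eq_left this, zero_mul]
  have s2 : ∫ X : En (m + 2), max 0 (I (prj X)).im * (Δ φ) X =
      ∫ q : ℂ × En m, max 0 (I q.1).im * (Δ φ) (glue q.1 q.2) ∂(volume.prod volume) := by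
    rw [← (Glue.measurePreserving m).map_eq,
      integral_map (Glue.measurePreserving m).measurable.aemeasurable]
    · simp only [Glue.prj_glue]
    · exact ((hv.comp prj_continuous).mul hl).aestronglyMeasurable
  have s3 : ∫ q : ℂ × En m, max 0 (I q.1).im * (Δ φ) (glue q.1 q.2) ∂(volume.prod volume) =
      (∫ q : ℂ × En m, max 0 (I q.1).im * a (glue q.1 q.2) ∂(volume.prod volume)) +
      ∫ q : ℂ × En m, max 0 (I q.1).im * ((Δ φ) (glue q.1 q.2) - a (glue q.1 q.2))
        ∂(volume.prod volume) := by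
    rw [← integral_add iA iB]
    congr 1
    funext q
    ring
  have s4 : ∫ q : ℂ × En m, max 0 (I q.1).im * ((Δ φ) (glue q.1 q.2) - a (glue q.1 q.2))
        ∂(volume.prod volume) = 0 := by
    rw [integral_prod _ iB]
    have : ∀ p : ℂ, ∫ t : En m, max 0 (I p).im * ((Δ φ) (glue p t) - a (glue p t)) = 0 := by
      intro p
      rw [integral_const_mul]
      have e : ∀ t : En m, (Δ φ) (glue p t) - a (glue p t) =
          (Δ (fun u : En m => φ (glue p u))) t := by
        intro t
        rw [Glue.lap_split hφ, lapA hφ]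
        simp only [ha]
        ring
      simp only [e]
      rw [Glue.lap_int, mul_zero]
      · have e2 : (fun u : En m => φ (glue p u)) = fun u => φ (Glue.gA m p + Glue.gB m u) := by
          funext u; rw [Glue.glue_eq]
        rw [e2]
        exact hφ.comp (contDiff_const.add (Glue.gB m).contDiff)
      · exact supp_right hc p
    simp only [this]
    simp
  have s5 : ∫ q : ℂ × En m, max 0 (I q.1).im * a (glue q.1 q.2) ∂(volume.prod volume) =
      ∫ t : En m, ∫ x : ℝ, φ (glue (F x) t) := by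
    rw [integral_prod_symm _ iA]
    congr 1
    funext t
    have hφt : ContDiff ℝ 2 (fun q : ℂ => φ (glue q t)) := by
      have e2 : (fun q : ℂ => φ (glue q t)) = fun u => φ (Glue.gA m u + Glue.gB m t) := by
        funext u; rw [Glue.glue_eq]
      rw [e2]
      exact hφ.comp ((Glue.gA m).contDiff.add contDiff_const)
    rw [← h.planar hR hφt (supp_left hc t)]
    congr 1
    funext p
    rw [lapA hφ]
  rw [s1, s2, s3, s4, s5, add_zero]

end

end Pole

end MP87
end

section
/-!
POLEP and POLEM: the harmonic measures with pole at infinity of the two domains.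
-/
namespace MP87

open Filter Topology Set MeasureTheory Metric
open scoped InnerProductSpace ComplexConjugate Laplacian NNReal

namespace Pole

noncomputable section

variable (W : Weld)

theorem inv_Φ (z : ℂ) : W.inv (W.Φ z) = z :=
  Function.leftInverse_invFun W.anti.injective z

theorem Φ_inv (p : ℂ) : W.Φ (W.inv p) = p :=
  Function.rightInverse_invFun W.surj p

theorem inv_lip : LipschitzWith W.K W.inv := W.anti.to_rightInverse (Φ_inv W)

theorem inv_continuous : Continuous W.inv := (inv_lip W).continuous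

/-- the boundary map -/
def bm (m : ℕ) (q : ℝ × En m) : En (m + 2) := glue (W.Φ q.1) q.2

theorem bm_continuous (m : ℕ) : Continuous (bm W m) :=
  Glue.glue_continuous.comp
    ((W.lip.continuous.comp (Complex.continuous_ofReal.comp continuous_fst)).prodMk
      continuous_snd)

theorem norm_prj_sub {m : ℕ} (X Y : En (m + 2)) : ‖prj X - prj Y‖ ≤ ‖X - Y‖ := by
  have h1 : ‖prj X - prj Y‖ ^ 2 = (X 0 - Y 0) ^ 2 + (X 1 - Y 1) ^ 2 := by
    rw [← Complex.normSq_eq_norm_sq, Complex.normSq_apply]
    simp [prj]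
    ring
  have h2 : ‖X - Y‖ ^ 2 = (X 0 - Y 0) ^ 2 + ((X 1 - Y 1) ^ 2 +
      ∑ i : Fin m, (X i.succ.succ - Y i.succ.succ) ^ 2) := by
    rw [EuclideanSpace.norm_sq_eq, Fin.sum_univ_succ, Fin.sum_univ_succ]
    simp
  apply le_of_sq_le_sq _ (norm_nonneg _)
  rw [h1, h2]
  have : 0 ≤ ∑ i : Fin m, (X i.succ.succ - Y i.succ.succ) ^ 2 :=
    Finset.sum_nonneg fun i _ => sq_nonneg _
  linarith

theorem norm_tl_sub {m : ℕ} (X Y : En (m + 2)) : ‖tl X - tl Y‖ ≤ ‖X - Y‖ := by
  have h1 : ‖tl X - tl Y‖ ^ 2 = ∑ i : Fin m, (X i.succ.succ - Y i.succ.succ) ^ 2 := by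
    rw [EuclideanSpace.norm_sq_eq]
    simp [tl]
  have h2 : ‖X - Y‖ ^ 2 = (X 0 - Y 0) ^ 2 + ((X 1 - Y 1) ^ 2 +
      ∑ i : Fin m, (X i.succ.succ - Y i.succ.succ) ^ 2) := by
    rw [EuclideanSpace.norm_sq_eq, Fin.sum_univ_succ, Fin.sum_univ_succ]
    simp
  apply le_of_sq_le_sq _ (norm_nonneg _)
  rw [h1, h2]
  nlinarith [sq_nonneg (X 0 - Y 0), sq_nonneg (X 1 - Y 1)]

theorem bm_anti (m : ℕ) : AntilipschitzWith (W.K + 1) (bm W m) := by
  apply AntilipschitzWith.of_le_mul_dist
  intro p q
  rw [Prod.dist_eq, dist_eq_norm (bm W m p)]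
  have h1 : ‖W.Φ p.1 - W.Φ q.1‖ ≤ ‖bm W m p - bm W m q‖ := by
    have := norm_prj_sub (bm W m p) (bm W m q)
    unfold bm at this ⊢
    rwa [Glue.prj_glue, Glue.prj_glue] at this
  have h2 : ‖p.2 - q.2‖ ≤ ‖bm W m p - bm W m q‖ := by
    have := norm_tl_sub (bm W m p) (bm W m q)
    unfold bm at this ⊢
    rwa [Glue.tl_glue, Glue.tl_glue] at this
  have h3 : dist p.1 q.1 ≤ W.K * ‖W.Φ p.1 - W.Φ q.1‖ := by
    have := W.anti.le_mul_dist (p.1 : ℂ) (q.1 : ℂ)
    rw [dist_eq_norm (W.Φ p.1)] at this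
    rwa [Complex.isometry_ofReal.dist_eq] at this
  have hK : (0 : ℝ) ≤ W.K := NNReal.coe_nonneg _
  have h0 := norm_nonneg (bm W m p - bm W m q)
  rw [dist_eq_norm p.2]
  push_cast
  apply max_le
  · nlinarith
  · nlinarith

theorem locfin_p (m : ℕ) : IsLocallyFiniteMeasure (W.ωp m) := by
  refine ⟨fun X => ⟨ball X 1, ball_mem_nhds X one_pos, ?_⟩⟩
  have h1 : Measurable (bm W m) := (bm_continuous W m).measurable
  show Measure.map (bm W m) (volume.prod volume) (ball X 1) < ⊤
  rw [Measure.map_apply h1 isOpen_ball.measurableSet]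
  exact ((bm_anti W m).isBounded_preimage isBounded_ball).measure_lt_top

theorem supp_p (m : ℕ) : W.ωp m {X | (W.inv (prj X)).im = 0}ᶜ = 0 := by
  have h1 : Measurable (bm W m) := (bm_continuous W m).measurable
  show Measure.map (bm W m) (volume.prod volume) _ = 0
  have hc : IsClosed {X : En (m + 2) | (W.inv (prj X)).im = 0} :=
    isClosed_eq (Complex.continuous_im.comp ((inv_continuous W).comp prj_continuous))
      continuous_const
  rw [Measure.map_apply h1 hc.isOpen_compl.measurableSet]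
  have : (bm W m) ⁻¹' {X | (W.inv (prj X)).im = 0}ᶜ = ∅ := by
    ext q
    simp only [mem_preimage, mem_compl_iff, mem_ofPred_eq, mem_empty_iff_false, iff_false,
      not_not]
    unfold bm
    rw [Glue.prj_glue, inv_Φ]
    exact Complex.ofReal_im _
  rw [this, measure_empty]

theorem conf_p : Conf W.f W.inv W.K where
  hol := W.fhol
  lip z w hz hw := by
    rw [← W.Φf z hz, ← W.Φf w hw, ← dist_eq_norm, ← dist_eq_norm]
    exact W.lip.dist_le_mul z w
  anti z w hz hw := by
    rw [← W.Φf z hz, ← W.Φf w hw, ← dist_eq_norm, ← dist_eq_norm]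
    exact W.anti.le_mul_dist z w
  cont := inv_continuous W
  right p hp := by rw [← W.Φf _ hp, Φ_inv]
  left z hz := by rw [← W.Φf _ hz, inv_Φ]

theorem c_mono_low {x y : ℝ} (hxy : x ≤ y) : Real.exp (-2) * (y - x) ≤ W.c y - W.c x := by
  have hd : ∀ t : ℝ, HasDerivAt (fun t => W.c t - Real.exp (-2) * t)
      (Real.exp (W.l t) - Real.exp (-2) * 1) t := fun t =>
    (W.cder t).sub ((hasDerivAt_id t).const_mul (Real.exp (-2)))
  have hm : MonotoneOn (fun t => W.c t - Real.exp (-2) * t) univ := by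
    apply monotoneOn_of_deriv_nonneg convex_univ
    · exact fun t _ => (hd t).continuousAt.continuousWithinAt
    · exact fun t _ => (hd t).differentiableAt.differentiableWithinAt
    · intro t _
      rw [(hd t).deriv, mul_one]
      have := (abs_le.1 (W.lbdd t)).1
      linarith [Real.exp_le_exp.2 this]
  have := hm (mem_univ x) (mem_univ y) hxy
  simp only at this
  linarith

theorem c_mono_up {x y : ℝ} (hxy : x ≤ y) : W.c y - W.c x ≤ Real.exp 2 * (y - x) := by
  have hd : ∀ t : ℝ, HasDerivAt (fun t => Real.exp 2 * t - W.c t)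
      (Real.exp 2 * 1 - Real.exp (W.l t)) t := fun t =>
    ((hasDerivAt_id t).const_mul (Real.exp 2)).sub (W.cder t)
  have hm : MonotoneOn (fun t => Real.exp 2 * t - W.c t) univ := by
    apply monotoneOn_of_deriv_nonneg convex_univ
    · exact fun t _ => (hd t).continuousAt.continuousWithinAt
    · exact fun t _ => (hd t).differentiableAt.differentiableWithinAt
    · intro t _
      rw [(hd t).deriv, mul_one]
      have := (abs_le.1 (W.lbdd t)).2
      linarith [Real.exp_le_exp.2 this]
  have := hm (mem_univ x) (mem_univ y) hxy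
  simp only at this
  linarith

theorem c_surj : Function.Surjective W.c := by
  have hlow : ∀ x y : ℝ, x ≤ y → Real.exp (-2) * (y - x) ≤ W.c y - W.c x :=
    fun x y h => c_mono_low W h
  have hc : Continuous W.c := continuous_iff_continuousAt.2 fun t => (W.cder t).continuousAt
  intro y
  have he := Real.exp_pos (-2)
  set R := (|y| + |W.c 0|) / Real.exp (-2) with hR
  have hR0 : 0 ≤ R := by positivity
  have hR1 : Real.exp (-2) * R = |y| + |W.c 0| := by rw [hR]; field_simp
  have h1 : W.c (-R) ≤ y := by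
    have := hlow (-R) 0 (by linarith)
    have h2 := neg_abs_le y
    have h3 := le_abs_self (W.c 0)
    nlinarith
  have h2 : y ≤ W.c R := by
    have := hlow 0 R hR0
    have h2 := le_abs_self y
    have h3 := neg_abs_le (W.c 0)
    nlinarith
  obtain ⟨x, -, hx⟩ := intermediate_value_Icc (by linarith : -R ≤ R) hc.continuousOn ⟨h1, h2⟩
  exact ⟨x, hx⟩

theorem c_low (x y : ℝ) : Real.exp (-2) * |x - y| ≤ |W.c x - W.c y| := by
  rcases le_total x y with h | h
  · have := c_mono_low W h
    rw [abs_sub_comm x y, abs_sub_comm (W.c x), abs_of_nonneg (sub_nonneg.2 h)]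
    exact this.trans (le_abs_self _)
  · have := c_mono_low W h
    rw [abs_of_nonneg (sub_nonneg.2 h)]
    exact this.trans (le_abs_self _)

theorem c_strictMono : StrictMono W.c := by
  intro x y h
  have := c_mono_low W h.le
  have h2 : 0 < Real.exp (-2) * (y - x) := mul_pos (Real.exp_pos _) (sub_pos.2 h)
  linarith

theorem c_up (x y : ℝ) : |W.c x - W.c y| ≤ Real.exp 2 * |x - y| := by
  rcases le_total x y with h | h
  · have := c_mono_up W h
    rw [abs_sub_comm x y, abs_sub_comm (W.c x), abs_of_nonneg (sub_nonneg.2 h),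
      abs_of_nonneg (sub_nonneg.2 ((c_strictMono W).monotone h))]
    exact this
  · have := c_mono_up W h
    rw [abs_of_nonneg (sub_nonneg.2 h),
      abs_of_nonneg (sub_nonneg.2 ((c_strictMono W).monotone h))]
    exact this

/-- the shear of the plane given by `c` -/
def sh (z : ℂ) : ℂ := (W.c z.re : ℂ) + z.im * Complex.I

theorem sh_re (z : ℂ) : (sh W z).re = W.c z.re := by simp [sh]

theorem sh_im (z : ℂ) : (sh W z).im = z.im := by simp [sh]

theorem norm_le_of_re_im {a b : ℂ} {C : ℝ} (hC : 1 ≤ C) (h1 : |a.re| ≤ C * |b.re|)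
    (h2 : |a.im| = |b.im|) : ‖a‖ ≤ C * ‖b‖ := by
  apply le_of_sq_le_sq _ (by positivity)
  rw [mul_pow, ← Complex.normSq_eq_norm_sq, ← Complex.normSq_eq_norm_sq, Complex.normSq_apply,
    Complex.normSq_apply]
  have h3 : a.re * a.re ≤ C ^ 2 * (b.re * b.re) := by
    have := mul_self_le_mul_self (abs_nonneg _) h1
    rw [abs_mul_abs_self] at this
    have e : C * |b.re| * (C * |b.re|) = C ^ 2 * (b.re * b.re) := by
      rw [← abs_mul_abs_self b.re]; ring
    rwa [e] at this
  have h4 : a.im * a.im = b.im * b.im := by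
    rw [← abs_mul_abs_self a.im, h2, abs_mul_abs_self]
  have h5 : (1 : ℝ) ≤ C ^ 2 := by nlinarith
  have h6 : 0 ≤ b.im * b.im := mul_self_nonneg _
  nlinarith

theorem sh_up (z w : ℂ) : ‖sh W z - sh W w‖ ≤ Real.exp 2 * ‖z - w‖ := by
  apply norm_le_of_re_im (Real.one_le_exp (by norm_num))
  · rw [Complex.sub_re, Complex.sub_re, sh_re, sh_re]
    exact c_up W _ _
  · rw [Complex.sub_im, Complex.sub_im, sh_im, sh_im]

theorem sh_low (z w : ℂ) : ‖z - w‖ ≤ Real.exp 2 * ‖sh W z - sh W w‖ := by
  apply norm_le_of_re_im (Real.one_le_exp (by norm_num))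
  · rw [Complex.sub_re, Complex.sub_re, sh_re, sh_re]
    have := c_low W z.re w.re
    have e : Real.exp 2 * Real.exp (-2) = 1 := by rw [← Real.exp_add]; norm_num
    calc |z.re - w.re| = Real.exp 2 * (Real.exp (-2) * |z.re - w.re|) := by
          rw [← mul_assoc, e, one_mul]
      _ ≤ _ := mul_le_mul_of_nonneg_left this (Real.exp_pos _).le
  · rw [Complex.sub_im, Complex.sub_im, sh_im, sh_im]

theorem sh_surj (z : ℂ) : ∃ w, sh W w = z := by
  obtain ⟨x, hx⟩ := c_surj W z.re
  refine ⟨⟨x, z.im⟩, Complex.ext ?_ ?_⟩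
  · rw [sh_re]; exact hx
  · rw [sh_im]

theorem sh_continuous : Continuous (sh W) := by
  apply (LipschitzWith.of_dist_le_mul (K := ⟨Real.exp 2, (Real.exp_pos 2).le⟩)
    (fun z w => ?_)).continuous
  rw [dist_eq_norm, dist_eq_norm]
  exact sh_up W z w

theorem Φ_sh {z : ℂ} (hz : z.im ≤ 0) : W.Φ z = W.g (sh W z) := W.Φg z hz

theorem conf_m : Conf (fun z => W.g (-z)) (fun p => -sh W (W.inv p))
    ((W.K + 1) * Real.exp 2) where
  hol := by
    intro z hz
    have hz' : (-z).im < 0 := by rw [Complex.neg_im]; exact neg_lt_zero.2 hz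
    have h1 : DifferentiableAt ℂ W.g (-z) :=
      (W.ghol _ hz').differentiableAt ((isOpen_lt Complex.continuous_im
        continuous_const).mem_nhds hz')
    exact (h1.comp z differentiable_neg.differentiableAt).differentiableWithinAt
  lip z w hz hw := by
    obtain ⟨a, ha⟩ := sh_surj W (-z)
    obtain ⟨b, hb⟩ := sh_surj W (-w)
    have ha' : a.im ≤ 0 := by rw [← sh_im W, ha, Complex.neg_im]; linarith
    have hb' : b.im ≤ 0 := by rw [← sh_im W, hb, Complex.neg_im]; linarith
    show ‖W.g (-z) - W.g (-w)‖ ≤ _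
    rw [← ha, ← hb, ← Φ_sh W ha', ← Φ_sh W hb']
    have h1 := W.lip.dist_le_mul a b
    rw [dist_eq_norm, dist_eq_norm] at h1
    have h2 := sh_low W a b
    rw [ha, hb] at h2
    have h3 : ‖-z - -w‖ = ‖z - w‖ := by rw [← norm_neg]; congr 1; ring
    rw [h3] at h2
    have h4 := norm_nonneg (z - w)
    have h5 := Real.exp_pos 2
    have h6 : (0 : ℝ) ≤ W.K := NNReal.coe_nonneg _
    calc ‖W.Φ a - W.Φ b‖ ≤ W.K * ‖a - b‖ := h1
      _ ≤ W.K * (Real.exp 2 * ‖z - w‖) := mul_le_mul_of_nonneg_left h2 h6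
      _ ≤ (W.K + 1) * Real.exp 2 * ‖z - w‖ := by nlinarith [mul_nonneg h5.le h4]
  anti z w hz hw := by
    obtain ⟨a, ha⟩ := sh_surj W (-z)
    obtain ⟨b, hb⟩ := sh_surj W (-w)
    have ha' : a.im ≤ 0 := by rw [← sh_im W, ha, Complex.neg_im]; linarith
    have hb' : b.im ≤ 0 := by rw [← sh_im W, hb, Complex.neg_im]; linarith
    show _ ≤ _ * ‖W.g (-z) - W.g (-w)‖
    rw [← ha, ← hb, ← Φ_sh W ha', ← Φ_sh W hb']
    have h1 := W.anti.le_mul_dist a b
    rw [dist_eq_norm, dist_eq_norm] at h1
    have h2 := sh_up W a b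
    rw [ha, hb] at h2
    have h3 : ‖-z - -w‖ = ‖z - w‖ := by rw [← norm_neg]; congr 1; ring
    rw [h3] at h2
    have h4 := norm_nonneg (W.Φ a - W.Φ b)
    have h5 := Real.exp_pos 2
    have h6 : (0 : ℝ) ≤ W.K := NNReal.coe_nonneg _
    calc ‖z - w‖ ≤ Real.exp 2 * ‖a - b‖ := h2
      _ ≤ Real.exp 2 * (W.K * ‖W.Φ a - W.Φ b‖) := mul_le_mul_of_nonneg_left h1 h5.le
      _ ≤ (W.K + 1) * Real.exp 2 * ‖W.Φ a - W.Φ b‖ := by nlinarith [mul_nonneg h5.le h4]
  cont := ((sh_continuous W).comp (inv_continuous W)).neg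
  right p hp := by
    simp only [neg_neg]
    have : (W.inv p).im ≤ 0 := by
      rw [Complex.neg_im, sh_im] at hp; linarith
    rw [← Φ_sh W this, Φ_inv]
  left z hz := by
    obtain ⟨a, ha⟩ := sh_surj W (-z)
    have ha' : a.im ≤ 0 := by rw [← sh_im W, ha, Complex.neg_im]; linarith
    show -sh W (W.inv (W.g (-z))) = z
    rw [← ha, ← Φ_sh W ha', inv_Φ, ha, neg_neg]

end

end Pole

theorem two_le : (2 : WithTop ℕ∞) ≤ ((⊤ : ℕ∞) : WithTop ℕ∞) := by
  have : ((2 : ℕ∞) : WithTop ℕ∞) ≤ ((⊤ : ℕ∞) : WithTop ℕ∞) := WithTop.coe_le_coe.2 le_top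
  exact this

/-- POLEP -/
theorem specPoleP (hH : SpecHarm) (hR : SpecRiesz) (hT : SpecTop) : SpecPoleP := by
  intro W m
  have hc := Pole.conf_p W
  have hup : Continuous (W.up m) := by
    show Continuous (fun X : En (m + 2) => max 0 (W.inv (prj X)).im)
    exact continuous_const.max (Complex.continuous_im.comp
      ((Pole.inv_continuous W).comp Pole.prj_continuous))
  refine ⟨hup, ?_, ?_, ?_, Pole.locfin_p W m, ?_, ?_⟩
  · intro x hx
    exact max_eq_left (not_lt.1 hx)
  · intro x hx
    exact lt_max_of_lt_right hx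
  · exact hH m _ _ hc.isOpen hc.harm
  · rw [(hT W m).2.1]
    exact Pole.supp_p W m
  · intro φ hφ hcs
    have hφ2 : ContDiff ℝ 2 φ := hφ.of_le two_le
    have h1 := hc.riesz hR hφ2 hcs
    show ∫ x, φ x ∂(Measure.map (Pole.bm W m) (volume.prod volume)) =
      ∫ X in {X : En (m + 2) | 0 < (W.inv (prj X)).im}, max 0 (W.inv (prj X)).im * (Δ φ) X
    rw [h1, integral_map (Pole.bm_continuous W m).measurable.aemeasurable
      hφ.continuous.aestronglyMeasurable, integral_prod_symm]
    · congr 1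
      funext t
      congr 1
      funext x
      show φ (glue (W.Φ x) t) = _
      rw [W.Φf _ (by simp)]
    · apply Continuous.integrable_of_hasCompactSupport
      · exact hφ.continuous.comp (Pole.bm_continuous W m)
      · have hb : Bornology.IsBounded ((Pole.bm W m) ⁻¹' tsupport φ) :=
          (Pole.bm_anti W m).isBounded_preimage hcs.isCompact.isBounded
        have hcl : IsClosed ((Pole.bm W m) ⁻¹' tsupport φ) :=
          (isClosed_tsupport φ).preimage (Pole.bm_continuous W m)
        apply HasCompactSupport.intro (isCompact_of_isClosed_isBounded hcl hb)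
        intro q hq
        exact image_eq_zero_of_notMem_tsupport hq

/-- POLEM -/
theorem specPoleM (hH : SpecHarm) (hR : SpecRiesz) (hT : SpecTop) : SpecPoleM := by
  intro W m
  have hc := Pole.conf_m W
  have him : ∀ p : ℂ, (-Pole.sh W (W.inv p)).im = -(W.inv p).im := by
    intro p; rw [Complex.neg_im, Pole.sh_im]
  have hset : ∀ p : ℂ, 0 < -(W.inv p).im ↔ (W.inv p).im < 0 := fun p => neg_pos
  have hum : Continuous (W.um m) := by
    show Continuous (fun X : En (m + 2) => max 0 (-(W.inv (prj X)).im))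
    exact continuous_const.max (Complex.continuous_im.comp
      ((Pole.inv_continuous W).comp Pole.prj_continuous)).neg
  have hh : Continuous (W.h m) := by
    show Continuous (fun X : En (m + 2) => Real.exp (W.l (W.inv (prj X)).re))
    exact Real.continuous_exp.comp (W.lcont.comp (Complex.continuous_re.comp
      ((Pole.inv_continuous W).comp Pole.prj_continuous)))
  have hlf := Pole.locfin_p W m
  refine ⟨hum, ?_, ?_, ?_, ?_, ?_, ?_⟩
  · intro x hx
    have : 0 ≤ (W.inv (prj x)).im := not_lt.1 hx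
    exact max_eq_left (by linarith)
  · intro x hx
    have : (W.inv (prj x)).im < 0 := hx
    exact lt_max_of_lt_right (by linarith)
  · have := hH m _ _ hc.isOpen hc.harm
    simp only [him, hset] at this
    exact this
  · exact IsLocallyFiniteMeasure.withDensity_ofReal hh
  · rw [(hT W m).2.2.1]
    exact withDensity_absolutelyContinuous _ _ (Pole.supp_p W m)
  · intro φ hφ hcs
    have hφ2 : ContDiff ℝ 2 φ := hφ.of_le two_le
    have h1 := hc.riesz hR hφ2 hcs
    simp only [him, hset] at h1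
    show ∫ x, φ x ∂((W.ωp m).withDensity (fun X => ENNReal.ofReal (W.h m X))) =
      ∫ X in {X : En (m + 2) | (W.inv (prj X)).im < 0}, max 0 (-(W.inv (prj X)).im) * (Δ φ) X
    rw [h1, integral_withDensity_eq_integral_toReal_smul hh.measurable.ennreal_ofReal
      (Eventually.of_forall fun _ => ENNReal.ofReal_lt_top)]
    show ∫ x, (ENNReal.ofReal (W.h m x)).toReal • φ x
      ∂(Measure.map (Pole.bm W m) (volume.prod volume)) = _
    have hpos : ∀ x, 0 < W.h m x := fun x => Real.exp_pos _
    have e0 : ∀ x, (ENNReal.ofReal (W.h m x)).toReal • φ x = W.h m x * φ x := by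
      intro x
      rw [ENNReal.toReal_ofReal (hpos x).le, smul_eq_mul]
    have hm : Continuous (fun x => W.h m x * φ x) := hh.mul hφ.continuous
    simp only [e0]
    rw [integral_map (Pole.bm_continuous W m).measurable.aemeasurable
      hm.aestronglyMeasurable, integral_prod_symm]
    · congr 1
      funext t
      -- change of variables
      have h2 := integral_image_eq_integral_abs_deriv_smul (s := univ) MeasurableSet.univ
        (f := W.c) (f' := fun x => Real.exp (W.l x)) (fun x _ => (W.cder x).hasDerivWithinAt)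
        (Pole.c_strictMono W).injective.injOn (fun y => φ (glue (W.g y) t))
      rw [image_univ, (Pole.c_surj W).range_eq, setIntegral_univ, setIntegral_univ] at h2
      have h3 : ∫ x : ℝ, φ (glue (W.g (-(x : ℂ))) t) = ∫ x : ℝ, φ (glue (W.g x) t) := by
        rw [← integral_neg_eq_self (fun x : ℝ => φ (glue (W.g x) t))]
        simp
      rw [h3, h2]
      congr 1
      funext x
      have e1 : W.h m (Pole.bm W m (x, t)) = Real.exp (W.l x) := by
        unfold Weld.h Pole.bm
        rw [Glue.prj_glue, Pole.inv_Φ, Complex.ofReal_re]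
      have e2 : Pole.bm W m (x, t) = glue (W.g (W.c x)) t := by
        unfold Pole.bm
        simp only
        rw [W.Φg _ (by simp)]
        simp
      rw [e1, e2, abs_of_pos (Real.exp_pos _), smul_eq_mul]
    · apply Continuous.integrable_of_hasCompactSupport
      · exact hm.comp (Pole.bm_continuous W m)
      · have hb : Bornology.IsBounded ((Pole.bm W m) ⁻¹' tsupport φ) :=
          (Pole.bm_anti W m).isBounded_preimage hcs.isCompact.isBounded
        have hcl : IsClosed ((Pole.bm W m) ⁻¹' tsupport φ) :=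
          (isClosed_tsupport φ).preimage (Pole.bm_continuous W m)
        apply HasCompactSupport.intro (isCompact_of_isClosed_isBounded hcl hb)
        intro q hq
        have : φ (Pole.bm W m q) = 0 := image_eq_zero_of_notMem_tsupport hq
        simp only [this, mul_zero]

end MP87
end
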