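import Pool.Agent.Lib.MP_87ece0_an.Spec

section
/-!
Assembly of the final statement.
-/
namespace MP87

open Filter Topology Set MeasureTheory Metric
open scoped InnerProductSpace ComplexConjugate Laplacian NNReal

noncomputable section

namespace Main

theorem inv_right (W : Weld) (p : ℂ) : W.Φ (W.inv p) = p :=
  Function.invFun_eq (W.surj p)

theorem inv_left (W : Weld) (z : ℂ) : W.inv (W.Φ z) = z :=
  Function.leftInverse_invFun W.anti.injective z

theorem inv_continuous (W : Weld) : Continuous W.inv := by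
  have h : LipschitzWith W.K W.inv := by
    intro x y
    have := W.anti (W.inv x) (W.inv y)
    rwa [inv_right, inv_right] at this
  exact h.continuous

theorem prj_continuous (m : ℕ) : Continuous (prj : En (m + 2) → ℂ) := by
  have h : (prj : En (m + 2) → ℂ) = fun X => ((X 0 : ℝ) : ℂ) + (X 1 : ℝ) * Complex.I := by
    funext X
    apply Complex.ext <;> simp [prj]
  rw [h]
  fun_prop

end Main

theorem final (hSeq : SpecSeq) (hLim : SpecLimW) (hDir : SpecDir) (hNTA : SpecNTA) (hTop : SpecTop)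
    (hPP : SpecPoleP) (hPM : SpecPoleM) (hBlow : SpecBlow) (hDim : SpecDimN) : Final := by
  intro n hn
  obtain ⟨m, rfl⟩ : ∃ m, n = m + 2 := ⟨n - 2, by omega⟩
  obtain ⟨s, b, nn, w, r, e, hs⟩ := hSeq
  obtain ⟨W, hW⟩ := hLim s b nn w r e hs
  obtain ⟨t1, t2, t3, Ψ, K, l1, l2, l3, o1, o2⟩ := hTop W m
  obtain ⟨M, n1, n2⟩ := hNTA m Ψ K l1 l2 l3
  refine ⟨W.Op m, W.Om m, W.up m, W.um m, W.ωp m, W.ωm m, W.h m, M, t1, by rw [t2, t3],
    by rw [o1]; exact n1, by rw [o2]; exact n2, hPP W m, hPM W m, rfl,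
    fun x _ => Real.exp_pos _, ?_, ?_⟩
  · have h : (fun X => Real.log (W.h m X)) = fun X => W.l (W.inv (prj X)).re := by
      funext X
      exact Real.log_exp _
    rw [h]
    exact (W.lcont.comp (Complex.continuous_re.comp ((Main.inv_continuous W).comp
      (Main.prj_continuous m)))).continuousOn
  · have h := hDim W m nn w hs.sparse (fun x hx t => hBlow W m x t (hDir s b nn w r e hs W hW x hx))
    rw [h]
    rfl

end

end MP87
end

section
/-!
NTA: bi-Lipschitz images of half spaces are non-tangentially accessible.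
-/
namespace MP87

open Filter Topology Set MeasureTheory Metric
open scoped InnerProductSpace ComplexConjugate Laplacian NNReal

noncomputable section

namespace Nta

variable {E : Type*} [NormedAddCommGroup E] [InnerProductSpace ℝ E]

/-- height with respect to the unit vector `e` -/
def ht (e x : E) : ℝ := ⟪e, x⟫_ℝ

theorem ht_add (e x y : E) : ht e (x + y) = ht e x + ht e y := inner_add_right _ _ _

theorem ht_smul (e : E) (t : ℝ) (x : E) : ht e (t • x) = t * ht e x := by
  unfold ht; rw [inner_smul_right]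

theorem ht_e {e : E} (he : ‖e‖ = 1) : ht e e = 1 := by
  unfold ht; rw [real_inner_self_eq_norm_sq, he]; norm_num

theorem ht_sub_le {e : E} (he : ‖e‖ = 1) (x y : E) : |ht e x - ht e y| ≤ dist x y := by
  unfold ht
  rw [← inner_sub_right, dist_eq_norm]
  have h := abs_real_inner_le_norm e (x - y)
  rwa [he, one_mul] at h

theorem ht_add_smul {e : E} (he : ‖e‖ = 1) (x : E) (t : ℝ) : ht e (x + t • e) = ht e x + t := by
  rw [ht_add, ht_smul, ht_e he, mul_one]

/-- one step of a chain -/
def Stp (e : E) (c : ℝ) (x y : E) : Prop :=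
  0 < ht e x ∧ 0 < ht e y ∧ (dist x y < c * ht e x ∨ dist x y < c * ht e y)

theorem Stp.symm {e : E} {c : ℝ} {x y : E} (h : Stp e c x y) : Stp e c y x := by
  refine ⟨h.2.1, h.1, ?_⟩
  rw [dist_comm y x]
  exact h.2.2.symm

/-- chains of length `N` -/
def Ch (e : E) (c : ℝ) : ℕ → E → E → Prop
  | 0 => fun x y => x = y
  | N + 1 => fun x y => ∃ z, Ch e c N x z ∧ Stp e c z y

theorem Ch.trans {e : E} {c : ℝ} {N : ℕ} {x y : E} (h : Ch e c N x y) :
    ∀ {N' : ℕ} {z : E}, Ch e c N' y z → Ch e c (N + N') x z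
  | 0, z, h' => by
    have : y = z := h'
    subst this
    exact h
  | N' + 1, z, h' => by
    obtain ⟨w, hw, hwz⟩ := h'
    exact ⟨w, h.trans hw, hwz⟩

theorem Ch.cons {e : E} {c : ℝ} {x y z : E} (h : Stp e c x y) {N : ℕ} (h' : Ch e c N y z) :
    Ch e c (N + 1) x z := by
  have h1 : Ch e c 1 x y := ⟨x, rfl, h⟩
  have h2 := h1.trans h'
  rwa [add_comm] at h2

theorem Ch.symm {e : E} {c : ℝ} : ∀ {N : ℕ} {x y : E}, Ch e c N x y → Ch e c N y x
  | 0, x, y, h => Eq.symm h
  | N + 1, x, y, h => by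
    obtain ⟨w, hw, hwz⟩ := h
    exact Ch.cons hwz.symm hw.symm

/-- chains may be prolonged by trivial steps -/
theorem Ch.refl {e : E} {c : ℝ} (hc : 0 < c) {x : E} (hx : 0 < ht e x) : ∀ N, Ch e c N x x
  | 0 => rfl
  | N + 1 => ⟨x, Ch.refl hc hx N, hx, hx, Or.inl (by rw [dist_self]; positivity)⟩

theorem Ch.mono {e : E} {c : ℝ} (hc : 0 < c) {x y : E} (hy : 0 < ht e y) {N N' : ℕ}
    (h : Ch e c N x y) (hN : N ≤ N') : Ch e c N' x y := by
  obtain ⟨k, rfl⟩ := Nat.exists_eq_add_of_le hN
  exact h.trans (Ch.refl hc hy k)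

/-- the sequence of points of a chain -/
theorem Ch.exists_seq {e : E} {c : ℝ} : ∀ {N : ℕ} {x y : E}, 0 < ht e x → Ch e c N x y →
    ∃ p : ℕ → E, p 0 = x ∧ p N = y ∧ (∀ j ≤ N, 0 < ht e (p j)) ∧
      ∀ j < N, dist (p j) (p (j + 1)) < c * ht e (p j) ∨
        dist (p j) (p (j + 1)) < c * ht e (p (j + 1))
  | 0, x, y, hx, h => by
    have : x = y := h
    subst this
    refine ⟨fun _ => x, rfl, rfl, fun _ _ => hx, fun j hj => absurd hj (Nat.not_lt_zero _)⟩
  | N + 1, x, y, hx, h => by
    obtain ⟨z, hz, hzy⟩ := h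
    obtain ⟨p, h0, hN, hp, hd⟩ := Ch.exists_seq hx hz
    refine ⟨fun j => if j ≤ N then p j else y, ?_, ?_, ?_, ?_⟩
    · simp [h0]
    · simp
    · intro j hj
      by_cases h : j ≤ N
      · simp only [h, if_true]; exact hp j h
      · simp only [h, if_false]; exact hzy.2.1
    · intro j hj
      by_cases h : j < N
      · have h1 : j ≤ N := h.le
        have h2 : j + 1 ≤ N := h
        simp only [h1, h2, if_true]
        exact hd j h
      · have h1 : j = N := by omega
        subst h1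
        have h2 : ¬ (j + 1 ≤ j) := by omega
        simp only [le_refl, h2, if_true, if_false, hN]
        exact hzy.2.2

/-- going up -/
theorem ch_up {e : E} (he : ‖e‖ = 1) {c δ : ℝ} (hδ : 0 < δ) (hδc : δ < c) :
    ∀ (N : ℕ) (x : E) (t : ℝ), 0 < ht e x → 0 ≤ t →
      ht e x + t ≤ (1 + δ) ^ N * ht e x → Ch e c N x (x + t • e)
  | 0, x, t, hx, ht0, h => by
    have : t = 0 := by
      rw [pow_zero, one_mul] at h; linarith
    subst this
    show x = x + (0 : ℝ) • e
    rw [zero_smul, add_zero]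
  | N + 1, x, t, hx, ht0, h => by
    set H := ht e x + t with hH
    set h' := max (ht e x) (H / (1 + δ)) with hh'
    have hHpos : 0 < H := by linarith
    have h1 : ht e x ≤ h' := le_max_left _ _
    have h2 : H / (1 + δ) ≤ h' := le_max_right _ _
    have h3 : h' ≤ H := by
      refine max_le (by linarith) ?_
      rw [div_le_iff₀ (by linarith)]
      nlinarith
    refine ⟨x + (h' - ht e x) • e, ch_up he hδ hδc N x (h' - ht e x) hx (by linarith) ?_, ?_⟩
    · have h4 : (1 : ℝ) ≤ (1 + δ) ^ N := one_le_pow₀ (by linarith)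
      have h5 : h' ≤ (1 + δ) ^ N * ht e x := by
        refine max_le (by nlinarith) ?_
        rw [div_le_iff₀ (by linarith)]
        rw [pow_succ] at h
        nlinarith
      linarith
    · have e1 : ht e (x + (h' - ht e x) • e) = h' := by rw [ht_add_smul he]; ring
      have e2 : ht e (x + t • e) = H := by rw [ht_add_smul he]
      have e3 : dist (x + (h' - ht e x) • e) (x + t • e) = H - h' := by
        rw [dist_eq_norm]
        have : x + (h' - ht e x) • e - (x + t • e) = (h' - H) • e := by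
          rw [hH]
          module
        rw [this, norm_smul, he, mul_one, Real.norm_eq_abs, abs_of_nonpos (by linarith)]
        ring
      refine ⟨by rw [e1]; linarith, by rw [e2]; linarith, Or.inl ?_⟩
      rw [e3, e1]
      have h6 : H ≤ h' * (1 + δ) := by
        rwa [div_le_iff₀ (by linarith)] at h2
      have h7 : 0 < h' := by linarith
      nlinarith

/-- going along a segment at height at least `h₀` -/
theorem ch_seg {e : E} {c δ h₀ : ℝ} (hδ : 0 < δ) (hδc : δ < c) (hh : 0 < h₀) :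
    ∀ (N : ℕ) (x y : E), h₀ ≤ ht e x → h₀ ≤ ht e y → dist x y ≤ N * (δ * h₀) → Ch e c N x y
  | 0, x, y, hx, hy, h => by
    rw [Nat.cast_zero, zero_mul] at h
    exact dist_le_zero.1 h
  | N + 1, x, y, hx, hy, h => by
    -- the point `z` on the segment with `dist z y = dist x y / (N + 1)`
    set s : ℝ := 1 / ((N : ℝ) + 1) with hs
    have hN : (0 : ℝ) < (N : ℝ) + 1 := by positivity
    have hs0 : 0 < s := by positivity
    have hs1 : s * ((N : ℝ) + 1) = 1 := by rw [hs]; field_simp
    have hsle : s ≤ 1 := by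
      rw [hs, div_le_one hN]
      have : (0 : ℝ) ≤ N := Nat.cast_nonneg _
      linarith
    have hd1 : dist x (y + s • (x - y)) = (1 - s) * dist x y := by
      rw [dist_eq_norm, dist_eq_norm]
      have : x - (y + s • (x - y)) = (1 - s) • (x - y) := by module
      rw [this, norm_smul, Real.norm_eq_abs, abs_of_nonneg (by linarith)]
    have hd2 : dist (y + s • (x - y)) y = s * dist x y := by
      rw [dist_eq_norm, dist_eq_norm]
      have : y + s • (x - y) - y = s • (x - y) := by module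
      rw [this, norm_smul, Real.norm_eq_abs, abs_of_nonneg hs0.le]
    have hz : h₀ ≤ ht e (y + s • (x - y)) := by
      have : ht e (y + s • (x - y)) = (1 - s) * ht e y + s * ht e x := by
        have h1 : y + s • (x - y) = (1 - s) • y + s • x := by module
        rw [h1, ht_add, ht_smul, ht_smul]
      rw [this]
      nlinarith
    push_cast at h
    have hds : s * dist x y ≤ δ * h₀ := by
      calc s * dist x y ≤ s * (((N : ℝ) + 1) * (δ * h₀)) := by gcongr
        _ = (s * ((N : ℝ) + 1)) * (δ * h₀) := by ring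
        _ = δ * h₀ := by rw [hs1, one_mul]
    refine ⟨y + s • (x - y), ch_seg hδ hδc hh N x _ hx hz ?_, by linarith, by linarith,
      Or.inr ?_⟩
    · rw [hd1]
      have h1s : 1 - s = N * s := by linarith
      rw [h1s]
      calc (N : ℝ) * s * dist x y = N * (s * dist x y) := by ring
        _ ≤ N * (δ * h₀) := by gcongr
    · rw [hd2]
      have : δ * h₀ < c * ht e y := by nlinarith
      linarith

/-- the chain condition in the half space -/
theorem ch_exists {κ : ℝ} (hκ : 1 ≤ κ) {c : ℝ} (hc : 0 < c) :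
    ∃ L : ℝ, 0 < L ∧ ∀ e : E, ‖e‖ = 1 → ∀ (a : ℝ) (k : ℕ) (x y : E), 0 < a → a ≤ ht e x →
      a ≤ ht e y → dist x y ≤ κ ^ 2 * 2 ^ k * a →
      ∃ N : ℕ, (N : ℝ) ≤ L * (k + 1) ∧ Ch e c N x y := by
  set δ : ℝ := c / 2 with hδ
  have hδ0 : 0 < δ := by positivity
  have hδc : δ < c := by rw [hδ]; linarith
  obtain ⟨n₀, hn₀⟩ := pow_unbounded_of_one_lt (max 2 (κ ^ 2)) (show (1 : ℝ) < 1 + δ by linarith)
  have hn1 : (2 : ℝ) ≤ (1 + δ) ^ n₀ := (le_max_left _ _).trans hn₀.le
  have hn2 : κ ^ 2 ≤ (1 + δ) ^ n₀ := (le_max_right _ _).trans hn₀.le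
  obtain ⟨n₂, hn₂⟩ := exists_nat_ge (2 / δ)
  refine ⟨2 * n₀ + n₂ + 1, by positivity, ?_⟩
  intro e he a k x y ha hx hy hxy
  set D : ℝ := κ ^ 2 * 2 ^ k * a with hD
  have hκ2 : 1 ≤ κ ^ 2 := one_le_pow₀ hκ
  have h2k : (1 : ℝ) ≤ 2 ^ k := one_le_pow₀ (by norm_num)
  have hD0 : 0 < D := by positivity
  have hpow : κ ^ 2 * 2 ^ k ≤ (1 + δ) ^ (n₀ * (k + 1)) := by
    rw [pow_mul, pow_succ]
    have h3 : (2 : ℝ) ^ k ≤ ((1 + δ) ^ n₀) ^ k := pow_le_pow_left₀ (by norm_num) hn1 k
    calc κ ^ 2 * 2 ^ k ≤ (1 + δ) ^ n₀ * ((1 + δ) ^ n₀) ^ k := by gcongr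
      _ = _ := mul_comm _ _
  have up : ∀ z : E, a ≤ ht e z →
      Ch e c (n₀ * (k + 1)) z (z + max 0 (D - ht e z) • e) := by
    intro z hz
    have hz0 : 0 < ht e z := lt_of_lt_of_le ha hz
    refine ch_up he hδ0 hδc _ z _ hz0 (le_max_left _ _) ?_
    have h4 : (1 : ℝ) ≤ (1 + δ) ^ (n₀ * (k + 1)) := one_le_pow₀ (by linarith)
    rcases le_total 0 (D - ht e z) with h | h
    · rw [max_eq_right h]
      calc ht e z + (D - ht e z) = κ ^ 2 * 2 ^ k * a := by rw [hD]; ring
        _ ≤ (1 + δ) ^ (n₀ * (k + 1)) * ht e z := by gcongr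
    · rw [max_eq_left h, add_zero]
      nlinarith
  have hh : ∀ z : E, ht e (z + max 0 (D - ht e z) • e) = max D (ht e z) := by
    intro z
    rw [ht_add_smul he]
    rcases le_total 0 (D - ht e z) with h | h
    · rw [max_eq_right h, max_eq_left (by linarith)]; ring
    · rw [max_eq_left h, max_eq_right (by linarith)]; ring
  have hht := ht_sub_le he x y
  have hseg : Ch e c n₂ (x + max 0 (D - ht e x) • e) (y + max 0 (D - ht e y) • e) := by
    refine ch_seg hδ0 hδc hD0 _ _ _ (by rw [hh]; exact le_max_left _ _)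
      (by rw [hh]; exact le_max_left _ _) ?_
    have h5 : dist (x + max 0 (D - ht e x) • e) (y + max 0 (D - ht e y) • e) ≤ D + D := by
      refine (dist_add_add_le _ _ _ _).trans (add_le_add hxy ?_)
      rw [dist_eq_norm, ← sub_smul, norm_smul, he, mul_one, Real.norm_eq_abs]
      have h6 : |max 0 (D - ht e x) - max 0 (D - ht e y)| ≤ |(D - ht e x) - (D - ht e y)| := by
        have := abs_max_sub_max_le_abs (D - ht e x) (D - ht e y) 0
        rwa [max_comm _ (0 : ℝ), max_comm _ (0 : ℝ)] at this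
      have h7 : |(D - ht e x) - (D - ht e y)| = |ht e x - ht e y| := by
        rw [← abs_neg]; congr 1; ring
      rw [h7] at h6
      linarith
    refine h5.trans ?_
    have h8 : 2 ≤ (n₂ : ℝ) * δ := by rwa [div_le_iff₀ hδ0] at hn₂
    nlinarith
  have hy0 : 0 < ht e y := lt_of_lt_of_le ha hy
  refine ⟨n₀ * (k + 1) + n₂ + n₀ * (k + 1), ?_, ((up x hx).trans hseg).trans (up y hy).symm⟩
  push_cast
  have hk : (0 : ℝ) ≤ k := Nat.cast_nonneg _
  have hn₂' : (0 : ℝ) ≤ n₂ := Nat.cast_nonneg _
  nlinarith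


/-! ### The domain -/

theorem frontier_half {e : E} (he : ‖e‖ = 1) :
    frontier {x : E | 0 < ht e x} = {x | ht e x = 0} := by
  have hcont : Continuous (fun x : E => ht e x) := by
    unfold ht; fun_prop
  have hopen : IsOpenMap (fun x : E => ht e x) := by
    intro U hU
    rw [Metric.isOpen_iff] at hU ⊢
    rintro _ ⟨x, hx, rfl⟩
    obtain ⟨ε, hε, hb⟩ := hU x hx
    refine ⟨ε, hε, fun t htt => ?_⟩
    refine ⟨x + (t - ht e x) • e, hb ?_, ?_⟩
    · rw [mem_ball, dist_eq_norm, add_sub_cancel_left, norm_smul, he, mul_one]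
      rwa [mem_ball, Real.dist_eq] at htt
    · show ht e (x + (t - ht e x) • e) = t
      rw [ht_add_smul he]; ring
  have h := hopen.preimage_frontier_eq_frontier_preimage hcont (Ioi 0)
  rw [frontier_Ioi] at h
  exact h.symm

theorem closure_half {e : E} (he : ‖e‖ = 1) :
    closure {x : E | 0 < ht e x} = {x | 0 ≤ ht e x} := by
  have hcont : Continuous (fun x : E => ht e x) := by
    unfold ht; fun_prop
  have hopen : IsOpen {x : E | 0 < ht e x} := isOpen_lt continuous_const hcont
  rw [closure_eq_self_union_frontier, frontier_half he]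
  ext x
  rw [mem_union]
  show (0 < ht e x ∨ ht e x = 0) ↔ 0 ≤ ht e x
  constructor
  · rintro (h | h)
    · exact h.le
    · exact h.ge
  · intro h
    rcases h.lt_or_eq with h | h
    · exact Or.inl h
    · exact Or.inr h.symm

/-- bi-Lipschitz homeomorphisms -/
structure BL (Ψ : E → E) (κ : ℝ) : Prop where
  one_le : 1 ≤ κ
  upper : ∀ x y, dist (Ψ x) (Ψ y) ≤ κ * dist x y
  lower : ∀ x y, dist x y ≤ κ * dist (Ψ x) (Ψ y)
  surj : Function.Surjective Ψ

omit [InnerProductSpace ℝ E] in
theorem BL.exists_homeo {Ψ : E → E} {κ : ℝ} (h : BL Ψ κ) :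
    ∃ Φ : E ≃ₜ E, ∀ x, Φ x = Ψ x := by
  have hκ0 : 0 ≤ κ := zero_le_one.trans h.one_le
  have hL : LipschitzWith ⟨κ, hκ0⟩ Ψ := LipschitzWith.of_dist_le_mul h.upper
  have hA : AntilipschitzWith ⟨κ, hκ0⟩ Ψ := AntilipschitzWith.of_le_mul_dist h.lower
  have hemb : IsEmbedding Ψ := (hA.isUniformEmbedding hL.uniformContinuous).isEmbedding
  have hh : IsHomeomorph Ψ := isHomeomorph_iff_isEmbedding_surjective.2 ⟨hemb, h.surj⟩
  exact ⟨hh.homeomorph, fun x => rfl⟩

theorem BL.infDist_le {Ψ : E → E} {κ : ℝ} (h : BL Ψ κ) {e : E} (he : ‖e‖ = 1) (x : E) :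
    infDist (Ψ x) (Ψ '' {y | ht e y = 0}) ≤ κ * |ht e x| := by
  have h1 : x + (-(ht e x)) • e ∈ {y | ht e y = 0} := by
    show ht e (x + (-(ht e x)) • e) = 0
    rw [ht_add_smul he]; ring
  refine (infDist_le_dist_of_mem (mem_image_of_mem Ψ h1)).trans ?_
  refine (h.upper _ _).trans ?_
  have h2 : dist x (x + (-(ht e x)) • e) = |ht e x| := by
    rw [dist_eq_norm]
    have : x - (x + (-(ht e x)) • e) = (ht e x) • e := by module
    rw [this, norm_smul, he, mul_one, Real.norm_eq_abs]
  rw [h2]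

theorem BL.le_infDist {Ψ : E → E} {κ : ℝ} (h : BL Ψ κ) {e : E} (he : ‖e‖ = 1) (x : E) :
    |ht e x| / κ ≤ infDist (Ψ x) (Ψ '' {y | ht e y = 0}) := by
  have hκ0 : 0 < κ := zero_lt_one.trans_le h.one_le
  have hne : (Ψ '' {y | ht e y = 0}).Nonempty := ⟨Ψ 0, 0, by simp [ht], rfl⟩
  rw [Metric.le_infDist hne]
  rintro _ ⟨y, hy, rfl⟩
  rw [div_le_iff₀ hκ0]
  have h1 := ht_sub_le he x y
  have hy' : ht e y = 0 := hy
  rw [hy', sub_zero] at h1
  calc |ht e x| ≤ dist x y := h1
    _ ≤ κ * dist (Ψ x) (Ψ y) := h.lower x y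
    _ = dist (Ψ x) (Ψ y) * κ := mul_comm _ _

end Nta

open Nta in
theorem nta_core {n : ℕ} {κ : ℝ} (hκ : 1 ≤ κ) :
    ∃ M : ℝ, ∀ (Ψ : En n → En n), BL Ψ κ → ∀ e : En n, ‖e‖ = 1 →
      IsNTA (Ψ '' {x | 0 < ht e x}) M := by
  have hκ0 : 0 < κ := zero_lt_one.trans_le hκ
  have hκ2 : 1 ≤ κ ^ 2 := one_le_pow₀ hκ
  obtain ⟨L, hL, hch⟩ := ch_exists (E := En n) hκ (c := 1 / (2 * κ ^ 2)) (by positivity)
  refine ⟨max (2 * κ ^ 2 + 1) L, ?_⟩
  set M : ℝ := max (2 * κ ^ 2 + 1) L with hM
  have hM1 : 2 * κ ^ 2 + 1 ≤ M := le_max_left _ _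
  have hM2 : L ≤ M := le_max_right _ _
  intro Ψ hΨ e he
  obtain ⟨Φ, hΦ⟩ := hΨ.exists_homeo
  have hΦi : ∀ S : Set (En n), Ψ '' S = Φ '' S := fun S => by
    apply Set.image_congr
    intro a _
    exact (hΦ a).symm
  have hcont : Continuous (fun x : En n => ht e x) := by
    unfold ht; fun_prop
  have hHo : IsOpen {x : En n | 0 < ht e x} := isOpen_lt continuous_const hcont
  have hfr : frontier (Ψ '' {x | 0 < ht e x}) = Ψ '' {x | ht e x = 0} := by
    rw [hΦi, hΦi, ← Φ.image_frontier, frontier_half he]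
  have hcl : closure (Ψ '' {x | 0 < ht e x}) = Ψ '' {x | 0 ≤ ht e x} := by
    rw [hΦi, hΦi, ← Φ.image_closure, closure_half he]
  have hop : IsOpen (Ψ '' {x | 0 < ht e x}) := by
    rw [hΦi]; exact Φ.isOpenMap _ hHo
  -- balls not meeting the frontier
  have hball : ∀ x : En n, 0 < ht e x → ∀ r : ℝ, 0 < r →
      r ≤ infDist (Ψ x) (Ψ '' {y | ht e y = 0}) → ball (Ψ x) r ⊆ Ψ '' {x | 0 < ht e x} := by
    intro x hx r hr hri
    refine IsPreconnected.subset_left_of_subset_union hop
      (isClosed_closure (s := Ψ '' {x | 0 < ht e x})).isOpen_compl ?_ ?_ ?_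
      (convex_ball _ _).isPreconnected
    · rw [Set.disjoint_compl_right_iff_subset]
      exact subset_closure
    · intro z hz
      by_cases h1 : z ∈ closure (Ψ '' {x | 0 < ht e x})
      · left
        rw [closure_eq_self_union_frontier] at h1
        rcases h1 with h1 | h1
        · exact h1
        · exfalso
          rw [hfr] at h1
          have h2 := infDist_le_dist_of_mem (x := Ψ x) h1
          rw [mem_ball, dist_comm] at hz
          linarith
      · right; exact h1
    · exact ⟨Ψ x, mem_ball_self hr, x, hx, rfl⟩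
  refine ⟨hop, ?_, ?_, ?_, ?_, ?_⟩
  · -- connected
    have h1 : IsConnected {x : En n | 0 < ht e x} := by
      refine ⟨⟨e, ?_⟩, ?_⟩
      · show 0 < ht e e
        rw [ht_e he]; norm_num
      · apply Convex.isPreconnected
        intro a ha b hb s t hs hts hst
        show 0 < ht e (s • a + t • b)
        rw [ht_add, ht_smul, ht_smul]
        have ha' : 0 < ht e a := ha
        have hb' : 0 < ht e b := hb
        rcases hs.lt_or_eq with h | h
        · have := mul_pos h ha'
          have := mul_nonneg hts hb'.le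
          linarith
        · have : t = 1 := by linarith
          rw [this, ← h]
          linarith
    have h2 := h1.image Φ Φ.continuous.continuousOn
    rw [hΦi]
    exact h2
  · nlinarith
  · -- corkscrew
    intro Q hQ r hr
    rw [hfr] at hQ ⊢
    obtain ⟨q, hq, rfl⟩ := hQ
    have hq' : ht e q = 0 := hq
    have hq1 : ht e (q + (r / (2 * κ)) • e) = r / (2 * κ) := by
      rw [ht_add_smul he, hq', zero_add]
    have hpos : 0 < r / (2 * κ) := by positivity
    refine ⟨Ψ (q + (r / (2 * κ)) • e), ⟨_, ?_, rfl⟩, ?_, ?_⟩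
    · show 0 < ht e _
      rw [hq1]; exact hpos
    · refine (hΨ.upper _ _).trans_lt ?_
      rw [dist_eq_norm, add_sub_cancel_left, norm_smul, he, mul_one, Real.norm_eq_abs,
        abs_of_pos hpos]
      have : κ * (r / (2 * κ)) = r / 2 := by field_simp
      rw [this]; linarith
    · refine lt_of_lt_of_le ?_ (hΨ.le_infDist he _)
      rw [hq1, abs_of_pos hpos, div_div, div_lt_div_iff₀ (by nlinarith) (by positivity)]
      have : 2 * κ * κ < M := by nlinarith
      nlinarith
  · -- exterior corkscrew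
    intro Q hQ r hr
    rw [hfr] at hQ ⊢
    rw [hcl]
    obtain ⟨q, hq, rfl⟩ := hQ
    have hq' : ht e q = 0 := hq
    have hpos : 0 < r / (2 * κ) := by positivity
    have hq1 : ht e (q + (-(r / (2 * κ))) • e) = -(r / (2 * κ)) := by
      rw [ht_add_smul he, hq', zero_add]
    refine ⟨Ψ (q + (-(r / (2 * κ))) • e), ?_, ?_, ?_⟩
    · rintro ⟨y, hy, hyq⟩
      have : y = q + (-(r / (2 * κ))) • e := by
        rw [← hΦ, ← hΦ] at hyq
        exact Φ.injective hyq
      rw [this] at hy
      have hy' : 0 ≤ ht e (q + (-(r / (2 * κ))) • e) := hy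
      rw [hq1] at hy'
      linarith
    · refine (hΨ.upper _ _).trans_lt ?_
      rw [dist_eq_norm, add_sub_cancel_left, norm_smul, he, mul_one, Real.norm_eq_abs, abs_neg,
        abs_of_pos hpos]
      have : κ * (r / (2 * κ)) = r / 2 := by field_simp
      rw [this]; linarith
    · refine lt_of_lt_of_le ?_ (hΨ.le_infDist he _)
      rw [hq1, abs_neg, abs_of_pos hpos, div_div, div_lt_div_iff₀ (by nlinarith) (by positivity)]
      have : 2 * κ * κ < M := by nlinarith
      nlinarith
  · -- Harnack chains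
    intro ε hε k X hX Y hY hXε hYε hXY
    rw [hfr] at hXε hYε
    obtain ⟨x, hx, rfl⟩ := hX
    obtain ⟨y, hy, rfl⟩ := hY
    have hx' : 0 < ht e x := hx
    have hy' : 0 < ht e y := hy
    have hxa : ε / κ ≤ ht e x := by
      rw [div_le_iff₀ hκ0]
      have := hXε.trans (hΨ.infDist_le he x)
      rw [abs_of_pos hx'] at this
      linarith
    have hya : ε / κ ≤ ht e y := by
      rw [div_le_iff₀ hκ0]
      have := hYε.trans (hΨ.infDist_le he y)
      rw [abs_of_pos hy'] at this
      linarith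
    have hxy : dist x y ≤ κ ^ 2 * 2 ^ k * (ε / κ) := by
      calc dist x y ≤ κ * dist (Ψ x) (Ψ y) := hΨ.lower x y
        _ ≤ κ * (2 ^ k * ε) := by gcongr
        _ = κ ^ 2 * 2 ^ k * (ε / κ) := by field_simp
    obtain ⟨N, hN, hNc⟩ := hch e he (ε / κ) k x y (by positivity) hxa hya hxy
    obtain ⟨p, hp0, hpN, hp, hd⟩ := hNc.exists_seq hx'
    have hdpos : ∀ j ≤ N, 0 < infDist (Ψ (p j)) (Ψ '' {y | ht e y = 0}) := by
      intro j hj
      refine lt_of_lt_of_le ?_ (hΨ.le_infDist he _)
      rw [abs_of_pos (hp j hj)]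
      exact div_pos (hp j hj) hκ0
    refine ⟨N, fun j => Ψ (p j), fun j => infDist (Ψ (p j)) (Ψ '' {y | ht e y = 0}) / 2,
      ?_, ?_, ?_, ?_, ?_⟩
    · refine hN.trans ?_
      have : (0 : ℝ) ≤ k := Nat.cast_nonneg _
      gcongr
    · show Ψ x ∈ ball (Ψ (p 0)) (infDist (Ψ (p 0)) (Ψ '' {y | ht e y = 0}) / 2)
      have := hdpos 0 (Nat.zero_le _)
      rw [hp0] at this ⊢
      apply mem_ball_self
      linarith
    · show Ψ y ∈ ball (Ψ (p N)) (infDist (Ψ (p N)) (Ψ '' {y | ht e y = 0}) / 2)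
      have := hdpos N le_rfl
      rw [hpN] at this ⊢
      apply mem_ball_self
      linarith
    · intro j hj
      have hdj := hdpos j hj
      refine ⟨by linarith, ?_, ?_, ?_⟩
      · exact hball _ (hp j hj) _ (by linarith) (by linarith)
      · rw [hfr]
        rw [div_le_iff₀ (by nlinarith)]
        nlinarith
      · rw [hfr]
        nlinarith
    · intro j hj
      have key : ∀ a b : En n, 0 < ht e a → dist a b < 1 / (2 * κ ^ 2) * ht e a →
          dist (Ψ a) (Ψ b) < infDist (Ψ a) (Ψ '' {y | ht e y = 0}) / 2 := by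
        intro a b ha hab
        have h1 := hΨ.le_infDist he a
        rw [abs_of_pos ha] at h1
        calc dist (Ψ a) (Ψ b) ≤ κ * dist a b := hΨ.upper a b
          _ < κ * (1 / (2 * κ ^ 2) * ht e a) := by gcongr
          _ = (ht e a / κ) / 2 := by field_simp
          _ ≤ _ := by linarith
      rcases hd j hj with h | h
      · refine ⟨Ψ (p (j + 1)), ?_, ?_⟩
        · rw [mem_ball, dist_comm]
          exact key _ _ (hp j hj.le) h
        · apply mem_ball_self
          have := hdpos (j + 1) hj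
          linarith
      · refine ⟨Ψ (p j), ?_, ?_⟩
        · apply mem_ball_self
          have := hdpos j hj.le
          linarith
        · rw [mem_ball, dist_comm]
          rw [dist_comm] at h
          exact key _ _ (hp (j + 1) hj) h

open Nta in
theorem specNTA : SpecNTA := by
  intro m Ψ K hL hA hs
  set κ : ℝ := max 1 (K : ℝ) with hκ
  have hK : (K : ℝ) ≤ κ := le_max_right _ _
  have hBL : BL Ψ κ := by
    refine ⟨le_max_left _ _, fun x y => ?_, fun x y => ?_, hs⟩
    · exact (hL.dist_le_mul x y).trans (mul_le_mul_of_nonneg_right hK dist_nonneg)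
    · exact (hA.le_mul_dist x y).trans (mul_le_mul_of_nonneg_right hK dist_nonneg)
  obtain ⟨M, hM⟩ := nta_core (n := m + 2) hBL.one_le
  refine ⟨M, ?_, ?_⟩
  · have h := hM Ψ hBL (EuclideanSpace.single 1 (1 : ℝ)) (by simp)
    have e1 : {x : En (m + 2) | 0 < ht (EuclideanSpace.single 1 (1 : ℝ)) x} = {X | 0 < X 1} := by
      ext x
      simp [ht, EuclideanSpace.inner_single_left]
    rwa [e1] at h
  · have h := hM Ψ hBL (-(EuclideanSpace.single 1 (1 : ℝ))) (by simp)
    have e1 : {x : En (m + 2) | 0 < ht (-(EuclideanSpace.single 1 (1 : ℝ))) x} =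
        {X | X 1 < 0} := by
      ext x
      simp [ht, EuclideanSpace.inner_single_left]
    rwa [e1] at h

end

end MP87
end

section
/-!
REFLECT: Schwarz reflection for periodic functions on a strip, by Fourier series.
-/
namespace MP87.Reflect

open Filter Topology Set MeasureTheory Metric
open scoped ComplexConjugate Interval

noncomputable section

/-- the character `exp (2πinz)` -/
def ch (n : ℤ) (z : ℂ) : ℂ := Complex.exp (2 * Real.pi * Complex.I * n * z)

lemma ch_add_one (n : ℤ) (z : ℂ) : ch n (z + 1) = ch n z := by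
  unfold ch
  rw [mul_add, Complex.exp_add, mul_one]
  have : Complex.exp (2 * Real.pi * Complex.I * n) = 1 := by
    have := Complex.exp_int_mul_two_pi_mul_I n
    rw [← this]; congr 1; ring
  rw [this, mul_one]

lemma ch_diff (n : ℤ) : Differentiable ℂ (ch n) := by
  unfold ch; fun_prop

lemma norm_ch (n : ℤ) (z : ℂ) : ‖ch n z‖ = Real.exp (-(2 * Real.pi * n * z.im)) := by
  unfold ch
  rw [Complex.norm_exp]
  congr 1
  simp [Complex.mul_re, Complex.mul_im]

lemma ch_neg_mul (n : ℤ) (z : ℂ) : ch (-n) z * ch n z = 1 := by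
  unfold ch
  rw [← Complex.exp_add]
  rw [show 2 * (Real.pi : ℂ) * Complex.I * ((-n : ℤ) : ℂ) * z + 2 * Real.pi * Complex.I * n * z = 0 by
    push_cast; ring, Complex.exp_zero]

lemma conj_ch (n : ℤ) (z : ℂ) : conj (ch n z) = ch (-n) (conj z) := by
  unfold ch
  rw [← Complex.exp_conj]
  congr 1
  simp only [map_mul, Complex.conj_ofReal, Complex.conj_I, map_ofNat, map_intCast, Int.cast_neg]
  ring

lemma ch_add (n : ℤ) (z w : ℂ) : ch n (z + w) = ch n z * ch n w := by
  unfold ch
  rw [← Complex.exp_add]; congr 1; ring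

/-- Fourier coefficient on the line `im z = t` -/
def co (p : ℂ → ℂ) (n : ℤ) (t : ℝ) : ℂ :=
  ∫ x in (0:ℝ)..1, ch (-n) (x + t * Complex.I) * p (x + t * Complex.I)

/-- the strip -/
abbrev St (ρ : ℝ) : Set ℂ := {z : ℂ | -ρ < z.im ∧ z.im < 0}

variable {ρ : ℝ} {p : ℂ → ℂ}

lemma co_const (hp : DifferentiableOn ℂ p (St ρ)) (hper : ∀ z ∈ St ρ, p (z + 1) = p z)
    (n : ℤ) {s t : ℝ} (hs : -ρ < s) (hs0 : s < 0) (ht : -ρ < t) (ht0 : t < 0) :
    co p n s = co p n t := by
  have hsub : ([[(0:ℝ), 1]] ×ℂ [[s, t]]) ⊆ St ρ := by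
    intro z hz
    rw [Complex.mem_reProdIm] at hz
    obtain ⟨-, h2⟩ := hz
    rw [mem_uIcc] at h2
    constructor
    · rcases h2 with h | h <;> linarith [h.1, h.2]
    · rcases h2 with h | h <;> linarith [h.1, h.2]
  have key := Complex.integral_boundary_rect_eq_zero_of_differentiableOn
    (fun z => ch (-n) z * p z) (⟨0, s⟩ : ℂ) (⟨1, t⟩ : ℂ)
    (((ch_diff (-n)).differentiableOn.mul hp).mono hsub)
  simp only at key
  have hv : (∫ y : ℝ in s..t, ch (-n) (((1:ℝ):ℂ) + y * Complex.I) * p (((1:ℝ):ℂ) + y * Complex.I)) =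
      ∫ y : ℝ in s..t, ch (-n) (((0:ℝ):ℂ) + y * Complex.I) * p (((0:ℝ):ℂ) + y * Complex.I) := by
    apply intervalIntegral.integral_congr
    intro y hy
    have hy' : ((0:ℂ) + y * Complex.I) ∈ St ρ := by
      have := hsub (show (⟨0, y⟩ : ℂ) ∈ [[(0:ℝ), 1]] ×ℂ [[s, t]] from by
        rw [Complex.mem_reProdIm]; exact ⟨left_mem_uIcc, hy⟩)
      have e : ((0:ℂ) + y * Complex.I) = ⟨0, y⟩ := by
        apply Complex.ext <;> simp
      rw [e]; exact this
    have e1 : ((1:ℝ):ℂ) + y * Complex.I = (((0:ℝ):ℂ) + y * Complex.I) + 1 := by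
      push_cast; ring
    simp only
    rw [e1, ch_add_one, hper _ (by simpa using hy')]
  rw [hv] at key
  unfold co
  have : ∀ a b c : ℂ, a - b + c - c = 0 → a = b := by
    intro a b c h; linear_combination h
  exact this _ _ _ key

lemma line_cont (hp : DifferentiableOn ℂ p (St ρ)) {t : ℝ} (ht : -ρ < t) (ht0 : t < 0) :
    Continuous (fun x : ℝ => p (x + t * Complex.I)) := by
  have h1 : ContinuousOn p (St ρ) := hp.continuousOn
  have h2 : Continuous (fun x : ℝ => (x + t * Complex.I : ℂ)) := by fun_prop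
  exact h1.comp_continuous h2 (fun x => by constructor <;> simp [ht, ht0])

lemma line_per (hper : ∀ z ∈ St ρ, p (z + 1) = p z) {t : ℝ} (ht : -ρ < t) (ht0 : t < 0) :
    Function.Periodic (fun x : ℝ => p (x + t * Complex.I)) 1 := by
  intro x
  have := hper (x + t * Complex.I) (by constructor <;> simp [ht, ht0])
  show p (((x + 1 : ℝ) : ℂ) + t * Complex.I) = p ((x : ℂ) + t * Complex.I)
  rw [← this]; congr 1; push_cast; ring

lemma line_bdd (hp : DifferentiableOn ℂ p (St ρ)) (hper : ∀ z ∈ St ρ, p (z + 1) = p z)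
    {t : ℝ} (ht : -ρ < t) (ht0 : t < 0) :
    ∃ C : ℝ, 0 ≤ C ∧ ∀ x : ℝ, ‖p (x + t * Complex.I)‖ ≤ C := by
  obtain ⟨C, hC⟩ := isCompact_Icc.exists_bound_of_continuousOn
    (line_cont hp ht ht0).continuousOn (s := Icc (0:ℝ) 1)
  refine ⟨C, (norm_nonneg _).trans (hC 0 (by simp)), fun x => ?_⟩
  obtain ⟨y, hy, hxy⟩ := (line_per hper ht ht0).exists_mem_Ico₀ one_pos x
  have hxy' : p ((x : ℂ) + t * Complex.I) = p ((y : ℂ) + t * Complex.I) := hxy
  rw [hxy']
  exact hC y ⟨hy.1, hy.2.le⟩

/-- `co` in terms of the characters of the real line -/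
lemma co_eq (n : ℤ) (t : ℝ) :
    co p n t = Real.exp (2 * Real.pi * n * t) * ∫ x in (0:ℝ)..1, ch (-n) x * p (x + t * Complex.I) := by
  unfold co
  rw [← intervalIntegral.integral_const_mul]
  apply intervalIntegral.integral_congr
  intro x _
  simp only
  rw [ch_add, ← mul_assoc]
  congr 1
  rw [mul_comm]
  congr 1
  unfold ch
  rw [Complex.ofReal_exp]
  congr 1
  push_cast
  linear_combination (-2 * (Real.pi : ℂ) * n * t) * Complex.I_mul_I

lemma norm_co_le (n : ℤ) (t : ℝ) {C : ℝ} (hC : ∀ x : ℝ, ‖p (x + t * Complex.I)‖ ≤ C) :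
    ‖co p n t‖ ≤ C * Real.exp (2 * Real.pi * n * t) := by
  unfold co
  have := intervalIntegral.norm_integral_le_of_norm_le_const (a := (0:ℝ)) (b := 1)
    (f := fun x : ℝ => ch (-n) (x + t * Complex.I) * p (x + t * Complex.I))
    (C := C * Real.exp (2 * Real.pi * n * t)) (by
      intro x _
      rw [norm_mul, norm_ch, mul_comm]
      apply mul_le_mul (hC x) _ (Real.exp_pos _).le ((norm_nonneg _).trans (hC x))
      apply Real.exp_le_exp.mpr
      simp)
  simpa using this

lemma co_symm (hρ : 0 < ρ) (hp : DifferentiableOn ℂ p (St ρ))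
    (hper : ∀ z ∈ St ρ, p (z + 1) = p z)
    (him : ∀ ε : ℝ, 0 < ε → ∃ δ : ℝ, 0 < δ ∧ ∀ z : ℂ, -δ < z.im → z.im < 0 → |(p z).im| < ε)
    (n : ℤ) {t : ℝ} (ht : -ρ < t) (ht0 : t < 0) :
    co p n t = conj (co p (-n) t) := by
  set a := co p n t with ha
  set b := conj (co p (-n) t) with hb
  have key : ∀ ε : ℝ, 0 < ε → ‖a - b‖ ≤ 2 * ε := by
    intro ε hε
    obtain ⟨δ, hδ, hd⟩ := him ε hε
    have hlim : Tendsto (fun s : ℝ => (Real.exp (-(2 * Real.pi * n * s)) : ℂ) * a -
        (Real.exp (2 * Real.pi * n * s) : ℂ) * b) (𝓝[<] 0) (𝓝 (a - b)) := by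
      have : Continuous (fun s : ℝ => (Real.exp (-(2 * Real.pi * n * s)) : ℂ) * a -
        (Real.exp (2 * Real.pi * n * s) : ℂ) * b) := by fun_prop
      have h0 := this.tendsto 0
      simp only [mul_zero, neg_zero, Real.exp_zero, Complex.ofReal_one, one_mul] at h0
      exact h0.mono_left nhdsWithin_le_nhds
    refine le_of_tendsto hlim.norm ?_
    have hev : ∀ᶠ s : ℝ in 𝓝[<] 0, max (-ρ) (-δ) < s ∧ s < 0 := by
      have h1 : ∀ᶠ s : ℝ in 𝓝[<] 0, max (-ρ) (-δ) < s :=
        (eventually_gt_nhds (by simp [hρ, hδ])).filter_mono nhdsWithin_le_nhds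
      exact h1.and eventually_mem_nhdsWithin
    filter_upwards [hev] with s hs
    obtain ⟨hs1, hs0⟩ := hs
    have hsρ : -ρ < s := lt_of_le_of_lt (le_max_left _ _) hs1
    have hsδ : -δ < s := lt_of_le_of_lt (le_max_right _ _) hs1
    have e1 : (Real.exp (-(2 * Real.pi * n * s)) : ℂ) * a =
        ∫ x in (0:ℝ)..1, ch (-n) x * p (x + s * Complex.I) := by
      rw [ha, ← co_const hp hper n hsρ hs0 ht ht0, co_eq, ← mul_assoc, ← Complex.ofReal_mul,
        ← Real.exp_add]
      simp
    have e2 : (Real.exp (2 * Real.pi * n * s) : ℂ) * b =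
        ∫ x in (0:ℝ)..1, ch (-n) x * conj (p (x + s * Complex.I)) := by
      rw [hb, ← co_const hp hper (-n) hsρ hs0 ht ht0, co_eq, map_mul, Complex.conj_ofReal,
        ← mul_assoc, ← Complex.ofReal_mul, ← Real.exp_add]
      rw [show 2 * Real.pi * n * s + 2 * Real.pi * ((-n : ℤ) : ℝ) * s = 0 by push_cast; ring,
        Real.exp_zero, Complex.ofReal_one, one_mul, neg_neg]
      rw [← intervalIntegral.intervalIntegral_conj]
      apply intervalIntegral.integral_congr
      intro x _
      simp only [map_mul, conj_ch, Complex.conj_ofReal]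
    have hc := line_cont hp hsρ hs0
    have hcc : Continuous (fun x : ℝ => ch (-n) (x : ℂ)) :=
      (ch_diff (-n)).continuous.comp Complex.continuous_ofReal
    have i1 : IntervalIntegrable (fun x : ℝ => ch (-n) x * p (x + s * Complex.I)) volume 0 1 :=
      (hcc.mul hc).intervalIntegrable _ _
    have i2 : IntervalIntegrable (fun x : ℝ => ch (-n) x * conj (p (x + s * Complex.I)))
        volume 0 1 :=
      (hcc.mul (Complex.continuous_conj.comp hc)).intervalIntegrable _ _
    rw [e1, e2, ← intervalIntegral.integral_sub i1 i2]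
    have := intervalIntegral.norm_integral_le_of_norm_le_const (a := (0:ℝ)) (b := 1)
      (f := fun x : ℝ => ch (-n) x * p (x + s * Complex.I) -
        ch (-n) x * conj (p (x + s * Complex.I)))
      (C := 2 * ε) (by
        intro x _
        rw [← mul_sub, norm_mul, norm_ch, Complex.sub_conj, norm_mul, Complex.norm_I, mul_one,
          Complex.norm_real, Real.norm_eq_abs, abs_mul, abs_two]
        simp only [Complex.ofReal_im, mul_zero, neg_zero, Real.exp_zero, one_mul]
        have := hd (x + s * Complex.I) (by simpa using hsδ) (by simpa using hs0)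
        linarith)
    simpa using this
  have h0 : ‖a - b‖ ≤ 0 := by
    apply le_of_forall_pos_le_add
    intro ε hε
    have := key (ε / 2) (by positivity)
    linarith
  exact sub_eq_zero.mp (norm_le_zero_iff.mp h0)

lemma summable_aux {C d : ℝ} (hd : 0 < d) :
    Summable (fun n : ℤ => C * Real.exp (-(2 * Real.pi * d * |(n : ℝ)|))) := by
  apply Summable.mul_left
  have h : Summable (fun n : ℕ => Real.exp (-(2 * Real.pi * d * (n : ℝ)))) := by
    have := Real.summable_exp_nat_mul_iff.mpr (show -(2 * Real.pi * d) < 0 by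
      have := Real.pi_pos; nlinarith [mul_pos this hd])
    refine this.congr fun n => ?_
    congr 1; ring
  refine Summable.of_nat_of_neg ?_ ?_
  · refine h.congr fun n => ?_
    congr 3
    simp
  · refine h.congr fun n => ?_
    congr 3
    simp

lemma coeff_bound (hρ : 0 < ρ) (hp : DifferentiableOn ℂ p (St ρ))
    (hper : ∀ z ∈ St ρ, p (z + 1) = p z)
    (him : ∀ ε : ℝ, 0 < ε → ∃ δ : ℝ, 0 < δ ∧ ∀ z : ℂ, -δ < z.im → z.im < 0 → |(p z).im| < ε)
    {y : ℝ} (hy : 0 < y) (hyρ : y < ρ) :
    ∃ C : ℝ, 0 ≤ C ∧ ∀ n : ℤ, ‖co p n (-(ρ / 2))‖ ≤ C * Real.exp (-(2 * Real.pi * y * |(n : ℝ)|)) := by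
  obtain ⟨C, hC0, hC⟩ := line_bdd hp hper (t := -y) (by linarith) (by linarith)
  refine ⟨C, hC0, fun n => ?_⟩
  have h1 : ∀ m : ℤ, ‖co p m (-(ρ / 2))‖ ≤ C * Real.exp (2 * Real.pi * m * (-y)) := by
    intro m
    rw [co_const hp hper m (s := -(ρ / 2)) (t := -y) (by linarith) (by linarith) (by linarith)
      (by linarith)]
    exact norm_co_le m (-y) hC
  rcases le_total 0 (n : ℝ) with hn | hn
  · rw [abs_of_nonneg hn]
    refine (h1 n).trans (le_of_eq ?_)
    congr 2; ring
  · rw [abs_of_nonpos hn, co_symm hρ hp hper him n (by linarith) (by linarith), Complex.norm_conj]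
    refine (h1 (-n)).trans (le_of_eq ?_)
    congr 2; push_cast; ring

lemma term_bound {C y y' : ℝ} (hC0 : 0 ≤ C) {a : ℤ → ℂ}
    (ha : ∀ n : ℤ, ‖a n‖ ≤ C * Real.exp (-(2 * Real.pi * y * |(n : ℝ)|))) (n : ℤ) {z : ℂ}
    (hz : |z.im| ≤ y') :
    ‖a n * ch n z‖ ≤ C * Real.exp (-(2 * Real.pi * (y - y') * |(n : ℝ)|)) := by
  rw [norm_mul, norm_ch]
  calc ‖a n‖ * Real.exp (-(2 * Real.pi * n * z.im))
      ≤ (C * Real.exp (-(2 * Real.pi * y * |(n : ℝ)|))) * Real.exp (2 * Real.pi * y' * |(n : ℝ)|) := by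
        apply mul_le_mul (ha n) _ (Real.exp_pos _).le (by positivity)
        apply Real.exp_le_exp.mpr
        have h1 : -((n : ℝ) * z.im) ≤ |(n : ℝ)| * y' := by
          calc -((n : ℝ) * z.im) ≤ |(n : ℝ) * z.im| := neg_le_abs _
            _ = |(n : ℝ)| * |z.im| := abs_mul _ _
            _ ≤ |(n : ℝ)| * y' := by gcongr
        nlinarith [Real.pi_pos]
    _ = C * Real.exp (-(2 * Real.pi * (y - y') * |(n : ℝ)|)) := by
        rw [mul_assoc, ← Real.exp_add]; congr 2; ring

lemma hasSum_line (hρ : 0 < ρ) (hp : DifferentiableOn ℂ p (St ρ))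
    (hper : ∀ z ∈ St ρ, p (z + 1) = p z)
    (him : ∀ ε : ℝ, 0 < ε → ∃ δ : ℝ, 0 < δ ∧ ∀ z : ℂ, -δ < z.im → z.im < 0 → |(p z).im| < ε)
    {z : ℂ} (hz : z ∈ St ρ) :
    HasSum (fun n : ℤ => co p n (-(ρ / 2)) * ch n z) (p z) := by
  obtain ⟨hz1, hz2⟩ := hz
  set t := z.im with ht
  have : Fact ((0:ℝ) < 1) := ⟨one_pos⟩
  have hperl := line_per hper hz1 hz2
  let f : C(AddCircle (1:ℝ), ℂ) := ⟨hperl.lift, by
    exact (continuous_coinduced_dom.mpr (line_cont hp hz1 hz2))⟩
  have hco : ∀ n : ℤ, fourierCoeff f n = Real.exp (-(2 * Real.pi * n * t)) * co p n (-(ρ / 2)) := by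
    intro n
    rw [fourierCoeff_eq_intervalIntegral _ n 0,
      co_const hp hper n (s := -(ρ / 2)) (t := t) (by linarith) (by linarith) hz1 hz2, co_eq,
      ← mul_assoc, ← Complex.ofReal_mul, ← Real.exp_add,
      show -(2 * Real.pi * n * t) + 2 * Real.pi * n * t = 0 by ring, Real.exp_zero,
      Complex.ofReal_one, one_mul, div_one, one_smul, zero_add]
    apply intervalIntegral.integral_congr
    intro x _
    simp only
    rw [fourier_coe_apply, smul_eq_mul]
    congr 1
    unfold ch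
    congr 1
    push_cast
    ring
  obtain ⟨C, hC0, hC⟩ := coeff_bound hρ hp hper him (y := (ρ + -t) / 2) (by linarith) (by linarith)
  have hsum : Summable (fourierCoeff f) := by
    refine Summable.of_norm_bounded (summable_aux (C := C) (d := (ρ + -t) / 2 - -t) (by linarith))
      (fun n => ?_)
    rw [hco]
    have := term_bound (y' := -t) hC0 hC n (z := (t : ℂ) * Complex.I) (by
      simp [abs_of_neg hz2])
    refine le_trans (le_of_eq ?_) this
    rw [norm_mul, norm_mul, norm_ch, mul_comm]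
    congr 1
    rw [Complex.norm_real, Real.norm_eq_abs, abs_of_pos (Real.exp_pos _)]
    simp
  have := has_pointwise_sum_fourier_series_of_summable hsum (z.re : AddCircle (1:ℝ))
  have hval : f (z.re : AddCircle (1:ℝ)) = p z := by
    show hperl.lift (z.re : AddCircle (1:ℝ)) = p z
    rw [Function.Periodic.lift_coe]
    rw [ht, Complex.re_add_im]
  rw [hval] at this
  convert! this using 1
  funext n
  rw [hco, fourier_coe_apply, smul_eq_mul, mul_comm (Real.exp _ : ℂ), mul_assoc]
  congr 1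
  unfold ch
  rw [Complex.ofReal_exp, ← Complex.exp_add]
  congr 1
  conv_lhs => rw [← Complex.re_add_im z]
  push_cast
  rw [← ht]
  linear_combination (2 * (Real.pi : ℂ) * n * t) * Complex.I_mul_I

theorem reflect (hρ : 0 < ρ) (hp : DifferentiableOn ℂ p (St ρ))
    (hper : ∀ z ∈ St ρ, p (z + 1) = p z)
    (him : ∀ ε : ℝ, 0 < ε → ∃ δ : ℝ, 0 < δ ∧ ∀ z : ℂ, -δ < z.im → z.im < 0 → |(p z).im| < ε) :
    ∃ P : ℂ → ℂ, DifferentiableOn ℂ P {z : ℂ | |z.im| < ρ} ∧ (∀ z ∈ St ρ, P z = p z) ∧
      (∀ z : ℂ, |z.im| < ρ → P (z + 1) = P z) ∧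
      ∀ z : ℂ, |z.im| < ρ → P (conj z) = conj (P z) := by
  set a : ℤ → ℂ := fun n => co p n (-(ρ / 2)) with ha
  refine ⟨fun z => ∑' n : ℤ, a n * ch n z, ?_, ?_, ?_, ?_⟩
  · intro z hz
    have hz' : |z.im| < ρ := hz
    set y' := (|z.im| + ρ) / 2 with hy'
    have h1 : |z.im| < y' := by linarith
    have h2 : y' < ρ := by linarith
    have h3 : 0 < y' := by linarith [abs_nonneg z.im]
    obtain ⟨C, hC0, hC⟩ := coeff_bound hρ hp hper him (y := (y' + ρ) / 2) (by linarith)
      (by linarith)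
    have hU : IsOpen {z : ℂ | |z.im| < y'} :=
      isOpen_lt (continuous_abs.comp Complex.continuous_im) continuous_const
    have := Complex.differentiableOn_tsum_of_summable_norm
      (summable_aux (C := C) (d := (y' + ρ) / 2 - y') (by linarith))
      (F := fun (n : ℤ) (z : ℂ) => a n * ch n z) (U := {z : ℂ | |z.im| < y'})
      (fun n => ((ch_diff n).const_mul (a n)).differentiableOn) hU
      (fun n w hw => term_bound hC0 hC n (le_of_lt hw))
    exact (this.differentiableAt (hU.mem_nhds h1)).differentiableWithinAt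
  · intro z hz
    exact (hasSum_line hρ hp hper him hz).tsum_eq
  · intro z _
    simp only [ch_add_one]
  · intro z _
    simp only
    rw [Complex.conj_tsum, ← (Equiv.neg ℤ).tsum_eq]
    apply tsum_congr
    intro n
    simp only [Equiv.neg_apply]
    rw [map_mul, conj_ch]
    congr 1
    rw [ha]
    simp only
    rw [co_symm hρ hp hper him n (by linarith) (by linarith), Complex.conj_conj]

end

end MP87.Reflect

namespace MP87

open scoped ComplexConjugate

theorem specReflect : SpecReflect := by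
  intro ρ h hρ hdiff hper him
  obtain ⟨P, hP1, hP2, hP3, hP4⟩ := Reflect.reflect (p := fun z => h z - z) hρ
    (hdiff.sub differentiableOn_id)
    (by
      intro z hz
      rw [hper z hz.1 hz.2]; ring)
    (by
      intro ε hε
      obtain ⟨δ, hδ, hd⟩ := him (ε / 2) (by positivity)
      refine ⟨min δ (ε / 2), lt_min hδ (by positivity), fun z hz hz0 => ?_⟩
      have h1 : -δ < z.im := lt_of_le_of_lt (neg_le_neg (min_le_left _ _)) hz
      have h2 : -(ε / 2) < z.im := lt_of_le_of_lt (neg_le_neg (min_le_right _ _)) hz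
      have := hd z h1 hz0
      rw [Complex.sub_im]
      rw [abs_lt] at this ⊢
      constructor <;> linarith [this.1, this.2])
  refine ⟨fun z => P z + z, hP1.add differentiableOn_id, ?_, ?_, ?_⟩
  · intro z h1 h2
    simp only
    rw [hP2 z ⟨h1, h2⟩]; ring
  · intro z hz
    simp only
    rw [hP3 z hz]; ring
  · intro z hz
    simp only
    rw [hP4 z hz, map_add]

end MP87
end

section
/-!
RIESZ: the planar Riesz formula for conformal maps of the half plane which are bi-Lipschitz.
-/
namespace MP87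

open Filter Topology Set MeasureTheory Metric
open scoped InnerProductSpace ComplexConjugate NNReal Laplacian

namespace Riesz

/-! ### one real variable -/

theorem int_line {f f' : ℝ → ℝ} (R : ℝ) (hd : ∀ x, HasDerivAt f (f' x) x) (hc : Continuous f')
    (h0 : ∀ x : ℝ, R < |x| → f x = 0) (h0' : ∀ x : ℝ, R < |x| → f' x = 0) : ∫ x, f' x = 0 := by
  have hcs : HasCompactSupport f' := by
    apply HasCompactSupport.of_support_subset_isCompact (isCompact_Icc (a := -R) (b := R))
    intro x hx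
    by_contra h
    apply hx
    apply h0'
    rw [mem_Icc, not_and_or] at h
    rcases h with h | h
    · exact lt_abs.mpr (Or.inr (by linarith [not_le.mp h]))
    · exact lt_abs.mpr (Or.inl (by linarith [not_le.mp h]))
  have hi : Integrable f' := hc.integrable_of_hasCompactSupport hcs
  have ht : Tendsto f atTop (𝓝 0) := by
    refine tendsto_const_nhds.congr' ?_
    filter_upwards [eventually_gt_atTop R] with x hx
    rw [h0 x (lt_abs.mpr (Or.inl hx))]
  have hb : Tendsto f atBot (𝓝 0) := by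
    refine tendsto_const_nhds.congr' ?_
    filter_upwards [eventually_lt_atBot (-R)] with x hx
    rw [h0 x (lt_abs.mpr (Or.inr (by linarith)))]
  rw [integral_of_hasDerivAt_of_tendsto hd hi hb ht, sub_zero]

theorem int_half {f f' : ℝ → ℝ} (R : ℝ) (hd : ∀ x : ℝ, 0 ≤ x → HasDerivAt f (f' x) x)
    (hc : ContinuousOn f' (Ici 0)) (h0 : ∀ x : ℝ, R < x → f x = 0)
    (h0' : ∀ x : ℝ, R < x → f' x = 0) : ∫ x in Ioi 0, f' x = - f 0 := by
  have hi : IntegrableOn f' (Ioi 0) := by
    have h1 : IntegrableOn f' (Icc 0 (max R 0)) :=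
      (hc.mono Icc_subset_Ici_self).integrableOn_Icc
    have h2 : IntegrableOn f' (Ioi (max R 0)) := by
      have : IntegrableOn (fun _ : ℝ => (0 : ℝ)) (Ioi (max R 0)) := integrableOn_zero
      refine this.congr_fun ?_ measurableSet_Ioi
      intro x hx
      exact (h0' x (lt_of_le_of_lt (le_max_left _ _) hx)).symm
    refine (h1.union h2).mono_set ?_
    intro x hx
    rcases le_or_gt x (max R 0) with h | h
    · exact Or.inl ⟨le_of_lt hx, h⟩
    · exact Or.inr h
  have ht : Tendsto f atTop (𝓝 0) := by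
    refine tendsto_const_nhds.congr' ?_
    filter_upwards [eventually_gt_atTop R] with x hx
    rw [h0 x hx]
  have := integral_Ioi_of_hasDerivAt_of_tendsto (hd 0 le_rfl).continuousAt.continuousWithinAt
    (fun x hx => hd x (le_of_lt hx)) hi ht
  rw [this, zero_sub]

/-! ### chain rule -/

section chain

variable (F : ℂ → ℂ) (φ : ℂ → ℝ)

/-- first derivative of `φ ∘ F` in direction `v` -/
noncomputable def E1 (v z : ℂ) : ℝ := fderiv ℝ φ (F z) (deriv F z * v)

/-- second derivative of `φ ∘ F` in direction `v` -/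
noncomputable def E2 (v z : ℂ) : ℝ :=
  fderiv ℝ (fderiv ℝ φ) (F z) (deriv F z * v) (deriv F z * v) +
    fderiv ℝ φ (F z) (deriv (deriv F) z * v * v)

variable {F φ}

theorem line_deriv (z v : ℂ) (s : ℝ) : HasDerivAt (fun s : ℝ => z + s * v) v s := by
  have h1 : HasDerivAt (fun s : ℝ => (s : ℂ)) 1 s := by
    simpa using (hasDerivAt_id s).ofReal_comp
  simpa using (h1.mul_const v).const_add z

theorem hasDerivAt_E0 (hφ : ContDiff ℝ 2 φ) {U : Set ℂ} (hU : IsOpen U)
    (hF : DifferentiableOn ℂ F U) (z v : ℂ) (s : ℝ) (hs : z + s * v ∈ U) :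
    HasDerivAt (fun s : ℝ => φ (F (z + s * v))) (E1 F φ v (z + s * v)) s := by
  have h1 : HasDerivAt F (deriv F (z + s * v)) (z + s * v) :=
    ((hF _ hs).differentiableAt (hU.mem_nhds hs)).hasDerivAt
  have h2 : HasDerivAt (fun s : ℝ => F (z + s * v)) (deriv F (z + s * v) * v) s :=
    h1.comp s (line_deriv z v s)
  have h3 : HasFDerivAt φ (fderiv ℝ φ (F (z + s * v))) (F (z + s * v)) :=
    (hφ.differentiable (by norm_num) _).hasFDerivAt
  exact h3.comp_hasDerivAt s h2

theorem hasDerivAt_E1 (hφ : ContDiff ℝ 2 φ) {U : Set ℂ} (hU : IsOpen U)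
    (hF : DifferentiableOn ℂ F U) (z v : ℂ) (s : ℝ) (hs : z + s * v ∈ U) :
    HasDerivAt (fun s : ℝ => E1 F φ v (z + s * v)) (E2 F φ v (z + s * v)) s := by
  have h1 : HasDerivAt F (deriv F (z + s * v)) (z + s * v) :=
    ((hF _ hs).differentiableAt (hU.mem_nhds hs)).hasDerivAt
  have h2 : HasDerivAt (fun s : ℝ => F (z + s * v)) (deriv F (z + s * v) * v) s :=
    h1.comp s (line_deriv z v s)
  have h1' : HasDerivAt (deriv F) (deriv (deriv F) (z + s * v)) (z + s * v) :=
    (((hF.deriv hU) _ hs).differentiableAt (hU.mem_nhds hs)).hasDerivAt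
  have h5 : HasDerivAt (fun s : ℝ => deriv F (z + s * v))
      (deriv (deriv F) (z + s * v) * v) s := by
    have h6 : HasDerivAt ((deriv F) ∘ fun s : ℝ => z + s * v)
      (deriv (deriv F) (z + s * v) * v) s := HasDerivAt.comp s h1' (line_deriv z v s)
    exact h6
  have h2' : HasDerivAt (fun s : ℝ => deriv F (z + s * v) * v)
      (deriv (deriv F) (z + s * v) * v * v) s := h5.mul_const v
  have hφ1 : ContDiff ℝ 1 (fderiv ℝ φ) := hφ.fderiv_right (by norm_num)
  have h3 : HasFDerivAt (fderiv ℝ φ) (fderiv ℝ (fderiv ℝ φ) (F (z + s * v))) (F (z + s * v)) :=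
    (hφ1.differentiable (by norm_num) _).hasFDerivAt
  have h4 : HasDerivAt (fun s : ℝ => fderiv ℝ φ (F (z + s * v)))
      (fderiv ℝ (fderiv ℝ φ) (F (z + s * v)) (deriv F (z + s * v) * v)) s :=
    h3.comp_hasDerivAt s h2
  exact h4.clm_apply h2'

theorem lap_eq (z : ℂ) :
    (Δ φ) (F z) * ‖deriv F z‖ ^ 2 = E2 F φ 1 z + E2 F φ Complex.I z := by
  rw [InnerProductSpace.laplacian_eq_iteratedFDeriv_complexPlane]
  simp only [iteratedFDeriv_two_apply, Matrix.cons_val_zero, Matrix.cons_val_one]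
  set Bb := fderiv ℝ (fderiv ℝ φ) (F z) with hB
  set lam := deriv F z with hlam
  have e1 : lam * 1 = lam.re • (1 : ℂ) + lam.im • Complex.I := by
    apply Complex.ext <;> simp
  have e2 : lam * Complex.I = (-lam.im) • (1 : ℂ) + lam.re • Complex.I := by
    apply Complex.ext <;> simp
  have e3 : deriv (deriv F) z * Complex.I * Complex.I = - (deriv (deriv F) z * 1 * 1) := by
    rw [mul_assoc, Complex.I_mul_I]
    ring
  unfold E2
  rw [e3, ← hB, ← hlam, e1, e2, Complex.sq_norm, Complex.normSq_apply]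
  simp only [map_add, map_smul, add_apply, smul_apply,
    map_neg, smul_eq_mul]
  ring

theorem E1_zero {z v : ℂ} (h : F z ∉ tsupport φ) : E1 F φ v z = 0 := by
  have : fderiv ℝ φ (F z) = 0 := by
    have h2 : F z ∉ tsupport (fderiv ℝ φ) := fun h3 => h (tsupport_fderiv_subset ℝ h3)
    exact image_eq_zero_of_notMem_tsupport h2
  unfold E1
  rw [this]
  simp

theorem E2_zero {z v : ℂ} (h : F z ∉ tsupport φ) : E2 F φ v z = 0 := by
  have h2 : F z ∉ tsupport (fderiv ℝ φ) := fun h3 => h (tsupport_fderiv_subset ℝ h3)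
  have h4 : F z ∉ tsupport (fderiv ℝ (fderiv ℝ φ)) := fun h3 => h2 (tsupport_fderiv_subset ℝ h3)
  have e1 : fderiv ℝ φ (F z) = 0 := image_eq_zero_of_notMem_tsupport h2
  have e2 : fderiv ℝ (fderiv ℝ φ) (F z) = 0 := image_eq_zero_of_notMem_tsupport h4
  unfold E2
  rw [e1, e2]
  simp

theorem continuousOn_E2 (hφ : ContDiff ℝ 2 φ) {U : Set ℂ} (hU : IsOpen U)
    (hF : DifferentiableOn ℂ F U) (v : ℂ) : ContinuousOn (E2 F φ v) U := by
  have c0 : ContinuousOn F U := hF.continuousOn
  have c1 : ContinuousOn (deriv F) U := (hF.deriv hU).continuousOn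
  have c2 : ContinuousOn (deriv (deriv F)) U := ((hF.deriv hU).deriv hU).continuousOn
  have hφ1 : ContDiff ℝ 1 (fderiv ℝ φ) := hφ.fderiv_right (by norm_num)
  have d1 : Continuous (fderiv ℝ φ) := hφ1.continuous
  have d2 : Continuous (fderiv ℝ (fderiv ℝ φ)) := hφ1.continuous_fderiv (by norm_num)
  have d1' : ContinuousOn (fun z => fderiv ℝ φ (F z)) U := d1.comp_continuousOn c0
  have d2' : ContinuousOn (fun z => fderiv ℝ (fderiv ℝ φ) (F z)) U := d2.comp_continuousOn c0
  unfold E2
  exact ((d2'.clm_apply (c1.mul continuousOn_const)).clm_apply (c1.mul continuousOn_const)).add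
    (d1'.clm_apply ((c2.mul continuousOn_const).mul continuousOn_const))

end chain

/-! ### Fubini -/

/-- the half plane -/
abbrev HP : Set ℂ := {z : ℂ | 0 < z.im}

theorem isOpen_HP : IsOpen HP := isOpen_lt continuous_const Complex.continuous_im

theorem fub (G : ℂ → ℝ) (hG : IntegrableOn G HP) :
    ∫ z in HP, G z = ∫ x : ℝ, ∫ y in Ioi (0 : ℝ), G ⟨x, y⟩ ∧
    ∫ z in HP, G z = ∫ y in Ioi (0 : ℝ), ∫ x : ℝ, G ⟨x, y⟩ := by
  have hmp := Complex.volume_preserving_equiv_real_prod.symm
  have hemb := Complex.measurableEquivRealProd.symm.measurableEmbedding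
  have hpre : Complex.measurableEquivRealProd.symm ⁻¹' HP = univ ×ˢ Ioi (0 : ℝ) := by
    ext p
    simp [Complex.measurableEquivRealProd_symm_apply]
  have hI : IntegrableOn (fun p : ℝ × ℝ => G ⟨p.1, p.2⟩) (univ ×ˢ Ioi (0 : ℝ))
      (volume.prod volume) := by
    have := (hmp.integrableOn_comp_preimage hemb (f := G) (s := HP)).mpr hG
    rw [hpre] at this
    exact this
  have hE : ∫ z in HP, G z = ∫ p in univ ×ˢ Ioi (0 : ℝ), G ⟨p.1, p.2⟩ ∂(volume.prod volume) := by
    have := hmp.setIntegral_preimage_emb hemb G HP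
    rw [hpre] at this
    rw [← this]
    rfl
  constructor
  · rw [hE, setIntegral_prod _ hI]
    simp
  · rw [hE, ← Measure.prod_restrict]
    have hI' : Integrable (fun p : ℝ × ℝ => G ⟨p.1, p.2⟩)
        ((volume.restrict univ).prod (volume.restrict (Ioi (0 : ℝ)))) := by
      rw [Measure.prod_restrict]
      exact hI
    rw [integral_prod_symm _ hI']
    simp

/-! ### the formula for maps which are holomorphic across the boundary -/

theorem smooth_case {F : ℂ → ℂ} {K d : ℝ} {φ : ℂ → ℝ} (hd : 0 < d)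
    (hF : DifferentiableOn ℂ F {z : ℂ | -d < z.im})
    (hK : ∀ z w : ℂ, 0 ≤ z.im → 0 ≤ w.im → ‖z - w‖ ≤ K * ‖F z - F w‖)
    (hφ : ContDiff ℝ 2 φ) (hcs : HasCompactSupport φ) :
    ∫ z in HP, z.im * ((Δ φ) (F z) * ‖deriv F z‖ ^ 2) = ∫ x : ℝ, φ (F x) := by
  set U : Set ℂ := {z : ℂ | -d < z.im} with hU
  have hUo : IsOpen U := isOpen_lt continuous_const Complex.continuous_im
  -- bound on the support
  obtain ⟨R, hR⟩ : ∃ R : ℝ, ∀ z : ℂ, 0 ≤ z.im → R < ‖z‖ → F z ∉ tsupport φ := by
    obtain ⟨R0, hR0⟩ := hcs.isBounded.subset_closedBall (0 : ℂ)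
    refine ⟨|K| * (R0 + ‖F 0‖), ?_⟩
    intro z hz hlt hmem
    have h1 : ‖F z‖ ≤ R0 := by simpa using hR0 hmem
    have h2 := hK z 0 hz (by simp)
    rw [sub_zero] at h2
    have h3 : K * ‖F z - F 0‖ ≤ |K| * (R0 + ‖F 0‖) := by
      have h4 : ‖F z - F 0‖ ≤ R0 + ‖F 0‖ := (norm_sub_le _ _).trans (by linarith)
      calc K * ‖F z - F 0‖ ≤ |K| * ‖F z - F 0‖ := by
            apply mul_le_mul_of_nonneg_right (le_abs_self K) (norm_nonneg _)
        _ ≤ |K| * (R0 + ‖F 0‖) := mul_le_mul_of_nonneg_left h4 (abs_nonneg K)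
    linarith
  have hsub : ∀ z : ℂ, 0 ≤ z.im → z ∈ U := fun z hz => by
    change -d < z.im
    linarith
  -- integrability
  have hint : ∀ v : ℂ, IntegrableOn (fun z : ℂ => z.im * E2 F φ v z) HP := by
    intro v
    set Kc : Set ℂ := {z : ℂ | 0 ≤ z.im} ∩ closedBall 0 R with hKc
    have hKcc : IsCompact Kc := by
      rw [hKc, inter_comm]
      exact (isCompact_closedBall (0 : ℂ) R).inter_right
        (isClosed_le continuous_const Complex.continuous_im)
    have hcont : ContinuousOn (fun z : ℂ => z.im * E2 F φ v z) Kc := by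
      apply ContinuousOn.mul Complex.continuous_im.continuousOn
      exact (continuousOn_E2 hφ hUo hF v).mono (fun z hz => hsub z hz.1)
    have h1 : IntegrableOn (fun z : ℂ => z.im * E2 F φ v z) Kc := hcont.integrableOn_compact hKcc
    have h2 : IntegrableOn (fun z : ℂ => z.im * E2 F φ v z) (HP \ Kc) := by
      have : IntegrableOn (fun _ : ℂ => (0 : ℝ)) (HP \ Kc) := integrableOn_zero
      refine this.congr_fun ?_ (isOpen_HP.measurableSet.diff hKcc.measurableSet)
      intro z hz
      have h3 : R < ‖z‖ := by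
        by_contra h4
        exact hz.2 ⟨(le_of_lt hz.1 : 0 ≤ z.im), by simpa using not_lt.mp h4⟩
      simp only
      rw [E2_zero (hR z (le_of_lt hz.1) h3), mul_zero]
    refine (h1.union h2).mono_set ?_
    intro z hz
    by_cases h : z ∈ Kc
    · exact Or.inl h
    · exact Or.inr ⟨hz, h⟩
  have hsplit : ∫ z in HP, z.im * ((Δ φ) (F z) * ‖deriv F z‖ ^ 2) =
      (∫ z in HP, z.im * E2 F φ 1 z) + ∫ z in HP, z.im * E2 F φ Complex.I z := by
    rw [← integral_add (hint 1) (hint Complex.I)]
    congr 1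
    ext z
    rw [lap_eq]
    ring
  rw [hsplit, (fub _ (hint 1)).2, (fub _ (hint Complex.I)).1]
  -- horizontal part
  have hA : ∀ y ∈ Ioi (0 : ℝ), ∫ x : ℝ, (⟨x, y⟩ : ℂ).im * E2 F φ 1 ⟨x, y⟩ = 0 := by
    intro y hy
    have hy' : 0 < y := hy
    simp only
    rw [integral_const_mul]
    have hz : ∀ x : ℝ, (⟨x, y⟩ : ℂ) = (y : ℂ) * Complex.I + x * 1 := by
      intro x
      apply Complex.ext <;> simp
    have hzU : ∀ x : ℝ, ((y : ℂ) * Complex.I + x * 1) ∈ U := by
      intro x
      rw [← hz x]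
      exact hsub _ hy'.le
    have hbig : ∀ x : ℝ, R < |x| → F ((y : ℂ) * Complex.I + x * 1) ∉ tsupport φ := by
      intro x hx
      rw [← hz x]
      apply hR _ hy'.le
      have := Complex.abs_re_le_norm (⟨x, y⟩ : ℂ)
      simp only at this
      linarith
    have := int_line (f := fun x : ℝ => E1 F φ 1 ((y : ℂ) * Complex.I + x * 1))
      (f' := fun x : ℝ => E2 F φ 1 ((y : ℂ) * Complex.I + x * 1)) R
      (fun x => hasDerivAt_E1 hφ hUo hF _ _ x (hzU x))
      ((continuousOn_E2 hφ hUo hF 1).comp_continuous (by fun_prop) hzU)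
      (fun x hx => E1_zero (hbig x hx)) (fun x hx => E2_zero (hbig x hx))
    simp_rw [hz]
    rw [this, mul_zero]
  -- vertical part
  have hBv : ∀ x : ℝ, ∫ y in Ioi (0 : ℝ), (⟨x, y⟩ : ℂ).im * E2 F φ Complex.I ⟨x, y⟩
      = φ (F x) := by
    intro x
    have hz : ∀ y : ℝ, (⟨x, y⟩ : ℂ) = (x : ℂ) + y * Complex.I := by
      intro y
      apply Complex.ext <;> simp
    have hzU : ∀ y : ℝ, 0 ≤ y → ((x : ℂ) + y * Complex.I) ∈ U := by
      intro y hy
      rw [← hz y]
      exact hsub _ hy
    have hbig : ∀ y : ℝ, max R 0 < y → F ((x : ℂ) + y * Complex.I) ∉ tsupport φ := by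
      intro y hy
      have hy0 : 0 < y := lt_of_le_of_lt (le_max_right _ _) hy
      have hyR : R < y := lt_of_le_of_lt (le_max_left _ _) hy
      rw [← hz y]
      apply hR _ hy0.le
      have := Complex.abs_im_le_norm (⟨x, y⟩ : ℂ)
      simp only at this
      rw [abs_of_pos hy0] at this
      linarith
    have := int_half
      (f := fun y : ℝ => y * E1 F φ Complex.I ((x : ℂ) + y * Complex.I) -
        φ (F ((x : ℂ) + y * Complex.I)))
      (f' := fun y : ℝ => y * E2 F φ Complex.I ((x : ℂ) + y * Complex.I)) (max R 0)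
      (fun y hy => by
        have h1 := hasDerivAt_E1 hφ hUo hF (x : ℂ) Complex.I y (hzU y hy)
        have h2 := hasDerivAt_E0 hφ hUo hF (x : ℂ) Complex.I y (hzU y hy)
        have h3 := ((hasDerivAt_id y).mul h1).sub h2
        refine h3.congr_deriv ?_
        simp only [id]
        ring)
      (by
        apply ContinuousOn.mul continuousOn_id
        exact (continuousOn_E2 hφ hUo hF Complex.I).comp (by fun_prop) (fun y hy => hzU y hy))
      (fun y hy => by
        have h1 := hbig y hy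
        rw [E1_zero h1, image_eq_zero_of_notMem_tsupport h1]
        simp)
      (fun y hy => by
        rw [E2_zero (hbig y hy), mul_zero])
    have h5 : ∀ y : ℝ, (⟨x, y⟩ : ℂ).im * E2 F φ Complex.I ⟨x, y⟩ =
        y * E2 F φ Complex.I ((x : ℂ) + y * Complex.I) := by
      intro y
      rw [hz y]
      simp
    simp_rw [h5]
    rw [this]
    simp
  rw [setIntegral_congr_fun measurableSet_Ioi hA]
  simp_rw [hBv]
  simp

theorem continuous_lap {φ : ℂ → ℝ} (hφ : ContDiff ℝ 2 φ) : Continuous (Δ φ) := by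
  have h1 := continuousOn_E2 (F := id) hφ isOpen_univ differentiableOn_id 1
  have h2 := continuousOn_E2 (F := id) hφ isOpen_univ differentiableOn_id Complex.I
  rw [← continuousOn_univ]
  refine (h1.add h2).congr ?_
  intro z _
  have := lap_eq (F := id) (φ := φ) z
  simpa using this

theorem lap_zero {φ : ℂ → ℝ} {w : ℂ} (h : w ∉ tsupport φ) : (Δ φ) w = 0 := by
  have := lap_eq (F := id) (φ := φ) w
  rw [E2_zero (F := id) (by simpa using h), E2_zero (F := id) (by simpa using h)] at this
  simpa using this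

end Riesz

open Riesz in
theorem specRiesz : SpecRiesz := by
  intro F K φ hF hL hK hφ hcs
  have hK0 : 0 ≤ K := by
    have h1 := hL 0 1 (by simp) (by simp)
    have h2 : ‖(0 : ℂ) - 1‖ = 1 := by simp
    rw [h2, mul_one] at h1
    exact (norm_nonneg _).trans h1
  -- the support
  obtain ⟨R, hR0, hR⟩ : ∃ R : ℝ, 0 ≤ R ∧ ∀ z : ℂ, 0 ≤ z.im → R < ‖z‖ → F z ∉ tsupport φ := by
    obtain ⟨R0, hR0⟩ := hcs.isBounded.subset_closedBall (0 : ℂ)
    refine ⟨max (K * (R0 + ‖F 0‖)) 0, le_max_right _ _, ?_⟩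
    intro z hz hlt hmem
    have h1 : ‖F z‖ ≤ R0 := by simpa using hR0 hmem
    have h2 := hK z 0 hz (by simp)
    rw [sub_zero] at h2
    have h3 : K * ‖F z - F 0‖ ≤ K * (R0 + ‖F 0‖) := by
      have h4 : ‖F z - F 0‖ ≤ R0 + ‖F 0‖ := (norm_sub_le _ _).trans (by linarith)
      exact mul_le_mul_of_nonneg_left h4 hK0
    have h5 := le_max_left (K * (R0 + ‖F 0‖)) 0
    linarith
  have hlapc := continuous_lap hφ
  obtain ⟨M, hM⟩ : ∃ M : ℝ, ∀ w, ‖(Δ φ) w‖ ≤ M := by
    have hcl : HasCompactSupport (Δ φ) := by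
      apply HasCompactSupport.intro hcs
      intro w hw
      exact lap_zero hw
    exact hcl.exists_bound_of_continuous hlapc
  obtain ⟨M', hM'⟩ : ∃ M : ℝ, ∀ w, ‖φ w‖ ≤ M := hcs.exists_bound_of_continuous hφ.continuous
  have hM0 : 0 ≤ M := (norm_nonneg _).trans (hM 0)
  have hM0' : 0 ≤ M' := (norm_nonneg _).trans (hM' 0)
  have hder : ∀ z : ℂ, 0 < z.im → ‖deriv F z‖ ≤ K := by
    intro z hz
    apply norm_deriv_le_of_lip' hK0
    filter_upwards [isOpen_HP.mem_nhds hz] with w hw
    exact hL w z (le_of_lt hw) hz.le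
  have hcF : ContinuousOn F {z : ℂ | 0 ≤ z.im} := by
    have : LipschitzOnWith (Real.toNNReal K) F {z : ℂ | 0 ≤ z.im} := by
      apply LipschitzOnWith.of_dist_le_mul
      intro z hz w hw
      rw [dist_eq_norm, dist_eq_norm, Real.coe_toNNReal K hK0]
      exact hL z w hz hw
    exact this.continuousOn
  have hcF' : ContinuousOn (deriv F) HP := (hF.deriv isOpen_HP).continuousOn
  -- the shifts
  set d : ℕ → ℝ := fun n => 1 / ((n : ℝ) + 1) with hd
  have hdpos : ∀ n, 0 < d n := fun n => by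
    simp only [hd]
    positivity
  have hd1 : ∀ n, d n ≤ 1 := fun n => by
    simp only [hd]
    rw [div_le_one (by positivity)]
    have : (0 : ℝ) ≤ n := Nat.cast_nonneg n
    linarith
  have hdlim : Tendsto d atTop (𝓝 0) := tendsto_one_div_add_atTop_nhds_zero_nat
  have hsh : ∀ z : ℂ, Tendsto (fun n => z + (d n : ℂ) * Complex.I) atTop (𝓝 z) := by
    intro z
    have h1 : Tendsto (fun n => ((d n : ℝ) : ℂ)) atTop (𝓝 ((0 : ℝ) : ℂ)) :=
      (Complex.continuous_ofReal.tendsto 0).comp hdlim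
    have h2 := (h1.mul_const Complex.I).const_add z
    simpa using h2
  have him : ∀ (z : ℂ) n, (z + (d n : ℂ) * Complex.I).im = z.im + d n := by
    intro z n
    simp
  have hnorm : ∀ (z : ℂ) n, ‖z‖ - 1 ≤ ‖z + (d n : ℂ) * Complex.I‖ := by
    intro z n
    have h1 := norm_sub_norm_le z (-((d n : ℂ) * Complex.I))
    rw [norm_neg, sub_neg_eq_add, norm_mul, Complex.norm_I, mul_one, Complex.norm_real,
      Real.norm_eq_abs, abs_of_pos (hdpos n)] at h1
    linarith [hd1 n]
  have hcase : ∀ n, ∫ z in HP, z.im * ((Δ φ) (F (z + (d n : ℂ) * Complex.I)) *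
      ‖deriv F (z + (d n : ℂ) * Complex.I)‖ ^ 2) =
      ∫ x : ℝ, φ (F (x + (d n : ℂ) * Complex.I)) := by
    intro n
    have h1 := smooth_case (F := fun z => F (z + (d n : ℂ) * Complex.I)) (K := K) (d := d n)
      (φ := φ) (hdpos n) (by
        apply hF.comp (by fun_prop)
        intro z hz
        have hz' : -(d n) < z.im := hz
        change 0 < (z + (d n : ℂ) * Complex.I).im
        rw [him]
        linarith) (by
        intro z w hz hw
        have h2 := hK (z + (d n : ℂ) * Complex.I) (w + (d n : ℂ) * Complex.I)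
          (by rw [him]; linarith [hdpos n]) (by rw [him]; linarith [hdpos n])
        rw [add_sub_add_right_eq_sub] at h2
        exact h2) hφ hcs
    rw [← h1]
    congr 1
    ext z
    rw [deriv_comp_add_const]
  -- limit of the left side
  have hlimL : Tendsto (fun n => ∫ z in HP, z.im * ((Δ φ) (F (z + (d n : ℂ) * Complex.I)) *
      ‖deriv F (z + (d n : ℂ) * Complex.I)‖ ^ 2)) atTop
      (𝓝 (∫ z in HP, z.im * ((Δ φ) (F z) * ‖deriv F z‖ ^ 2))) := by
    apply tendsto_integral_of_dominated_convergence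
      (indicator (closedBall (0 : ℂ) (R + 1)) (fun _ => (R + 1) * (M * K ^ 2)))
    · intro n
      apply ContinuousOn.aestronglyMeasurable _ isOpen_HP.measurableSet
      have hmap : MapsTo (fun z : ℂ => z + (d n : ℂ) * Complex.I) HP HP := by
        intro z hz
        have hz' : 0 < z.im := hz
        change 0 < (z + (d n : ℂ) * Complex.I).im
        rw [him]
        linarith [hdpos n]
      have hc1 : ContinuousOn (fun z : ℂ => z + (d n : ℂ) * Complex.I) HP := by fun_prop
      have hc2 : ContinuousOn (fun z : ℂ => F (z + (d n : ℂ) * Complex.I)) HP :=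
        (hF.continuousOn).comp hc1 hmap
      have hc3 : ContinuousOn (fun z : ℂ => deriv F (z + (d n : ℂ) * Complex.I)) HP :=
        hcF'.comp hc1 hmap
      exact Complex.continuous_im.continuousOn.mul
        ((hlapc.comp_continuousOn hc2).mul ((hc3.norm).pow 2))
    · apply Integrable.integrableOn
      rw [integrable_indicator_iff measurableSet_closedBall]
      exact integrableOn_const (isCompact_closedBall (0 : ℂ) (R + 1)).measure_lt_top.ne
    · intro n
      rw [ae_restrict_iff' isOpen_HP.measurableSet]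
      refine Eventually.of_forall ?_
      intro z hz
      have hz' : 0 < z.im := hz
      have hzs : 0 < (z + (d n : ℂ) * Complex.I).im := by
        rw [him]
        linarith [hdpos n]
      by_cases hzR : ‖z‖ ≤ R + 1
      · rw [indicator_of_mem (by simpa using hzR)]
        rw [norm_mul, norm_mul, norm_pow, norm_norm, Real.norm_eq_abs, abs_of_pos hz']
        have h1 : z.im ≤ R + 1 := (le_abs_self _).trans ((Complex.abs_im_le_norm z).trans hzR)
        have h2 := hM (F (z + (d n : ℂ) * Complex.I))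
        have h3 := hder _ hzs
        gcongr
      · rw [indicator_of_notMem (by simpa using hzR)]
        have h1 : F (z + (d n : ℂ) * Complex.I) ∉ tsupport φ := by
          apply hR _ hzs.le
          have := hnorm z n
          push Not at hzR
          linarith
        rw [lap_zero h1]
        simp
    · rw [ae_restrict_iff' isOpen_HP.measurableSet]
      refine Eventually.of_forall ?_
      intro z hz
      have hcz : ContinuousAt F z := (hF.continuousOn.continuousAt (isOpen_HP.mem_nhds hz))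
      have hcz' : ContinuousAt (deriv F) z := hcF'.continuousAt (isOpen_HP.mem_nhds hz)
      have h1 : Tendsto (fun n => F (z + (d n : ℂ) * Complex.I)) atTop (𝓝 (F z)) :=
        hcz.tendsto.comp (hsh z)
      have h2 : Tendsto (fun n => deriv F (z + (d n : ℂ) * Complex.I)) atTop
        (𝓝 (deriv F z)) := hcz'.tendsto.comp (hsh z)
      exact (((hlapc.tendsto _).comp h1).mul ((h2.norm).pow 2)).const_mul _
  have hlimR : Tendsto (fun n => ∫ x : ℝ, φ (F (x + (d n : ℂ) * Complex.I))) atTop
      (𝓝 (∫ x : ℝ, φ (F x))) := by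
    apply tendsto_integral_of_dominated_convergence
      (indicator (Icc (-(R + 1)) (R + 1)) (fun _ => M'))
    · intro n
      apply Continuous.aestronglyMeasurable
      apply hφ.continuous.comp
      apply hcF.comp_continuous (by fun_prop)
      intro x
      change 0 ≤ ((x : ℂ) + (d n : ℂ) * Complex.I).im
      rw [him]
      simp [(hdpos n).le]
    · rw [integrable_indicator_iff measurableSet_Icc]
      exact integrableOn_const isCompact_Icc.measure_lt_top.ne
    · intro n
      refine Eventually.of_forall ?_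
      intro x
      by_cases hx : x ∈ Icc (-(R + 1)) (R + 1)
      · rw [indicator_of_mem hx]
        exact hM' _
      · rw [indicator_of_notMem hx]
        have h1 : F ((x : ℂ) + (d n : ℂ) * Complex.I) ∉ tsupport φ := by
          apply hR
          · rw [him]
            simp [(hdpos n).le]
          · have h2 := hnorm (x : ℂ) n
            rw [Complex.norm_real, Real.norm_eq_abs] at h2
            have h3 : R + 1 < |x| := by
              by_contra h4
              push Not at h4
              exact hx (abs_le.mp h4)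
            linarith
        rw [image_eq_zero_of_notMem_tsupport h1]
        simp
    · refine Eventually.of_forall ?_
      intro x
      have hcx : ContinuousWithinAt F {z : ℂ | 0 ≤ z.im} (x : ℂ) := by
        apply hcF
        change 0 ≤ ((x : ℂ)).im
        simp
      have h1 : Tendsto (fun n => (x : ℂ) + (d n : ℂ) * Complex.I) atTop
          (𝓝[{z : ℂ | 0 ≤ z.im}] (x : ℂ)) := by
        rw [tendsto_nhdsWithin_iff]
        refine ⟨hsh x, Eventually.of_forall ?_⟩
        intro n
        change 0 ≤ ((x : ℂ) + (d n : ℂ) * Complex.I).im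
        rw [him]
        simp [(hdpos n).le]
      have h2 : Tendsto (fun n => F ((x : ℂ) + (d n : ℂ) * Complex.I)) atTop (𝓝 (F x)) :=
        hcx.tendsto.comp h1
      exact (hφ.continuous.tendsto _).comp h2
  have hlimL' := hlimL
  simp_rw [hcase] at hlimL'
  exact tendsto_nhds_unique hlimL' hlimR

end MP87
end
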