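import Pool.Agent.Lib.MP_87ece0_an.LimW

section
/-! MP_87ece0_an, NEAR and CHORD. -/
namespace MP87

open Filter Topology Set MeasureTheory Metric

namespace NearChord

variable (U : Upper)

theorem B_nonneg : 0 ≤ U.B :=
  (norm_nonneg _).trans (U.bdd 0 (by simpa using U.hρ))

/-- the closed half plane where the estimates hold -/
def H (U : Upper) : Set ℂ := {z | -(U.ρ / 4) ≤ z.im}

/-- bound of the derivative -/
noncomputable def C1 (U : Upper) : ℝ := 1 + U.B / (U.ρ / 4)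

/-- Lipschitz constant of the derivative -/
noncomputable def C2 (U : Upper) : ℝ := C1 U / (U.ρ / 8)

theorem C1_pos : 0 < C1 U := by
  have h1 := B_nonneg U
  have h2 := U.hρ
  unfold C1
  positivity

theorem C2_pos : 0 < C2 U := by
  have h1 := C1_pos U
  have h2 := U.hρ
  unfold C2
  positivity

theorem isOpen_dom : IsOpen {z : ℂ | -U.ρ < z.im} :=
  isOpen_lt continuous_const Complex.continuous_im

theorem differentiableAt {z : ℂ} (hz : -U.ρ < z.im) : DifferentiableAt ℂ U.f z :=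
  U.hol.differentiableAt ((isOpen_dom U).mem_nhds hz)

theorem im_of_mem_closedBall {z ζ : ℂ} {r : ℝ} (h : ζ ∈ closedBall z r) : z.im - r ≤ ζ.im := by
  rw [mem_closedBall, dist_eq_norm] at h
  have h1 : |(ζ - z).im| ≤ r := (Complex.abs_im_le_norm _).trans h
  rw [Complex.sub_im] at h1
  have := (abs_le.1 h1).1
  linarith

theorem norm_deriv_le {z : ℂ} (hz : -(U.ρ / 2) ≤ z.im) : ‖deriv U.f z‖ ≤ C1 U := by
  have hρ := U.hρ
  have hsub : closedBall z (U.ρ / 4) ⊆ {z : ℂ | -U.ρ < z.im} := by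
    intro ζ hζ
    have := im_of_mem_closedBall hζ
    show -U.ρ < ζ.im
    linarith
  have hd : DiffContOnCl ℂ (fun ζ => U.f ζ - ζ) (ball z (U.ρ / 4)) := by
    apply DifferentiableOn.diffContOnCl
    rw [closure_ball _ (by positivity)]
    exact (U.hol.mono hsub).sub differentiableOn_id
  have h1 := Complex.norm_deriv_le_of_forall_mem_sphere_norm_le (by positivity) hd
    (C := U.B) (fun ζ hζ => U.bdd ζ (hsub (sphere_subset_closedBall hζ)))
  have h2 : deriv (fun ζ => U.f ζ - ζ) z = deriv U.f z - 1 :=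
    ((differentiableAt U (by linarith)).hasDerivAt.sub (hasDerivAt_id z)).deriv
  rw [h2] at h1
  calc ‖deriv U.f z‖ = ‖1 + (deriv U.f z - 1)‖ := by ring_nf
    _ ≤ ‖(1 : ℂ)‖ + ‖deriv U.f z - 1‖ := norm_add_le _ _
    _ ≤ _ := by
      rw [norm_one]
      unfold C1
      linarith

theorem norm_deriv_deriv_le {z : ℂ} (hz : -(U.ρ / 4) ≤ z.im) :
    ‖deriv (deriv U.f) z‖ ≤ C2 U := by
  have hρ := U.hρ
  have hsub : closedBall z (U.ρ / 8) ⊆ {z : ℂ | -(U.ρ / 2) ≤ z.im} := by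
    intro ζ hζ
    have := im_of_mem_closedBall hζ
    show -(U.ρ / 2) ≤ ζ.im
    linarith
  have hdd : DifferentiableOn ℂ (deriv U.f) {z : ℂ | -U.ρ < z.im} :=
    U.hol.deriv (isOpen_dom U)
  have hd : DiffContOnCl ℂ (deriv U.f) (ball z (U.ρ / 8)) := by
    apply DifferentiableOn.diffContOnCl
    rw [closure_ball _ (by positivity)]
    refine hdd.mono fun ζ hζ => ?_
    have : -(U.ρ / 2) ≤ ζ.im := hsub hζ
    show -U.ρ < ζ.im
    linarith
  exact Complex.norm_deriv_le_of_forall_mem_sphere_norm_le (by positivity) hd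
    (fun ζ hζ => norm_deriv_le U (hsub (sphere_subset_closedBall hζ)))

theorem convex_H : Convex ℝ (H U) := convex_halfSpace_im_ge _

theorem lip {z w : ℂ} (hz : z ∈ H U) (hw : w ∈ H U) : ‖U.f z - U.f w‖ ≤ C1 U * ‖z - w‖ := by
  have hρ := U.hρ
  apply Convex.norm_image_sub_le_of_norm_deriv_le (s := H U) _ _ (convex_H U) hw hz
  · intro x hx
    have hx' : -(U.ρ / 4) ≤ x.im := hx
    exact differentiableAt U (by linarith)
  · intro x hx
    have hx' : -(U.ρ / 4) ≤ x.im := hx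
    exact norm_deriv_le U (by linarith)

theorem lip_deriv {z w : ℂ} (hz : z ∈ H U) (hw : w ∈ H U) :
    ‖deriv U.f z - deriv U.f w‖ ≤ C2 U * ‖z - w‖ := by
  have hρ := U.hρ
  apply Convex.norm_image_sub_le_of_norm_deriv_le (s := H U) _ _ (convex_H U) hw hz
  · intro x hx
    have hx' : -(U.ρ / 4) ≤ x.im := hx
    exact (U.hol.deriv (isOpen_dom U)).differentiableAt ((isOpen_dom U).mem_nhds (by
      show -U.ρ < x.im
      linarith))
  · intro x hx
    exact norm_deriv_deriv_le U hx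

theorem taylor {z w : ℂ} (hz : z ∈ H U) (hw : w ∈ H U) :
    ‖U.f z - U.f w - deriv U.f w * (z - w)‖ ≤ C2 U * ‖z - w‖ * ‖z - w‖ := by
  have hρ := U.hρ
  have hseg : segment ℝ w z ⊆ H U := (convex_H U).segment_subset hw hz
  have hdiff : ∀ x ∈ segment ℝ w z, HasDerivAt (fun ζ => U.f ζ - deriv U.f w * ζ)
      (deriv U.f x - deriv U.f w) x := by
    intro x hx
    have hx' : -(U.ρ / 4) ≤ x.im := hseg hx
    have h1 := (differentiableAt U (z := x) (by linarith)).hasDerivAt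
    have h2 := (hasDerivAt_id x).const_mul (deriv U.f w)
    rw [mul_one] at h2
    exact h1.sub h2
  have h := Convex.norm_image_sub_le_of_norm_deriv_le (𝕜 := ℂ) (s := segment ℝ w z)
    (f := fun ζ => U.f ζ - deriv U.f w * ζ) (C := C2 U * ‖z - w‖) (x := w) (y := z)
    (fun x hx => (hdiff x hx).differentiableAt)
    (fun x hx => by
      rw [(hdiff x hx).deriv]
      refine (lip_deriv U (hseg hx) hw).trans ?_
      exact mul_le_mul_of_nonneg_left (norm_sub_le_of_mem_segment hx) (C2_pos U).le)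
    (convex_segment w z) (left_mem_segment ℝ w z) (right_mem_segment ℝ w z)
  have e : U.f z - deriv U.f w * z - (U.f w - deriv U.f w * w) =
      U.f z - U.f w - deriv U.f w * (z - w) := by ring
  rw [e] at h
  exact h

theorem inner_mem {u v : Upper} {N : ℕ} (hN : 0 < N) (hle : v.B / N ≤ u.ρ / 4) {z : ℂ}
    (hz : 0 ≤ z.im) : v.f (N * z) / N ∈ H u ∧ ‖v.f (N * z) / N - z‖ ≤ v.B / N := by
  have h1 : ‖v.f (N * z) / N - z‖ ≤ v.B / N := by
    apply CompM.norm_inner v hN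
    apply v.bdd
    rw [CompM.mul_im]
    have : 0 ≤ (N : ℝ) * z.im := by positivity
    linarith [v.hρ]
  refine ⟨?_, h1⟩
  have := CompM.im_inner u v hle h1
  show -(u.ρ / 4) ≤ _
  linarith

theorem mem_H {z : ℂ} (hz : 0 ≤ z.im) : z ∈ H U := by
  show -(U.ρ / 4) ≤ z.im
  linarith [U.hρ]

theorem exists_N (K η : ℝ) (hη : 0 < η) : ∃ N₁ : ℕ, 0 < N₁ ∧ ∀ N : ℕ, N₁ ≤ N → K / N ≤ η := by
  obtain ⟨n, hn⟩ := exists_nat_gt (K / η)
  refine ⟨n + 1, Nat.succ_pos n, fun N hN => ?_⟩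
  have hN0 : (0 : ℝ) < N := by
    have : 0 < N := by omega
    exact_mod_cast this
  rw [div_le_iff₀ hN0]
  rw [div_lt_iff₀ hη] at hn
  have h1 : (n : ℝ) ≤ N := by exact_mod_cast (by omega : n ≤ N)
  nlinarith

end NearChord

open NearChord in
theorem specNear : SpecNear := by
  intro u v η hη
  obtain ⟨N₁, hN₁, hN⟩ := exists_N (C1 u * v.B + C2 u * v.B * C1 v) η hη
  have hB := B_nonneg v
  have hc1 := C1_pos u
  have hc2 := C2_pos u
  have hc1v := C1_pos v
  refine ⟨N₁, fun N hNN w hw => ?_⟩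
  obtain ⟨hN0, hle, hr1, hr2, hf, -⟩ := hw
  have hN0' : (0 : ℝ) < N := by exact_mod_cast hN0
  have hNC : (N : ℂ) ≠ 0 := by exact_mod_cast hN0.ne'
  have hη' := hN N hNN
  rw [add_div] at hη'
  have ha : C1 u * v.B / N ≤ η := by
    have : 0 ≤ C2 u * v.B * C1 v / N := by positivity
    linarith
  have hb : C2 u * v.B * C1 v / N ≤ η := by
    have : 0 ≤ C1 u * v.B / N := by positivity
    linarith
  have hder : ∀ x : ℝ, deriv w.f x = deriv u.f (v.f (N * x) / N) * deriv v.f (N * x) := by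
    intro x
    obtain ⟨h1, h2⟩ := inner_mem (u := u) hN0 hle (z := x) (by simp)
    have hev : w.f =ᶠ[𝓝 (x : ℂ)] fun z => u.f (v.f (N * z) / N) := by
      have : {z : ℂ | -w.ρ < z.im} ∈ 𝓝 (x : ℂ) :=
        (isOpen_dom w).mem_nhds (by simpa using w.hρ)
      filter_upwards [this] with z hz using hf z hz
    rw [hev.deriv_eq]
    have hv : HasDerivAt v.f (deriv v.f (N * x)) (N * x) :=
      (differentiableAt v (by simpa using v.hρ)).hasDerivAt
    have hin : HasDerivAt (fun z : ℂ => v.f (N * z) / N) (deriv v.f (N * x)) x := by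
      have h3 : HasDerivAt (fun z : ℂ => (N : ℂ) * z) N (x : ℂ) := by
        simpa using (hasDerivAt_id (x : ℂ)).const_mul (N : ℂ)
      have h4 := (HasDerivAt.comp (x : ℂ) hv h3).div_const (N : ℂ)
      rw [mul_div_assoc, div_self hNC, mul_one] at h4
      exact h4
    have hu : HasDerivAt u.f (deriv u.f (v.f (N * x) / N)) (v.f (N * x) / N) := by
      refine (differentiableAt u ?_).hasDerivAt
      have : -(u.ρ / 4) ≤ (v.f (N * x) / N).im := h1
      linarith [u.hρ]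
    exact (HasDerivAt.comp (x : ℂ) hu hin).deriv
  refine ⟨fun z hz => ?_, hder, fun x => ?_⟩
  · obtain ⟨h1, h2⟩ := inner_mem (u := u) hN0 hle hz
    rw [hf z (by linarith [w.hρ])]
    calc ‖u.f (v.f (N * z) / N) - u.f z‖ ≤ C1 u * ‖v.f (N * z) / N - z‖ :=
          lip u h1 (mem_H u hz)
      _ ≤ C1 u * (v.B / N) := mul_le_mul_of_nonneg_left h2 hc1.le
      _ ≤ η := by rw [← mul_div_assoc]; exact ha
  · obtain ⟨h1, h2⟩ := inner_mem (u := u) hN0 hle (z := x) (by simp)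
    rw [hder x, ← sub_mul, norm_mul]
    have h3 := lip_deriv u h1 (mem_H u (z := x) (by simp))
    have h4 : ‖deriv v.f (N * x)‖ ≤ C1 v := norm_deriv_le v (by
      have := v.hρ
      simp
      linarith)
    calc ‖deriv u.f (v.f (N * x) / N) - deriv u.f x‖ * ‖deriv v.f (N * x)‖ ≤
          (C2 u * (v.B / N)) * C1 v :=
          mul_le_mul (h3.trans (mul_le_mul_of_nonneg_left h2 hc2.le)) h4 (norm_nonneg _)
            (by positivity)
      _ = C2 u * v.B * C1 v / N := by ring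
      _ ≤ η := hb

open NearChord in
theorem specChord : SpecChord := by
  intro u v κ₁ κ₂ m η hκ₁ hκ₂ hm hη hu hv hum
  have hB := B_nonneg v
  have hc1 := C1_pos u
  have hc2 := C2_pos u
  have hc1v := C1_pos v
  set R : ℝ := 2 * C1 u * v.B / η + 1 with hR
  have hR0 : 0 < R := by positivity
  obtain ⟨N₁, hN₁, hN⟩ := exists_N (C2 u * v.B * C1 v + C2 u * C1 v ^ 2 * R) η hη
  refine ⟨N₁, fun N hNN w hw x y => ?_⟩
  obtain ⟨hN0, hle, hr1, hr2, hf, -⟩ := hw
  have hN0' : (0 : ℝ) < N := by exact_mod_cast hN0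
  have hη' := hN N hNN
  obtain ⟨hp, hpx⟩ := inner_mem (u := u) hN0 hle (z := x) (by simp)
  obtain ⟨hq, hqy⟩ := inner_mem (u := u) hN0 hle (z := y) (by simp)
  have hwx : w.f x = u.f (v.f (N * x) / N) := hf x (by simpa using w.hρ)
  have hwy : w.f y = u.f (v.f (N * y) / N) := hf y (by simpa using w.hρ)
  have hxy0 : 0 ≤ |x - y| := abs_nonneg _
  have hxyn : ‖(x : ℂ) - y‖ = |x - y| := by
    rw [← Complex.ofReal_sub, Complex.norm_real, Real.norm_eq_abs]
  rcases le_or_gt (R / N) |x - y| with hfar | hnear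
  · have h1 : ‖u.f (v.f (N * x) / N) - u.f x‖ ≤ C1 u * (v.B / N) :=
      (lip u hp (mem_H u (by simp))).trans (mul_le_mul_of_nonneg_left hpx hc1.le)
    have h2 : ‖u.f (v.f (N * y) / N) - u.f y‖ ≤ C1 u * (v.B / N) :=
      (lip u hq (mem_H u (by simp))).trans (mul_le_mul_of_nonneg_left hqy hc1.le)
    have h3 := hu x y
    have h4 : ‖u.f x - u.f y‖ ≤ ‖w.f x - w.f y‖ + C1 u * (v.B / N) + C1 u * (v.B / N) := by
      rw [hwx, hwy]
      calc ‖u.f x - u.f y‖ = ‖(u.f (v.f (N * x) / N) - u.f (v.f (N * y) / N)) -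
            (u.f (v.f (N * x) / N) - u.f x) + (u.f (v.f (N * y) / N) - u.f y)‖ := by ring_nf
        _ ≤ ‖(u.f (v.f (N * x) / N) - u.f (v.f (N * y) / N)) -
            (u.f (v.f (N * x) / N) - u.f x)‖ + ‖u.f (v.f (N * y) / N) - u.f y‖ := norm_add_le _ _
        _ ≤ _ := add_le_add ((norm_sub_le _ _).trans (add_le_add le_rfl h1)) h2
    have h5 : 2 * (C1 u * (v.B / N)) ≤ η * |x - y| := by
      have h6 : 2 * C1 u * v.B ≤ η * R := by
        rw [hR, mul_add, mul_div_cancel₀ _ hη.ne']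
        linarith
      calc 2 * (C1 u * (v.B / N)) = 2 * C1 u * v.B / N := by ring
        _ ≤ η * R / N := div_le_div_of_nonneg_right h6 hN0'.le
        _ = η * (R / N) := by ring
        _ ≤ η * |x - y| := mul_le_mul_of_nonneg_left hfar hη.le
    have h7 : (min κ₁ (m * κ₂) - η) * |x - y| ≤ κ₁ * |x - y| - η * |x - y| := by
      rw [sub_mul]
      exact sub_le_sub_right (mul_le_mul_of_nonneg_right (min_le_left _ _) hxy0) _
    linarith
  · have hpq : ‖v.f (N * x) / N - v.f (N * y) / N‖ = ‖v.f (N * x) - v.f (N * y)‖ / N := by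
      rw [← sub_div, norm_div, Complex.norm_natCast]
    have hNxy : ‖((N : ℂ) * x) - N * y‖ = N * |x - y| := by
      rw [← mul_sub, norm_mul, Complex.norm_natCast, hxyn]
    have hup : ‖v.f (N * x) / N - v.f (N * y) / N‖ ≤ C1 v * |x - y| := by
      rw [hpq, div_le_iff₀ hN0']
      have := lip v (mem_H v (z := (N : ℂ) * x) (by simp)) (mem_H v (z := (N : ℂ) * y) (by simp))
      rw [hNxy] at this
      linarith
    have hlow : κ₂ * |x - y| ≤ ‖v.f (N * x) / N - v.f (N * y) / N‖ := by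
      rw [hpq, le_div_iff₀ hN0']
      have h1 := hv (N * x) (N * y)
      rw [← mul_sub, abs_mul, abs_of_pos hN0'] at h1
      push_cast at h1
      linarith
    set P := v.f (N * x) / N with hP
    set Q := v.f (N * y) / N with hQ
    have h1 := taylor u hp hq
    have h2 := lip_deriv u hq (mem_H u (z := (y : ℂ)) (by simp))
    have h3 : m - C2 u * (v.B / N) ≤ ‖deriv u.f Q‖ := by
      have h4 := hum y
      have h5 : ‖deriv u.f y‖ ≤ ‖deriv u.f Q‖ + ‖deriv u.f Q - deriv u.f y‖ := by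
        calc ‖deriv u.f y‖ = ‖deriv u.f Q - (deriv u.f Q - deriv u.f y)‖ := by ring_nf
          _ ≤ _ := norm_sub_le _ _
      have h6 := mul_le_mul_of_nonneg_left hqy hc2.le
      linarith
    have h4 : ‖deriv u.f Q * (P - Q)‖ ≤ ‖u.f P - u.f Q‖ + C2 u * ‖P - Q‖ * ‖P - Q‖ := by
      calc ‖deriv u.f Q * (P - Q)‖ = ‖(u.f P - u.f Q) - (u.f P - u.f Q - deriv u.f Q * (P - Q))‖ := by
            ring_nf
        _ ≤ _ := (norm_sub_le _ _).trans (add_le_add le_rfl h1)
    rw [norm_mul] at h4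
    have hPQ0 : 0 ≤ ‖P - Q‖ := norm_nonneg _
    have h5 : m * (κ₂ * |x - y|) ≤ m * ‖P - Q‖ := mul_le_mul_of_nonneg_left hlow hm.le
    have h6 : C2 u * (v.B / N) * ‖P - Q‖ ≤ C2 u * (v.B / N) * (C1 v * |x - y|) :=
      mul_le_mul_of_nonneg_left hup (by positivity)
    have h7 : C2 u * ‖P - Q‖ * ‖P - Q‖ ≤ C2 u * (C1 v * (R / N)) * (C1 v * |x - y|) := by
      apply mul_le_mul _ hup hPQ0 (by positivity)
      apply mul_le_mul_of_nonneg_left _ hc2.le
      exact hup.trans (mul_le_mul_of_nonneg_left hnear.le hc1v.le)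
    have h8 : (m - C2 u * (v.B / N)) * ‖P - Q‖ ≤ ‖deriv u.f Q‖ * ‖P - Q‖ :=
      mul_le_mul_of_nonneg_right h3 hPQ0
    have h9 : C2 u * (v.B / N) * (C1 v * |x - y|) + C2 u * (C1 v * (R / N)) * (C1 v * |x - y|) ≤
        η * |x - y| := by
      have e : C2 u * (v.B / N) * (C1 v * |x - y|) +
          C2 u * (C1 v * (R / N)) * (C1 v * |x - y|) =
          (C2 u * v.B * C1 v + C2 u * C1 v ^ 2 * R) / N * |x - y| := by ring
      rw [e]
      exact mul_le_mul_of_nonneg_right hη' hxy0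
    have h10 : (min κ₁ (m * κ₂) - η) * |x - y| ≤ m * (κ₂ * |x - y|) - η * |x - y| := by
      rw [sub_mul]
      have := mul_le_mul_of_nonneg_right (min_le_right κ₁ (m * κ₂)) hxy0
      linarith
    rw [hwx, hwy]
    linarith

end MP87
end

section
/-!
SEQ: the inductive construction of the sequence of stages.
-/
namespace MP87

open Filter Topology Set MeasureTheory Metric
open scoped InnerProductSpace ComplexConjugate Laplacian NNReal

noncomputable section

namespace Sq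

/-- quadratic approximation on the real line -/
theorem taylor (U : Upper) (x h : ℝ) :
    ‖U.f (x + h) - U.f x - h * deriv U.f x‖ ≤ NearChord.C2 U * |h| * |h| := by
  have hx : ∀ y : ℝ, (y : ℂ) ∈ NearChord.H U := by
    intro y
    show -(U.ρ / 4) ≤ (y : ℂ).im
    rw [Complex.ofReal_im]
    linarith [U.hρ]
  have h1 := NearChord.taylor U (hx (x + h)) (hx x)
  have e1 : (((x + h : ℝ)) : ℂ) - x = h := by push_cast; ring
  have e2 : ‖(h : ℂ)‖ = |h| := by
    rw [Complex.norm_real, Real.norm_eq_abs]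
  rw [e1, e2] at h1
  push_cast at h1
  rwa [mul_comm (deriv U.f x)] at h1

theorem lip_deriv (U : Upper) (x y : ℝ) :
    ‖deriv U.f x - deriv U.f y‖ ≤ NearChord.C2 U * |x - y| := by
  have hx : ∀ y : ℝ, (y : ℂ) ∈ NearChord.H U := by
    intro y
    show -(U.ρ / 4) ≤ (y : ℂ).im
    rw [Complex.ofReal_im]
    linarith [U.hρ]
  have h1 := NearChord.lip_deriv U (hx x) (hx y)
  have e1 : ‖(x : ℂ) - y‖ = |x - y| := by
    rw [← Complex.ofReal_sub, Complex.norm_real, Real.norm_eq_abs]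
  rwa [e1] at h1

theorem deriv_per (U : Upper) (x : ℝ) (j : ℤ) : deriv U.f ((x : ℂ) + j) = deriv U.f x := by
  rw [← deriv_comp_add_const]
  have h : (fun z : ℂ => U.f (z + j)) =ᶠ[𝓝 (x : ℂ)] fun z => U.f z + j := by
    have hx : -U.ρ < (x : ℂ).im := by
      rw [Complex.ofReal_im]; linarith [U.hρ]
    filter_upwards [(Upper.isOpen_half (-U.ρ)).mem_nhds hx] with z hz
    exact U.f_add_int j hz
  rw [h.deriv_eq]
  exact deriv_add_const _

/-- the choice of the window -/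
theorem exists_window (U : Upper) {e : ℝ} (he : 0 < e) : ∃ w : ℕ, ∀ x : ℝ,
    (∃ j : ℤ, |x - j| ≤ (2 ^ w)⁻¹) → ‖deriv U.f x - deriv U.f 0‖ ≤ e := by
  have hC := NearChord.C2_pos U
  obtain ⟨w, hw⟩ := exists_nat_gt (NearChord.C2 U / e)
  refine ⟨w, fun x ⟨j, hj⟩ => ?_⟩
  have h1 : deriv U.f x = deriv U.f ((x - j : ℝ) : ℂ) := by
    have := deriv_per U (x - j) j
    rw [← this]
    congr 1
    push_cast
    ring
  have h2 := lip_deriv U (x - j) 0
  rw [Complex.ofReal_zero] at h2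
  rw [h1]
  refine h2.trans ?_
  rw [sub_zero]
  have h3 : (w : ℝ) ≤ 2 ^ w := by exact_mod_cast (Nat.lt_two_pow_self (n := w)).le
  have h4 : (0 : ℝ) < w := lt_of_le_of_lt (by positivity) hw
  have h5 : ((2 : ℝ) ^ w)⁻¹ ≤ (w : ℝ)⁻¹ := by
    apply inv_anti₀ h4 h3
  calc NearChord.C2 U * |x - j| ≤ NearChord.C2 U * (w : ℝ)⁻¹ := by
        gcongr
        exact hj.trans h5
    _ ≤ e := by
        rw [← div_eq_mul_inv, div_le_iff₀ h4]
        rw [div_lt_iff₀ he] at hw
        linarith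

/-- the choice of the scale -/
theorem exists_scale (U : Upper) (k : ℕ) : ∃ r : ℝ, 0 < r ∧ r ≤ 1 / (k + 1) ∧
    ∀ x t : ℝ, |t| ≤ k →
      ‖U.f (x + r * t) - U.f x - r * t * deriv U.f x‖ ≤ r / (k + 1) := by
  have hC := NearChord.C2_pos U
  have hk : (0 : ℝ) ≤ k := Nat.cast_nonneg _
  have hD : 0 < NearChord.C2 U * (k ^ 2 + 1) * (k + 1) := by positivity
  refine ⟨min (1 / (k + 1)) (1 / (NearChord.C2 U * (k ^ 2 + 1) * (k + 1))), by positivity,
    min_le_left _ _, ?_⟩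
  intro x t ht
  set r := min (1 / ((k : ℝ) + 1)) (1 / (NearChord.C2 U * (k ^ 2 + 1) * (k + 1))) with hr
  have hr0 : 0 < r := by positivity
  have hr1 : r ≤ 1 / (NearChord.C2 U * (k ^ 2 + 1) * (k + 1)) := min_le_right _ _
  have h1 := taylor U x (r * t)
  push_cast at h1
  refine h1.trans ?_
  rw [abs_mul, abs_of_pos hr0]
  have h2 : |t| * |t| ≤ k * k := mul_self_le_mul_self (abs_nonneg _) ht
  have h3 : r * (NearChord.C2 U * (k ^ 2 + 1) * (k + 1)) ≤ 1 := by
    rwa [le_div_iff₀ hD] at hr1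
  rw [le_div_iff₀ (by positivity)]
  have h4 : 0 ≤ |t| * |t| := by positivity
  calc NearChord.C2 U * (r * |t|) * (r * |t|) * (k + 1)
      = r * (r * (NearChord.C2 U * (|t| * |t|) * (k + 1))) := by ring
    _ ≤ r * (r * (NearChord.C2 U * (k ^ 2 + 1) * (k + 1))) := by
        gcongr
        nlinarith
    _ ≤ r * 1 := by gcongr
    _ = r := mul_one _

/-- the bounds of the `k`-th stage -/
structure Good (k : ℕ) (s : Stage) : Prop where
  chord : ∀ x y : ℝ, (448 / 1000 + 2 / 1000 * (1 / 2) ^ k) * |x - y| ≤ ‖s.U.f x - s.U.f y‖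
  lc : ∀ x : ℝ, |s.lc x| ≤ 5 / 1000 - 4 / 1000 * (1 / 2) ^ k
  ld : ∀ x : ℝ, |Real.log ‖deriv s.U.f x‖| ≤ 7 / 1000 - 6 / 1000 * (1 / 2) ^ k

/-- logarithms of nearby numbers -/
theorem log_le {a b : ℝ} (ha : 1 / 2 ≤ a) (hb : 1 / 2 ≤ b) : |Real.log a - Real.log b| ≤ 2 * |a - b| := by
  have key : ∀ a b : ℝ, 1 / 2 ≤ a → 1 / 2 ≤ b → Real.log a - Real.log b ≤ 2 * |a - b| := by
    intro a b ha hb
    have hb0 : 0 < b := by linarith
    have ha0 : 0 < a := by linarith
    rw [← Real.log_div ha0.ne' hb0.ne']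
    refine (Real.log_le_sub_one_of_pos (div_pos ha0 hb0)).trans ?_
    rw [div_sub_one hb0.ne', div_le_iff₀ hb0]
    have := le_abs_self (a - b)
    nlinarith [abs_nonneg (a - b)]
  rw [abs_le]
  constructor
  · have := key b a hb ha
    rw [abs_sub_comm] at this
    linarith
  · exact key a b ha hb

theorem pow_bd (k : ℕ) : (0 : ℝ) < (1 / 2) ^ k ∧ ((1 : ℝ) / 2) ^ k ≤ 1 :=
  ⟨by positivity, pow_le_one₀ (by norm_num) (by norm_num)⟩

/-- the lower bound of the derivative -/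
theorem Good.deriv_ge {k : ℕ} {s : Stage} (h : Good k s) (x : ℝ) : 99 / 100 ≤ ‖deriv s.U.f x‖ := by
  have h1 := (abs_le.1 (h.ld x)).1
  have h2 := pow_bd k
  have h0 : 0 < ‖deriv s.U.f x‖ := by
    rw [norm_pos_iff]
    apply s.U.deriv_ne
    rw [Complex.ofReal_im]; linarith [s.U.hρ]
  have h3 : -(1 / 100) ≤ Real.log ‖deriv s.U.f x‖ := by linarith
  have h4 := Real.log_le_sub_one_of_pos h0
  linarith

/-- one step preserves the bounds -/
theorem good_step {k : ℕ} {s b s' : Stage} {N : ℕ} {e : ℝ} (h : Good k s) (hb : IsBlock b e)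
    (he0 : 0 < e) (he : e ≤ (1 / 2) ^ k / 1000) (hc : Close s b s' N e)
    (hch : ∀ x y : ℝ, (min (448 / 1000 + 2 / 1000 * (1 / 2) ^ k) (9 / 10 * (1 / 2)) - e) *
      |x - y| ≤ ‖s'.U.f x - s'.U.f y‖) : Good (k + 1) s' := by
  have h2 := pow_bd k
  refine ⟨?_, ?_, ?_⟩
  · intro x y
    refine le_trans ?_ (hch x y)
    apply mul_le_mul_of_nonneg_right _ (abs_nonneg _)
    rw [min_eq_left (by linarith), pow_succ]
    linarith
  · intro x
    have h3 := hc.hl x
    have h4 := hb.lc (N * x)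
    have h5 := h.lc x
    have h6 : |s'.lc x| ≤ |s'.lc x - s.lc x - b.lc (N * x)| + |s.lc x| + |b.lc (N * x)| := by
      have e1 : s'.lc x = (s'.lc x - s.lc x - b.lc (N * x)) + s.lc x + b.lc (N * x) := by ring
      calc |s'.lc x| = |(s'.lc x - s.lc x - b.lc (N * x)) + s.lc x + b.lc (N * x)| := by rw [← e1]
        _ ≤ _ := abs_add_three _ _ _
    rw [pow_succ]
    linarith
  · intro x
    have h3 := hc.hd x
    have h4 := hb.ld (N * x)
    have h5 := h.ld x
    have h6 := h.deriv_ge x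
    have hb0 : 0 < ‖deriv b.U.f ((N * x : ℝ) : ℂ)‖ := by
      rw [norm_pos_iff]
      apply b.U.deriv_ne
      rw [Complex.ofReal_im]; linarith [b.U.hρ]
    have h7 : 99 / 100 ≤ ‖deriv b.U.f ((N * x : ℝ) : ℂ)‖ := by
      have h8 := Real.log_le_sub_one_of_pos hb0
      have h9 := (abs_le.1 h4).1
      linarith
    push_cast at hb0 h7 h4
    have h8 : |‖deriv s'.U.f x‖ - ‖deriv s.U.f x‖ * ‖deriv b.U.f (N * x)‖| ≤ e := by
      rw [← norm_mul]
      exact (abs_norm_sub_norm_le _ _).trans h3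
    have h9 : 98 / 100 ≤ ‖deriv s.U.f x‖ * ‖deriv b.U.f (N * x)‖ := by nlinarith
    have h10 : 1 / 2 ≤ ‖deriv s'.U.f x‖ := by
      have := (abs_le.1 h8).1
      linarith
    have h11 := log_le h10 (show 1 / 2 ≤ ‖deriv s.U.f x‖ * ‖deriv b.U.f (N * x)‖ by linarith)
    rw [Real.log_mul (by linarith) (by linarith)] at h11
    have h12 : |Real.log ‖deriv s'.U.f x‖| ≤
        |Real.log ‖deriv s'.U.f x‖ - (Real.log ‖deriv s.U.f x‖ + Real.log ‖deriv b.U.f (N * x)‖)| +
          |Real.log ‖deriv s.U.f x‖| + |Real.log ‖deriv b.U.f (N * x)‖| := by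
      have e1 : Real.log ‖deriv s'.U.f x‖ = (Real.log ‖deriv s'.U.f x‖ -
        (Real.log ‖deriv s.U.f x‖ + Real.log ‖deriv b.U.f (N * x)‖)) +
          Real.log ‖deriv s.U.f x‖ + Real.log ‖deriv b.U.f (N * x)‖ := by ring
      calc |Real.log ‖deriv s'.U.f x‖| = |(Real.log ‖deriv s'.U.f x‖ -
        (Real.log ‖deriv s.U.f x‖ + Real.log ‖deriv b.U.f (N * x)‖)) +
          Real.log ‖deriv s.U.f x‖ + Real.log ‖deriv b.U.f (N * x)‖| := by rw [← e1]
        _ ≤ _ := abs_add_three _ _ _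
    rw [pow_succ]
    linarith

/-- the state of the recursion -/
structure St where
  s : Stage
  ρ : ℝ
  W : ℕ
  n' : ℕ

/-- the data chosen in one step -/
structure Dat where
  b : Stage
  n : ℕ
  w : ℕ
  r : ℝ
  e : ℝ

/-- the properties of one step -/
structure Pr (k : ℕ) (σ : St) (d : Dat) (σ' : St) : Prop where
  rpos : 0 < d.r
  rle : d.r ≤ 1 / (k + 1)
  aff : ∀ x t : ℝ, |t| ≤ k →
    ‖σ.s.U.f (x + d.r * t) - σ.s.U.f x - d.r * t * deriv σ.s.U.f x‖ ≤ d.r / (k + 1)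
  epos : 0 < d.e
  ele : d.e ≤ (1 / 2) ^ k / 1000
  ler : d.e ≤ σ'.ρ * (1 / 2) ^ k
  block : IsBlock d.b d.e
  win : ∀ x : ℝ, (∃ j : ℤ, |x - j| ≤ (2 ^ d.w)⁻¹) →
    ‖deriv d.b.U.f x - deriv d.b.U.f 0‖ ≤ d.e
  close : Close σ.s d.b σ'.s (2 ^ d.n) d.e
  n1 : (k + 1) * (σ.W + d.w) ≤ d.n
  n2 : σ.n' ≤ d.n
  ρle : σ'.ρ ≤ σ.ρ
  ρle' : σ'.ρ ≤ d.r / (k + 1)
  Weq : σ'.W = σ.W + d.w
  neq : σ'.n' = d.n + d.w

/-- the invariant -/
def Inv (k : ℕ) (σ : St) : Prop := Good k σ.s ∧ 0 < σ.ρ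

theorem exists_step (hB : SpecBlock) (hA : SpecAll) (k : ℕ) (σ : {x : St // Inv k x}) :
    ∃ (σ' : {x : St // Inv (k + 1) x}) (d : Dat), Pr k σ.1 d σ'.1 := by
  obtain ⟨⟨s, ρ, W, n'⟩, hG, hρ⟩ := σ
  have hG' : Good k s := hG
  have hρ' : 0 < ρ := hρ
  have hp := pow_bd k
  obtain ⟨r, hr0, hr1, hr2⟩ := exists_scale s.U k
  set ρ' : ℝ := min ρ (r / (k + 1)) with hρd
  have hρ'0 : 0 < ρ' := lt_min hρ' (by positivity)
  set e : ℝ := min ((1 / 2) ^ k / 1000) (ρ' * (1 / 2) ^ k) with hed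
  have he0 : 0 < e := lt_min (by positivity) (by positivity)
  have he1 : e ≤ (1 / 2) ^ k / 1000 := min_le_left _ _
  have he2 : e ≤ ρ' * (1 / 2) ^ k := min_le_right _ _
  obtain ⟨b, hb⟩ := hB e he0
  obtain ⟨w, hw⟩ := exists_window b.U he0
  obtain ⟨N₁, hN₁⟩ := hA s b (448 / 1000 + 2 / 1000 * (1 / 2) ^ k) (1 / 2) (9 / 10) e
    (by positivity) (by norm_num) (by norm_num) he0 hG'.chord hb.chord
    (fun x => by linarith [hG'.deriv_ge x])
  set n : ℕ := max N₁ (max n' ((k + 1) * (W + w))) with hn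
  have hn1 : N₁ ≤ n := le_max_left _ _
  have hn2 : n' ≤ n := (le_max_left _ _).trans (le_max_right _ _)
  have hn3 : (k + 1) * (W + w) ≤ n := (le_max_right _ _).trans (le_max_right _ _)
  obtain ⟨s', hs', hch⟩ := hN₁ (2 ^ n) (hn1.trans (Nat.lt_two_pow_self (n := n)).le)
  refine ⟨⟨⟨s', ρ', W + w, n + w⟩, good_step hG' hb he0 he1 hs' hch, hρ'0⟩,
    ⟨b, n, w, r, e⟩, ?_⟩
  exact ⟨hr0, hr1, hr2, he0, he1, he2, hb, hw, hs', hn3, hn2, min_le_left _ _, min_le_right _ _,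
    rfl, rfl⟩

end Sq

open Sq in
theorem specSeq (hB : SpecBlock) (hA : SpecAll) : SpecSeq := by
  choose F D hFD using fun k => exists_step hB hA k
  obtain ⟨s₀, hs₀⟩ := hB (1 / 1000) (by norm_num)
  have h0 : Inv 0 ⟨s₀, 1, 0, 0⟩ := by
    refine ⟨⟨fun x y => ?_, fun x => ?_, fun x => ?_⟩, one_pos⟩
    · have := hs₀.chord x y
      have h2 := abs_nonneg (x - y)
      rw [pow_zero]
      nlinarith
    · have := hs₀.lc x
      rw [pow_zero]
      linarith
    · have := hs₀.ld x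
      rw [pow_zero]
      linarith
  let σ : ∀ k, {x : St // Inv k x} := fun k => Nat.rec ⟨⟨s₀, 1, 0, 0⟩, h0⟩ (fun k x => F k x) k
  have hσ0 : (σ 0).1 = ⟨s₀, 1, 0, 0⟩ := rfl
  have hP : ∀ k, Pr k (σ k).1 (D k (σ k)) (σ (k + 1)).1 := fun k => hFD k (σ k)
  -- the number of prescribed digits
  have hW : ∀ k, (σ k).1.W = ∑ i ∈ Finset.range k, (D i (σ i)).w := by
    intro k
    induction k with
    | zero => rw [hσ0]; rfl
    | succ k ih => rw [Finset.sum_range_succ, ← ih]; exact (hP k).Weq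
  have hρ : ∀ k j, k ≤ j → (σ j).1.ρ ≤ (σ k).1.ρ := by
    intro k j hkj
    induction j, hkj using Nat.le_induction with
    | base => exact le_rfl
    | succ j _ ih => exact (hP j).ρle.trans ih
  refine ⟨fun k => (σ k).1.s, fun k => (D k (σ k)).b, fun k => (D k (σ k)).n,
    fun k => (D k (σ k)).w, fun k => (D k (σ k)).r, fun k => (D k (σ k)).e, ?_⟩
  refine ⟨⟨fun m => ?_, fun m => ?_⟩, fun k => (hP k).close, fun k => (hP k).epos,
    fun k => (hP k).ele, fun k => (hP k).block, fun k => (hP k).win, fun k => (hP k).rpos,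
    fun k => (hP k).rle, fun k => (hP k).aff, fun k j hkj => ?_, fun k x y => ?_,
    fun k x => ?_, fun k x => ?_⟩
  · rw [Finset.sum_range_succ, ← hW]
    exact (hP m).n1
  · have h1 := (hP m).neq
    have h2 := (hP (m + 1)).n2
    show (D m (σ m)).n + (D m (σ m)).w ≤ (D (m + 1) (σ (m + 1))).n
    rw [← h1]
    exact h2
  · refine (hP j).ler.trans ?_
    apply mul_le_mul_of_nonneg_right _ (by positivity)
    exact (hρ (k + 1) (j + 1) (by omega)).trans (hP k).ρle'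
  · refine le_trans ?_ ((σ k).2.1.chord x y)
    have := pow_bd k
    apply mul_le_mul_of_nonneg_right _ (abs_nonneg _)
    linarith
  · refine ((σ k).2.1.lc x).trans ?_
    have := pow_bd k
    linarith
  · refine ((σ k).2.1.ld x).trans ?_
    have := pow_bd k
    linarith

end

end MP87
end
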