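import Pool.Agent.Lib.MP_87ece0_an.LimW

section
/-!
The maximum principle on the lower domain for periodic functions.
-/
namespace MP87

open Filter Topology Set MeasureTheory Metric
open scoped InnerProductSpace ComplexConjugate Laplacian NNReal

noncomputable section

namespace Max

variable (U : Upper)

/-- a limit point of `Om` outside of `Om` is on the curve -/
theorem limit_mem {w : ℂ} (hw : w ∈ closure U.Om) (hn : w ∉ U.Om) : ∃ x : ℝ, w = U.f x := by
  rw [U.Om_eq, ← U.τ.image_closure, Complex.closure_setOfPred_im_lt] at hw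
  obtain ⟨z, hz, rfl⟩ := hw
  have hz' : z.im ≤ 0 := hz
  have hz0 : z.im = 0 := by
    refine le_antisymm hz' (not_lt.1 fun h => hn (U.mem_Om_iff.2 ?_))
    simpa using h
  refine ⟨z.re, ?_⟩
  have h1 : z = (z.re : ℂ) := Complex.ext (by simp) (by simp [hz0])
  rw [← h1]
  exact U.τf z (by rw [hz0]; linarith [U.hρ])

theorem preconn : IsPreconnected U.Om := by
  rw [U.Om_eq]
  exact ((convex_halfSpace_im_lt 0).isPreconnected).image _ U.τ.continuous.continuousOn

theorem exists_low (R : ℝ) : ∃ w ∈ U.Om, w.im < -R := by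
  refine ⟨-((|R| + |U.B| + 1 : ℝ) : ℂ) * Complex.I, U.mem_of_im_lt ?_, ?_⟩
  · have := le_abs_self U.B
    have := abs_nonneg R
    simp
    linarith
  · have := le_abs_self R
    have := abs_nonneg U.B
    simp
    linarith

/-- the core: a function with periodic norm, small near `-i∞` -/
theorem core (h : ℂ → ℂ) (K : ℝ) (hd : DifferentiableOn ℂ h U.Om)
    (hper : ∀ w ∈ U.Om, ‖h (w + 1)‖ = ‖h w‖)
    (hdec : ∀ e : ℝ, 0 < e → ∃ R : ℝ, ∀ w ∈ U.Om, w.im < -R → ‖h w‖ ≤ e)
    (hbd : ∃ δ : ℝ, 0 < δ ∧ ∀ w ∈ U.Om, (∃ x : ℝ, ‖w - U.f x‖ < δ) → ‖h w‖ ≤ K)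
    (hK : 0 ≤ K) :
    ∀ w ∈ U.Om, ‖h w‖ ≤ K := by
  intro w1 hw1
  by_contra hc
  push Not at hc
  set m := ‖h w1‖ with hm
  have hm0 : 0 < m := lt_of_le_of_lt hK hc
  obtain ⟨R, hR⟩ := hdec (m / 2) (by linarith)
  obtain ⟨δ, hδ, hbd⟩ := hbd
  have hperI : ∀ n : ℤ, ∀ w ∈ U.Om, ‖h (w + n)‖ = ‖h w‖ := by
    intro n
    induction n using Int.induction_on with
    | zero => intro w _; simp
    | succ n ih =>
      intro w hw
      push_cast at ih ⊢
      have h1 : w + (n : ℂ) ∈ U.Om := by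
        have := (U.Om_add_int (w := w) (n : ℤ)).2 hw
        simpa using this
      rw [← add_assoc, hper _ h1, ih w hw]
    | pred n ih =>
      intro w hw
      push_cast at ih ⊢
      have h1 : w + (-(n : ℂ) - 1) ∈ U.Om := by
        have := (U.Om_add_int (w := w) (-(n : ℤ) - 1)).2 hw
        push_cast at this
        exact this
      have h2 := hper _ h1
      have h3 : w + (-(n : ℂ) - 1) + 1 = w + -(n : ℂ) := by ring
      rw [h3, ih w hw] at h2
      exact h2.symm
  let T : Set ℂ := {w | w ∈ U.Om ∧ (0 ≤ w.re ∧ w.re ≤ 1) ∧ m ≤ ‖h w‖}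
  have hTsub : T ⊆ U.Om := fun w hw => hw.1
  have hTcl : IsClosed T := by
    rw [← closure_subset_iff_isClosed]
    intro w hw
    have hw2 : w ∈ closure U.Om := closure_mono hTsub hw
    have hwO : w ∈ U.Om := by
      by_contra hn
      obtain ⟨x, hx⟩ := limit_mem U hw2 hn
      rw [Metric.mem_closure_iff] at hw
      obtain ⟨w', hw', hd'⟩ := hw δ hδ
      have h1 := hbd w' hw'.1 ⟨x, by rw [← hx, ← dist_eq_norm, dist_comm]; exact hd'⟩
      have h2 := hw'.2.2
      linarith
    have hcont : ContinuousAt (fun z => ‖h z‖) w :=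
      ((hd w hwO).differentiableAt (U.isOpen_Om.mem_nhds hwO)).continuousAt.norm
    have hfr : ∃ᶠ z in 𝓝 w, z ∈ T := mem_closure_iff_frequently.1 hw
    refine ⟨hwO, ⟨?_, ?_⟩, ?_⟩
    · have hc1 : IsClosed {z : ℂ | 0 ≤ z.re} := isClosed_le continuous_const Complex.continuous_re
      exact hc1.closure_subset_iff.2 (fun z hz => hz.2.1.1) hw
    · have hc1 : IsClosed {z : ℂ | z.re ≤ 1} := isClosed_le Complex.continuous_re continuous_const
      exact hc1.closure_subset_iff.2 (fun z hz => hz.2.1.2) hw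
    · by_contra hlt
      push Not at hlt
      have h1 : ∀ᶠ z in 𝓝 w, ‖h z‖ < m := hcont.eventually_lt continuousAt_const hlt
      obtain ⟨z, hz1, hz2⟩ := (hfr.and_eventually h1).exists
      exact absurd hz1.2.2 (not_le.2 hz2)
  have hTbd : Bornology.IsBounded T := by
    rw [isBounded_iff_forall_norm_le]
    refine ⟨1 + (|U.B| + |R|), ?_⟩
    intro w hw
    have h1 : |w.re| ≤ 1 := abs_le.2 ⟨by linarith [hw.2.1.1], hw.2.1.2⟩
    have h2 : w.im < U.B := U.im_le_of_mem hw.1
    have h3 : -R ≤ w.im := by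
      by_contra hlt
      push Not at hlt
      have := hR w hw.1 hlt
      have := hw.2.2
      linarith
    have h4 : |w.im| ≤ |U.B| + |R| := by
      rw [abs_le]
      have h5 := le_abs_self U.B
      have h6 := le_abs_self R
      have h7 := abs_nonneg U.B
      have h8 := abs_nonneg R
      constructor <;> linarith
    calc ‖w‖ ≤ |w.re| + |w.im| := Complex.norm_le_abs_re_add_abs_im w
      _ ≤ _ := by linarith
  have hTcomp : IsCompact T := Metric.isCompact_of_isClosed_isBounded hTcl hTbd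
  have hshift : ∀ w ∈ U.Om, m ≤ ‖h w‖ → ∃ w' ∈ T, ‖h w'‖ = ‖h w‖ := by
    intro w hw hmw
    refine ⟨w + ((-⌊w.re⌋ : ℤ) : ℂ), ⟨(U.Om_add_int _).2 hw, ⟨?_, ?_⟩, ?_⟩, hperI _ w hw⟩
    · have := Int.floor_le w.re
      simp
      linarith
    · have := (Int.lt_floor_add_one w.re).le
      simp
      linarith
    · rw [hperI _ w hw]; exact hmw
  have hTne : T.Nonempty := by
    obtain ⟨w', hw', _⟩ := hshift w1 hw1 le_rfl
    exact ⟨w', hw'⟩
  obtain ⟨w2, hw2, hmax⟩ := hTcomp.exists_isMaxOn hTne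
    (f := fun z => ‖h z‖) ((hd.continuousOn.mono hTsub).norm)
  have hmax2 : IsMaxOn (norm ∘ h) U.Om w2 := by
    intro w hw
    show ‖h w‖ ≤ ‖h w2‖
    by_cases hmw : m ≤ ‖h w‖
    · obtain ⟨w', hw', he⟩ := hshift w hw hmw
      rw [← he]
      exact hmax hw'
    · push Not at hmw
      exact hmw.le.trans hw2.2.2
  have hconst := Complex.norm_eqOn_of_isPreconnected_of_isMaxOn (preconn U) U.isOpen_Om hd
    hw2.1 hmax2
  obtain ⟨w3, hw3, hlow⟩ := exists_low U R
  have h1 := hconst hw3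
  have h2 : ‖h w3‖ = ‖h w2‖ := h1
  have h3 := hR w3 hw3 hlow
  have h4 := hw2.2.2
  linarith

/-- there are points of `Om` arbitrarily close to the curve -/
theorem exists_near {δ : ℝ} (hδ : 0 < δ) : ∃ w ∈ U.Om, ∃ x : ℝ, ‖w - U.f x‖ < δ := by
  have hc : ContinuousAt (fun t : ℝ => U.f (-(t : ℂ) * Complex.I)) 0 := by
    have h1 : ContinuousAt U.f (-((0 : ℝ) : ℂ) * Complex.I) := by
      apply U.contAt
      simpa using U.hρ
    have h2 : ContinuousAt (fun t : ℝ => -(t : ℂ) * Complex.I) 0 := by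
      apply Continuous.continuousAt
      fun_prop
    exact ContinuousAt.comp (f := fun t : ℝ => -(t : ℂ) * Complex.I) (x := (0:ℝ)) h1 h2
  have h1 : ∀ᶠ t : ℝ in 𝓝 0, ‖U.f (-(t : ℂ) * Complex.I) - U.f ((0 : ℝ) : ℂ)‖ < δ := by
    have h2 : Tendsto (fun t : ℝ => ‖U.f (-(t : ℂ) * Complex.I) - U.f ((0 : ℝ) : ℂ)‖) (𝓝 0)
        (𝓝 0) := by
      have h3 := (hc.tendsto.sub (tendsto_const_nhds (x := U.f ((0 : ℝ) : ℂ)))).norm
      simpa using h3
    exact (tendsto_order.1 h2).2 δ hδ
  have h2 : ∀ᶠ t : ℝ in 𝓝[>] 0, ‖U.f (-(t : ℂ) * Complex.I) - U.f ((0 : ℝ) : ℂ)‖ < δ :=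
    mem_nhdsWithin_of_mem_nhds h1
  have h3 : ∀ᶠ t : ℝ in 𝓝[>] 0, t < U.ρ := by
    have : ∀ᶠ t : ℝ in 𝓝 0, t < U.ρ := Iio_mem_nhds U.hρ
    exact mem_nhdsWithin_of_mem_nhds this
  obtain ⟨t, ht1, ht2, ht3⟩ := (h2.and (h3.and self_mem_nhdsWithin)).exists
  have ht3' : (0 : ℝ) < t := ht3
  refine ⟨U.f (-(t : ℂ) * Complex.I), U.mem_Om ?_ ?_, 0, ht1⟩
  · simp
    exact ht2
  · simp
    exact ht3'

end Max

theorem specMax : SpecMax := by
  intro U s M hd hper hbdd hbd w hw
  obtain ⟨R, C, hC⟩ := hbdd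
  -- the estimate for each `ε`
  have key : ∀ ε : ℝ, 0 < ε →
      ‖s w‖ ≤ (M + ε) * Real.exp (2 * Real.pi * ε * (U.B - w.im)) := by
    intro ε hε
    obtain ⟨δ, hδ, hδb⟩ := hbd ε hε
    have hM : 0 ≤ M + ε := by
      obtain ⟨w', hw', hx⟩ := Max.exists_near U hδ
      exact (norm_nonneg _).trans (hδb w' hw' hx)
    have hexp : ∀ z : ℂ, ‖Complex.exp (-(2 * Real.pi * Complex.I * ε * z))‖
        = Real.exp (2 * Real.pi * ε * z.im) := by
      intro z
      rw [Complex.norm_exp]
      congr 1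
      simp
    have hcore := Max.core U (fun z => s z * Complex.exp (-(2 * Real.pi * Complex.I * ε * z)))
      ((M + ε) * Real.exp (2 * Real.pi * ε * U.B)) ?_ ?_ ?_ ?_ ?_ w hw
    · rw [norm_mul, hexp] at hcore
      have h1 : Real.exp (2 * Real.pi * ε * U.B)
          = Real.exp (2 * Real.pi * ε * (U.B - w.im)) * Real.exp (2 * Real.pi * ε * w.im) := by
        rw [← Real.exp_add]
        congr 1
        ring
      rw [h1, ← mul_assoc] at hcore
      exact le_of_mul_le_mul_right hcore (Real.exp_pos _)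
    · apply hd.mul
      apply Differentiable.differentiableOn
      fun_prop
    · intro z hz
      rw [norm_mul, norm_mul, hexp, hexp, hper z hz]
      simp
    · intro e he
      -- `C * exp (2 π ε im w) ≤ e` for `im w` very negative
      have hpos : 0 < 2 * Real.pi * ε := by positivity
      have h1 : Tendsto (fun y : ℝ => |C| * Real.exp (2 * Real.pi * ε * y)) atBot (𝓝 0) := by
        have h2 : Tendsto (fun y : ℝ => 2 * Real.pi * ε * y) atBot atBot :=
          tendsto_id.const_mul_atBot hpos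
        have h3 := (Real.tendsto_exp_atBot.comp h2).const_mul |C|
        simpa using h3
      have h2 := (tendsto_order.1 h1).2 e he
      obtain ⟨a, ha⟩ := eventually_atBot.1 h2
      refine ⟨max R (-a), ?_⟩
      intro z hz hzi
      have h3 : z.im < -R := by linarith [le_max_left R (-a)]
      have h4 : z.im ≤ a := by linarith [le_max_right R (-a)]
      rw [norm_mul, hexp]
      have h5 : ‖s z‖ ≤ |C| := (hC z hz h3).trans (le_abs_self C)
      calc ‖s z‖ * Real.exp (2 * Real.pi * ε * z.im)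
          ≤ |C| * Real.exp (2 * Real.pi * ε * z.im) :=
            mul_le_mul_of_nonneg_right h5 (Real.exp_pos _).le
        _ ≤ e := (ha z.im h4).le
    · refine ⟨δ, hδ, ?_⟩
      intro z hz hx
      rw [norm_mul, hexp]
      have h1 := hδb z hz hx
      have h2 : Real.exp (2 * Real.pi * ε * z.im) ≤ Real.exp (2 * Real.pi * ε * U.B) := by
        apply Real.exp_le_exp.2
        have hpos : 0 < 2 * Real.pi * ε := by positivity
        exact mul_le_mul_of_nonneg_left (U.im_le_of_mem hz).le hpos.le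
      exact mul_le_mul h1 h2 (Real.exp_pos _).le hM
    · positivity
  have hlim : Tendsto (fun ε : ℝ => (M + ε) * Real.exp (2 * Real.pi * ε * (U.B - w.im)))
      (𝓝[>] 0) (𝓝 M) := by
    have h1 : Continuous fun ε : ℝ => (M + ε) * Real.exp (2 * Real.pi * ε * (U.B - w.im)) := by
      fun_prop
    have h2 := (h1.tendsto 0).mono_left (nhdsWithin_le_nhds (s := Ioi 0))
    simpa using h2
  refine ge_of_tendsto hlim ?_
  filter_upwards [self_mem_nhdsWithin] with ε hε
  exact key ε hε

theorem specMaxIm (hMax : SpecMax) : SpecMaxIm := by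
  intro U s M hd hper hbdd hbd w hw
  obtain ⟨R, C, hC⟩ := hbdd
  have main : ∀ σ : ℝ, (σ = 1 ∨ σ = -1) → σ * (s w).im ≤ M := by
    intro σ hσ
    have hσa : |σ| = 1 := by rcases hσ with rfl | rfl <;> simp
    have hn : ∀ z : ℂ, ‖Complex.exp (-(σ * Complex.I * z))‖ = Real.exp (σ * z.im) := by
      intro z
      rw [Complex.norm_exp]
      congr 1
      simp
    have h1 := hMax U (fun z => Complex.exp (-(σ * Complex.I * s z))) (Real.exp M) ?_ ?_ ?_ ?_ w hw
    · rw [hn] at h1
      exact Real.exp_le_exp.1 h1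
    · apply DifferentiableOn.cexp
      exact (hd.const_mul _).neg
    · intro z hz
      simp only [hper z hz]
    · refine ⟨R, Real.exp C, ?_⟩
      intro z hz hzi
      rw [hn]
      apply Real.exp_le_exp.2
      calc σ * (s z).im ≤ |σ * (s z).im| := le_abs_self _
        _ = |(s z).im| := by rw [abs_mul, hσa, one_mul]
        _ ≤ ‖s z‖ := Complex.abs_im_le_norm _
        _ ≤ C := hC z hz hzi
    · intro ε hε
      have hpos : 0 < Real.exp M := Real.exp_pos M
      have h2 : 0 < Real.log (Real.exp M + ε) - M := by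
        have : M < Real.log (Real.exp M + ε) := by
          rw [Real.lt_log_iff_exp_lt (by linarith)]
          linarith
        linarith
      obtain ⟨δ, hδ, hδb⟩ := hbd _ h2
      refine ⟨δ, hδ, ?_⟩
      intro z hz hx
      have h3 := hδb z hz hx
      rw [hn]
      have h4 : σ * (s z).im ≤ Real.log (Real.exp M + ε) := by
        calc σ * (s z).im ≤ |σ * (s z).im| := le_abs_self _
          _ = |(s z).im| := by rw [abs_mul, hσa, one_mul]
          _ ≤ _ := by linarith
      calc Real.exp (σ * (s z).im) ≤ Real.exp (Real.log (Real.exp M + ε)) := Real.exp_le_exp.2 h4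
        _ = Real.exp M + ε := Real.exp_log (by linarith)
  rw [abs_le]
  constructor
  · have := main (-1) (Or.inr rfl)
    linarith
  · have := main 1 (Or.inl rfl)
    linarith

end

end MP87
end

section
/-!
MICL: the welding function of the micro block to first order.
-/
namespace MP87.MicL

open Filter Topology Set MeasureTheory Metric
open scoped ComplexConjugate

noncomputable section

variable {ρ C : ℝ} {φ P : ℂ → ℂ}

/-- the reflected primitive -/
def Ps (P : ℂ → ℂ) (w : ℂ) : ℂ := conj (P (conj w) - P 0)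

lemma hasDerivAt_Ps (hP : ∀ z : ℂ, -ρ < z.im → HasDerivAt P (φ z) z) {w : ℂ} (hw : w.im < ρ) :
    HasDerivAt (Ps P) (conj (φ (conj w))) w := by
  have h1 : HasDerivAt P (φ (conj w)) (conj w) := hP _ (by rw [Complex.conj_im]; linarith)
  have h2 := (h1.sub_const (P 0)).conj_conj
  rw [Complex.conj_conj] at h2
  exact h2

lemma Ps_lip (hP : ∀ z : ℂ, -ρ < z.im → HasDerivAt P (φ z) z)
    (hφ : ∀ z : ℂ, -ρ < z.im → ‖φ z‖ ≤ C) {z w : ℂ} (hz : z.im < ρ) (hw : w.im < ρ) :
    ‖Ps P z - Ps P w‖ ≤ C * ‖z - w‖ := by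
  have hconv : Convex ℝ {z : ℂ | z.im < ρ} := convex_halfSpace_im_lt ρ
  refine hconv.norm_image_sub_le_of_norm_hasDerivWithin_le
    (f' := fun w => conj (φ (conj w))) (fun x hx => (hasDerivAt_Ps hP hx).hasDerivWithinAt) ?_ hw hz
  intro x hx
  have hx' : x.im < ρ := hx
  rw [Complex.norm_conj]
  exact hφ _ (by rw [Complex.conj_im]; linarith)

lemma Ps_bdd (hρ : 0 < ρ) (hb : ∀ z : ℂ, -ρ < z.im → ‖P z‖ ≤ C) {w : ℂ} (hw : w.im < ρ) :
    ‖Ps P w‖ ≤ 2 * C := by
  unfold Ps
  rw [Complex.norm_conj]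
  have h1 := hb (conj w) (by rw [Complex.conj_im]; linarith)
  have h2 := hb 0 (by simpa using hρ)
  linarith [norm_sub_le (P (conj w)) (P 0)]

lemma Ps_add_one (hper : ∀ z : ℂ, -ρ < z.im → P (z + 1) = P z) {w : ℂ} (hw : w.im < ρ) :
    Ps P (w + 1) = Ps P w := by
  unfold Ps
  rw [map_add, map_one, hper _ (by rw [Complex.conj_im]; linarith)]

theorem main (hMax : SpecMaxIm) (hGrad : SpecGrad) (hρ : 0 < ρ)
    (hP : ∀ z : ℂ, -ρ < z.im → HasDerivAt P (φ z) z)
    (hb : ∀ z : ℂ, -ρ < z.im → ‖P z‖ ≤ C) (hφ : ∀ z : ℂ, -ρ < z.im → ‖φ z‖ ≤ C)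
    (hper : ∀ z : ℂ, -ρ < z.im → P (z + 1) = P z)
    {ε : ℝ} (hε : 0 < ε) (hε1 : ε ≤ 1) (hε2 : 3 * C * ε < ρ / 2)
    (U : Upper) (hU : U.ρ = ρ)
    (hf : ∀ z : ℂ, -ρ < z.im → ‖U.f z - z - ε * (P z - P 0)‖ ≤ C * ε ^ 2)
    (L : Lower U) (x : ℝ) :
    ‖deriv L.c x - 1 - ε * (φ x + conj (φ x))‖ ≤ (8 * (2 * C + 6 * C ^ 2) / (ρ / 2)) * ε ^ 2 := by
  have hC : 0 ≤ C := (norm_nonneg _).trans (hb 0 (by simpa using hρ))
  -- `|f z - z| ≤ 3 C ε`
  have hfz : ∀ z : ℂ, -ρ < z.im → ‖U.f z - z‖ ≤ 3 * C * ε := by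
    intro z hz
    have h1 := hf z hz
    have h2 : ‖(ε : ℂ) * (P z - P 0)‖ ≤ ε * (2 * C) := by
      rw [norm_mul, Complex.norm_real, Real.norm_eq_abs, abs_of_pos hε]
      apply mul_le_mul_of_nonneg_left _ hε.le
      have h3 := hb z hz
      have h4 := hb 0 (by simpa using hρ)
      linarith [norm_sub_le (P z) (P 0)]
    have h3 : ‖U.f z - z‖ ≤ ‖U.f z - z - ε * (P z - P 0)‖ + ‖(ε : ℂ) * (P z - P 0)‖ := by
      have := norm_add_le (U.f z - z - ε * (P z - P 0)) ((ε : ℂ) * (P z - P 0))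
      rwa [sub_add_cancel] at this
    have h4 : C * ε ^ 2 ≤ C * ε := by
      apply mul_le_mul_of_nonneg_left _ hC
      nlinarith
    nlinarith
  have hfx : ∀ y : ℝ, (U.f y).im ≤ 3 * C * ε := by
    intro y
    have h1 := hfz y (by simpa using hρ)
    have h2 := (Complex.abs_im_le_norm _).trans h1
    rw [Complex.sub_im, Complex.ofReal_im, sub_zero] at h2
    exact (abs_le.1 h2).2
  have hOm : ∀ w ∈ U.Om, w.im ≤ 3 * C * ε := fun w hw => U.im_le_of_curve hfx hw
  have hOm' : ∀ w ∈ U.Om, w.im < ρ := fun w hw => by linarith [hOm w hw]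
  -- the maximum principle
  set D : ℂ → ℂ := fun w => L.ψ w - w - ε * Ps P w with hD
  have hDim : ∀ w ∈ U.Om, |(D w).im| ≤ (C + 3 * C ^ 2) * ε ^ 2 := by
    apply hMax U D
    · intro w hw
      have h1 : DifferentiableWithinAt ℂ L.ψ U.Om w := L.ψhol w hw
      have h2 : DifferentiableAt ℂ (Ps P) w := (hasDerivAt_Ps hP (hOm' w hw)).differentiableAt
      exact (h1.sub differentiableWithinAt_id).sub
        (h2.differentiableWithinAt.const_mul (ε : ℂ))
    · intro w hw
      simp only [hD]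
      rw [L.ψper w hw, Ps_add_one hper (hOm' w hw)]; ring
    · refine ⟨0, L.B + ε * (2 * C), fun w hw _ => ?_⟩
      calc ‖D w‖ ≤ ‖L.ψ w - w‖ + ‖(ε : ℂ) * Ps P w‖ := norm_sub_le _ _
        _ ≤ L.B + ε * (2 * C) := by
          gcongr
          · exact L.ψbdd w hw
          · rw [norm_mul, Complex.norm_real, Real.norm_eq_abs, abs_of_pos hε]
            exact mul_le_mul_of_nonneg_left (Ps_bdd hρ hb (hOm' w hw)) hε.le
    · intro η hη
      obtain ⟨δ, hδ, hψ⟩ := L.ψbd (η / 2) (by positivity)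
      refine ⟨min δ (η / 2 / (1 + ε * C)), lt_min hδ (by positivity), fun w hw hx => ?_⟩
      obtain ⟨y, hy⟩ := hx
      have hy1 : ‖w - U.f y‖ < δ := lt_of_lt_of_le hy (min_le_left _ _)
      have hy2 : ‖w - U.f y‖ < η / 2 / (1 + ε * C) := lt_of_lt_of_le hy (min_le_right _ _)
      rw [lt_div_iff₀ (by positivity)] at hy2
      have k1 := hψ w hw ⟨y, hy1⟩
      have k2 := L.ψ_neg hw
      have hyρ : (y : ℂ).im < ρ := by simpa using hρ
      have hfyρ : (U.f y).im < ρ := by linarith [hfx y]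
      -- real part computation
      have k3 : ‖w + ε * Ps P w - (U.f y + ε * Ps P (U.f y))‖ ≤ η / 2 := by
        have e : w + ε * Ps P w - (U.f y + ε * Ps P (U.f y)) =
            (w - U.f y) + ε * (Ps P w - Ps P (U.f y)) := by ring
        rw [e]
        refine (norm_add_le _ _).trans ?_
        rw [norm_mul, Complex.norm_real, Real.norm_eq_abs, abs_of_pos hε]
        have := Ps_lip hP hφ (hOm' w hw) hfyρ
        nlinarith [norm_nonneg (w - U.f y)]
      have k4 : ‖U.f y + ε * Ps P (U.f y) - (y + ε * (P y - P 0) + ε * Ps P y)‖ ≤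
          (C + 3 * C ^ 2) * ε ^ 2 := by
        have e : U.f y + ε * Ps P (U.f y) - (y + ε * (P y - P 0) + ε * Ps P y) =
            (U.f y - y - ε * (P y - P 0)) + ε * (Ps P (U.f y) - Ps P y) := by ring
        rw [e]
        refine (norm_add_le _ _).trans ?_
        rw [norm_mul, Complex.norm_real, Real.norm_eq_abs, abs_of_pos hε]
        have h1 := Ps_lip hP hφ hfyρ hyρ
        have h2 := hf y (by simpa using hρ)
        have h3 := hfz y (by simpa using hρ)
        have h4 : ε * ‖Ps P (U.f y) - Ps P y‖ ≤ ε * (C * (3 * C * ε)) := by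
          apply mul_le_mul_of_nonneg_left _ hε.le
          exact h1.trans (mul_le_mul_of_nonneg_left h3 hC)
        nlinarith
      have k5 : ((y : ℂ) + ε * (P y - P 0) + ε * Ps P y).im = 0 := by
        unfold Ps
        rw [Complex.conj_ofReal]
        simp
        ring
      have k6 : |(w + ε * Ps P w).im| ≤ (C + 3 * C ^ 2) * ε ^ 2 + η / 2 := by
        have h1 := (Complex.abs_im_le_norm _).trans k3
        have h2 := (Complex.abs_im_le_norm _).trans k4
        rw [Complex.sub_im] at h1 h2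
        rw [k5, sub_zero] at h2
        calc |(w + ε * Ps P w).im| = |((w + ε * Ps P w).im - (U.f y + ε * Ps P (U.f y)).im) +
              (U.f y + ε * Ps P (U.f y)).im| := by ring_nf
          _ ≤ _ := (abs_add_le _ _).trans (by linarith)
      have e : D w = L.ψ w - (w + ε * Ps P w) := by simp only [hD]; ring
      rw [e, Complex.sub_im]
      calc |(L.ψ w).im - (w + ε * Ps P w).im| ≤ |(L.ψ w).im| + |(w + ε * Ps P w).im| := abs_sub _ _
        _ ≤ η / 2 + ((C + 3 * C ^ 2) * ε ^ 2 + η / 2) := by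
          gcongr
          rw [abs_of_neg k2]; linarith
        _ = _ := by ring
  -- the strip
  set R : ℂ → ℂ := fun z => L.c z - z - ε * ((P z - P 0) + Ps P z) with hR
  have hRd : ∀ z : ℂ, |z.im| < ρ → HasDerivAt R (deriv L.c z - 1 - ε * (φ z + conj (φ (conj z)))) z := by
    intro z hz
    have hz' := abs_lt.1 hz
    have h1 := (L.c_diffAt (by rw [hU]; exact hz)).hasDerivAt
    have h2 := (hP z hz'.1).sub_const (P 0)
    have h3 := hasDerivAt_Ps hP hz'.2
    exact (h1.sub (hasDerivAt_id z)).sub ((h2.add h3).const_mul (ε : ℂ))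
  have hlow : ∀ z : ℂ, -(ρ / 2) < z.im → z.im < 0 → |(R z).im| ≤ (2 * C + 6 * C ^ 2) * ε ^ 2 := by
    intro z hz hz0
    have hzρ : -ρ < z.im := by linarith
    have hmem : U.f z ∈ U.Om := U.mem_Om (by rw [hU]; exact hzρ) hz0
    have h1 := L.cψ z (by rw [hU]; exact hzρ) hz0
    have e : R z = D (U.f z) + (U.f z - z - ε * (P z - P 0)) + ε * (Ps P (U.f z) - Ps P z) := by
      simp only [hR, hD]; rw [h1]; ring
    rw [e, Complex.add_im, Complex.add_im]
    have h2 := hDim _ hmem
    have h3 := (Complex.abs_im_le_norm _).trans (hf z hzρ)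
    have h4 : ‖(ε : ℂ) * (Ps P (U.f z) - Ps P z)‖ ≤ ε * (C * (3 * C * ε)) := by
      rw [norm_mul, Complex.norm_real, Real.norm_eq_abs, abs_of_pos hε]
      apply mul_le_mul_of_nonneg_left _ hε.le
      exact (Ps_lip hP hφ (hOm' _ hmem) (by linarith)).trans
        (mul_le_mul_of_nonneg_left (hfz z hzρ) hC)
    have h5 := (Complex.abs_im_le_norm _).trans h4
    refine (abs_add_le _ _).trans ?_
    have h6 := abs_add_le (D (U.f z)).im (U.f z - z - ε * (P z - P 0)).im
    nlinarith
  have hsym : ∀ z : ℂ, |z.im| < ρ → R (conj z) = conj (R z) := by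
    intro z hz
    simp only [hR]
    rw [L.cconj z (by rw [hU]; exact hz)]
    unfold Ps
    simp only [map_sub, map_mul, map_add, Complex.conj_ofReal, Complex.conj_conj]
    ring
  have hall : ∀ z ∈ ball (x : ℂ) (ρ / 2), |(R z).im| ≤ (2 * C + 6 * C ^ 2) * ε ^ 2 := by
    intro z hz
    rw [mem_ball, dist_eq_norm] at hz
    have h1 := lt_of_le_of_lt (Complex.abs_im_le_norm _) hz
    rw [Complex.sub_im, Complex.ofReal_im, sub_zero, abs_lt] at h1
    rcases lt_trichotomy z.im 0 with h | h | h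
    · exact hlow z h1.1 h
    · have h2 := hsym z (by rw [h, abs_zero]; exact hρ)
      have h3 : conj z = z := Complex.conj_eq_iff_im.2 h
      rw [h3] at h2
      have h4 := congrArg Complex.im h2
      rw [Complex.conj_im] at h4
      have h5 : (R z).im = 0 := by linarith
      rw [h5, abs_zero]; positivity
    · have h2 := hlow (conj z) (by rw [Complex.conj_im]; linarith) (by rw [Complex.conj_im]; linarith)
      rw [hsym z (by rw [abs_of_pos h]; linarith [h1.2]), Complex.conj_im, abs_neg] at h2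
      exact h2
  have hfin := hGrad (ρ / 2) ((2 * C + 6 * C ^ 2) * ε ^ 2) R x (by linarith)
    (by
      intro z hz
      rw [mem_ball, dist_eq_norm] at hz
      have h1 := lt_of_le_of_lt (Complex.abs_im_le_norm _) hz
      rw [Complex.sub_im, Complex.ofReal_im, sub_zero] at h1
      exact (hRd z (by linarith)).differentiableAt.differentiableWithinAt) hall
  rw [(hRd x (by simpa using hρ)).deriv, Complex.conj_ofReal] at hfin
  refine hfin.trans (le_of_eq ?_)
  ring

end

end MP87.MicL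

namespace MP87

theorem specMicL (hMax : SpecMaxIm) (hGrad : SpecGrad) : SpecMicL := by
  intro ρ C φ P hρ hP _ hb hφ hper
  have hC : 0 ≤ C := (norm_nonneg _).trans (hb 0 (by simpa using hρ))
  refine ⟨8 * (2 * C + 6 * C ^ 2) / (ρ / 2), min 1 (ρ / (6 * (C + 1))),
    lt_min one_pos (by positivity), ?_⟩
  intro ε hε hε' U hU hf L x
  have h1 : ε < 1 := lt_of_lt_of_le hε' (min_le_left _ _)
  have h2 : ε < ρ / (6 * (C + 1)) := lt_of_lt_of_le hε' (min_le_right _ _)
  rw [lt_div_iff₀ (by positivity)] at h2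
  exact MicL.main hMax hGrad hρ hP hb hφ hper hε h1.le (by nlinarith) U hU hf L x

end MP87
end

section
/-!
The tiny block.
-/
namespace MP87

open Filter Topology Set MeasureTheory Metric
open scoped InnerProductSpace ComplexConjugate Laplacian NNReal

noncomputable section

namespace Micro

theorem log_bound {t e : ℝ} (ht : |t - 1| ≤ 7 / 2 * e) (he : e ≤ 1 / 28) :
    0 < t ∧ |Real.log t| ≤ 4 * e := by
  obtain ⟨h1, h2⟩ := abs_le.1 ht
  have ht0 : 0 < t := by linarith
  refine ⟨ht0, ?_⟩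
  rw [abs_le]
  constructor
  · have h3 := Real.one_sub_inv_le_log_of_pos ht0
    have h4 : -(4 * e) ≤ 1 - t⁻¹ := by
      have h5 : 1 - t⁻¹ = (t - 1) / t := by field_simp
      rw [h5, le_div_iff₀ ht0]
      nlinarith
    linarith
  · have h3 := Real.log_le_sub_one_of_pos ht0
    have h0 : 0 ≤ e := by
      have := abs_nonneg (t - 1)
      linarith
    linarith

end Micro

theorem specMicro (hMicU : SpecMicU) (hMicL : SpecMicL) (hLower : SpecLower) (hGext : SpecGext) :
    SpecMicro := by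
  intro L hL ε₀ hε₀
  obtain ⟨ρ, C, ε₁, φ, P, hρ, hε₁, hP, hφ, hPb, hφb, hPper, hre, hφ0, hU⟩ := hMicU L hL
  obtain ⟨C', ε₂, hε₂, hLow⟩ := hMicL ρ C φ P hρ hP hφ hPb hφb hPper
  set C'' : ℝ := |C'| + 1 with hC''
  have hC''pos : 0 < C'' := by positivity
  obtain ⟨ε, hε, hlt0, hlt1, hlt2, hlt3, hlt4⟩ :
      ∃ ε : ℝ, 0 < ε ∧ ε < ε₀ ∧ ε < ε₁ ∧ ε < ε₂ ∧ ε < 1 / 28 ∧ ε < 7 / 20 / C'' := by
    have h0 : 0 < min (min (min ε₀ ε₁) (min ε₂ (1 / 28))) (7 / 20 / C'') := by
      refine lt_min (lt_min (lt_min hε₀ hε₁) (lt_min hε₂ (by norm_num))) (by positivity)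
    obtain ⟨ε, h1, h2⟩ := exists_between h0
    simp only [lt_min_iff] at h2
    exact ⟨ε, h1, h2.1.1.1, h2.1.1.2, h2.1.2.1, h2.1.2.2, h2.2⟩
  refine ⟨ε, hε, hlt0, ?_⟩
  obtain ⟨U, hUρ, hU0, hUd, hUP, hUch⟩ := hU ε hε hlt1
  obtain ⟨Lw⟩ := hLower U
  have hc := hLow ε hε hlt2 U hUρ hUP Lw
  have hreal : ∀ x : ℝ, |(deriv Lw.c x).re - 1| ≤ 7 / 2 * ε := by
    intro x
    have h1 := hc x
    have h2 := (Complex.abs_re_le_norm _).trans h1
    have h3 : (deriv Lw.c x - 1 - ε * (φ x + conj (φ x))).re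
        = (deriv Lw.c x).re - 1 - 2 * ε * (φ x).re := by
      simp
      ring
    rw [h3] at h2
    have h4 := hre x
    have h5 : C' * ε ^ 2 ≤ 7 / 20 * ε := by
      have h6 : ε * C'' ≤ 7 / 20 := by
        rw [lt_div_iff₀ hC''pos] at hlt4
        exact hlt4.le
      have h7 : C' ≤ C'' := by
        rw [hC'']
        linarith [le_abs_self C']
      nlinarith
    have h6 : |2 * ε * (φ x).re| ≤ ε * Real.pi := by
      rw [abs_mul, abs_of_pos (by positivity : 0 < 2 * ε)]
      have := mul_le_mul_of_nonneg_left h4 (by positivity : 0 ≤ 2 * ε)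
      linarith
    have h7 : Real.pi ≤ 3.15 := Real.pi_lt_d2.le
    have h8 : ε * Real.pi ≤ ε * 3.15 := mul_le_mul_of_nonneg_left h7 hε.le
    calc |(deriv Lw.c x).re - 1|
        = |((deriv Lw.c x).re - 1 - 2 * ε * (φ x).re) + 2 * ε * (φ x).re| := by
          congr 1; ring
      _ ≤ |(deriv Lw.c x).re - 1 - 2 * ε * (φ x).re| + |2 * ε * (φ x).re| := abs_add_le _ _
      _ ≤ C' * ε ^ 2 + ε * Real.pi := add_le_add h2 h6
      _ ≤ 7 / 2 * ε := by linarith
  obtain ⟨a, haU, haψ, hac⟩ := hGext U Lw (fun x => (Micro.log_bound (hreal x) hlt3.le).1)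
  refine ⟨a, ?_, ?_, ?_, ?_, ?_⟩
  · rw [haU]; exact hU0
  · rw [haU, hUd 0 (by simpa using hρ), hφ0, ← mul_assoc]
  · intro x
    have h1 : a.lc x = Real.log (deriv Lw.c x).re := by
      unfold Stage.lc
      rw [hac]
    rw [h1]
    exact (Micro.log_bound (hreal x) hlt3.le).2
  · intro x
    rw [haU, hUd x (by simpa using hρ), Complex.norm_exp, Real.log_exp]
    have h1 : (ε * φ x).re = ε * (φ x).re := by simp
    rw [h1, abs_mul, abs_of_pos hε]
    have h2 : Real.pi ≤ 4 := Real.pi_le_four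
    have h3 := mul_le_mul_of_nonneg_left (hre x) hε.le
    nlinarith
  · intro x y
    rw [haU]
    exact hUch x y

end

end MP87
end

section
/-!
Closeness of the lower maps `g` from the closeness of the upper maps and of the welding functions
on the real axis.
-/
namespace MP87

open Filter Topology Set MeasureTheory Metric
open scoped InnerProductSpace ComplexConjugate Laplacian NNReal

noncomputable section

namespace StepG

variable (s : Stage)

theorem deriv_c_add_one (x : ℝ) : deriv s.L.c ((x + 1 : ℝ) : ℂ) = deriv s.L.c x := by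
  have h1 : deriv (fun z : ℂ => s.L.c (z + 1)) x = deriv s.L.c ((x : ℂ) + 1) :=
    deriv_comp_add_const s.L.c 1 x
  have h2 : (fun z : ℂ => s.L.c (z + 1)) =ᶠ[𝓝 (x : ℂ)] fun z => s.L.c z + 1 := by
    filter_upwards [(Upper.isOpen_strip s.U.ρ).mem_nhds (Lower.real_lt s.U x)] with z hz
    exact s.L.cper z hz
  rw [h2.deriv_eq, deriv_add_const] at h1
  push_cast
  exact h1.symm

theorem deriv_c_continuous : Continuous fun x : ℝ => (deriv s.L.c x).re := by
  rw [continuous_iff_continuousAt]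
  intro x
  have h1 : DifferentiableOn ℂ (deriv s.L.c) {z : ℂ | |z.im| < s.U.ρ} :=
    s.L.chol.deriv (Upper.isOpen_strip _)
  have h2 : ContinuousAt (deriv s.L.c) x :=
    ((h1 x (Lower.real_lt s.U x)).differentiableAt
      ((Upper.isOpen_strip _).mem_nhds (Lower.real_lt s.U x))).continuousAt
  have h3 : ContinuousAt (fun y : ℝ => deriv s.L.c y) x :=
    ContinuousAt.comp (f := fun y : ℝ => (y : ℂ)) (x := x) h2 Complex.continuous_ofReal.continuousAt
  exact Complex.continuous_re.continuousAt.comp h3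

/-- a periodic function: reduction to the unit interval -/
theorem reduce {p : ℝ → Prop} (hp : ∀ x, p (x + 1) ↔ p x) (h : ∀ x ∈ Icc (0 : ℝ) 1, p x) (x : ℝ) :
    p x := by
  have h1 : ∀ n : ℤ, ∀ x, p (x + n) ↔ p x := by
    intro n
    induction n using Int.induction_on with
    | zero => intro x; simp
    | succ n ih => intro x; push_cast at ih ⊢; rw [← add_assoc, hp, ih]
    | pred n ih =>
      intro x
      push_cast at ih ⊢
      rw [← ih x, ← hp (x + (-(n : ℝ) - 1))]
      have : x + (-(n : ℝ) - 1) + 1 = x + -(n : ℝ) := by ring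
      rw [this]
  have h2 := h (Int.fract x) ⟨Int.fract_nonneg x, (Int.fract_lt_one x).le⟩
  have h3 : x = Int.fract x + (⌊x⌋ : ℤ) := by rw [add_comm]; exact (Int.floor_add_fract x).symm
  rw [h3, h1]
  exact h2

/-- the derivative of the welding function is bounded below -/
theorem exists_mu : ∃ μ : ℝ, 0 < μ ∧ ∀ x : ℝ, μ ≤ (deriv s.L.c x).re := by
  obtain ⟨x0, hx0, hmin⟩ := isCompact_Icc.exists_isMinOn (nonempty_Icc.2 zero_le_one)
    (deriv_c_continuous s).continuousOn (s := Icc (0 : ℝ) 1)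
  refine ⟨(deriv s.L.c x0).re, s.cpos x0, ?_⟩
  apply reduce
  · intro x
    rw [deriv_c_add_one]
  · intro x hx
    exact hmin hx

/-- expansion of the welding function -/
theorem mu_mul_le {μ : ℝ} (hμ : ∀ x : ℝ, μ ≤ (deriv s.L.c x).re) (x y : ℝ) :
    μ * |x - y| ≤ |(s.L.c x).re - (s.L.c y).re| := by
  wlog hxy : y ≤ x generalizing x y with H
  · have := H y x (le_of_not_ge hxy)
    rwa [abs_sub_comm, abs_sub_comm (s.L.c y).re] at this
  rcases hxy.eq_or_lt with h | h
  · rw [h]; simp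
  · obtain ⟨z, hz, hd⟩ := exists_hasDerivAt_eq_slope (fun t : ℝ => (s.L.c t).re)
      (fun t => (deriv s.L.c t).re) h s.c_continuous.continuousOn
      (fun t _ => s.L.c_hasDerivAt_real t)
    have h1 := hμ z
    rw [hd, le_div_iff₀ (by linarith)] at h1
    rw [abs_of_pos (by linarith)]
    exact h1.trans (le_abs_self _)

/-- values of `g` on the real axis -/
theorem g_real (y : ℝ) : ∃ x : ℝ, (s.L.c x).re = y ∧ s.g y = s.U.f x := by
  obtain ⟨x, hx⟩ := s.c_surjective y
  refine ⟨x, hx, ?_⟩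
  rw [← s.gc x, s.L.c_eq_re x]
  have hx' : (s.L.c x).re = y := hx
  rw [hx']

/-- the maximum principle on the lower half plane -/
theorem max_half {F : ℂ → ℂ} {C η : ℝ}
    (hd : ∀ z : ℂ, z.im ≤ 0 → DifferentiableAt ℂ F z) (hC : ∀ z : ℂ, z.im ≤ 0 → ‖F z‖ ≤ C)
    (hη : ∀ x : ℝ, ‖F x‖ ≤ η) : ∀ z : ℂ, z.im ≤ 0 → ‖F z‖ ≤ η := by
  intro z hz
  have himI : ∀ w : ℂ, (-Complex.I * w).im = -w.re := by intro w; simp
  have hcont : ∀ w : ℂ, 0 ≤ w.re → DifferentiableAt ℂ (fun w => F (-Complex.I * w)) w := by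
    intro w hw
    have h1 : DifferentiableAt ℂ F (-Complex.I * w) := hd _ (by rw [himI]; linarith)
    have h2 : DifferentiableAt ℂ (fun w : ℂ => -Complex.I * w) w := by fun_prop
    exact DifferentiableAt.comp w h1 h2
  have h := PhragmenLindelof.right_half_plane_of_bounded_on_real
    (f := fun w => F (-Complex.I * w)) (C := η) (z := Complex.I * z) ?_ ?_ ?_ ?_ ?_
  · have h2 : -Complex.I * (Complex.I * z) = z := by
      rw [← mul_assoc, neg_mul, Complex.I_mul_I]; ring
    simp only [h2] at h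
    exact h
  · constructor
    · intro w hw
      exact (hcont w (le_of_lt hw)).differentiableWithinAt
    · intro w hw
      have hw' : 0 ≤ w.re := by
        have := closure_lt_subset_le (continuous_const (y := (0:ℝ))) Complex.continuous_re hw
        exact this
      exact (hcont w hw').continuousAt.continuousWithinAt
  · refine ⟨1, by norm_num, 0, ?_⟩
    apply Asymptotics.IsBigO.of_bound C
    rw [eventually_inf_principal]
    filter_upwards with w hw
    have hw' : 0 < w.re := hw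
    simp only [zero_mul, Real.exp_zero, norm_one, mul_one]
    exact hC _ (by rw [himI]; linarith)
  · refine ⟨C, ?_⟩
    rw [eventually_map]
    filter_upwards [eventually_ge_atTop 0] with x hx
    exact hC _ (by rw [himI]; simpa using hx)
  · intro x
    have h2 : -Complex.I * (x * Complex.I) = ((x : ℝ) : ℂ) := by
      rw [mul_comm (x : ℂ), ← mul_assoc, neg_mul, Complex.I_mul_I]; ring
    rw [h2]
    exact hη x
  · simp
    exact hz

end StepG

theorem specStepG : SpecStepG := by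
  intro s η hη
  obtain ⟨μ, hμ0, hμ⟩ := StepG.exists_mu s
  set A : ℝ := 1 + 2 * s.U.B / (s.U.ρ - 0) with hA
  have hA1 : 1 ≤ A := by
    have := s.U.B_nonneg
    have h2 := s.U.hρ
    have : 0 ≤ 2 * s.U.B / (s.U.ρ - 0) := by
      apply div_nonneg
      · linarith
      · linarith
    linarith
  have hlip : ∀ x y : ℝ, ‖s.U.f x - s.U.f y‖ ≤ A * |x - y| := by
    intro x y
    have := s.U.f_lip (a := 0) s.U.hρ (z := x) (w := y) (by simp) (by simp)
    rwa [← Complex.ofReal_sub, Complex.norm_real, Real.norm_eq_abs] at this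
  have hden : 0 < 1 + A / μ := by positivity
  refine ⟨η / (1 + A / μ), by positivity, ?_⟩
  intro s' hf hc
  set δ := η / (1 + A / μ) with hδ
  have hδ0 : 0 < δ := by positivity
  have hreal : ∀ y : ℝ, ‖s'.g y - s.g y‖ ≤ η := by
    intro y
    obtain ⟨x, hx, hgx⟩ := StepG.g_real s y
    obtain ⟨x', hx', hgx'⟩ := StepG.g_real s' y
    rw [hgx, hgx']
    have h1 : μ * |x' - x| ≤ δ := by
      refine (StepG.mu_mul_le s hμ x' x).trans ?_
      have h2 := hc x'
      rw [hx', abs_sub_comm] at h2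
      rwa [hx]
    have h3 : |x' - x| ≤ δ / μ := by
      rw [le_div_iff₀ hμ0, mul_comm]
      exact h1
    calc ‖s'.U.f x' - s.U.f x‖ = ‖(s'.U.f x' - s.U.f x') + (s.U.f x' - s.U.f x)‖ := by
          congr 1; ring
      _ ≤ ‖s'.U.f x' - s.U.f x'‖ + ‖s.U.f x' - s.U.f x‖ := norm_add_le _ _
      _ ≤ δ + A * |x' - x| := add_le_add (hf x') (hlip x' x)
      _ ≤ δ + A * (δ / μ) := by
          have := mul_le_mul_of_nonneg_left h3 (by linarith : (0:ℝ) ≤ A)
          linarith
      _ = δ * (1 + A / μ) := by ring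
      _ = η := by rw [hδ]; field_simp
  apply StepG.max_half (F := fun z => s'.g z - s.g z) (C := s'.L.B + s.L.B)
  · intro z hz
    exact (s'.g_diffAt (by linarith [s'.ht])).sub (s.g_diffAt (by linarith [s.ht]))
  · intro z hz
    calc ‖s'.g z - s.g z‖ = ‖(s'.g z - z) - (s.g z - z)‖ := by congr 1; ring
      _ ≤ ‖s'.g z - z‖ + ‖s.g z - z‖ := norm_sub_le _ _
      _ ≤ _ := add_le_add (s'.g_sub_le' hz) (s.g_sub_le' hz)
  · exact hreal

end

end MP87
end
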