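import Pool.Agent.Lib.MP_87ece0_an.LimW
import Pool.Agent.Lib.MP_87ece0_an.Riesz
import Pool.Agent.Lib.MP_87ece0_an.Bilip
import Pool.Agent.Lib.MP_87ece0_an.Dig
import Pool.Agent.Lib.MP_87ece0_an.Lower
import Pool.Agent.Lib.MP_87ece0_an.StepG
import Pool.Agent.Lib.MP_87ece0_an.MicU
import Pool.Agent.Lib.MP_87ece0_an.Seq
import Pool.Agent.Lib.MP_87ece0_an.PoleP

section
/-!
STEP: one step of the construction, the welding functions.
-/
namespace MP87

open Filter Topology Set MeasureTheory Metric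
open scoped InnerProductSpace ComplexConjugate Laplacian NNReal

noncomputable section

namespace Step

variable {U : Upper} (L : Lower U)

theorem deriv_c_add_int (n : ℤ) {z : ℂ} (hz : |z.im| < U.ρ) :
    deriv L.c (z + n) = deriv L.c z := by
  have h1 : deriv (fun w : ℂ => L.c (w + n)) z = deriv L.c (z + n) := deriv_comp_add_const _ _ _
  have h2 : (fun w : ℂ => L.c (w + n)) =ᶠ[𝓝 z] fun w => L.c w + n := by
    filter_upwards [(Upper.isOpen_strip U.ρ).mem_nhds hz] with w hw
    exact L.c_add_int n hw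
  rw [← h1, h2.deriv_eq]
  simp

theorem deriv_lip : ∃ C : ℝ, 0 ≤ C ∧ ∀ x y : ℝ, ‖deriv L.c x - deriv L.c y‖ ≤ C * |x - y| := by
  have hD : DifferentiableOn ℂ (deriv L.c) {z : ℂ | |z.im| < U.ρ} :=
    L.chol.deriv (Upper.isOpen_strip _)
  have hD2 : DifferentiableOn ℂ (deriv (deriv L.c)) {z : ℂ | |z.im| < U.ρ} :=
    hD.deriv (Upper.isOpen_strip _)
  obtain ⟨C, hC0, hC⟩ := bdd_of_periodic (p := deriv (deriv L.c)) (ρ := U.ρ) (a := 0) U.hρ
    hD2.continuousOn (by
      intro n z hz
      have h1 : deriv (fun w : ℂ => deriv L.c (w + n)) z = deriv (deriv L.c) (z + n) :=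
        deriv_comp_add_const _ _ _
      have h2 : (fun w : ℂ => deriv L.c (w + n)) =ᶠ[𝓝 z] fun w => deriv L.c w := by
        filter_upwards [(Upper.isOpen_strip U.ρ).mem_nhds hz] with w hw
        exact deriv_c_add_int L n hw
      rw [← h1, h2.deriv_eq])
  refine ⟨C, hC0, fun x y => ?_⟩
  have h := (Lower.convex_strip 0).norm_image_sub_le_of_norm_deriv_le (f := deriv L.c)
    (C := C) (x := (y : ℂ)) (y := (x : ℂ)) ?_ ?_ (by simp) (by simp)
  · rw [← Complex.ofReal_sub, Complex.norm_real, Real.norm_eq_abs] at h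
    exact h
  · intro z hz
    have hz' : |z.im| < U.ρ := lt_of_le_of_lt hz U.hρ
    exact (hD z hz').differentiableAt ((Upper.isOpen_strip _).mem_nhds hz')
  · intro z hz
    exact hC z hz

theorem exists_min (s : Stage) : ∃ m : ℝ, 0 < m ∧ ∀ x : ℝ, m ≤ (deriv s.L.c x).re := by
  obtain ⟨C, hC0, hC⟩ := deriv_lip s.L
  have hcont : Continuous fun x : ℝ => (deriv s.L.c x).re := by
    have hl : LipschitzWith (Real.toNNReal C) fun x : ℝ => (deriv s.L.c x).re := by
      apply LipschitzWith.of_dist_le_mul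
      intro x y
      rw [Real.coe_toNNReal _ hC0, Real.dist_eq, Real.dist_eq, ← Complex.sub_re]
      exact (Complex.abs_re_le_norm _).trans (hC x y)
    exact hl.continuous
  obtain ⟨x₀, _, hx₀⟩ := isCompact_Icc.exists_isMinOn (s := Icc (0 : ℝ) 1) ⟨0, by simp⟩
    hcont.continuousOn
  refine ⟨(deriv s.L.c x₀).re, s.cpos x₀, fun x => ?_⟩
  have h1 := deriv_c_add_int s.L (-⌊x⌋) (z := (x : ℂ)) (by simpa using s.U.hρ)
  have h2 : (x : ℂ) + ((-⌊x⌋ : ℤ) : ℂ) = ((x - ⌊x⌋ : ℝ) : ℂ) := by push_cast; ring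
  rw [← h1, h2]
  exact hx₀ ⟨by linarith [Int.floor_le x], by linarith [Int.lt_floor_add_one x]⟩

theorem log_sub_le {p q m δ : ℝ} (hm : 0 < m) (hp : m ≤ p) (hq : m ≤ q) (h : |p - q| ≤ δ) :
    |Real.log p - Real.log q| ≤ δ / m := by
  have hp0 : 0 < p := hm.trans_le hp
  have hq0 : 0 < q := hm.trans_le hq
  have hδ : 0 ≤ δ := (abs_nonneg _).trans h
  obtain ⟨h1, h2⟩ := abs_le.1 h
  rw [abs_le]
  constructor
  · have h3 := Real.log_le_sub_one_of_pos (div_pos hq0 hp0)
    rw [Real.log_div hq0.ne' hp0.ne'] at h3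
    have h4 : q / p - 1 ≤ δ / m := by
      rw [div_sub_one hp0.ne', div_le_div_iff₀ hp0 hm]
      nlinarith
    linarith
  · have h3 := Real.log_le_sub_one_of_pos (div_pos hp0 hq0)
    rw [Real.log_div hp0.ne' hq0.ne'] at h3
    have h4 : p / q - 1 ≤ δ / m := by
      rw [div_sub_one hq0.ne', div_le_div_iff₀ hq0 hm]
      nlinarith
    linarith

end Step

open Step in
theorem specStep (hComp : SpecComp) (hLower : SpecLower) (hD2 : SpecD2) (hGext : SpecGext) :
    SpecStep := by
  intro s b η hη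
  obtain ⟨m, hm, hmin⟩ := exists_min s
  obtain ⟨C1, hC10, hC1⟩ := deriv_lip s.L
  obtain ⟨C2, hC20, hC2⟩ := s.L.c_lip (a := 0) s.U.hρ
  obtain ⟨C3, hC30, hC3⟩ := b.L.c_bdd (a := 0) b.U.hρ
  set η' : ℝ := min (m / 4) (min (m * η / 4) (η / 2)) with hη'
  have hη'0 : 0 < η' := by
    rw [hη']
    refine lt_min (by positivity) (lt_min (by positivity) (by positivity))
  have hη'1 : η' ≤ m / 4 := min_le_left _ _
  have hη'2 : η' ≤ m * η / 4 := (min_le_right _ _).trans (min_le_left _ _)
  have hη'3 : η' ≤ η / 2 := (min_le_right _ _).trans (min_le_right _ _)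
  obtain ⟨N₁, hN₁⟩ := hD2 s b η' hη'0
  obtain ⟨N₂, hN₂⟩ := exists_nat_gt ((C1 * C3) / η' + (C2 * C3) / (η / 2) + b.U.B / (s.U.ρ / 4) + 1)
  refine ⟨max N₁ N₂, fun N hN => ?_⟩
  have hN1 : N₁ ≤ N := (le_max_left _ _).trans hN
  have hN2 : N₂ ≤ N := (le_max_right _ _).trans hN
  have hNr : (C1 * C3) / η' + (C2 * C3) / (η / 2) + b.U.B / (s.U.ρ / 4) + 1 < (N : ℝ) :=
    hN₂.trans_le (by exact_mod_cast hN2)
  have hB := b.U.B_nonneg
  have hρ := s.U.hρ
  have ha : 0 ≤ (C1 * C3) / η' := by positivity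
  have hb : 0 ≤ (C2 * C3) / (η / 2) := by positivity
  have hc : 0 ≤ b.U.B / (s.U.ρ / 4) := by positivity
  have hNpos : (0 : ℝ) < N := by linarith
  have hNpos' : 0 < N := by exact_mod_cast hNpos
  have hNc : (N : ℂ) ≠ 0 := by exact_mod_cast hNpos'.ne'
  have e1 : C1 * C3 / N ≤ η' := by
    rw [div_le_iff₀ hNpos]
    have : (C1 * C3) / η' ≤ N := by linarith
    rw [div_le_iff₀ hη'0] at this
    linarith
  have e2 : C2 * C3 / N ≤ η / 2 := by
    rw [div_le_iff₀ hNpos]
    have : (C2 * C3) / (η / 2) ≤ N := by linarith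
    rw [div_le_iff₀ (by positivity)] at this
    linarith
  have e3 : b.U.B / N ≤ s.U.ρ / 4 := by
    rw [div_le_iff₀ hNpos]
    have : b.U.B / (s.U.ρ / 4) ≤ N := by linarith
    rw [div_le_iff₀ (by positivity)] at this
    linarith
  obtain ⟨w, hw⟩ := hComp s.U b.U N hNpos' e3
  obtain ⟨L⟩ := hLower w
  obtain ⟨ct, hct, hctr, hctp, hctd, t, ht, hfac⟩ := hN₁ N hN1 w hw L
  -- the point `y`
  have hcN : ∀ x : ℝ, (b.L.c (N * x) / N : ℂ) = (((b.L.c (N * x)).re / N : ℝ) : ℂ) := by
    intro x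
    have h1 : ((N : ℂ) * x) = ((N * x : ℝ) : ℂ) := by push_cast; ring
    rw [h1, b.L.c_eq_re]
    push_cast
    simp
  have hy : ∀ x : ℝ, |(b.L.c (N * x)).re / N - x| ≤ C3 / N := by
    intro x
    have h1 : ((N : ℂ) * x) = ((N * x : ℝ) : ℂ) := by push_cast; ring
    have h2 := hC3 (N * x) (by rw [h1]; simp)
    have h3 := (Complex.abs_re_le_norm _).trans h2
    rw [Complex.sub_re, h1, Complex.ofReal_re] at h3
    rw [h1]
    have h4 : (b.L.c ((N * x : ℝ) : ℂ)).re / N - x = ((b.L.c ((N * x : ℝ) : ℂ)).re - N * x) / N := by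
      field_simp
    rw [h4, abs_div, abs_of_pos hNpos]
    gcongr
  -- derivative of ct at real points
  have hctdiff : ∀ y : ℝ, DifferentiableAt ℂ ct y := by
    intro y
    have : (y : ℂ) ∈ {z : ℂ | |z.im| < s.U.ρ / 4} := by
      show |((y : ℂ)).im| < s.U.ρ / 4
      simpa using hρ
    exact (hct _ this).differentiableAt ((Upper.isOpen_strip _).mem_nhds this)
  have hderiv : ∀ x : ℝ, deriv L.c x =
      deriv ct ((b.L.c (N * x)).re / N : ℝ) * deriv b.L.c (N * x) := by
    intro x
    have h1 : L.c =ᶠ[𝓝 (x : ℂ)] fun z => ct (b.L.c (N * z) / N) := by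
      have : (x : ℂ) ∈ {z : ℂ | |z.im| < t} := by
        show |((x : ℂ)).im| < t
        simpa using ht
      filter_upwards [(Upper.isOpen_strip t).mem_nhds this] with z hz
      exact (hfac z hz).2
    rw [h1.deriv_eq]
    have h2 : HasDerivAt (fun z : ℂ => b.L.c (N * z) / N) (deriv b.L.c (N * x)) (x : ℂ) := by
      have h3 : HasDerivAt (fun z : ℂ => (N : ℂ) * z) (N : ℂ) (x : ℂ) := by
        simpa using (hasDerivAt_id (x : ℂ)).const_mul (N : ℂ)
      have h4 : HasDerivAt b.L.c (deriv b.L.c (N * x)) ((N : ℂ) * x) := by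
        apply DifferentiableAt.hasDerivAt
        apply b.L.c_diffAt
        have h1 : ((N : ℂ) * x) = ((N * x : ℝ) : ℂ) := by push_cast; ring
        rw [h1]
        simpa using b.U.hρ
      have h5 := (h4.comp (x : ℂ) h3).div_const (N : ℂ)
      have h6 : deriv b.L.c (N * x) * (N : ℂ) / N = deriv b.L.c (N * x) := by
        field_simp
      rw [h6] at h5
      exact h5
    have h7 : HasDerivAt ct (deriv ct ((b.L.c (N * x)).re / N : ℝ)) (b.L.c (N * x) / N) := by
      rw [hcN x]
      exact (hctdiff _).hasDerivAt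
    exact (h7.comp (x : ℂ) h2).deriv
  -- reality
  have hbre : ∀ x : ℝ, deriv b.L.c (N * x) = ((deriv b.L.c ((N * x : ℝ) : ℂ)).re : ℂ) := by
    intro x
    have h1 : ((N : ℂ) * x) = ((N * x : ℝ) : ℂ) := by push_cast; ring
    rw [h1]
    exact b.L.deriv_c_eq_re _
  have hp : ∀ x : ℝ, |(deriv ct ((b.L.c (N * x)).re / N : ℝ)).re - (deriv s.L.c x).re| ≤ 2 * η' := by
    intro x
    rw [← Complex.sub_re]
    refine (Complex.abs_re_le_norm _).trans ?_
    have h1 := hctd ((b.L.c (N * x)).re / N)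
    have h2 := hC1 ((b.L.c (N * x)).re / N) x
    have h3 : C1 * |(b.L.c (N * x)).re / N - x| ≤ C1 * C3 / N := by
      have := mul_le_mul_of_nonneg_left (hy x) hC10
      calc _ ≤ C1 * (C3 / N) := this
        _ = C1 * C3 / N := by ring
    have h4 := norm_sub_le_norm_sub_add_norm_sub
      (deriv ct ((b.L.c (N * x)).re / N : ℝ)) (deriv s.L.c ((b.L.c (N * x)).re / N : ℝ))
      (deriv s.L.c x)
    linarith
  have hpm : ∀ x : ℝ, m / 2 ≤ (deriv ct ((b.L.c (N * x)).re / N : ℝ)).re := by
    intro x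
    have h1 := (abs_le.1 (hp x)).1
    have h2 := hmin x
    linarith
  have hprod : ∀ x : ℝ, (deriv L.c x).re =
      (deriv ct ((b.L.c (N * x)).re / N : ℝ)).re * (deriv b.L.c ((N * x : ℝ) : ℂ)).re := by
    intro x
    rw [hderiv x, hbre x]
    simp
  have hpos : ∀ x : ℝ, 0 < (deriv L.c x).re := by
    intro x
    rw [hprod x]
    exact mul_pos (by linarith [hpm x]) (b.cpos _)
  obtain ⟨s', hs'U, hs'ψ, hs'c⟩ := hGext w L hpos
  refine ⟨s', by rw [hs'U]; exact hw, ?_, ?_⟩
  · intro x
    have h1 : s'.lc x = Real.log (deriv ct ((b.L.c (N * x)).re / N : ℝ)).re + b.lc (N * x) := by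
      unfold Stage.lc
      rw [hs'c, hprod x, Real.log_mul (by linarith [hpm x]) (b.cpos _).ne']
    rw [h1]
    have h2 : Real.log (deriv ct ((b.L.c (N * x)).re / N : ℝ)).re + b.lc (N * x) - s.lc x -
        b.lc (N * x) = Real.log (deriv ct ((b.L.c (N * x)).re / N : ℝ)).re -
          Real.log (deriv s.L.c x).re := by
      unfold Stage.lc; ring
    rw [h2]
    have h3 := log_sub_le (m := m / 2) (by positivity) (hpm x) (by linarith [hmin x]) (hp x)
    refine h3.trans ?_
    rw [div_le_iff₀ (by positivity)]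
    nlinarith
  · intro x
    rw [hs'c]
    have hL : ∀ x : ℝ, L.c x = ct ((b.L.c (N * x)).re / N : ℝ) := by
      intro x
      have h1 := (hfac x (by simpa using ht)).2
      rw [h1, hcN x]
    have hct0 : ct 0 = 0 := by
      have h1 := hL 0
      have h2 : ((0 : ℝ) : ℂ) = 0 := Complex.ofReal_zero
      rw [h2, mul_zero, b.L.c0, L.c0] at h1
      simpa using h1.symm
    -- the difference on the real line
    have hF : ∀ y : ℝ, ‖ct y - s.L.c y‖ ≤ η' := by
      intro y
      set F : ℝ → ℂ := fun y => ct y - s.L.c y with hFdef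
      have hFper : Function.Periodic F 1 := by
        intro x
        simp only [hFdef]
        have h1 := hctp x
        have h2 := s.L.c_add_int 1 (z := (x : ℂ)) (by simpa using hρ)
        push_cast at h1 h2 ⊢
        rw [h1, h2]
        ring
      have hFd : ∀ x : ℝ, HasDerivAt F (deriv ct x - deriv s.L.c x) x := by
        intro x
        have h1 := ((hctdiff x).hasDerivAt).comp_ofReal
        have h2 := ((s.L.c_diffAt (Lower.real_lt s.U x)).hasDerivAt).comp_ofReal
        exact h1.sub h2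
      have h0 : F 0 = 0 := by
        simp only [hFdef]
        rw [Complex.ofReal_zero, hct0, s.L.c0, sub_zero]
      have h1 : F y = F (y - ⌊y⌋) := by
        have := hFper.sub_int_mul_eq (x := y) ⌊y⌋
        rw [mul_one] at this
        exact this.symm
      have h2 : ‖F (y - ⌊y⌋) - F 0‖ ≤ η' * ‖(y - ⌊y⌋) - 0‖ :=
        convex_univ.norm_image_sub_le_of_norm_hasDerivWithin_le (f := F)
          (fun x _ => (hFd x).hasDerivWithinAt) (fun x _ => hctd x) (mem_univ _) (mem_univ _)
      show ‖F y‖ ≤ η'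
      rw [h1]
      rw [h0, sub_zero, sub_zero, Real.norm_eq_abs, abs_of_nonneg (by linarith [Int.floor_le y])]
        at h2
      have h3 : y - ⌊y⌋ ≤ 1 := by linarith [Int.lt_floor_add_one y]
      calc _ ≤ η' * (y - ⌊y⌋) := h2
        _ ≤ η' * 1 := by gcongr
        _ = η' := mul_one _
    rw [hL x, ← Complex.sub_re]
    refine (Complex.abs_re_le_norm _).trans ?_
    have h1 := hF ((b.L.c (N * x)).re / N)
    have h2 := hC2 (((b.L.c (N * x)).re / N : ℝ) : ℂ) x (by simp) (by simp)
    rw [← Complex.ofReal_sub, Complex.norm_real, Real.norm_eq_abs] at h2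
    have h3 : C2 * |(b.L.c (N * x)).re / N - x| ≤ C2 * C3 / N := by
      have := mul_le_mul_of_nonneg_left (hy x) hC20
      calc _ ≤ C2 * (C3 / N) := this
        _ = C2 * C3 / N := by ring
    have h4 := norm_sub_le_norm_sub_add_norm_sub
      (ct ((b.L.c (N * x)).re / N : ℝ)) (s.L.c ((b.L.c (N * x)).re / N : ℝ)) (s.L.c x)
    linarith

end

end MP87
end

section
namespace MP87

theorem lowerAll : SpecLower := specLower specReflect

theorem d2All : SpecD2 := specD2 (specD1 (specMaxIm specMax)) specReflect specGrad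

theorem stepAll : SpecStep := specStep specComp lowerAll d2All specGext

theorem allAll : SpecAll := specAll stepAll specStepG specNear specChord

theorem limWAll : SpecLimW := specLimW (specBilip specDQ)

theorem microAll : SpecMicro :=
  specMicro specMicU (specMicL (specMaxIm specMax) specGrad) lowerAll specGext

theorem blockAll : SpecBlock := specBlock microAll allAll

theorem finalOf (hSeq : SpecSeq) (hDim : SpecDimN) : Final :=
  final hSeq limWAll specDir specNTA specTop (specPoleP specHarm specRiesz specTop)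
    (specPoleM specHarm specRiesz specTop) (specBlow specTop) hDim

theorem seqAll : SpecSeq := specSeq blockAll allAll

theorem dimAll : SpecDimN := specDimN specDig specTop

theorem finalAll : Final := finalOf seqAll dimAll

end MP87
end
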