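import Mathlib

/-!
Definitions for the two-phase problem for harmonic measure: NTA domains, harmonic measure with
pole at infinity, blow-ups, the set of non-uniqueness of blow-ups.
-/

namespace MP87

open Filter Topology Set MeasureTheory Metric
open scoped InnerProductSpace Laplacian

noncomputable section

/-- Euclidean space `ℝⁿ` -/
abbrev En (n : ℕ) := EuclideanSpace ℝ (Fin n)

/-- `X` and `Y` can be joined in `Ω` by a Harnack chain of at most `L + 1` balls which are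
`M`-nontangential: the balls `B_j = B(x_j, r_j)` satisfy
`r_j / M ≤ dist(B_j, ∂Ω) ≤ M r_j`, where `dist(B_j, ∂Ω) = dist(x_j, ∂Ω) - r_j`. -/
def HarnackChain {n : ℕ} (Ω : Set (En n)) (M L : ℝ) (X Y : En n) : Prop :=
  ∃ (N : ℕ) (x : ℕ → En n) (r : ℕ → ℝ), (N : ℝ) ≤ L ∧
    X ∈ ball (x 0) (r 0) ∧ Y ∈ ball (x N) (r N) ∧
    (∀ j ≤ N, 0 < r j ∧ ball (x j) (r j) ⊆ Ω ∧
      r j / M ≤ infDist (x j) (frontier Ω) - r j ∧
      infDist (x j) (frontier Ω) - r j ≤ M * r j) ∧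
    ∀ j < N, (ball (x j) (r j) ∩ ball (x (j + 1)) (r (j + 1))).Nonempty

/-- Non-tangentially accessible domains of Jerison and Kenig (unbounded domains, all scales):
a domain satisfying the interior and the exterior corkscrew condition and the
Harnack chain condition. -/
structure IsNTA {n : ℕ} (Ω : Set (En n)) (M : ℝ) : Prop where
  isOpen : IsOpen Ω
  isConnected : IsConnected Ω
  one_lt : 1 < M
  corkscrew : ∀ Q ∈ frontier Ω, ∀ r : ℝ, 0 < r →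
    ∃ A ∈ Ω, dist A Q < r ∧ r / M < infDist A (frontier Ω)
  exterior : ∀ Q ∈ frontier Ω, ∀ r : ℝ, 0 < r →
    ∃ A ∈ (closure Ω)ᶜ, dist A Q < r ∧ r / M < infDist A (frontier Ω)
  chain : ∀ ε : ℝ, 0 < ε → ∀ k : ℕ, ∀ X ∈ Ω, ∀ Y ∈ Ω, ε ≤ infDist X (frontier Ω) →
    ε ≤ infDist Y (frontier Ω) → dist X Y ≤ 2 ^ k * ε → HarnackChain Ω M (M * (k + 1)) X Y

/-- `u` is the Green function of `Ω` with pole at infinity and `ω` is the corresponding harmonic
measure with pole at infinity: `u` is continuous, positive and harmonic in `Ω`, zero outside of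
`Ω`, and `∫ φ dω = ∫_Ω u Δφ` for all test functions `φ`. -/
structure IsPoleInfty {n : ℕ} (Ω : Set (En n)) (u : En n → ℝ) (ω : Measure (En n)) : Prop where
  cont : Continuous u
  zero : ∀ x, x ∉ Ω → u x = 0
  pos : ∀ x ∈ Ω, 0 < u x
  harm : InnerProductSpace.HarmonicOnNhd u Ω
  locfin : IsLocallyFiniteMeasure ω
  supp : ω (frontier Ω)ᶜ = 0
  riesz : ∀ φ : En n → ℝ, ContDiff ℝ (⊤ : ℕ∞) φ → HasCompactSupport φ →
    ∫ x, φ x ∂ω = ∫ x in Ω, u x * (Δ φ) x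

/-- `T` is a blow-up (tangent set) of the set `S` at `Q`: `T` is closed and there are `r_i → 0`
such that the sets `(S - Q) / r_i` converge to `T` in the Attouch-Wets topology (locally
uniform Hausdorff convergence) -/
def IsBlowup {n : ℕ} (S : Set (En n)) (Q : En n) (T : Set (En n)) : Prop :=
  IsClosed T ∧ ∃ r : ℕ → ℝ, (∀ i, 0 < r i) ∧ Tendsto r atTop (𝓝 0) ∧
    ∀ R : ℝ, 0 < R → ∀ ε : ℝ, 0 < ε → ∀ᶠ i in atTop,
      (∀ x ∈ T, ‖x‖ ≤ R → ∃ y ∈ S, ‖x - (r i)⁻¹ • (y - Q)‖ ≤ ε) ∧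
      ∀ y ∈ S, ‖(r i)⁻¹ • (y - Q)‖ ≤ R → ∃ x ∈ T, ‖x - (r i)⁻¹ • (y - Q)‖ ≤ ε

/-- the points of the boundary of `Ω` at which the blow-up is not unique -/
def NU {n : ℕ} (Ω : Set (En n)) : Set (En n) :=
  {Q | Q ∈ frontier Ω ∧ ¬ ∃! T, IsBlowup (frontier Ω) Q T}

/-- the final statement -/
def Final : Prop :=
  ∀ n : ℕ, 2 ≤ n → ∃ (Ωp Ωm : Set (En n)) (up um : En n → ℝ) (ωp ωm : Measure (En n))
    (h : En n → ℝ) (M : ℝ),
    Ωm = (closure Ωp)ᶜ ∧ frontier Ωp = frontier Ωm ∧ IsNTA Ωp M ∧ IsNTA Ωm M ∧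
    IsPoleInfty Ωp up ωp ∧ IsPoleInfty Ωm um ωm ∧
    ωm = ωp.withDensity (fun x => ENNReal.ofReal (h x)) ∧
    (∀ x ∈ frontier Ωp, 0 < h x) ∧
    ContinuousOn (fun x => Real.log (h x)) (frontier Ωp) ∧
    dimH (NU Ωp) = ((n - 1 : ℕ) : ENNReal)

end

end MP87
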