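import Pool.Agent.Lib.MP_87ece0_an.Spec

section
/-!
Basic facts about upper maps, lower maps and stages.
-/
namespace MP87

open Filter Topology Set MeasureTheory Metric
open scoped InnerProductSpace ComplexConjugate Laplacian NNReal

noncomputable section

namespace Upper

variable (U : Upper)

theorem isOpen_half (a : ℝ) : IsOpen {z : ℂ | a < z.im} :=
  isOpen_lt continuous_const Complex.continuous_im

theorem isOpen_half' (a : ℝ) : IsOpen {z : ℂ | z.im < a} :=
  isOpen_lt Complex.continuous_im continuous_const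

theorem isOpen_strip (a : ℝ) : IsOpen {z : ℂ | |z.im| < a} :=
  isOpen_lt (continuous_abs.comp Complex.continuous_im) continuous_const

theorem convex_half (a : ℝ) : Convex ℝ {z : ℂ | a < z.im} := convex_halfSpace_im_gt a

theorem B_nonneg : 0 ≤ U.B :=
  (norm_nonneg _).trans (U.bdd 0 (by simpa using U.hρ))

theorem diffAt {z : ℂ} (hz : -U.ρ < z.im) : DifferentiableAt ℂ U.f z :=
  (U.hol z hz).differentiableAt ((isOpen_half _).mem_nhds hz)

theorem contAt {z : ℂ} (hz : -U.ρ < z.im) : ContinuousAt U.f z := (U.diffAt hz).continuousAt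

theorem f_inj {z w : ℂ} (hz : -U.ρ < z.im) (hw : -U.ρ < w.im) (h : U.f z = U.f w) : z = w := by
  have := U.inj z w hz hw
  rw [h, sub_self, norm_zero] at this
  have h2 : ‖z - w‖ ≤ 0 := by
    by_contra hc
    push Not at hc
    nlinarith [U.hκ, mul_pos U.hκ hc]
  exact sub_eq_zero.1 (norm_le_zero_iff.1 h2)

theorem im_pos_lt {z : ℂ} (hz : 0 ≤ z.im) : -U.ρ < z.im := by linarith [U.hρ]

theorem Om_eq : U.Om = U.τ '' {z : ℂ | z.im < 0} := by
  have h1 : U.f '' {z : ℂ | 0 ≤ z.im} = U.τ '' {z : ℂ | 0 ≤ z.im} := by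
    apply image_congr
    intro z hz
    exact (U.τf z (U.im_pos_lt hz)).symm
  unfold Om
  rw [h1, ← image_compl_eq U.τ.bijective]
  congr 1
  ext z
  simp

theorem mem_Om_iff {w : ℂ} : w ∈ U.Om ↔ (U.τ.symm w).im < 0 := by
  rw [Om_eq]
  constructor
  · rintro ⟨z, hz, rfl⟩
    simpa using hz
  · intro h
    exact ⟨U.τ.symm w, h, by simp⟩

theorem isOpen_Om : IsOpen U.Om := by
  rw [Om_eq]
  exact U.τ.isOpenMap _ (isOpen_half' 0)

theorem not_mem_Om {z : ℂ} (hz : 0 ≤ z.im) : U.f z ∉ U.Om := fun h => h ⟨z, hz, rfl⟩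

theorem mem_Om {z : ℂ} (h1 : -U.ρ < z.im) (h2 : z.im < 0) : U.f z ∈ U.Om := by
  rintro ⟨w, hw, h⟩
  have := U.f_inj (U.im_pos_lt hw) h1 h
  rw [this] at hw
  exact absurd hw (not_le.2 h2)

theorem τ_symm_add_one (z : ℂ) : U.τ.symm (z + 1) = U.τ.symm z + 1 := by
  apply U.τ.injective
  rw [U.τper, U.τ.apply_symm_apply, U.τ.apply_symm_apply]

theorem τ_symm_sub_one (z : ℂ) : U.τ.symm (z - 1) = U.τ.symm z - 1 := by
  have := U.τ_symm_add_one (z - 1)
  rw [sub_add_cancel] at this
  rw [this]; ring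

theorem τ_symm_bdd (z : ℂ) : ‖U.τ.symm z - z‖ ≤ U.B := by
  have := U.τbdd (U.τ.symm z)
  rw [U.τ.apply_symm_apply] at this
  rwa [norm_sub_rev]

theorem Om_add_one {w : ℂ} : w + 1 ∈ U.Om ↔ w ∈ U.Om := by
  rw [mem_Om_iff, mem_Om_iff, τ_symm_add_one]
  simp

theorem Om_add_int {w : ℂ} (n : ℤ) : w + n ∈ U.Om ↔ w ∈ U.Om := by
  induction n using Int.induction_on with
  | zero => simp
  | succ n ih =>
    push_cast at ih ⊢
    rw [← add_assoc, Om_add_one, ih]
  | pred n ih =>
    push_cast at ih ⊢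
    rw [← ih, ← Om_add_one]
    have : w + (-(n : ℂ) - 1) + 1 = w + -(n : ℂ) := by ring
    rw [this]

theorem im_le_of_mem {w : ℂ} (hw : w ∈ U.Om) : w.im < U.B := by
  rw [mem_Om_iff] at hw
  have h := (Complex.abs_im_le_norm _).trans (U.τ_symm_bdd w)
  rw [Complex.sub_im] at h
  have := (abs_le.1 h).1
  linarith

theorem mem_of_im_lt {w : ℂ} (hw : w.im < -U.B) : w ∈ U.Om := by
  rw [mem_Om_iff]
  have h := (Complex.abs_im_le_norm _).trans (U.τ_symm_bdd w)
  rw [Complex.sub_im] at h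
  have := (abs_le.1 h).2
  linarith

theorem f_add_int (n : ℤ) : ∀ {z : ℂ}, -U.ρ < z.im → U.f (z + n) = U.f z + n := by
  induction n using Int.induction_on with
  | zero => intro z _; simp
  | succ n ih =>
    intro z hz
    push_cast at ih ⊢
    rw [← add_assoc, U.per (z + n) (by simpa using hz), ih hz, add_assoc]
  | pred n ih =>
    intro z hz
    push_cast at ih ⊢
    have h1 : -U.ρ < (z + (-(n : ℂ) - 1)).im := by simpa using hz
    have h2 := U.per _ h1
    have : z + (-(n : ℂ) - 1) + 1 = z + -(n : ℂ) := by ring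
    rw [this, ih hz] at h2
    rw [eq_sub_of_add_eq h2.symm]; ring

theorem f_add_nat (n : ℕ) {z : ℂ} (hz : -U.ρ < z.im) : U.f (z + n) = U.f z + n := by
  have := U.f_add_int n hz
  simpa using this

theorem τ_add_nat (n : ℕ) (z : ℂ) : U.τ (z + n) = U.τ z + n := by
  induction n with
  | zero => simp
  | succ n ih => push_cast; rw [← add_assoc, U.τper, ih, add_assoc]

/-- the derivative is bounded below -/
theorem κ_le_deriv {z : ℂ} (hz : -U.ρ < z.im) : U.κ ≤ ‖deriv U.f z‖ := by
  have hd := (U.diffAt hz).hasDerivAt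
  rw [hasDerivAt_iff_tendsto_slope] at hd
  have h1 := hd.norm
  refine ge_of_tendsto h1 ?_
  have h2 : ∀ᶠ w in 𝓝[≠] z, -U.ρ < w.im :=
    mem_nhdsWithin_of_mem_nhds ((isOpen_half _).mem_nhds hz)
  filter_upwards [h2, self_mem_nhdsWithin] with w hw hne
  rw [slope_def_field, norm_div, le_div_iff₀ (norm_pos_iff.2 (sub_ne_zero.2 hne))]
  exact U.inj w z hw hz

theorem deriv_ne {z : ℂ} (hz : -U.ρ < z.im) : deriv U.f z ≠ 0 := by
  have := U.κ_le_deriv hz
  intro h
  rw [h, norm_zero] at this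
  exact absurd this (not_le.2 U.hκ)

/-- Cauchy estimate for `f' - 1` -/
theorem deriv_sub_one_le {z : ℂ} {r : ℝ} (hr : 0 < r) (hz : -U.ρ < z.im - r) :
    ‖deriv U.f z - 1‖ ≤ U.B / r := by
  have h1 : deriv (fun w => U.f w - w) z = deriv U.f z - 1 := by
    rw [deriv_fun_sub (U.diffAt (by linarith)) differentiableAt_fun_id]
    simp
  rw [← h1]
  apply Complex.norm_deriv_le_of_forall_mem_sphere_norm_le hr
  · constructor
    · intro w hw
      have h2 : |(w - z).im| ≤ r := (Complex.abs_im_le_norm _).trans (by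
        rw [mem_ball, dist_eq_norm] at hw; exact hw.le)
      rw [Complex.sub_im] at h2
      have := (abs_le.1 h2).1
      exact ((U.diffAt (by linarith)).sub differentiableAt_fun_id).differentiableWithinAt
    · rw [closure_ball _ hr.ne']
      intro w hw
      have h2 : |(w - z).im| ≤ r := (Complex.abs_im_le_norm _).trans (by
        rw [mem_closedBall, dist_eq_norm] at hw; exact hw)
      rw [Complex.sub_im] at h2
      have := (abs_le.1 h2).1
      exact ((U.contAt (by linarith)).sub continuousAt_id).continuousWithinAt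
  · intro w hw
    have h2 : |(w - z).im| ≤ r := (Complex.abs_im_le_norm _).trans (by
      rw [mem_sphere, dist_eq_norm] at hw; exact hw.le)
    rw [Complex.sub_im] at h2
    have := (abs_le.1 h2).1
    exact U.bdd w (by linarith)

/-- `f` is Lipschitz on smaller closed half planes -/
theorem f_lip {a : ℝ} (ha : a < U.ρ) {z w : ℂ} (hz : -a ≤ z.im) (hw : -a ≤ w.im) :
    ‖U.f z - U.f w‖ ≤ (1 + 2 * U.B / (U.ρ - a)) * ‖z - w‖ := by
  have hconv : Convex ℝ {z : ℂ | -a ≤ z.im} := convex_halfSpace_im_ge (-a)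
  have h0 : 0 < U.ρ - a := by linarith
  refine hconv.norm_image_sub_le_of_norm_deriv_le (f := U.f) ?_ ?_ hw hz
  · intro x hx
    have hx' : -a ≤ x.im := hx
    exact U.diffAt (by linarith)
  · intro x hx
    have hx' : -a ≤ x.im := hx
    have h1 := U.deriv_sub_one_le (z := x) (r := (U.ρ - a) / 2) (by linarith) (by linarith)
    have h2 : ‖deriv U.f x‖ ≤ 1 + ‖deriv U.f x - 1‖ := by
      have := norm_add_le (1 : ℂ) (deriv U.f x - 1)
      rw [add_sub_cancel, norm_one] at this
      exact this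
    have h3 : U.B / ((U.ρ - a) / 2) = 2 * U.B / (U.ρ - a) := by
      field_simp
    rw [h3] at h1
    linarith

/-- points of `Om` close to the curve are `f z` with `z` just below the real axis -/
theorem exists_of_near {t : ℝ} (ht : 0 < t) (ht' : t < U.ρ) {w : ℂ} (hw : w ∈ U.Om) {x : ℝ}
    (hx : ‖w - U.f x‖ < U.κ * t / 2) :
    ∃ z : ℂ, ‖z - x‖ ≤ t ∧ -t ≤ z.im ∧ z.im < 0 ∧ U.f z = w := by
  have hd : DiffContOnCl ℂ U.f (ball (x : ℂ) t) := by
    have hsub : ∀ y : ℂ, ‖y - x‖ ≤ t → -U.ρ < y.im := by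
      intro y hy
      have h2 : |(y - x).im| ≤ t := (Complex.abs_im_le_norm _).trans hy
      rw [Complex.sub_im, Complex.ofReal_im, sub_zero] at h2
      have := (abs_le.1 h2).1
      linarith
    constructor
    · intro y hy
      rw [mem_ball, dist_eq_norm] at hy
      exact (U.diffAt (hsub y hy.le)).differentiableWithinAt
    · rw [closure_ball _ ht.ne']
      intro y hy
      rw [mem_closedBall, dist_eq_norm] at hy
      exact (U.contAt (hsub y hy)).continuousWithinAt
  have hsph : ∀ z ∈ sphere (x : ℂ) t, U.κ * t ≤ ‖U.f z - U.f x‖ := by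
    intro z hz
    rw [mem_sphere, dist_eq_norm] at hz
    have h2 : |(z - x).im| ≤ t := (Complex.abs_im_le_norm _).trans hz.le
    rw [Complex.sub_im, Complex.ofReal_im, sub_zero] at h2
    have h3 := (abs_le.1 h2).1
    have := U.inj z x (by linarith) (by simpa using U.hρ)
    rwa [hz] at this
  have hne : ∃ᶠ z in 𝓝 (x : ℂ), U.f z ≠ U.f x := by
    have hx0 : -U.ρ < (x : ℂ).im := by simpa using U.hρ
    have h2 : ∀ᶠ w in 𝓝[≠] (x : ℂ), -U.ρ < w.im :=
      mem_nhdsWithin_of_mem_nhds ((isOpen_half _).mem_nhds hx0)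
    have h3 : ∀ᶠ w in 𝓝[≠] (x : ℂ), U.f w ≠ U.f x := by
      filter_upwards [h2, self_mem_nhdsWithin] with w hw hne h
      exact hne (U.f_inj hw hx0 h)
    exact (h3.frequently).filter_mono nhdsWithin_le_nhds
  have hsub := hd.ball_subset_image_closedBall ht hsph hne
  obtain ⟨z, hz, hzw⟩ := hsub (show w ∈ ball (U.f x) (U.κ * t / 2) by
    rw [mem_ball, dist_eq_norm]; exact hx)
  rw [mem_closedBall, dist_eq_norm] at hz
  have h2 : |(z - x).im| ≤ t := (Complex.abs_im_le_norm _).trans hz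
  rw [Complex.sub_im, Complex.ofReal_im, sub_zero] at h2
  refine ⟨z, hz, (abs_le.1 h2).1, ?_, hzw⟩
  by_contra hc
  push Not at hc
  exact (U.not_mem_Om hc) (hzw ▸ hw)

/-- on the closed lower side of the curve, `Om` reaches at most as high as the curve -/
theorem im_le_of_curve {h : ℝ} (hh : ∀ x : ℝ, (U.f x).im ≤ h) {w : ℂ} (hw : w ∈ U.Om) :
    w.im ≤ h := by
  by_contra hc
  push Not at hc
  -- the segment going up from `w` stays above `h`
  have h0 : (U.τ.symm w).im < 0 := U.mem_Om_iff.1 hw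
  let γ : ℝ → ℝ := fun t => (U.τ.symm (w + t * Complex.I)).im
  have hγ : Continuous γ := by
    refine Complex.continuous_im.comp (U.τ.symm.continuous.comp ?_)
    fun_prop
  have h1 : γ 0 < 0 := by simpa [γ] using h0
  obtain ⟨T, hT0, hT⟩ : ∃ T : ℝ, 0 ≤ T ∧ 0 < γ T := by
    refine ⟨|w.im| + U.B + 1, by have := U.B_nonneg; positivity, ?_⟩
    have h2 := U.τ_symm_bdd (w + ((|w.im| + U.B + 1 : ℝ) : ℂ) * Complex.I)
    have h3 := (Complex.abs_im_le_norm _).trans h2
    rw [Complex.sub_im] at h3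
    have h4 := (abs_le.1 h3).1
    have h5 : (w + ((|w.im| + U.B + 1 : ℝ) : ℂ) * Complex.I).im = w.im + (|w.im| + U.B + 1) := by
      simp
    rw [h5] at h4
    have h6 := neg_abs_le w.im
    show 0 < (U.τ.symm (w + ((|w.im| + U.B + 1 : ℝ) : ℂ) * Complex.I)).im
    linarith
  obtain ⟨t, ht, ht0⟩ : ∃ t ∈ Icc 0 T, γ t = 0 := by
    have := intermediate_value_Icc hT0 hγ.continuousOn
    exact this ⟨h1.le, hT.le⟩
  set z := U.τ.symm (w + t * Complex.I) with hz
  have hz0 : z.im = 0 := ht0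
  have hzr : z = (z.re : ℂ) := Complex.ext (by simp) (by simp [hz0])
  have h7 : U.f z = w + t * Complex.I := by
    rw [← U.τf z (by rw [hz0]; linarith [U.hρ]), hz, U.τ.apply_symm_apply]
  have h8 := hh z.re
  rw [← hzr, h7] at h8
  simp at h8
  linarith [ht.1]

end Upper

namespace Lower

variable {U : Upper} (L : Lower U)

theorem ψ_neg {w : ℂ} (hw : w ∈ U.Om) : (L.ψ w).im < 0 := L.ψbij.mapsTo hw

theorem c_neg {z : ℂ} (h1 : -U.ρ < z.im) (h2 : z.im < 0) : (L.c z).im < 0 := by
  rw [L.cψ z h1 h2]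
  exact L.ψ_neg (U.mem_Om h1 h2)

theorem c_real (x : ℝ) : (L.c x).im = 0 := by
  have h := L.cconj x (by simpa using U.hρ)
  rw [Complex.conj_ofReal] at h
  have := congrArg Complex.im h
  rw [Complex.conj_im] at this
  linarith

theorem c_eq_re (x : ℝ) : L.c x = ((L.c x).re : ℂ) := Complex.ext (by simp) (by simp [L.c_real x])

theorem c_pos {z : ℂ} (h1 : 0 < z.im) (h2 : z.im < U.ρ) : 0 < (L.c z).im := by
  have h := L.cconj z (by rw [abs_of_pos h1]; exact h2)
  have h3 := L.c_neg (z := conj z) (by rw [Complex.conj_im]; linarith)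
    (by rw [Complex.conj_im]; linarith)
  rw [h, Complex.conj_im] at h3
  linarith

theorem c_diffAt {z : ℂ} (hz : |z.im| < U.ρ) : DifferentiableAt ℂ L.c z :=
  (L.chol z hz).differentiableAt ((Upper.isOpen_strip _).mem_nhds hz)

theorem real_lt (U : Upper) (x : ℝ) : |(x : ℂ).im| < U.ρ := by simpa using U.hρ

theorem c_hasDerivAt_real (x : ℝ) :
    HasDerivAt (fun t : ℝ => (L.c t).re) (deriv L.c x).re x := by
  have h := (L.c_diffAt (real_lt U x)).hasDerivAt
  exact h.real_of_complex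

theorem deriv_c_im (x : ℝ) : (deriv L.c x).im = 0 := by
  have h := (L.c_diffAt (real_lt U x)).hasDerivAt
  have h2 : HasDerivAt (fun t : ℝ => L.c t) (deriv L.c x) x := h.comp_ofReal
  have h3 : HasDerivAt (fun t : ℝ => (L.c t).im) (deriv L.c x).im x :=
    (Complex.imCLM.hasFDerivAt.comp_hasDerivAt x h2)
  have h4 : (fun t : ℝ => (L.c t).im) = fun _ => 0 := by
    funext t; exact L.c_real t
  rw [h4] at h3
  exact h3.unique (hasDerivAt_const x 0)

theorem deriv_c_eq_re (x : ℝ) : deriv L.c x = ((deriv L.c x).re : ℂ) :=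
  Complex.ext (by simp) (by simp [L.deriv_c_im x])

theorem c_add_int (n : ℤ) : ∀ {z : ℂ}, |z.im| < U.ρ → L.c (z + n) = L.c z + n := by
  induction n using Int.induction_on with
  | zero => intro z _; simp
  | succ n ih =>
    intro z hz
    push_cast at ih ⊢
    rw [← add_assoc, L.cper (z + n) (by simpa using hz), ih hz, add_assoc]
  | pred n ih =>
    intro z hz
    push_cast at ih ⊢
    have h1 : |(z + (-(n : ℂ) - 1)).im| < U.ρ := by simpa using hz
    have h2 := L.cper _ h1
    have : z + (-(n : ℂ) - 1) + 1 = z + -(n : ℂ) := by ring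
    rw [this, ih hz] at h2
    rw [eq_sub_of_add_eq h2.symm]; ring

end Lower

namespace Stage

variable (s : Stage)

theorem g_diffAt {z : ℂ} (hz : z.im < s.t) : DifferentiableAt ℂ s.g z :=
  (s.ghol z hz).differentiableAt ((Upper.isOpen_half' _).mem_nhds hz)

theorem g_sub_le {z : ℂ} (hz : z.im < 0) : ‖s.g z - z‖ ≤ s.L.B := by
  have := s.L.ψbdd _ (s.gmem z hz)
  rwa [s.ψg z hz, norm_sub_rev] at this

theorem g_sub_le' {z : ℂ} (hz : z.im ≤ 0) : ‖s.g z - z‖ ≤ s.L.B := by
  rcases hz.lt_or_eq with h | h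
  · exact s.g_sub_le h
  · have hc : ContinuousAt (fun w => ‖s.g w - w‖) z :=
      ((s.g_diffAt (by rw [h]; exact s.ht)).continuousAt.sub continuousAt_id).norm
    have ht : Tendsto (fun t : ℝ => z - t * Complex.I) (𝓝[>] 0) (𝓝 z) := by
      have : Tendsto (fun t : ℝ => z - t * Complex.I) (𝓝 0) (𝓝 (z - (0 : ℝ) * Complex.I)) := by
        apply Continuous.tendsto
        fun_prop
      simp only [Complex.ofReal_zero, zero_mul, sub_zero] at this
      exact this.mono_left nhdsWithin_le_nhds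
    refine le_of_tendsto (hc.tendsto.comp ht) ?_
    filter_upwards [self_mem_nhdsWithin] with t ht
    apply s.g_sub_le
    have ht' : (0 : ℝ) < t := ht
    simp [h, ht']

theorem g_add_one {z : ℂ} (hz : z.im < 0) : s.g (z + 1) = s.g z + 1 := by
  have h1 := s.L.ψper _ (s.gmem z hz)
  rw [s.ψg z hz] at h1
  rw [← h1, s.gψ _ (s.U.Om_add_one.2 (s.gmem z hz))]

theorem g_add_nat (n : ℕ) {z : ℂ} (hz : z.im < 0) : s.g (z + n) = s.g z + n := by
  induction n with
  | zero => simp
  | succ n ih => push_cast; rw [← add_assoc, s.g_add_one (by simpa using hz), ih, add_assoc]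

/-- `g (c z) = f z` on the lower part of the strip -/
theorem g_c {z : ℂ} (h1 : -s.U.ρ < z.im) (h2 : z.im < 0) : s.g (s.L.c z) = s.U.f z := by
  rw [s.L.cψ z h1 h2, s.gψ _ (s.U.mem_Om h1 h2)]

theorem c_strictMono : StrictMono fun x : ℝ => (s.L.c x).re := by
  apply strictMono_of_deriv_pos
  intro x
  rw [(s.L.c_hasDerivAt_real x).deriv]
  exact s.cpos x

theorem c_continuous : Continuous fun x : ℝ => (s.L.c x).re :=
  continuous_iff_continuousAt.2 fun x => (s.L.c_hasDerivAt_real x).continuousAt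

theorem c_surjective : Function.Surjective fun x : ℝ => (s.L.c x).re := by
  have hint : ∀ n : ℤ, (s.L.c ((n : ℝ) : ℂ)).re = n := by
    intro n
    have h := s.L.c_add_int n (z := 0) (by simpa using s.U.hρ)
    rw [zero_add, s.L.c0, zero_add] at h
    have h2 : s.L.c ((n : ℝ) : ℂ) = n := by
      rw [Complex.ofReal_intCast]; exact h
    rw [h2]; simp
  have h1 : Tendsto (fun x : ℝ => (s.L.c x).re) atTop atTop := by
    apply tendsto_atTop_atTop_of_monotone s.c_strictMono.monotone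
    intro b
    exact ⟨(⌈b⌉ : ℝ), by rw [hint]; exact Int.le_ceil b⟩
  have h2 : Tendsto (fun x : ℝ => (s.L.c x).re) atBot atBot := by
    apply tendsto_atBot_atBot_of_monotone s.c_strictMono.monotone
    intro b
    exact ⟨(⌊b⌋ : ℝ), by rw [hint]; exact Int.floor_le b⟩
  exact s.c_continuous.surjective h1 h2

theorem exp_lc (x : ℝ) : Real.exp (s.lc x) = (deriv s.L.c x).re := Real.exp_log (s.cpos x)

end Stage

end

end MP87
end

section
/-!
Module ALL: one step of the construction.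
-/
namespace MP87

open Filter Topology Set MeasureTheory Metric

theorem specAll (hStep : SpecStep) (hStepG : SpecStepG) (hNear : SpecNear) (hChord : SpecChord) :
    SpecAll := by
  intro s b κ₁ κ₂ m η hκ₁ hκ₂ hm hη h1 h2 h3
  obtain ⟨δ, hδ, hG⟩ := hStepG s η hη
  have hmin : 0 < min η δ := lt_min hη hδ
  obtain ⟨N1, hN1⟩ := hStep s b (min η δ) hmin
  obtain ⟨N2, hN2⟩ := hNear s.U b.U (min η δ) hmin
  obtain ⟨N3, hN3⟩ := hChord s.U b.U κ₁ κ₂ m η hκ₁ hκ₂ hm hη h1 h2 h3
  refine ⟨max N1 (max N2 N3), fun N hN => ?_⟩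
  have hN1' : N1 ≤ N := (le_max_left _ _).trans hN
  have hN2' : N2 ≤ N := (le_max_left _ _).trans ((le_max_right _ _).trans hN)
  have hN3' : N3 ≤ N := (le_max_right _ _).trans ((le_max_right _ _).trans hN)
  obtain ⟨s', hcomp, hl, hc⟩ := hN1 N hN1'
  obtain ⟨hf, hd', hd⟩ := hN2 N hN2' s'.U hcomp
  have hch := hN3 N hN3' s'.U hcomp
  refine ⟨s', ⟨hcomp, fun z hz => (hf z hz).trans (min_le_left _ _),
    fun x => (hd x).trans (min_le_left _ _), hd', fun x => (hl x).trans (min_le_left _ _),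
    fun x => (hc x).trans (min_le_left _ _), ?_⟩, hch⟩
  exact hG s' (fun x => (hf x (by simp)).trans (min_le_right _ _))
    fun x => (hc x).trans (min_le_right _ _)

end MP87
end

section
/-!
The basic block: a `K`-fold composition of the tiny block.
-/
namespace MP87

open Filter Topology Set MeasureTheory Metric
open scoped InnerProductSpace ComplexConjugate Laplacian NNReal

noncomputable section

namespace Block

/-- the invariant of the iteration -/
structure Inv (s : Stage) (i : ℕ) (ε L η : ℝ) : Prop where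
  f0 : s.U.f 0 = 0
  d0 : deriv s.U.f 0 = Complex.exp (((i * (ε * L) : ℝ) : ℂ) * Complex.I)
  lc : ∀ x : ℝ, |s.lc x| ≤ i * (4 * ε + η)
  ld : ∀ x : ℝ, |Real.log ‖deriv s.U.f x‖| ≤ i * (2 * ε + 4 * η)
  chord : ∀ x y : ℝ, (27 / 50 - i * η) * |x - y| ≤ ‖s.U.f x - s.U.f y‖

theorem real_im (U : Upper) (x : ℝ) : -U.ρ < (x : ℂ).im := by simpa using U.hρ

theorem deriv_pos (U : Upper) (x : ℝ) : 0 < ‖deriv U.f x‖ :=
  norm_pos_iff.2 (U.deriv_ne (real_im U x))

theorem exp_half : (3 / 5 : ℝ) ≤ Real.exp (-(1 / 2)) := by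
  have h1 : Real.exp (-(1 / 2)) * Real.exp (-(1 / 2)) = Real.exp (-1) := by
    rw [← Real.exp_add]; norm_num
  have h2 := Real.exp_neg_one_gt_d9
  by_contra hc
  push Not at hc
  have h3 := Real.exp_pos (-(1 / 2) : ℝ)
  nlinarith

theorem log_close {p q e : ℝ} (hp : 27 / 50 ≤ p) (he : e ≤ 1 / 100) (h : |q - p| ≤ e) :
    |Real.log q - Real.log p| ≤ 4 * e := by
  obtain ⟨h1, h2⟩ := abs_le.1 h
  have he0 : 0 ≤ e := (abs_nonneg _).trans h
  have hp0 : 0 < p := by linarith
  have hq : 53 / 100 ≤ q := by linarith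
  have hq0 : 0 < q := by linarith
  rw [abs_le]
  constructor
  · have h3 : Real.log (p / q) ≤ p / q - 1 := Real.log_le_sub_one_of_pos (by positivity)
    rw [Real.log_div hp0.ne' hq0.ne'] at h3
    have h4 : p / q - 1 ≤ 4 * e := by
      rw [sub_le_iff_le_add, div_le_iff₀ hq0]
      nlinarith
    linarith
  · have h3 : Real.log (q / p) ≤ q / p - 1 := Real.log_le_sub_one_of_pos (by positivity)
    rw [Real.log_div hq0.ne' hp0.ne'] at h3
    have h4 : q / p - 1 ≤ 4 * e := by
      rw [sub_le_iff_le_add, div_le_iff₀ hp0]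
      nlinarith
    linarith

theorem step (hAll : SpecAll) {a s : Stage} {i : ℕ} {ε L η : ℝ} (hη : 0 < η)
    (hη1 : (i + 1 : ℝ) * η ≤ 1 / 100)
    (hε : ε ≤ 1 / 20) (hi : (i : ℝ) * (2 * ε + 4 * η) ≤ 1 / 2)
    (ha0 : a.U.f 0 = 0)
    (had : deriv a.U.f 0 = Complex.exp (ε * L * Complex.I)) (hal : ∀ x : ℝ, |a.lc x| ≤ 4 * ε)
    (hald : ∀ x : ℝ, |Real.log ‖deriv a.U.f x‖| ≤ 2 * ε)
    (hach : ∀ x y : ℝ, 9 / 10 * |x - y| ≤ ‖a.U.f x - a.U.f y‖)
    (hs : Inv s i ε L η) : ∃ s' : Stage, Inv s' (i + 1) ε L η := by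
  have hi0 : (0 : ℝ) ≤ i := Nat.cast_nonneg i
  have hη2 : η ≤ 1 / 100 := by nlinarith
  have hiη : (i : ℝ) * η ≤ 1 / 100 := by nlinarith
  have hm : ∀ x : ℝ, Real.exp (-(1 / 2)) ≤ ‖deriv s.U.f x‖ := by
    intro x
    rw [← Real.exp_log (deriv_pos s.U x)]
    apply Real.exp_le_exp.2
    have := (abs_le.1 (hs.ld x)).1
    linarith
  obtain ⟨N₁, hN₁⟩ := hAll s a (27 / 50 - i * η) (9 / 10) (Real.exp (-(1 / 2))) η (by linarith)
    (by norm_num) (Real.exp_pos _) hη hs.chord hach hm
  obtain ⟨s', hcl, hch⟩ := hN₁ N₁ le_rfl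
  have hN0 : 0 < N₁ := hcl.comp.1
  refine ⟨s', ?_, ?_, ?_, ?_, ?_⟩
  · rw [hcl.comp.2.2.2.2.1 0 (by simpa using s'.U.hρ), mul_zero, ha0, zero_div, hs.f0]
  · have h1 := hcl.hd' 0
    rw [Complex.ofReal_zero, mul_zero, ha0, zero_div, hs.d0, had, ← Complex.exp_add] at h1
    rw [h1]
    congr 1
    push_cast
    ring
  · intro x
    have h1 := hcl.hl x
    have h2 := hs.lc x
    have h3 := hal (N₁ * x)
    push_cast
    calc |s'.lc x| = |(s'.lc x - s.lc x - a.lc (N₁ * x)) + s.lc x + a.lc (N₁ * x)| := by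
          congr 1; ring
      _ ≤ |(s'.lc x - s.lc x - a.lc (N₁ * x)) + s.lc x| + |a.lc (N₁ * x)| := abs_add_le _ _
      _ ≤ |s'.lc x - s.lc x - a.lc (N₁ * x)| + |s.lc x| + |a.lc (N₁ * x)| := by
          have := abs_add_le (s'.lc x - s.lc x - a.lc (N₁ * x)) (s.lc x)
          linarith
      _ ≤ (i + 1) * (4 * ε + η) := by linarith
  · intro x
    have hs0 := deriv_pos s.U x
    have hcast : ((N₁ : ℂ) * (x : ℂ)) = ((N₁ * x : ℝ) : ℂ) := by push_cast; ring
    have ha1 : 0 < ‖deriv a.U.f (N₁ * x)‖ := by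
      rw [hcast]; exact deriv_pos a.U _
    have ha2 : 9 / 10 ≤ ‖deriv a.U.f (N₁ * x)‖ := by
      rw [← Real.exp_log ha1]
      have h1 : |Real.log ‖deriv a.U.f (N₁ * x)‖| ≤ 2 * ε := by
        rw [hcast]; exact hald _
      have h2 := (abs_le.1 h1).1
      have h3 := Real.add_one_le_exp (Real.log ‖deriv a.U.f (N₁ * x)‖)
      linarith
    have hp : 27 / 50 ≤ ‖deriv s.U.f x‖ * ‖deriv a.U.f (N₁ * x)‖ := by
      have h1 : 3 / 5 ≤ ‖deriv s.U.f x‖ := exp_half.trans (hm x)
      nlinarith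
    have hd : |‖deriv s'.U.f x‖ - ‖deriv s.U.f x‖ * ‖deriv a.U.f (N₁ * x)‖| ≤ η := by
      rw [← norm_mul]
      exact (abs_norm_sub_norm_le _ _).trans (hcl.hd x)
    have h1 := log_close hp hη2 hd
    rw [Real.log_mul hs0.ne' ha1.ne'] at h1
    have h2 := hs.ld x
    have h3 : |Real.log ‖deriv a.U.f (N₁ * x)‖| ≤ 2 * ε := by
      rw [hcast]; exact hald _
    push_cast
    have h4 := abs_le.1 h1
    have h5 := abs_le.1 h2
    have h6 := abs_le.1 h3
    rw [abs_le]
    constructor <;> nlinarith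
  · intro x y
    refine le_trans ?_ (hch x y)
    apply mul_le_mul_of_nonneg_right _ (abs_nonneg _)
    have h1 : 27 / 50 - i * η ≤ min (27 / 50 - i * η) (Real.exp (-(1 / 2)) * (9 / 10)) := by
      apply le_min le_rfl
      have h2 := exp_half
      have h3 : 0 ≤ (i : ℝ) * η := by positivity
      linarith
    push_cast
    linarith

end Block

theorem specBlock (hMicro : SpecMicro) (hAll : SpecAll) : SpecBlock := by
  intro η hη
  set η₁ := min η 1 with hη₁
  have hη₁0 : 0 < η₁ := lt_min hη one_pos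
  have hη₁1 : η₁ ≤ 1 := min_le_right _ _
  have hη₁η : η₁ ≤ η := min_le_left _ _
  set L := 20 / η₁ with hL
  have hL0 : 0 < L := by positivity
  obtain ⟨ε, hε, hε1, a, ha0, had, hal, hald, hach⟩ := hMicro L hL0 (1 / L) (by positivity)
  have hεL : ε * L < 1 := by
    rw [lt_div_iff₀ hL0] at hε1
    exact hε1
  have hεL0 : 0 < ε * L := by positivity
  have hLη : L * η₁ = 20 := by rw [hL]; field_simp
  set K := ⌈1 / (ε * L)⌉₊ with hK
  have hK1 : 1 / (ε * L) ≤ K := Nat.le_ceil _
  have hK2 : (K : ℝ) < 1 / (ε * L) + 1 := Nat.ceil_lt_add_one (by positivity)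
  have hKpos : 0 < K := Nat.ceil_pos.2 (by positivity)
  have hθ1 : 1 ≤ K * (ε * L) := by
    rw [div_le_iff₀ hεL0] at hK1
    exact hK1
  have hθ2 : K * (ε * L) ≤ 2 := by
    have h1 : (K : ℝ) * (ε * L) < (1 / (ε * L) + 1) * (ε * L) :=
      mul_lt_mul_of_pos_right hK2 hεL0
    have h2 : (1 / (ε * L) + 1) * (ε * L) = 1 + ε * L := by field_simp
    linarith
  have hKε : K * ε ≤ η₁ / 10 := by
    -- `K ε L ≤ 2`, `L = 20/η₁`
    have h1 : (K * ε) * 20 ≤ 2 * η₁ := by
      calc (K * ε) * 20 = (K * (ε * L)) * η₁ := by rw [← hLη]; ring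
        _ ≤ 2 * η₁ := mul_le_mul_of_nonneg_right hθ2 hη₁0.le
    linarith
  have hε20 : ε ≤ 1 / 20 := by
    have h1 : ε * 20 ≤ 1 * η₁ := by
      calc ε * 20 = (ε * L) * η₁ := by rw [← hLη]; ring
        _ ≤ 1 * η₁ := mul_le_mul_of_nonneg_right hεL.le hη₁0.le
    linarith
  have hKpos' : (0 : ℝ) < K := by exact_mod_cast hKpos
  set e := η₁ / (100 * K) with he
  have he0 : 0 < e := by positivity
  have hKe : K * e = η₁ / 100 := by rw [he]; field_simp
  have main : ∀ j : ℕ, j + 1 ≤ K → ∃ s : Stage, Block.Inv s (j + 1) ε L e := by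
    intro j
    induction j with
    | zero =>
      intro _
      refine ⟨a, ha0, ?_, ?_, ?_, ?_⟩
      · rw [had]
        push_cast
        ring_nf
      · intro x
        have := hal x
        push_cast
        linarith
      · intro x
        have := hald x
        push_cast
        linarith
      · intro x y
        refine le_trans ?_ (hach x y)
        apply mul_le_mul_of_nonneg_right _ (abs_nonneg _)
        push_cast
        linarith
    | succ j ih =>
      intro hj
      obtain ⟨s, hs⟩ := ih (by omega)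
      have hj1 : ((j + 1 : ℕ) : ℝ) + 1 ≤ K := by exact_mod_cast hj
      have hj2 : ((j + 1 : ℕ) : ℝ) ≤ K := by linarith
      refine Block.step hAll (a := a) (s := s) he0 ?_ hε20 ?_ ha0 had hal hald hach hs
      · calc (((j + 1 : ℕ) : ℝ) + 1) * e ≤ K * e := mul_le_mul_of_nonneg_right hj1 he0.le
          _ = η₁ / 100 := hKe
          _ ≤ 1 / 100 := by linarith
      · calc ((j + 1 : ℕ) : ℝ) * (2 * ε + 4 * e) ≤ K * (2 * ε + 4 * e) :=
              mul_le_mul_of_nonneg_right hj2 (by positivity)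
          _ = 2 * (K * ε) + 4 * (K * e) := by ring
          _ ≤ 1 / 2 := by rw [hKe]; linarith
  obtain ⟨b, hb⟩ := main (K - 1) (by omega)
  have hKK : K - 1 + 1 = K := by omega
  rw [hKK] at hb
  refine ⟨b, hb.f0, ⟨K * (ε * L), hθ1, hθ2, hb.d0⟩, ?_, ?_, ?_⟩
  · intro x
    calc |b.lc x| ≤ K * (4 * ε + e) := hb.lc x
      _ = 4 * (K * ε) + K * e := by ring
      _ ≤ η := by rw [hKe]; linarith
  · intro x
    calc |Real.log ‖deriv b.U.f x‖| ≤ K * (2 * ε + 4 * e) := hb.ld x
      _ = 2 * (K * ε) + 4 * (K * e) := by ring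
      _ ≤ η := by rw [hKe]; linarith
  · intro x y
    refine le_trans ?_ (hb.chord x y)
    apply mul_le_mul_of_nonneg_right _ (abs_nonneg _)
    rw [hKe]
    linarith

end

end MP87
end

section
/-!
TOP: topology of the two domains.
-/
namespace MP87

open Filter Topology Set MeasureTheory Metric
open scoped InnerProductSpace ComplexConjugate Laplacian NNReal

noncomputable section

namespace Top

variable {m : ℕ}

lemma glue_zero (p : ℂ) (t : En m) : glue p t 0 = p.re := rfl

lemma glue_one (p : ℂ) (t : En m) : glue p t 1 = p.im := rfl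

lemma glue_succ (p : ℂ) (t : En m) (i : Fin m) : glue p t i.succ.succ = t i := rfl

lemma prj_glue (p : ℂ) (t : En m) : prj (glue p t) = p := by
  apply Complex.ext <;> simp [prj, glue_zero, glue_one]

lemma tl_glue (p : ℂ) (t : En m) : tl (glue p t) = t := by
  ext i
  simp [tl, glue_succ]

lemma glue_prj_tl (X : En (m + 2)) : glue (prj X) (tl X) = X := by
  ext i
  refine Fin.cases ?_ (fun j => ?_) i
  · rfl
  · refine Fin.cases ?_ (fun k => ?_) j
    · rfl
    · rfl

lemma prj_im (X : En (m + 2)) : (prj X).im = X 1 := rfl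

lemma sq_norm_split (X : En (m + 2)) : ‖X‖ ^ 2 = ‖prj X‖ ^ 2 + ‖tl X‖ ^ 2 := by
  rw [EuclideanSpace.norm_sq_eq, EuclideanSpace.norm_sq_eq, Fin.sum_univ_succ, Fin.sum_univ_succ,
    Complex.sq_norm, Complex.normSq_apply]
  simp only [Real.norm_eq_abs, sq_abs]
  have h1 : ∀ i : Fin m, (tl X) i = X i.succ.succ := fun i => rfl
  have h2 : (prj X).re = X 0 := rfl
  have h3 : (prj X).im = X (Fin.succ 0) := rfl
  simp only [h1, h2, h3]
  ring

lemma prj_sub (X Y : En (m + 2)) : prj (X - Y) = prj X - prj Y := by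
  apply Complex.ext <;> simp [prj]

lemma tl_sub (X Y : En (m + 2)) : tl (X - Y) = tl X - tl Y := by
  ext i; simp [tl]

lemma sq_dist_split (X Y : En (m + 2)) :
    dist X Y ^ 2 = dist (prj X) (prj Y) ^ 2 + dist (tl X) (tl Y) ^ 2 := by
  rw [dist_eq_norm, sq_norm_split, prj_sub, tl_sub, dist_eq_norm, dist_eq_norm]

/-- the homeomorphism of `ℝ^{m+2}` attached to a self map of the plane -/
def Psi (m : ℕ) (F : ℂ → ℂ) (X : En (m + 2)) : En (m + 2) := glue (F (prj X)) (tl X)

lemma prj_Psi (F : ℂ → ℂ) (X : En (m + 2)) : prj (Psi m F X) = F (prj X) := prj_glue _ _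

lemma tl_Psi (F : ℂ → ℂ) (X : En (m + 2)) : tl (Psi m F X) = tl X := tl_glue _ _

lemma Psi_lip {F : ℂ → ℂ} {K : ℝ≥0} (hF : LipschitzWith K F) :
    LipschitzWith (max K 1) (Psi m F) := by
  apply LipschitzWith.of_dist_le_mul
  intro X Y
  have h1 := sq_dist_split (Psi m F X) (Psi m F Y)
  rw [prj_Psi, prj_Psi, tl_Psi, tl_Psi] at h1
  have h2 := hF.dist_le_mul (prj X) (prj Y)
  have h3 := sq_dist_split X Y
  have hK : (K : ℝ) ≤ ((max K 1 : ℝ≥0) : ℝ) := by exact_mod_cast le_max_left K 1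
  have hK1 : (1 : ℝ) ≤ ((max K 1 : ℝ≥0) : ℝ) := by exact_mod_cast le_max_right K 1
  set C : ℝ := ((max K 1 : ℝ≥0) : ℝ)
  have hC0 : 0 ≤ C := le_trans zero_le_one hK1
  apply (sq_le_sq₀ dist_nonneg (by positivity)).1
  rw [h1, mul_pow, h3]
  have ha : dist (F (prj X)) (F (prj Y)) ^ 2 ≤ C ^ 2 * dist (prj X) (prj Y) ^ 2 := by
    rw [← mul_pow]
    apply pow_le_pow_left₀ dist_nonneg
    exact h2.trans (mul_le_mul_of_nonneg_right hK dist_nonneg)
  have hb : dist (tl X) (tl Y) ^ 2 ≤ C ^ 2 * dist (tl X) (tl Y) ^ 2 := by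
    have : (1 : ℝ) ≤ C ^ 2 := one_le_pow₀ hK1
    nlinarith [sq_nonneg (dist (tl X) (tl Y))]
  linarith [mul_add (C ^ 2) (dist (prj X) (prj Y) ^ 2) (dist (tl X) (tl Y) ^ 2)]

lemma Psi_anti {F : ℂ → ℂ} {K : ℝ≥0} (hF : AntilipschitzWith K F) :
    AntilipschitzWith (max K 1) (Psi m F) := by
  apply AntilipschitzWith.of_le_mul_dist
  intro X Y
  have h1 := sq_dist_split (Psi m F X) (Psi m F Y)
  rw [prj_Psi, prj_Psi, tl_Psi, tl_Psi] at h1
  have h2 := hF.le_mul_dist (prj X) (prj Y)
  have h3 := sq_dist_split X Y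
  have hK : (K : ℝ) ≤ ((max K 1 : ℝ≥0) : ℝ) := by exact_mod_cast le_max_left K 1
  have hK1 : (1 : ℝ) ≤ ((max K 1 : ℝ≥0) : ℝ) := by exact_mod_cast le_max_right K 1
  set C : ℝ := ((max K 1 : ℝ≥0) : ℝ)
  have hC0 : 0 ≤ C := le_trans zero_le_one hK1
  apply (sq_le_sq₀ dist_nonneg (by positivity)).1
  rw [h3, mul_pow, h1]
  have ha : dist (prj X) (prj Y) ^ 2 ≤ C ^ 2 * dist (F (prj X)) (F (prj Y)) ^ 2 := by
    rw [← mul_pow]
    apply pow_le_pow_left₀ dist_nonneg
    exact h2.trans (mul_le_mul_of_nonneg_right hK dist_nonneg)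
  have hb : dist (tl X) (tl Y) ^ 2 ≤ C ^ 2 * dist (tl X) (tl Y) ^ 2 := by
    have : (1 : ℝ) ≤ C ^ 2 := one_le_pow₀ hK1
    nlinarith [sq_nonneg (dist (tl X) (tl Y))]
  linarith [mul_add (C ^ 2) (dist (F (prj X)) (F (prj Y)) ^ 2) (dist (tl X) (tl Y) ^ 2)]

lemma Psi_surj {F : ℂ → ℂ} (hF : Function.Surjective F) : Function.Surjective (Psi m F) := by
  intro X
  obtain ⟨p, hp⟩ := hF (prj X)
  refine ⟨glue p (tl X), ?_⟩
  rw [Psi, prj_glue, tl_glue, hp, glue_prj_tl]

/-- a bi-Lipschitz surjection is a homeomorphism -/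
def homeo {Ψ : En (m + 2) → En (m + 2)} {K : ℝ≥0} (h1 : LipschitzWith K Ψ)
    (h2 : AntilipschitzWith K Ψ) (h3 : Function.Surjective Ψ) : En (m + 2) ≃ₜ En (m + 2) :=
  Equiv.toHomeomorph (Equiv.ofBijective Ψ ⟨h2.injective, h3⟩) (by
    intro s
    have hΨ : ∀ u : Set (En (m + 2)), (Equiv.ofBijective Ψ ⟨h2.injective, h3⟩) ⁻¹' u = Ψ ⁻¹' u :=
      fun u => rfl
    rw [hΨ]
    constructor
    · intro hs
      have hind : IsInducing Ψ := h2.isInducing h1.continuous
      obtain ⟨t, ht, hts⟩ := hind.isOpen_iff.1 hs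
      rwa [h3.preimage_injective hts] at ht
    · intro hs
      exact hs.preimage h1.continuous)

lemma homeo_coe {Ψ : En (m + 2) → En (m + 2)} {K : ℝ≥0} (h1 : LipschitzWith K Ψ)
    (h2 : AntilipschitzWith K Ψ) (h3 : Function.Surjective Ψ) : ⇑(homeo h1 h2 h3) = Ψ := rfl

lemma closure_pos : closure {X : En (m + 2) | 0 < X 1} = {X | 0 ≤ X 1} :=
  closure_open_halfSpace 2 0 1

lemma closure_neg : closure {X : En (m + 2) | X 1 < 0} = {X | X 1 ≤ 0} := by
  let f : PiLp 2 (fun _ : Fin (m + 2) ↦ ℝ) → ℝ := fun x ↦ x 1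
  change closure (f ⁻¹' Iio 0) = f ⁻¹' Iic 0
  rw [← (PiLp.isOpenMap_apply 2 _ 1).preimage_closure_eq_closure_preimage, closure_Iio]
  fun_prop

lemma continuous_one : Continuous (fun X : En (m + 2) => X 1) := by fun_prop

lemma isOpen_pos : IsOpen {X : En (m + 2) | 0 < X 1} := isOpen_lt continuous_const continuous_one

lemma isOpen_neg : IsOpen {X : En (m + 2) | X 1 < 0} := isOpen_lt continuous_one continuous_const

lemma frontier_pos : frontier {X : En (m + 2) | 0 < X 1} = {X | X 1 = 0} := by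
  rw [frontier, closure_pos, isOpen_pos.interior_eq]
  ext X
  simp only [mem_diff, mem_setOf_eq, not_lt]
  constructor
  · rintro ⟨h1, h2⟩; linarith
  · intro h; constructor <;> linarith

lemma frontier_neg : frontier {X : En (m + 2) | X 1 < 0} = {X | X 1 = 0} := by
  rw [frontier, closure_neg, isOpen_neg.interior_eq]
  ext X
  simp only [mem_diff, mem_setOf_eq, not_lt]
  constructor
  · rintro ⟨h1, h2⟩; linarith
  · intro h; constructor <;> linarith

/-- image of a set given by the coordinate `1` -/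
lemma image_eq (W : Weld) (P : ℝ → Prop) :
    Psi m W.Φ '' {X | P (X 1)} = {X | P (W.inv (prj X)).im} := by
  ext Y
  constructor
  · rintro ⟨X, hX, rfl⟩
    change P (W.inv (prj (Psi m W.Φ X))).im
    rw [prj_Psi, Weld.inv, Function.leftInverse_invFun W.anti.injective, prj_im]
    exact hX
  · intro hY
    refine ⟨glue (W.inv (prj Y)) (tl Y), ?_, ?_⟩
    · change P (glue (W.inv (prj Y)) (tl Y) 1)
      rw [glue_one]; exact hY
    · rw [Psi, prj_glue, tl_glue, Weld.inv, Function.rightInverse_invFun W.surj, glue_prj_tl]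

end Top

/-- TOP -/
theorem specTop : SpecTop := by
  intro W m
  have hl := Top.Psi_lip (m := m) W.lip
  have ha := Top.Psi_anti (m := m) W.anti
  have hs := Top.Psi_surj (m := m) W.surj
  let H := Top.homeo hl ha hs
  have hH : ⇑H = Top.Psi m W.Φ := rfl
  have hop : W.Op m = Top.Psi m W.Φ '' {X | 0 < X 1} := (Top.image_eq W (fun y => 0 < y)).symm
  have hom : W.Om m = Top.Psi m W.Φ '' {X | X 1 < 0} := (Top.image_eq W (fun y => y < 0)).symm
  refine ⟨?_, ?_, ?_, Top.Psi m W.Φ, max W.K 1, hl, ha, hs, hop, hom⟩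
  · rw [hop, ← hH, ← H.image_closure, Top.closure_pos, hH, Top.image_eq W (fun y => 0 ≤ y)]
    ext X
    simp [Weld.Om]
  · rw [hop, ← hH, ← H.image_frontier, Top.frontier_pos, hH, Top.image_eq W (fun y => y = 0)]
  · rw [hom, ← hH, ← H.image_frontier, Top.frontier_neg, hH, Top.image_eq W (fun y => y = 0)]

end

end MP87
end

section
/-!
BLOW: two different blow-ups.
-/
namespace MP87

open Filter Topology Set MeasureTheory Metric
open scoped InnerProductSpace ComplexConjugate Laplacian NNReal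

noncomputable section

namespace Blow

variable {m : ℕ}

/-- the product of a line in the plane with `ℝ^m` -/
def Tl (m : ℕ) (l : ℂ) : Set (En (m + 2)) := {X | (prj X * conj l).im = 0}

lemma prj_continuous : Continuous (prj : En (m + 2) → ℂ) := by
  have h : (prj : En (m + 2) → ℂ) = fun X => ((X 0 : ℝ) : ℂ) + (X 1 : ℝ) * Complex.I := by
    funext X
    apply Complex.ext <;> simp [prj]
  rw [h]
  fun_prop

lemma isClosed_Tl (l : ℂ) : IsClosed (Tl m l) :=
  isClosed_eq (Complex.continuous_im.comp (prj_continuous.mul continuous_const)) continuous_const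

lemma mem_Tl (l : ℂ) (s : ℝ) (v : En m) : glue ((s : ℂ) * l) v ∈ Tl m l := by
  show (prj (glue ((s : ℂ) * l) v) * conj l).im = 0
  rw [Top.prj_glue, mul_assoc, Complex.mul_conj, ← Complex.ofReal_mul, Complex.ofReal_im]

lemma of_mem {l : ℂ} (hl : l ≠ 0) {X : En (m + 2)} (hX : X ∈ Tl m l) :
    ∃ s : ℝ, prj X = s * l := by
  have h1 : (prj X * conj l).im = 0 := hX
  refine ⟨(prj X * conj l).re / Complex.normSq l, ?_⟩
  have h2 : prj X * conj l = (((prj X * conj l).re : ℝ) : ℂ) :=
    Complex.ext (by simp) (by simpa using h1)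
  have h3 : (Complex.normSq l : ℂ) ≠ 0 := by
    exact_mod_cast (Complex.normSq_pos.2 hl).ne'
  have h4 : prj X * (Complex.normSq l : ℂ) = (((prj X * conj l).re : ℝ) : ℂ) * l := by
    rw [← h2, ← Complex.mul_conj]
    ring
  rw [Complex.ofReal_div, div_mul_eq_mul_div, ← h4]
  field_simp

lemma prj_smul (c : ℝ) (X : En (m + 2)) : prj (c • X) = (c : ℂ) * prj X := by
  apply Complex.ext <;> simp [prj]

lemma tl_smul (c : ℝ) (X : En (m + 2)) : tl (c • X) = c • tl X := by
  ext i; simp [tl]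

lemma norm_prj_le (X : En (m + 2)) : ‖prj X‖ ≤ ‖X‖ := by
  have h := Top.sq_norm_split X
  apply (sq_le_sq₀ (norm_nonneg _) (norm_nonneg _)).1
  rw [h]
  nlinarith [sq_nonneg ‖tl X‖]

lemma norm_eq {X : En (m + 2)} (h0 : tl X = 0) : ‖X‖ = ‖prj X‖ := by
  have h := Top.sq_norm_split X
  rw [h0, norm_zero] at h
  have h2 : ‖X‖ ^ 2 = ‖prj X‖ ^ 2 := by rw [h]; ring
  exact (sq_eq_sq₀ (norm_nonneg _) (norm_nonneg _)).1 h2

theorem isBlowup (hTop : SpecTop) (W : Weld) (x : ℝ) (t : En m) (r : ℕ → ℝ) (lam : ℕ → ℂ)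
    (e : ℕ → ℝ) (hr : ∀ k, 0 < r k) (hr0 : Tendsto r atTop (𝓝 0)) (he : Tendsto e atTop (𝓝 0))
    (hΦ : ∀ k : ℕ, ∀ s : ℝ, |s| ≤ k →
      ‖W.Φ (x + r k * s) - W.Φ x - r k * s * lam k‖ ≤ e k * r k)
    (k : ℕ → ℕ) (hk : Tendsto k atTop atTop) (l : ℂ) (hl : l ≠ 0)
    (hlim : Tendsto (fun j => lam (k j)) atTop (𝓝 l)) :
    IsBlowup (frontier (W.Op m)) (glue (W.Φ x) t) (Tl m l) := by
  obtain ⟨_, hfr, _, _⟩ := hTop W m
  refine ⟨isClosed_Tl l, fun j => r (k j), fun j => hr _, hr0.comp hk, ?_⟩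
  intro R hR ε hε
  have hlpos : 0 < ‖l‖ := norm_pos_iff.2 hl
  set A : ℝ := R / ‖l‖ + W.K * R with hA
  have hA0 : 0 ≤ A := by positivity
  have ev1 : ∀ᶠ j in atTop, A ≤ (k j : ℝ) := by
    have h1 : Tendsto (fun j => (k j : ℝ)) atTop atTop := tendsto_natCast_atTop_atTop.comp hk
    exact h1.eventually_ge_atTop A
  have ev2 : ∀ᶠ j in atTop, e (k j) < ε / 2 :=
    (he.comp hk).eventually (gt_mem_nhds (by positivity))
  have ev3 : ∀ᶠ j in atTop, ‖lam (k j) - l‖ * (A + 1) < ε / 2 := by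
    have h1 : Tendsto (fun j => ‖lam (k j) - l‖ * (A + 1)) atTop (𝓝 (0 * (A + 1))) := by
      apply Tendsto.mul_const
      rw [← tendsto_iff_norm_sub_tendsto_zero]
      exact hlim
    rw [zero_mul] at h1
    exact h1.eventually (gt_mem_nhds (by positivity))
  filter_upwards [ev1, ev2, ev3] with j h1 h2 h3
  -- the main estimate
  have hinv : 0 < (r (k j))⁻¹ := inv_pos.2 (hr _)
  have hrc : (r (k j) : ℂ) ≠ 0 := by exact_mod_cast (hr (k j)).ne'
  have main : ∀ s : ℝ, |s| ≤ A →
      ‖(s : ℂ) * l - (((r (k j))⁻¹ : ℝ) : ℂ) * (W.Φ (x + r (k j) * s) - W.Φ x)‖ ≤ ε := by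
    intro s hs
    have h4 := hΦ (k j) s (hs.trans h1)
    have h5 : (s : ℂ) * l - (((r (k j))⁻¹ : ℝ) : ℂ) * (W.Φ (x + r (k j) * s) - W.Φ x) =
        -((s : ℂ) * (lam (k j) - l)) - (((r (k j))⁻¹ : ℝ) : ℂ) *
          (W.Φ (x + r (k j) * s) - W.Φ x - r (k j) * s * lam (k j)) := by
      push_cast
      field_simp
      ring
    rw [h5]
    refine (norm_sub_le _ _).trans ?_
    rw [norm_neg, norm_mul, norm_mul, Complex.norm_real, Complex.norm_real, Real.norm_eq_abs,
      Real.norm_eq_abs, abs_of_pos hinv]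
    have h6 : |s| * ‖lam (k j) - l‖ ≤ ε / 2 := by
      have h7 : |s| * ‖lam (k j) - l‖ ≤ (A + 1) * ‖lam (k j) - l‖ := by
        gcongr
        linarith
      linarith
    have h8 : (r (k j))⁻¹ * ‖W.Φ (x + r (k j) * s) - W.Φ x - r (k j) * s * lam (k j)‖ ≤ ε / 2 := by
      have h9 : (r (k j))⁻¹ * ‖W.Φ (x + r (k j) * s) - W.Φ x - r (k j) * s * lam (k j)‖ ≤
          (r (k j))⁻¹ * (e (k j) * r (k j)) := by gcongr
      have h10 : (r (k j))⁻¹ * (e (k j) * r (k j)) = e (k j) := by
        have := (hr (k j)).ne'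
        field_simp
      linarith
    linarith
  constructor
  · intro X hX hXR
    obtain ⟨s, hs⟩ := of_mem hl hX
    refine ⟨glue (W.Φ (x + r (k j) * s)) (t + r (k j) • tl X), ?_, ?_⟩
    · rw [hfr]
      show (W.inv (prj (glue _ _))).im = 0
      rw [Top.prj_glue]
      have h4 : W.inv (W.Φ (x + r (k j) * s)) = ((x + r (k j) * s : ℝ) : ℂ) := by
        unfold Weld.inv
        rw [Function.leftInverse_invFun W.anti.injective]
        push_cast
        ring
      rw [h4, Complex.ofReal_im]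
    · have hsA : |s| ≤ A := by
        have h4 := (norm_prj_le X).trans hXR
        rw [hs, norm_mul, Complex.norm_real, Real.norm_eq_abs] at h4
        have h5 : |s| ≤ R / ‖l‖ := by
          rw [le_div_iff₀ hlpos]; exact h4
        have h6 : 0 ≤ (W.K : ℝ) * R := by positivity
        linarith
      have h4 := main s hsA
      rw [norm_eq]
      · rw [Top.prj_sub, prj_smul, Top.prj_sub, Top.prj_glue, Top.prj_glue, hs]
        exact h4
      · rw [Top.tl_sub, tl_smul, Top.tl_sub, Top.tl_glue, Top.tl_glue, add_sub_cancel_left,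
          inv_smul_smul₀ (hr _).ne', sub_self]
  · intro Y hY hYR
    rw [hfr] at hY
    have hY' : (W.inv (prj Y)).im = 0 := hY
    set z : ℝ := (W.inv (prj Y)).re with hz
    have hinvY : W.inv (prj Y) = (z : ℂ) := Complex.ext (by simp [hz]) (by simpa using hY')
    have hΦz : W.Φ z = prj Y := by
      rw [← hinvY]
      exact Function.invFun_eq (W.surj (prj Y))
    set s : ℝ := (z - x) / r (k j) with hs
    have hzs : (z : ℂ) = x + r (k j) * s := by
      rw [hs]
      push_cast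
      field_simp
      ring
    have hsA : |s| ≤ A := by
      have h4 := (norm_prj_le _).trans hYR
      rw [prj_smul, Top.prj_sub, Top.prj_glue, norm_mul, Complex.norm_real, Real.norm_eq_abs,
        abs_of_pos hinv, ← hΦz] at h4
      have h5 := W.anti.le_mul_dist (z : ℂ) (x : ℂ)
      rw [dist_eq_norm, dist_eq_norm, ← Complex.ofReal_sub, Complex.norm_real,
        Real.norm_eq_abs] at h5
      rw [inv_mul_le_iff₀ (hr _)] at h4
      have h6 : |s| ≤ W.K * R := by
        rw [hs, abs_div, abs_of_pos (hr (k j)), div_le_iff₀ (hr _)]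
        calc |z - x| ≤ W.K * ‖W.Φ z - W.Φ x‖ := h5
          _ ≤ W.K * (r (k j) * R) := by gcongr
          _ = W.K * R * r (k j) := by ring
      have h7 : 0 ≤ R / ‖l‖ := by positivity
      linarith
    refine ⟨glue ((s : ℂ) * l) ((r (k j))⁻¹ • (tl Y - t)), mem_Tl l s _, ?_⟩
    have h4 := main s hsA
    rw [norm_eq]
    · rw [Top.prj_sub, prj_smul, Top.prj_sub, Top.prj_glue, Top.prj_glue, ← hΦz, hzs]
      exact h4
    · rw [Top.tl_sub, tl_smul, Top.tl_sub, Top.tl_glue, Top.tl_glue, sub_self]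

end Blow

open Blow in
theorem specBlow (hTop : SpecTop) : SpecBlow := by
  intro W m x t hdir
  obtain ⟨r, lam, θ, e, hr, hr0, he, hlam1, hlam2, hθ, hΦ, hnext⟩ := hdir
  refine ⟨?_, ?_⟩
  · obtain ⟨_, hfr, _, _⟩ := hTop W m
    rw [hfr]
    show (W.inv (prj (glue _ _))).im = 0
    rw [Top.prj_glue]
    unfold Weld.inv
    rw [Function.leftInverse_invFun W.anti.injective, Complex.ofReal_im]
  · rintro ⟨T, hT, huniq⟩
    have hK : IsCompact (closedBall (0 : ℂ) 4 ×ˢ Icc (1 : ℝ) 2) :=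
      (isCompact_closedBall _ _).prod isCompact_Icc
    obtain ⟨⟨l, ϑ⟩, hmem, φ, hφ, hlim⟩ := hK.tendsto_subseq (x := fun k => (lam k, θ k))
      (fun k => ⟨by rw [mem_closedBall, dist_zero_right]; exact hlam2 k, (hθ k).1, (hθ k).2⟩)
    have hlim1 : Tendsto (fun j => lam (φ j)) atTop (𝓝 l) :=
      (continuous_fst.tendsto _).comp hlim
    have hlim2 : Tendsto (fun j => θ (φ j)) atTop (𝓝 ϑ) :=
      (continuous_snd.tendsto _).comp hlim
    have hl1 : 1 / 4 ≤ ‖l‖ := ge_of_tendsto' hlim1.norm (fun j => hlam1 _)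
    have hl : l ≠ 0 := by
      intro h
      rw [h, norm_zero] at hl1
      norm_num at hl1
    have hlim3 : Tendsto (fun j => lam (φ j + 1)) atTop (𝓝 (l * Complex.exp (ϑ * Complex.I))) := by
      have h1 : Tendsto (fun j => lam (φ j) * Complex.exp (θ (φ j) * Complex.I)) atTop
          (𝓝 (l * Complex.exp (ϑ * Complex.I))) := by
        apply hlim1.mul
        have hc : Continuous fun y : ℝ => Complex.exp (y * Complex.I) := by fun_prop
        exact (hc.tendsto ϑ).comp hlim2
      have h2 := (hnext.comp hφ.tendsto_atTop).add h1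
      rw [zero_add] at h2
      refine h2.congr (fun j => ?_)
      simp
    have hl' : l * Complex.exp (ϑ * Complex.I) ≠ 0 := mul_ne_zero hl (Complex.exp_ne_zero _)
    have b1 := isBlowup (m := m) hTop W x t r lam e hr hr0 he hΦ φ hφ.tendsto_atTop l hl hlim1
    have b2 := isBlowup (m := m) hTop W x t r lam e hr hr0 he hΦ (fun j => φ j + 1)
      ((tendsto_add_atTop_nat 1).comp hφ.tendsto_atTop) _ hl' hlim3
    have h1 := (huniq _ b1).trans (huniq _ b2).symm
    have h2 : glue ((1 : ℝ) * l) (0 : En m) ∈ Tl m l := mem_Tl l 1 0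
    rw [h1] at h2
    have h3 : (prj (glue ((1 : ℝ) * l) (0 : En m)) *
      conj (l * Complex.exp (ϑ * Complex.I))).im = 0 := h2
    rw [Top.prj_glue, Complex.ofReal_one, one_mul] at h3
    have h4 : l * conj (l * Complex.exp (ϑ * Complex.I)) =
        (Complex.normSq l : ℂ) * Complex.exp (((-ϑ : ℝ) : ℂ) * Complex.I) := by
      rw [map_mul, ← mul_assoc, Complex.mul_conj, ← Complex.exp_conj, map_mul, Complex.conj_ofReal,
        Complex.conj_I]
      push_cast
      ring_nf
    rw [h4, Complex.im_ofReal_mul, Complex.exp_ofReal_mul_I_im, Real.sin_neg] at h3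
    have h5 : 0 < Complex.normSq l := Complex.normSq_pos.2 hl
    have h6 : 1 ≤ ϑ := ge_of_tendsto' hlim2 (fun j => (hθ _).1)
    have h7 : ϑ ≤ 2 := le_of_tendsto' hlim2 (fun j => (hθ _).2)
    have h8 : 0 < Real.sin ϑ :=
      Real.sin_pos_of_pos_of_lt_pi (by linarith) (by linarith [Real.pi_gt_three])
    nlinarith [mul_pos h5 h8]

end

end MP87
end

section
/-! MP_87ece0_an, COMP: composition of upper maps. -/
namespace MP87

open Filter Topology Set MeasureTheory Metric

namespace CompM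

theorem per_nat (v : Upper) (N : ℕ) : ∀ z : ℂ, -v.ρ < z.im → v.f (z + N) = v.f z + N := by
  induction N with
  | zero => intro z _; simp
  | succ N ih =>
    intro z hz
    have h1 : z + ((N + 1 : ℕ) : ℂ) = (z + N) + 1 := by push_cast; ring
    rw [h1, v.per (z + N) (by simpa using hz), ih z hz]
    push_cast
    ring

theorem τper_nat (v : Upper) (N : ℕ) : ∀ z : ℂ, v.τ (z + N) = v.τ z + N := by
  induction N with
  | zero => intro z; simp
  | succ N ih =>
    intro z
    have h1 : z + ((N + 1 : ℕ) : ℂ) = (z + N) + 1 := by push_cast; ring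
    rw [h1, v.τper, ih z]
    push_cast
    ring

theorem norm_inner (v : Upper) {N : ℕ} (hN : 0 < N) (z p : ℂ) (h : ‖p - N * z‖ ≤ v.B) :
    ‖p / N - z‖ ≤ v.B / N := by
  have hN' : (N : ℂ) ≠ 0 := by exact_mod_cast hN.ne'
  have hN'' : (0 : ℝ) < N := by exact_mod_cast hN
  have h1 : p / N - z = (p - N * z) / N := by field_simp
  rw [h1, norm_div, Complex.norm_natCast]
  exact div_le_div_of_nonneg_right h hN''.le

theorem im_inner (u v : Upper) {N : ℕ} (hle : v.B / N ≤ u.ρ / 4) {z p : ℂ}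
    (h : ‖p - z‖ ≤ v.B / N) : z.im - u.ρ / 4 ≤ p.im := by
  have h1 : |(p - z).im| ≤ v.B / N := (Complex.abs_im_le_norm _).trans h
  rw [Complex.sub_im] at h1
  have := (abs_le.1 h1).1
  linarith

theorem mul_im (N : ℕ) (z : ℂ) : ((N : ℂ) * z).im = N * z.im := by simp

end CompM

open CompM in
theorem specComp : SpecComp := by
  intro u v N hN hle
  have hNC : (N : ℂ) ≠ 0 := by exact_mod_cast hN.ne'
  have hNR : (0 : ℝ) < N := by exact_mod_cast hN
  have hρ : 0 < min (v.ρ / N) (u.ρ / 4) :=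
    lt_min (div_pos v.hρ hNR) (by have := u.hρ; positivity)
  have him : ∀ z : ℂ, -min (v.ρ / N) (u.ρ / 4) < z.im → -v.ρ < ((N : ℂ) * z).im := by
    intro z hz
    rw [mul_im]
    have h1 : min (v.ρ / N) (u.ρ / 4) ≤ v.ρ / N := min_le_left _ _
    have h2 : -(v.ρ / N) < z.im := by linarith
    have h3 : -v.ρ = N * (-(v.ρ / N)) := by field_simp
    rw [h3]
    exact mul_lt_mul_of_pos_left h2 hNR
  have him4 : ∀ z : ℂ, -min (v.ρ / N) (u.ρ / 4) < z.im → -(u.ρ / 4) < z.im := by
    intro z hz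
    have h1 : min (v.ρ / N) (u.ρ / 4) ≤ u.ρ / 4 := min_le_right _ _
    linarith
  have hclose : ∀ z : ℂ, -min (v.ρ / N) (u.ρ / 4) < z.im →
      ‖v.f (N * z) / N - z‖ ≤ v.B / N := fun z hz =>
    norm_inner v hN z _ (v.bdd _ (him z hz))
  have hu : ∀ z : ℂ, -min (v.ρ / N) (u.ρ / 4) < z.im → -u.ρ < (v.f (N * z) / N).im := by
    intro z hz
    have h1 := im_inner u v hle (hclose z hz)
    have h2 := him4 z hz
    have := u.hρ
    linarith
  let w : Upper :=
    { f := fun z => u.f (v.f (N * z) / N)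
      ρ := min (v.ρ / N) (u.ρ / 4)
      κ := u.κ * v.κ
      B := u.B + v.B / N
      τ := (((Homeomorph.mulLeft₀ (N : ℂ) hNC).trans v.τ).trans
        (Homeomorph.mulLeft₀ ((N : ℂ)⁻¹) (inv_ne_zero hNC))).trans u.τ
      hρ := hρ
      hκ := mul_pos u.hκ v.hκ
      hol := by
        have h1 : DifferentiableOn ℂ (fun z : ℂ => v.f (N * z) / N)
            {z | -min (v.ρ / N) (u.ρ / 4) < z.im} :=
          (v.hol.comp (by fun_prop) (fun z hz => him z hz)).div_const _
        exact u.hol.comp h1 (fun z hz => hu z hz)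
      per := by
        intro z hz
        have h1 : (N : ℂ) * (z + 1) = N * z + N := by ring
        have h2 : v.f (N * (z + 1)) / N = v.f (N * z) / N + 1 := by
          rw [h1, per_nat v N _ (him z hz)]
          field_simp
        show u.f (v.f (N * (z + 1)) / N) = u.f (v.f (N * z) / N) + 1
        rw [h2, u.per _ (hu z hz)]
      bdd := by
        intro z hz
        have h1 := u.bdd _ (hu z hz)
        have h2 := hclose z hz
        calc ‖u.f (v.f (N * z) / N) - z‖ = ‖(u.f (v.f (N * z) / N) - v.f (N * z) / N) +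
              (v.f (N * z) / N - z)‖ := by ring_nf
          _ ≤ _ := (norm_add_le _ _).trans (add_le_add h1 h2)
      inj := by
        intro z z' hz hz'
        have h1 := u.inj _ _ (hu z hz) (hu z' hz')
        have h2 := v.inj _ _ (him z hz) (him z' hz')
        have h3 : ‖v.f (N * z) / N - v.f (N * z') / N‖ = ‖v.f (N * z) - v.f (N * z')‖ / N := by
          rw [← sub_div, norm_div, Complex.norm_natCast]
        have h4 : ‖(N : ℂ) * z - N * z'‖ = N * ‖z - z'‖ := by
          rw [← mul_sub, norm_mul, Complex.norm_natCast]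
        rw [h4] at h2
        rw [h3] at h1
        refine le_trans ?_ h1
        have h5 : v.κ * ‖z - z'‖ ≤ ‖v.f (N * z) - v.f (N * z')‖ / N := by
          rw [le_div_iff₀ hNR]
          linarith
        have := mul_le_mul_of_nonneg_left h5 u.hκ.le
        linarith
      τper := by
        intro z
        show u.τ ((N : ℂ)⁻¹ * v.τ (N * (z + 1))) = u.τ ((N : ℂ)⁻¹ * v.τ (N * z)) + 1
        have h1 : (N : ℂ) * (z + 1) = N * z + N := by ring
        have h2 : (N : ℂ)⁻¹ * v.τ (N * (z + 1)) = (N : ℂ)⁻¹ * v.τ (N * z) + 1 := by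
          rw [h1, τper_nat v N]
          field_simp
        rw [h2, u.τper]
      τbdd := by
        intro z
        show ‖u.τ ((N : ℂ)⁻¹ * v.τ (N * z)) - z‖ ≤ _
        have h1 := u.τbdd ((N : ℂ)⁻¹ * v.τ (N * z))
        have h2 := norm_inner v hN z _ (v.τbdd (N * z))
        rw [div_eq_inv_mul] at h2
        calc ‖u.τ ((N : ℂ)⁻¹ * v.τ (N * z)) - z‖ =
              ‖(u.τ ((N : ℂ)⁻¹ * v.τ (N * z)) - (N : ℂ)⁻¹ * v.τ (N * z)) +
              ((N : ℂ)⁻¹ * v.τ (N * z) - z)‖ := by ring_nf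
          _ ≤ _ := (norm_add_le _ _).trans (add_le_add h1 h2)
      τf := by
        intro z hz
        show u.τ ((N : ℂ)⁻¹ * v.τ (N * z)) = u.f (v.f (N * z) / N)
        rw [v.τf _ (him z hz), div_eq_inv_mul]
        exact u.τf _ (by rw [← div_eq_inv_mul]; exact hu z hz) }
  refine ⟨w, hN, hle, min_le_left _ _, min_le_right _ _, fun z _ => rfl, fun z => ?_⟩
  show u.τ ((N : ℂ)⁻¹ * v.τ (N * z)) = _
  rw [div_eq_inv_mul]

end MP87
end

section
/-!
More basic facts about upper maps, lower maps and stages.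
-/
namespace MP87

open Filter Topology Set MeasureTheory Metric
open scoped InnerProductSpace ComplexConjugate Laplacian NNReal

noncomputable section

namespace Upper

variable (U : Upper)

/-- quantitative openness of `f` -/
theorem exists_of_near' {t : ℝ} (ht : 0 < t) {z₀ w : ℂ} (hz₀ : -U.ρ + t < z₀.im)
    (hx : ‖w - U.f z₀‖ < U.κ * t / 2) : ∃ z : ℂ, ‖z - z₀‖ ≤ t ∧ U.f z = w := by
  have hsub : ∀ y : ℂ, ‖y - z₀‖ ≤ t → -U.ρ < y.im := by
    intro y hy
    have h2 : |(y - z₀).im| ≤ t := (Complex.abs_im_le_norm _).trans hy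
    rw [Complex.sub_im] at h2
    have := (abs_le.1 h2).1
    linarith
  have hd : DiffContOnCl ℂ U.f (ball z₀ t) := by
    constructor
    · intro y hy
      rw [mem_ball, dist_eq_norm] at hy
      exact (U.diffAt (hsub y hy.le)).differentiableWithinAt
    · rw [closure_ball _ ht.ne']
      intro y hy
      rw [mem_closedBall, dist_eq_norm] at hy
      exact (U.contAt (hsub y hy)).continuousWithinAt
  have hz1 : -U.ρ < z₀.im := by linarith
  have hsph : ∀ z ∈ sphere z₀ t, U.κ * t ≤ ‖U.f z - U.f z₀‖ := by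
    intro z hz
    rw [mem_sphere, dist_eq_norm] at hz
    have := U.inj z z₀ (hsub z hz.le) hz1
    rwa [hz] at this
  have hne : ∃ᶠ z in 𝓝 z₀, U.f z ≠ U.f z₀ := by
    have h2 : ∀ᶠ w in 𝓝[≠] z₀, -U.ρ < w.im :=
      mem_nhdsWithin_of_mem_nhds ((isOpen_half _).mem_nhds hz1)
    have h3 : ∀ᶠ w in 𝓝[≠] z₀, U.f w ≠ U.f z₀ := by
      filter_upwards [h2, self_mem_nhdsWithin] with w hw hne h
      exact hne (U.f_inj hw hz1 h)
    exact (h3.frequently).filter_mono nhdsWithin_le_nhds
  have hsub2 := hd.ball_subset_image_closedBall ht hsph hne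
  obtain ⟨z, hz, hzw⟩ := hsub2 (show w ∈ ball (U.f z₀) (U.κ * t / 2) by
    rw [mem_ball, dist_eq_norm]; exact hx)
  rw [mem_closedBall, dist_eq_norm] at hz
  exact ⟨z, hz, hzw⟩

theorem τ_symm_f {z : ℂ} (hz : -U.ρ < z.im) : U.τ.symm (U.f z) = z := by
  rw [← U.τf z hz, U.τ.symm_apply_apply]

theorem f_τ_symm {w : ℂ} (hw : -U.ρ < (U.τ.symm w).im) : U.f (U.τ.symm w) = w := by
  rw [← U.τf _ hw, U.τ.apply_symm_apply]

/-- the inverse of `τ` is holomorphic where it is the inverse of `f` -/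
theorem τ_symm_hasDerivAt {w : ℂ} (hw : -U.ρ < (U.τ.symm w).im) :
    HasDerivAt U.τ.symm (deriv U.f (U.τ.symm w))⁻¹ w := by
  refine HasDerivAt.of_local_left_inverse U.τ.symm.continuous.continuousAt
    ((U.diffAt hw).hasDerivAt) (U.deriv_ne hw) ?_
  have h1 : ∀ᶠ q in 𝓝 w, -U.ρ < (U.τ.symm q).im :=
    ((Complex.continuous_im.comp U.τ.symm.continuous).continuousAt).eventually
      (lt_mem_nhds hw)
  filter_upwards [h1] with q hq
  exact U.f_τ_symm hq

theorem im_eq_real (x : ℝ) : ((x : ℂ)).im = 0 := Complex.ofReal_im x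

end Upper

/-- bounded periodic functions on closed strips -/
theorem bdd_of_periodic {p : ℂ → ℂ} {ρ a : ℝ} (ha : a < ρ)
    (hp : ContinuousOn p {z : ℂ | |z.im| < ρ})
    (hper : ∀ (n : ℤ) (z : ℂ), |z.im| < ρ → p (z + n) = p z) :
    ∃ C : ℝ, 0 ≤ C ∧ ∀ z : ℂ, |z.im| ≤ a → ‖p z‖ ≤ C := by
  have hK : IsCompact (Icc (0 : ℝ) 1 ×ℂ Icc (-a) a) := isCompact_Icc.reProdIm isCompact_Icc
  have hsub : (Icc (0 : ℝ) 1 ×ℂ Icc (-a) a) ⊆ {z : ℂ | |z.im| < ρ} := by
    intro z hz
    rw [Complex.mem_reProdIm] at hz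
    have : |z.im| ≤ a := abs_le.2 ⟨hz.2.1, hz.2.2⟩
    exact this.trans_lt ha
  obtain ⟨C, hC⟩ := hK.exists_bound_of_continuousOn (hp.mono hsub)
  refine ⟨max C 0, le_max_right _ _, fun z hz => ?_⟩
  have h1 := hper (-⌊z.re⌋) z (hz.trans_lt ha)
  rw [← h1]
  refine (hC _ ?_).trans (le_max_left _ _)
  rw [Complex.mem_reProdIm]
  have h2 : (z + ((-⌊z.re⌋ : ℤ) : ℂ)).re = z.re - ⌊z.re⌋ := by
    push_cast; simp [sub_eq_add_neg]
  have h3 : (z + ((-⌊z.re⌋ : ℤ) : ℂ)).im = z.im := by
    push_cast; simp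
  rw [h2, h3]
  refine ⟨⟨by linarith [Int.floor_le z.re], by linarith [Int.lt_floor_add_one z.re]⟩, ?_⟩
  exact ⟨(abs_le.1 hz).1, (abs_le.1 hz).2⟩

namespace Lower

variable {U : Upper} (L : Lower U)

theorem c_bdd {a : ℝ} (ha : a < U.ρ) : ∃ C : ℝ, 0 ≤ C ∧ ∀ z : ℂ, |z.im| ≤ a → ‖L.c z - z‖ ≤ C := by
  refine bdd_of_periodic (p := fun z => L.c z - z) ha ?_ ?_
  · exact L.chol.continuousOn.sub continuousOn_id
  · intro n z hz
    show L.c (z + n) - (z + n) = L.c z - z
    rw [L.c_add_int n hz]; ring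

/-- Cauchy estimate -/
theorem c_deriv_bdd {a : ℝ} (ha : a < U.ρ) :
    ∃ C : ℝ, 0 ≤ C ∧ ∀ z : ℂ, |z.im| ≤ a → ‖deriv L.c z‖ ≤ C := by
  set a' := (a + U.ρ) / 2 with ha'
  have h1 : a' < U.ρ := by rw [ha']; linarith
  have h0 : 0 < a' - a := by rw [ha']; linarith
  obtain ⟨C, hC0, hC⟩ := L.c_bdd h1
  refine ⟨1 + C / (a' - a), by positivity, fun z hz => ?_⟩
  have hstrip : ∀ y : ℂ, ‖y - z‖ ≤ a' - a → |y.im| ≤ a' := by
    intro y hy
    have h2 : |(y - z).im| ≤ a' - a := (Complex.abs_im_le_norm _).trans hy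
    rw [Complex.sub_im] at h2
    have h3 := abs_sub_abs_le_abs_sub y.im z.im
    linarith
  have hdz : DifferentiableAt ℂ L.c z := L.c_diffAt (by linarith [hz])
  have h4 : deriv (fun w => L.c w - w) z = deriv L.c z - 1 := by
    rw [deriv_fun_sub hdz differentiableAt_fun_id]
    simp
  have h5 : ‖deriv L.c z - 1‖ ≤ C / (a' - a) := by
    rw [← h4]
    apply Complex.norm_deriv_le_of_forall_mem_sphere_norm_le h0
    · constructor
      · intro w hw
        rw [mem_ball, dist_eq_norm] at hw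
        exact ((L.c_diffAt ((hstrip w hw.le).trans_lt h1)).sub
          differentiableAt_fun_id).differentiableWithinAt
      · rw [closure_ball _ h0.ne']
        intro w hw
        rw [mem_closedBall, dist_eq_norm] at hw
        exact ((L.c_diffAt ((hstrip w hw).trans_lt h1)).continuousAt.sub
          continuousAt_id).continuousWithinAt
    · intro w hw
      rw [mem_sphere, dist_eq_norm] at hw
      exact hC w (hstrip w hw.le)
  have h6 := norm_add_le (1 : ℂ) (deriv L.c z - 1)
  rw [add_sub_cancel, norm_one] at h6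
  linarith

theorem convex_strip (a : ℝ) : Convex ℝ {z : ℂ | |z.im| ≤ a} := by
  have : {z : ℂ | |z.im| ≤ a} = {z : ℂ | -a ≤ z.im} ∩ {z : ℂ | z.im ≤ a} := by
    ext z
    show |z.im| ≤ a ↔ -a ≤ z.im ∧ z.im ≤ a
    exact abs_le
  rw [this]
  exact (convex_halfSpace_im_ge (-a)).inter (convex_halfSpace_im_le a)

theorem c_lip {a : ℝ} (ha : a < U.ρ) : ∃ C : ℝ, 0 ≤ C ∧ ∀ z w : ℂ, |z.im| ≤ a → |w.im| ≤ a →
    ‖L.c z - L.c w‖ ≤ C * ‖z - w‖ := by
  obtain ⟨C, hC0, hC⟩ := L.c_deriv_bdd ha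
  refine ⟨C, hC0, fun z w hz hw => ?_⟩
  refine (convex_strip a).norm_image_sub_le_of_norm_deriv_le (f := L.c) ?_ ?_ hw hz
  · intro x hx
    exact L.c_diffAt (lt_of_le_of_lt hx ha)
  · intro x hx
    exact hC x hx

/-- the imaginary part of `c` near the real axis -/
theorem c_im_le {a : ℝ} (ha : a < U.ρ) : ∃ C : ℝ, 0 ≤ C ∧ ∀ z : ℂ, |z.im| ≤ a →
    |(L.c z).im| ≤ C * |z.im| := by
  obtain ⟨C, hC0, hC⟩ := L.c_lip ha
  refine ⟨C, hC0, fun z hz => ?_⟩
  have h0 : 0 ≤ a := (abs_nonneg _).trans hz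
  have h1 := hC z z.re hz (by simpa using h0)
  have h2 : z - z.re = z.im * Complex.I := by
    apply Complex.ext <;> simp
  rw [h2, norm_mul, Complex.norm_I, mul_one, Complex.norm_real, Real.norm_eq_abs] at h1
  have h3 := (Complex.abs_im_le_norm _).trans h1
  rwa [Complex.sub_im, L.c_real, sub_zero] at h3

end Lower

end

end MP87
end

section
/-!
Module D1: comparison of the lower map of the composition with the lower map of the first map.
-/
namespace MP87

open Filter Topology Set MeasureTheory Metric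
open scoped InnerProductSpace ComplexConjugate Laplacian NNReal

noncomputable section

namespace D1

/-- the extension of `ψ` across the curve -/
def ext (s : Stage) (q : ℂ) : ℂ :=
  if (s.U.τ.symm q).im < 0 then s.L.ψ q else s.L.c (s.U.τ.symm q)

theorem ext_eq_c (s : Stage) {q : ℂ} (h : |(s.U.τ.symm q).im| < s.U.ρ) :
    ext s q = s.L.c (s.U.τ.symm q) := by
  unfold ext
  split_ifs with h0
  · have h1 := (abs_lt.1 h).1
    rw [s.L.cψ _ h1 h0, s.U.f_τ_symm h1]
  · rfl

theorem ext_eq_ψ (s : Stage) {q : ℂ} (h : q ∈ s.U.Om) : ext s q = s.L.ψ q := by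
  unfold ext
  rw [if_pos (s.U.mem_Om_iff.1 h)]

theorem ext_f (s : Stage) {z : ℂ} (h : |z.im| < s.U.ρ) : ext s (s.U.f z) = s.L.c z := by
  have h1 := s.U.τ_symm_f (abs_lt.1 h).1
  rw [ext_eq_c s (by rw [h1]; exact h), h1]

theorem ext_diffAt (s : Stage) {q : ℂ} (h : (s.U.τ.symm q).im < s.U.ρ) :
    DifferentiableAt ℂ (ext s) q := by
  by_cases h0 : (s.U.τ.symm q).im < 0
  · have hq : q ∈ s.U.Om := s.U.mem_Om_iff.2 h0
    have h1 : DifferentiableAt ℂ s.L.ψ q :=
      (s.L.ψhol q hq).differentiableAt (s.U.isOpen_Om.mem_nhds hq)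
    refine h1.congr_of_eventuallyEq ?_
    filter_upwards [s.U.isOpen_Om.mem_nhds hq] with p hp
    exact ext_eq_ψ s hp
  · push Not at h0
    have hab : |(s.U.τ.symm q).im| < s.U.ρ := by rwa [abs_of_nonneg h0]
    have h1 : DifferentiableAt ℂ s.L.c (s.U.τ.symm q) := s.L.c_diffAt hab
    have h2 := (s.U.τ_symm_hasDerivAt (abs_lt.1 hab).1).differentiableAt
    have h3 : DifferentiableAt ℂ (fun p => s.L.c (s.U.τ.symm p)) q := h1.comp q h2
    refine h3.congr_of_eventuallyEq ?_
    have hop : ∀ᶠ p in 𝓝 q, |(s.U.τ.symm p).im| < s.U.ρ :=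
      ((continuous_abs.comp (Complex.continuous_im.comp
        s.U.τ.symm.continuous)).continuousAt).eventually (gt_mem_nhds hab)
    filter_upwards [hop] with p hp
    exact ext_eq_c s hp

theorem ext_add_one (s : Stage) {q : ℂ} (h : (s.U.τ.symm q).im < s.U.ρ) :
    ext s (q + 1) = ext s q + 1 := by
  by_cases h0 : (s.U.τ.symm q).im < 0
  · have hq : q ∈ s.U.Om := s.U.mem_Om_iff.2 h0
    rw [ext_eq_ψ s hq, ext_eq_ψ s (s.U.Om_add_one.2 hq), s.L.ψper q hq]
  · push Not at h0
    have hab : |(s.U.τ.symm q).im| < s.U.ρ := by rwa [abs_of_nonneg h0]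
    have hab2 : |(s.U.τ.symm (q + 1)).im| < s.U.ρ := by
      rw [s.U.τ_symm_add_one]; simpa using hab
    rw [ext_eq_c s hab, ext_eq_c s hab2, s.U.τ_symm_add_one, s.L.cper _ hab]

/-- position of the lower domain of the composition -/
theorem im_lt (s b : Stage) {N : ℕ} {w : Upper} (hw : IsComp s.U b.U N w) {q : ℂ}
    (hq : q ∈ w.Om) : (s.U.τ.symm q).im < b.U.B / N := by
  obtain ⟨h1, h2, h3, h4, h5, h6⟩ := hw
  have hN : (0 : ℝ) < N := by exact_mod_cast h1
  rw [w.Om_eq] at hq
  obtain ⟨z, hz, rfl⟩ := hq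
  have hz' : z.im < 0 := hz
  rw [h6, s.U.τ.symm_apply_apply]
  have h7 := (Complex.abs_im_le_norm _).trans (b.U.τbdd (N * z))
  rw [Complex.sub_im] at h7
  have h8 := (abs_le.1 h7).2
  have h9 : ((N : ℂ) * z).im = N * z.im := by
    rw [Complex.mul_im]; simp
  rw [h9] at h8
  have h10 : (b.U.τ (N * z) / N).im = (b.U.τ (N * z)).im / N := by
    rw [Complex.div_natCast_im]
  rw [h10, div_lt_div_iff_of_pos_right hN]
  nlinarith

end D1

theorem specD1 (hM : SpecMaxIm) : SpecD1 := by
  intro s b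
  obtain ⟨Cs, hCs0, hCs⟩ := s.L.c_im_le (a := s.U.ρ / 2) (by linarith [s.U.hρ])
  refine ⟨Cs * b.U.B, 1, ?_⟩
  intro N hN w hw L
  have hw' := hw
  obtain ⟨h1, h2, h3, h4, h5, h6⟩ := hw'
  have hNpos : (0 : ℝ) < N := by exact_mod_cast h1
  have hρ := s.U.hρ
  have hBb := b.U.B_nonneg
  have key : ∀ q ∈ w.Om, |(L.ψ q - D1.ext s q).im| ≤ Cs * b.U.B / N := by
    apply hM w (fun q => L.ψ q - D1.ext s q)
    · intro q hq
      have hlt := D1.im_lt s b hw hq
      have hd1 : DifferentiableAt ℂ L.ψ q :=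
        (L.ψhol q hq).differentiableAt (w.isOpen_Om.mem_nhds hq)
      exact (hd1.sub (D1.ext_diffAt s (by linarith))).differentiableWithinAt
    · intro q hq
      have hlt := D1.im_lt s b hw hq
      show L.ψ (q + 1) - D1.ext s (q + 1) = L.ψ q - D1.ext s q
      rw [L.ψper q hq, D1.ext_add_one s (by linarith)]
      ring
    · refine ⟨s.U.B, L.B + s.L.B, fun q hq hlow => ?_⟩
      have hqs : q ∈ s.U.Om := s.U.mem_of_im_lt hlow
      show ‖L.ψ q - D1.ext s q‖ ≤ _
      rw [D1.ext_eq_ψ s hqs]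
      have e : L.ψ q - s.L.ψ q = (L.ψ q - q) - (s.L.ψ q - q) := by ring
      rw [e]
      exact (norm_sub_le _ _).trans (add_le_add (L.ψbdd q hq) (s.L.ψbdd q hqs))
    · intro ε hε
      obtain ⟨δ₁, hδ₁, hδ₁'⟩ := L.ψbd (ε / 2) (by linarith)
      -- the radius
      set t : ℝ := min (s.U.ρ / 8) (ε / (2 * (Cs + 1))) with ht
      have ht0 : 0 < t := by
        rw [ht]
        apply lt_min (by linarith)
        positivity
      have ht1 : t ≤ s.U.ρ / 8 := min_le_left _ _
      have ht2 : Cs * t ≤ ε / 2 := by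
        have h7 : t ≤ ε / (2 * (Cs + 1)) := min_le_right _ _
        calc Cs * t ≤ (Cs + 1) * t := by nlinarith
          _ ≤ (Cs + 1) * (ε / (2 * (Cs + 1))) := by gcongr
          _ = ε / 2 := by field_simp
      refine ⟨min δ₁ (s.U.κ * t / 2), lt_min hδ₁ (by have := s.U.hκ; positivity), ?_⟩
      rintro q hq ⟨x, hx⟩
      have hψ1 : -(ε / 2) < (L.ψ q).im := hδ₁' q hq ⟨x, hx.trans_le (min_le_left _ _)⟩
      have hψ2 : (L.ψ q).im < 0 := L.ψ_neg hq
      have hfx := h5 x (by simpa using w.hρ)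
      set p := b.U.f (N * x) / N with hp
      have hpim : |p.im| ≤ b.U.B / N := by
        have h7 := (Complex.abs_im_le_norm _).trans (b.U.bdd ((N : ℂ) * x) (by
          have : ((N : ℂ) * x).im = 0 := by simp
          rw [this]; linarith [b.U.hρ]))
        rw [Complex.sub_im] at h7
        have h8 : ((N : ℂ) * x).im = 0 := by simp
        rw [h8, sub_zero] at h7
        rw [hp, Complex.div_natCast_im, abs_div, Nat.abs_cast]
        gcongr
      have hpim2 : |p.im| ≤ s.U.ρ / 4 := hpim.trans h2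
      rw [hfx] at hx
      obtain ⟨z, hz1, hz2⟩ := s.U.exists_of_near' ht0 (z₀ := p) (w := q)
        (by have := (abs_le.1 hpim2).1; linarith) (hx.trans_le (min_le_right _ _))
      have hzim : |z.im| ≤ b.U.B / N + t := by
        have h7 := (Complex.abs_im_le_norm _).trans hz1
        rw [Complex.sub_im] at h7
        have h8 := abs_sub_abs_le_abs_sub z.im p.im
        linarith
      have hzim2 : |z.im| ≤ s.U.ρ / 2 := by linarith
      have hext : D1.ext s q = s.L.c z := by
        rw [← hz2]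
        exact D1.ext_f s (by linarith)
      have h9 := hCs z hzim2
      show |(L.ψ q - D1.ext s q).im| ≤ _
      rw [hext, Complex.sub_im]
      have h10 : |(s.L.c z).im| ≤ Cs * b.U.B / N + ε / 2 := by
        calc |(s.L.c z).im| ≤ Cs * |z.im| := h9
          _ ≤ Cs * (b.U.B / N + t) := by gcongr
          _ = Cs * b.U.B / N + Cs * t := by ring
          _ ≤ _ := by linarith
      have h11 := abs_le.1 h10
      rw [abs_le]
      constructor <;> linarith [h11.1, h11.2]
  intro z hz hzOm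
  have h7 := key _ hzOm
  rw [D1.ext_f s (by linarith), Complex.sub_im] at h7
  exact h7

end

end MP87
end

section
/-!
Module D2: factorization of the welding function of the composition.
-/
namespace MP87

open Filter Topology Set MeasureTheory Metric
open scoped InnerProductSpace ComplexConjugate Laplacian NNReal

noncomputable section

namespace D2

theorem g_real_add_int (s : Stage) (x : ℝ) (n : ℤ) : s.g ((x : ℂ) + n) = s.g x + n := by
  obtain ⟨y, hy⟩ := s.c_surjective x
  have hy' : s.L.c y = x := by rw [s.L.c_eq_re y]; exact congrArg _ hy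
  have h1 : s.L.c ((y + n : ℝ) : ℂ) = (x : ℂ) + n := by
    have := s.L.c_add_int n (z := (y : ℂ)) (by simpa using s.U.hρ)
    rw [hy'] at this
    rw [← this]
    push_cast
    rfl
  rw [← h1, s.gc, ← hy', s.gc]
  have := s.U.f_add_int n (z := (y : ℂ)) (by simpa using s.U.hρ)
  rw [← this]
  push_cast
  rfl

theorem g_add_int (s : Stage) (n : ℤ) {z : ℂ} (hz : z.im < 0) : s.g (z + n) = s.g z + n := by
  rcases Int.eq_nat_or_neg n with ⟨k, rfl | rfl⟩
  · have := s.g_add_nat k hz
    simpa using this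
  · have h1 : (z + ((-(k : ℤ) : ℤ) : ℂ)).im < 0 := by simpa using hz
    have := s.g_add_nat k h1
    push_cast at this ⊢
    have e : z + -(k : ℂ) + k = z := by ring
    rw [e] at this
    rw [this]; ring

/-- `g` near the real axis -/
theorem g_near (s : Stage) {ε : ℝ} (hε : 0 < ε) : ∃ δ : ℝ, 0 < δ ∧ ∀ z : ℂ, -δ < z.im → z.im < 0 →
    ‖s.g z - s.g z.re‖ < ε := by
  have hK : IsCompact (Icc (0 : ℝ) 1 ×ℂ Icc (-1 : ℝ) 0) := isCompact_Icc.reProdIm isCompact_Icc
  have hc : ContinuousOn s.g (Icc (0 : ℝ) 1 ×ℂ Icc (-1 : ℝ) 0) := by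
    intro z hz
    rw [Complex.mem_reProdIm] at hz
    exact (s.g_diffAt (lt_of_le_of_lt hz.2.2 s.ht)).continuousAt.continuousWithinAt
  have hu := hK.uniformContinuousOn_of_continuous hc
  rw [Metric.uniformContinuousOn_iff] at hu
  obtain ⟨δ, hδ, h⟩ := hu ε hε
  refine ⟨min δ 1, lt_min hδ one_pos, fun z h1 h2 => ?_⟩
  have h3 : -δ < z.im := lt_of_le_of_lt (neg_le_neg (min_le_left _ _)) h1
  have h4 : -1 < z.im := lt_of_le_of_lt (neg_le_neg (min_le_right _ _)) h1
  set n : ℤ := ⌊z.re⌋ with hn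
  have e1 : z = (z - n) + n := by ring
  have e2 : ((z.re : ℝ) : ℂ) = ((z.re - n : ℝ) : ℂ) + n := by push_cast; ring
  have h5 : (z - n).im = z.im := by simp
  have h6 : (z - n).re = z.re - n := by simp
  have h7 : s.g z = s.g (z - n) + n := by
    conv_lhs => rw [e1]
    exact g_add_int s n (by rw [h5]; exact h2)
  have h8 : s.g ((z.re : ℝ) : ℂ) = s.g ((z.re - n : ℝ) : ℂ) + n := by
    conv_lhs => rw [e2]
    exact g_real_add_int s _ n
  rw [h7, h8, add_sub_add_right_eq_sub, ← dist_eq_norm]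
  apply h
  · rw [Complex.mem_reProdIm, h5, h6]
    exact ⟨⟨by linarith [Int.floor_le z.re], by linarith [Int.lt_floor_add_one z.re]⟩,
      ⟨h4.le, h2.le⟩⟩
  · rw [Complex.mem_reProdIm]
    simp only [Complex.ofReal_re, Complex.ofReal_im]
    exact ⟨⟨by linarith [Int.floor_le z.re], by linarith [Int.lt_floor_add_one z.re]⟩,
      ⟨by norm_num, le_refl _⟩⟩
  · rw [dist_eq_norm]
    have e3 : z - n - ((z.re - n : ℝ) : ℂ) = z.im * Complex.I := by
      apply Complex.ext <;> simp
    rw [e3, norm_mul, Complex.norm_I, mul_one, Complex.norm_real, Real.norm_eq_abs, abs_of_neg h2]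
    linarith

section

variable (s b : Stage) {N : ℕ} {w : Upper} (hw : IsComp s.U b.U N w) (L : Lower w)

include hw

theorem Npos : (0 : ℝ) < N := by exact_mod_cast hw.1

theorem im_mul (z : ℂ) : ((N : ℂ) * z).im = N * z.im := by
  rw [Complex.mul_im]; simp

/-- the point `b.g(N z)/N` -/
theorem p_near {z : ℂ} (hz : z.im < 0) : ‖b.g (N * z) / N - z‖ ≤ b.L.B / N := by
  have hN := Npos s b hw
  have hNC : (N : ℂ) ≠ 0 := by
    have : (N : ℝ) ≠ 0 := hN.ne'
    exact_mod_cast this
  have h1 : ((N : ℂ) * z).im < 0 := by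
    rw [im_mul s b hw]; nlinarith
  have h2 := b.g_sub_le h1
  have e : b.g (N * z) / N - z = (b.g (N * z) - N * z) / N := by
    field_simp
  rw [e, norm_div, Complex.norm_natCast]
  gcongr

theorem mem_wOm {z : ℂ} (hz : z.im < 0) (hp : -s.U.ρ < (b.g (N * z) / N).im) :
    s.U.f (b.g (N * z) / N) ∈ w.Om := by
  have hN := Npos s b hw
  have hNC : (N : ℂ) ≠ 0 := by
    have : (N : ℝ) ≠ 0 := hN.ne'
    exact_mod_cast this
  have h1 : ((N : ℂ) * z).im < 0 := by
    rw [im_mul s b hw]; nlinarith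
  have hgm := b.gmem _ h1
  rintro ⟨z', hz', h⟩
  obtain ⟨_, h2, h3, h4, h5, h6⟩ := hw
  have hz'' : 0 ≤ z'.im := hz'
  rw [h5 z' (w.im_pos_lt hz'')] at h
  have h7 : 0 ≤ ((N : ℂ) * z').im := by
    rw [Complex.mul_im]; simp; positivity
  have h8 := (Complex.abs_im_le_norm _).trans (b.U.bdd ((N : ℂ) * z') (b.U.im_pos_lt h7))
  rw [Complex.sub_im] at h8
  have h9 := (abs_le.1 h8).1
  have h10 : -(b.U.B / N) ≤ (b.U.f (N * z') / N).im := by
    rw [Complex.div_natCast_im, ← neg_div]
    gcongr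
    linarith
  have h11 := s.U.f_inj (by linarith [s.U.hρ]) hp h
  have h12 : b.U.f (N * z') = b.g (N * z) := by
    field_simp at h11
    exact h11
  rw [← h12] at hgm
  exact b.U.not_mem_Om h7 hgm

end

end D2

theorem specD2 (hD1 : SpecD1) (hR : SpecReflect) (hG : SpecGrad) : SpecD2 := by
  intro s b η hη
  obtain ⟨C₁, N₁', hC₁⟩ := hD1 s b
  have hρ := s.U.hρ
  obtain ⟨Cc, hCc0, hCc⟩ := s.L.c_lip (a := s.U.ρ / 2) (by linarith)
  obtain ⟨Cb, hCb0, hCb⟩ := b.L.c_im_le (a := b.U.ρ / 2) (by linarith [b.U.hρ])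
  -- smallness conditions on `N`
  obtain ⟨N₂, hN₂⟩ : ∃ N₂ : ℕ, ∀ N : ℕ, N₂ ≤ N → b.L.B / N < s.U.ρ / 8 ∧
      8 * ((C₁ + Cc * b.L.B) / N) / (s.U.ρ / 4) ≤ η := by
    have t1 : Tendsto (fun N : ℕ => b.L.B / (N : ℝ)) atTop (𝓝 0) :=
      tendsto_const_div_atTop_nhds_zero_nat _
    have t2 : Tendsto (fun N : ℕ => 8 * ((C₁ + Cc * b.L.B) / (N : ℝ)) / (s.U.ρ / 4)) atTop
        (𝓝 (8 * 0 / (s.U.ρ / 4))) :=
      ((tendsto_const_div_atTop_nhds_zero_nat _).const_mul 8).div_const _
    rw [mul_zero, zero_div] at t2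
    have e1 := t1.eventually (gt_mem_nhds (show (0 : ℝ) < s.U.ρ / 8 by linarith))
    have e2 := t2.eventually (gt_mem_nhds hη)
    obtain ⟨N₂, h⟩ := eventually_atTop.1 (e1.and e2)
    exact ⟨N₂, fun N hN => ⟨(h N hN).1, (h N hN).2.le⟩⟩
  refine ⟨max N₁' N₂, ?_⟩
  intro N hN w hw L
  obtain ⟨hs1, hs2⟩ := hN₂ N ((le_max_right _ _).trans hN)
  have hD := hC₁ N ((le_max_left _ _).trans hN) w hw L
  have hNpos := D2.Npos s b hw
  have hNC : (N : ℂ) ≠ 0 := by
    have : (N : ℝ) ≠ 0 := hNpos.ne'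
    exact_mod_cast this
  set h : ℂ → ℂ := fun z => L.ψ (s.U.f (b.g (N * z) / N)) with hh
  -- basic facts
  have hp1 : ∀ z : ℂ, -(s.U.ρ / 4) < z.im → z.im < 0 → |(b.g (N * z) / N).im| < s.U.ρ / 2 := by
    intro z h1 h2
    have h3 := (Complex.abs_im_le_norm _).trans (D2.p_near s b hw h2)
    rw [Complex.sub_im] at h3
    have h4 := abs_sub_abs_le_abs_sub (b.g (N * z) / N).im z.im
    have h5 : |z.im| < s.U.ρ / 4 := by rw [abs_of_neg h2]; linarith
    linarith
  have hp2 : ∀ z : ℂ, -(s.U.ρ / 4) < z.im → z.im < 0 → s.U.f (b.g (N * z) / N) ∈ w.Om := by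
    intro z h1 h2
    apply D2.mem_wOm s b hw h2
    have := (abs_lt.1 (hp1 z h1 h2)).1
    linarith
  have hNz : ∀ z : ℂ, z.im < 0 → ((N : ℂ) * z).im < 0 := by
    intro z hz
    rw [D2.im_mul s b hw]; nlinarith
  -- reflection
  obtain ⟨H, H1, H2, H3, H4⟩ := hR (s.U.ρ / 4) h (by linarith) (by
    rintro z ⟨h1, h2⟩
    have d1 : DifferentiableAt ℂ (fun z => b.g (N * z) / N) z := by
      have d2 : DifferentiableAt ℂ b.g (N * z) := b.g_diffAt ((hNz z h2).trans b.ht)
      have d3 : DifferentiableAt ℂ (fun z : ℂ => (N : ℂ) * z) z :=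
        differentiableAt_fun_id.const_mul _
      exact (DifferentiableAt.comp z d2 d3).div_const _
    have d4 : DifferentiableAt ℂ s.U.f (b.g (N * z) / N) := by
      apply s.U.diffAt
      have := (abs_lt.1 (hp1 z h1 h2)).1
      linarith
    have d5 : DifferentiableAt ℂ L.ψ (s.U.f (b.g (N * z) / N)) :=
      (L.ψhol _ (hp2 z h1 h2)).differentiableAt (w.isOpen_Om.mem_nhds (hp2 z h1 h2))
    exact (d5.comp z (d4.comp z d1)).differentiableWithinAt) (by
    intro z h1 h2
    have e1 : b.g (N * (z + 1)) / N = b.g (N * z) / N + 1 := by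
      rw [mul_add, mul_one, b.g_add_nat N (hNz z h2)]
      field_simp
    show L.ψ (s.U.f (b.g (N * (z + 1)) / N)) = L.ψ (s.U.f (b.g (N * z) / N)) + 1
    have h3 := (abs_lt.1 (hp1 z h1 h2)).1
    rw [e1, s.U.per _ (by linarith), L.ψper _ (hp2 z h1 h2)]) (by
    intro ε hε
    obtain ⟨δ₁, hδ₁, hδ₁'⟩ := L.ψbd ε hε
    -- Lipschitz constant of `s.f`
    set Λ : ℝ := 1 + 2 * s.U.B / (s.U.ρ - s.U.ρ / 2) with hΛ
    have hΛ0 : 0 < Λ := by
      have := s.U.B_nonneg
      have : 0 < s.U.ρ - s.U.ρ / 2 := by linarith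
      positivity
    obtain ⟨δ₂, hδ₂, hδ₂'⟩ := D2.g_near b (ε := δ₁ * N / (2 * Λ)) (by positivity)
    refine ⟨min (δ₂ / N) (s.U.ρ / 4), lt_min (by positivity) (by linarith), ?_⟩
    intro z h1 h2
    have h3 : -(s.U.ρ / 4) < z.im := lt_of_le_of_lt (neg_le_neg (min_le_right _ _)) h1
    have h4 : -(δ₂ / N) < z.im := lt_of_le_of_lt (neg_le_neg (min_le_left _ _)) h1
    have h5 : -δ₂ < ((N : ℂ) * z).im := by
      rw [D2.im_mul s b hw]
      have : -(δ₂ / N) * N < z.im * N := by
        apply mul_lt_mul_of_pos_right h4 hNpos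
      have e : -(δ₂ / N) * N = -δ₂ := by field_simp
      rw [e] at this
      linarith
    have h6 := hδ₂' _ h5 (hNz z h2)
    obtain ⟨x', hx'⟩ := b.c_surjective ((N : ℂ) * z).re
    have hx'' : b.L.c x' = (((N : ℂ) * z).re : ℂ) := by
      rw [b.L.c_eq_re x']; exact congrArg _ hx'
    rw [← hx'', b.gc] at h6
    have hmem := hp2 z h3 h2
    have hNx : (N : ℂ) * ((x' / N : ℝ) : ℂ) = x' := by
      push_cast
      field_simp
    have hwx : w.f ((x' / N : ℝ) : ℂ) = s.U.f (b.U.f x' / N) := by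
      rw [hw.2.2.2.2.1 _ (by simpa using w.hρ), hNx]
    have h7 : ‖s.U.f (b.g (N * z) / N) - w.f ((x' / N : ℝ) : ℂ)‖ < δ₁ := by
      rw [hwx]
      have hb1 : -(s.U.ρ / 2) ≤ (b.g (N * z) / N).im := (abs_lt.1 (hp1 z h3 h2)).1.le
      have hb2 : -(s.U.ρ / 2) ≤ (b.U.f x' / N).im := by
        have h8 := (Complex.abs_im_le_norm _).trans (b.U.bdd (x' : ℂ) (by simpa using b.U.hρ))
        rw [Complex.sub_im, Complex.ofReal_im, sub_zero] at h8
        rw [Complex.div_natCast_im]
        have h9 := (abs_le.1 h8).1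
        have h10 : -(b.U.B / N) ≤ (b.U.f x').im / N := by
          rw [← neg_div]; gcongr
        have := hw.2.1
        linarith
      refine (s.U.f_lip (by linarith) hb1 hb2).trans_lt ?_
      rw [← sub_div, norm_div, Complex.norm_natCast]
      calc Λ * (‖b.g (N * z) - b.U.f x'‖ / N) ≤ Λ * ((δ₁ * N / (2 * Λ)) / N) := by gcongr
        _ = δ₁ / 2 := by field_simp
        _ < δ₁ := by linarith
    have h8 := hδ₁' _ hmem ⟨_, h7⟩
    have h9 := L.ψ_neg hmem
    show |(L.ψ (s.U.f (b.g (N * z) / N))).im| < ε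
    rw [abs_of_neg h9]; linarith)
  have Hreal : ∀ x : ℝ, (H x).im = 0 := by
    intro x
    have h1 := H4 x (by simp; linarith)
    rw [Complex.conj_ofReal] at h1
    have := congrArg Complex.im h1
    rw [Complex.conj_im] at this
    linarith
  refine ⟨H, H1, Hreal, fun x => ?_, ?_, ?_⟩
  · exact H3 x (by simp; linarith)
  · -- closeness of the derivatives
    intro x
    set M : ℝ := (C₁ + Cc * b.L.B) / N with hM
    have hlow : ∀ z : ℂ, -(s.U.ρ / 4) < z.im → z.im < 0 → |(H z - s.L.c z).im| ≤ M := by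
      intro z h1 h2
      rw [H2 z h1 h2]
      have h3 := hp1 z h1 h2
      have h4 := hD _ h3 (hp2 z h1 h2)
      have h5 := hCc (b.g (N * z) / N) z h3.le (by rw [abs_of_neg h2]; linarith)
      have h6 := (Complex.abs_im_le_norm _).trans (h5.trans
        (mul_le_mul_of_nonneg_left (D2.p_near s b hw h2) hCc0))
      rw [Complex.sub_im] at h6
      show |(L.ψ (s.U.f (b.g (N * z) / N)) - s.L.c z).im| ≤ M
      rw [Complex.sub_im]
      have e : M = C₁ / N + Cc * (b.L.B / N) := by rw [hM]; ring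
      rw [e]
      have e2 : (L.ψ (s.U.f (b.g (N * z) / N))).im - (s.L.c z).im =
        ((L.ψ (s.U.f (b.g (N * z) / N))).im - (s.L.c (b.g (N * z) / N)).im) +
        ((s.L.c (b.g (N * z) / N)).im - (s.L.c z).im) := by ring
      rw [e2]
      exact (abs_add_le _ _).trans (add_le_add h4 h6)
    have hM0 : 0 ≤ M := (abs_nonneg _).trans (hlow (-(s.U.ρ / 8 : ℝ) * Complex.I)
      (by simp; linarith) (by simp; linarith))
    have hall : ∀ z : ℂ, |z.im| < s.U.ρ / 4 → |(H z - s.L.c z).im| ≤ M := by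
      intro z hz
      rcases lt_trichotomy z.im 0 with h0 | h0 | h0
      · exact hlow z (abs_lt.1 hz).1 h0
      · have hzr : z = ((z.re : ℝ) : ℂ) := Complex.ext (by simp) (by simp [h0])
        rw [hzr, Complex.sub_im, Hreal, s.L.c_real, sub_zero, abs_zero]
        exact hM0
      · have h5 := hlow (conj z) (by rw [Complex.conj_im]; linarith [(abs_lt.1 hz).2])
          (by rw [Complex.conj_im]; linarith)
        rw [H4 z hz, s.L.cconj z (by linarith), ← map_sub, Complex.conj_im, abs_neg] at h5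
        exact h5
    have hball : ∀ z ∈ ball (x : ℂ) (s.U.ρ / 4), |z.im| < s.U.ρ / 4 := by
      intro z hz
      rw [mem_ball, dist_eq_norm] at hz
      have := (Complex.abs_im_le_norm _).trans_lt hz
      rwa [Complex.sub_im, Complex.ofReal_im, sub_zero] at this
    have hx0 : |((x : ℂ)).im| < s.U.ρ / 4 := by simp; linarith
    have hHd : ∀ z : ℂ, |z.im| < s.U.ρ / 4 → DifferentiableAt ℂ H z := fun z hz =>
      (H1 z hz).differentiableAt ((Upper.isOpen_strip _).mem_nhds hz)
    have h6 := hG (s.U.ρ / 4) M (fun z => H z - s.L.c z) x (by linarith) (by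
      intro z hz
      exact ((hHd z (hball z hz)).sub (s.L.c_diffAt (by
        linarith [hball z hz]))).differentiableWithinAt) (fun z hz => hall z (hball z hz))
    rw [deriv_fun_sub (hHd _ hx0) (s.L.c_diffAt (by linarith))] at h6
    exact h6.trans hs2
  · -- factorization
    have hbρ := b.U.hρ
    obtain ⟨hw1, hw2, hw3, hw4, hw5, hw6⟩ := id hw
    set t : ℝ := min w.ρ (min (b.U.ρ / (2 * N)) (s.U.ρ / (8 * (Cb + 1)))) with ht
    have ht0 : 0 < t := by
      rw [ht]
      refine lt_min w.hρ (lt_min (by positivity) (by positivity))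
    have ht1 : t ≤ w.ρ := min_le_left _ _
    have ht2 : t ≤ b.U.ρ / (2 * N) := (min_le_right _ _).trans (min_le_left _ _)
    have ht3 : t ≤ s.U.ρ / (8 * (Cb + 1)) := (min_le_right _ _).trans (min_le_right _ _)
    have hNt : N * t ≤ b.U.ρ / 2 := by
      calc N * t ≤ N * (b.U.ρ / (2 * N)) := by gcongr
        _ = b.U.ρ / 2 := by field_simp
    have hCbt : Cb * t < s.U.ρ / 4 := by
      calc Cb * t ≤ (Cb + 1) * t := by nlinarith
        _ ≤ (Cb + 1) * (s.U.ρ / (8 * (Cb + 1))) := by gcongr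
        _ = s.U.ρ / 8 := by field_simp
        _ < s.U.ρ / 4 := by linarith
    have hNim : ∀ z : ℂ, |z.im| < t → |((N : ℂ) * z).im| < b.U.ρ / 2 := by
      intro z hz
      rw [D2.im_mul s b hw, abs_mul, Nat.abs_cast]
      calc N * |z.im| < N * t := by gcongr
        _ ≤ _ := hNt
    have hyim : ∀ z : ℂ, |z.im| < t → |(b.L.c (N * z) / N).im| < s.U.ρ / 4 := by
      intro z hz
      rw [Complex.div_natCast_im, abs_div, Nat.abs_cast]
      have h1 := hCb _ (hNim z hz).le
      rw [D2.im_mul s b hw, abs_mul, Nat.abs_cast] at h1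
      calc |(b.L.c (N * z)).im| / N ≤ Cb * (N * |z.im|) / N := by gcongr
        _ = Cb * |z.im| := by field_simp
        _ ≤ Cb * t := by gcongr
        _ < _ := hCbt
    refine ⟨t, ht0, fun z hz => ⟨hyim z hz, ?_⟩⟩
    -- equality on the lower part
    have hlow : ∀ z : ℂ, |z.im| < t → z.im < 0 → L.c z = H (b.L.c (N * z) / N) := by
      intro z hz h0
      have h1 : -w.ρ < z.im := by have := (abs_lt.1 hz).1; linarith
      have h2 := hNim z hz
      have h3 : (b.L.c (N * z)).im < 0 :=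
        b.L.c_neg (by have := (abs_lt.1 h2).1; linarith) (hNz z h0)
      have h4 : (b.L.c (N * z) / N).im < 0 := by
        rw [Complex.div_natCast_im]
        exact div_neg_of_neg_of_pos h3 hNpos
      rw [H2 _ (abs_lt.1 (hyim z hz)).1 h4, L.cψ z h1 h0, hw5 z h1]
      show _ = L.ψ (s.U.f (b.g (N * (b.L.c (N * z) / N)) / N))
      have e : (N : ℂ) * (b.L.c (N * z) / N) = b.L.c (N * z) := by field_simp
      rw [e, b.g_c (by have := (abs_lt.1 h2).1; linarith) (hNz z h0)]
    -- identity theorem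
    have hopen : IsOpen {z : ℂ | |z.im| < t} := Upper.isOpen_strip t
    have hconv : Convex ℝ {z : ℂ | |z.im| < t} := by
      have e : {z : ℂ | |z.im| < t} = {z : ℂ | -t < z.im} ∩ {z : ℂ | z.im < t} := by
        ext y
        show |y.im| < t ↔ -t < y.im ∧ y.im < t
        exact abs_lt
      rw [e]
      exact (convex_halfSpace_im_gt (-t)).inter (convex_halfSpace_im_lt t)
    have ha1 : AnalyticOnNhd ℂ L.c {z : ℂ | |z.im| < t} := by
      apply DifferentiableOn.analyticOnNhd _ hopen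
      intro y hy
      have hy' : |y.im| < t := hy
      exact (L.c_diffAt (lt_of_lt_of_le hy' ht1)).differentiableWithinAt
    have ha2 : AnalyticOnNhd ℂ (fun z => H (b.L.c (N * z) / N)) {z : ℂ | |z.im| < t} := by
      apply DifferentiableOn.analyticOnNhd _ hopen
      intro y hy
      have hy' : |y.im| < t := hy
      have d1 : DifferentiableAt ℂ b.L.c (N * y) := b.L.c_diffAt (by linarith [hNim y hy'])
      have d2 : DifferentiableAt ℂ (fun z : ℂ => (N : ℂ) * z) y :=
        differentiableAt_fun_id.const_mul _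
      have d3 : DifferentiableAt ℂ (fun z => b.L.c (N * z) / N) y :=
        (DifferentiableAt.comp y d1 d2).div_const _
      have d4 : DifferentiableAt ℂ H (b.L.c (N * y) / N) :=
        (H1 _ (hyim y hy')).differentiableAt ((Upper.isOpen_strip _).mem_nhds (hyim y hy'))
      exact (DifferentiableAt.comp y d4 d3).differentiableWithinAt
    have hz0 : (-(t / 2 : ℝ) * Complex.I : ℂ) ∈ {z : ℂ | |z.im| < t} := by
      show |(-(t / 2 : ℝ) * Complex.I : ℂ).im| < t
      simp only [Complex.mul_im, Complex.neg_re, Complex.ofReal_re, Complex.I_im, mul_one,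
        Complex.neg_im, Complex.ofReal_im, Complex.I_re, mul_zero, add_zero, neg_zero]
      rw [abs_neg, abs_of_pos (by linarith)]
      linarith
    have heq : L.c =ᶠ[𝓝 (-(t / 2 : ℝ) * Complex.I : ℂ)] fun z => H (b.L.c (N * z) / N) := by
      have hneg : (-(t / 2 : ℝ) * Complex.I : ℂ).im < 0 := by
        simp only [Complex.mul_im, Complex.neg_re, Complex.ofReal_re, Complex.I_im, mul_one,
          Complex.neg_im, Complex.ofReal_im, Complex.I_re, mul_zero, add_zero, neg_zero]
        linarith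
      filter_upwards [hopen.mem_nhds hz0, (Upper.isOpen_half' 0).mem_nhds hneg] with y h1 h2
      exact hlow y h1 h2
    exact ha1.eqOn_of_preconnected_of_eventuallyEq ha2 hconv.isPreconnected hz0 heq hz

end

end MP87
end

section
/-!
DQ: maximum principle for difference quotients.
-/
namespace MP87

open Filter Topology Set MeasureTheory Metric
open scoped InnerProductSpace ComplexConjugate NNReal

namespace DQ

/-- maximum principle on the lower half plane for functions which are bounded by `M + ε`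
near infinity -/
theorem max_half {u : ℂ → ℂ} {t M : ℝ} (ht : 0 < t) (hu : DifferentiableOn ℂ u {z : ℂ | z.im < t})
    (hr : ∀ x : ℝ, ‖u x‖ ≤ M)
    (hi : ∀ ε : ℝ, 0 < ε → ∃ R : ℝ, ∀ z : ℂ, z.im ≤ 0 → R ≤ ‖z‖ → ‖u z‖ ≤ M + ε) :
    ∀ z : ℂ, z.im ≤ 0 → ‖u z‖ ≤ M := by
  intro z hz
  refine le_of_forall_pos_le_add ?_
  intro ε hε
  obtain ⟨R, hR⟩ := hi ε hε
  rcases lt_or_eq_of_le hz with hz0 | hz0
  swap
  · have hzz : z = ((z.re : ℝ) : ℂ) := by
      apply Complex.ext <;> simp [hz0]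
    rw [hzz]
    linarith [hr z.re]
  set R' : ℝ := max (R + 1) (‖z‖ + 1) with hR'
  set U : Set ℂ := {z : ℂ | z.im < 0} ∩ ball 0 R' with hU
  have hop : IsOpen {z : ℂ | z.im < 0} := isOpen_lt Complex.continuous_im continuous_const
  have hbd : Bornology.IsBounded U := isBounded_ball.subset inter_subset_right
  have hcl : closure U ⊆ {z : ℂ | z.im ≤ 0} ∩ closedBall 0 R' := by
    apply closure_minimal
    · exact inter_subset_inter (fun w (hw : w.im < 0) => (le_of_lt hw : w.im ≤ 0)) ball_subset_closedBall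
    · exact (isClosed_le Complex.continuous_im continuous_const).inter isClosed_closedBall
  have hsub : closure U ⊆ {z : ℂ | z.im < t} := by
    intro w hw
    have := (hcl hw).1
    have h5 : w.im ≤ 0 := this
    exact lt_of_le_of_lt h5 ht
  have hdc : DiffContOnCl ℂ u U := (hu.mono hsub).diffContOnCl
  refine Complex.norm_le_of_forall_mem_frontier_norm_le hbd hdc ?_
    (subset_closure (s := U) ⟨hz0, ?_⟩)
  · intro w hw
    have h1 := hcl (frontier_subset_closure hw)
    have h2 : w ∉ U := by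
      have : IsOpen U := hop.inter isOpen_ball
      rw [this.frontier_eq] at hw
      exact hw.2
    by_cases h3 : w.im < 0
    · have h4 : R' ≤ ‖w‖ := by
        by_contra hlt
        push Not at hlt
        apply h2
        refine ⟨h3, ?_⟩
        simpa using hlt
      apply hR w h3.le
      have : R + 1 ≤ R' := le_max_left _ _
      linarith
    · have h5 : w.im = 0 := le_antisymm h1.1 (not_lt.mp h3)
      have hww : w = ((w.re : ℝ) : ℂ) := by
        apply Complex.ext <;> simp [h5]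
      rw [hww]
      linarith [hr w.re]
  · have : ‖z‖ + 1 ≤ R' := le_max_right _ _
    simp only [mem_ball, dist_zero_right]
    linarith

variable {g : ℂ → ℂ} {t B a b : ℝ}

/-- difference quotients are close to `1` near infinity -/
theorem near_one (hB : ∀ z : ℂ, z.im ≤ 0 → ‖g z - z‖ ≤ B) {w : ℂ} (hw : w.im ≤ 0) {η : ℝ}
    (hη : 0 < η) :
    ∃ R : ℝ, ∀ z : ℂ, z.im ≤ 0 → R ≤ ‖z‖ → ‖dslope g w z - 1‖ ≤ η := by
  refine ⟨2 * (|B| + 1) / η + ‖w‖, ?_⟩
  intro z hz hR
  have hdist : 2 * (|B| + 1) / η ≤ ‖z - w‖ := by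
    have := norm_sub_norm_le z w
    linarith
  have hpos : 0 < ‖z - w‖ := lt_of_lt_of_le (by positivity) hdist
  have hne : z ≠ w := by
    intro h
    rw [h, sub_self, norm_zero] at hpos
    exact lt_irrefl _ hpos
  have hne' : z - w ≠ 0 := sub_ne_zero.mpr hne
  rw [dslope_of_ne _ hne, slope_def_module]
  have h1 : (z - w)⁻¹ • (g z - g w) - 1 = (z - w)⁻¹ * ((g z - z) - (g w - w)) := by
    rw [smul_eq_mul]
    field_simp
    ring
  rw [h1, norm_mul, norm_inv, inv_mul_le_iff₀ hpos]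
  have h2 : ‖(g z - z) - (g w - w)‖ ≤ 2 * |B| := by
    have := norm_sub_le (g z - z) (g w - w)
    have h3 := hB z hz
    have h4 := hB w hw
    have h5 := le_abs_self B
    linarith
  have h6 : 2 * (|B| + 1) ≤ ‖z - w‖ * η := by
    rwa [div_le_iff₀ hη] at hdist
  linarith

/-- main step: fixed second point -/
theorem step (ht : 0 < t) (hg : DifferentiableOn ℂ g {z : ℂ | z.im < t})
    (hB : ∀ z : ℂ, z.im ≤ 0 → ‖g z - z‖ ≤ B) (hinj : InjOn g {z : ℂ | z.im ≤ 0})
    (hd : ∀ z : ℂ, z.im ≤ 0 → deriv g z ≠ 0) (ha : 0 < a) (ha1 : a ≤ 1) (hb : 1 ≤ b)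
    {w : ℂ} (hw : w.im ≤ 0)
    (h1 : ∀ x : ℝ, a * ‖(x : ℂ) - w‖ ≤ ‖g x - g w‖)
    (h2 : ∀ x : ℝ, ‖g x - g w‖ ≤ b * ‖(x : ℂ) - w‖) :
    ∀ z : ℂ, z.im ≤ 0 → a * ‖z - w‖ ≤ ‖g z - g w‖ ∧ ‖g z - g w‖ ≤ b * ‖z - w‖ := by
  have hop : IsOpen {z : ℂ | z.im < t} := isOpen_lt Complex.continuous_im continuous_const
  have hwt : w ∈ {z : ℂ | z.im < t} := by
    exact lt_of_le_of_lt hw ht
  set h : ℂ → ℂ := dslope g w with hh
  have hhd : DifferentiableOn ℂ h {z : ℂ | z.im < t} :=
    (Complex.differentiableOn_dslope (hop.mem_nhds hwt)).mpr hg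
  have hne : ∀ z : ℂ, z ≠ w → h z = (z - w)⁻¹ * (g z - g w) := by
    intro z hz
    rw [hh, dslope_of_ne _ hz, slope_def_module, smul_eq_mul]
  have hzero : ∀ z : ℂ, z.im ≤ 0 → h z ≠ 0 := by
    intro z hz
    by_cases hzw : z = w
    · rw [hzw, hh, dslope_same]
      exact hd w hw
    · rw [hne z hzw]
      refine mul_ne_zero (inv_ne_zero (sub_ne_zero.mpr hzw)) (sub_ne_zero.mpr ?_)
      intro hgg
      exact hzw (hinj hz hw hgg)
  -- bounds on the real axis
  have hreal0 : ∀ x : ℝ, (x : ℂ) ≠ w → a ≤ ‖h x‖ ∧ ‖h x‖ ≤ b := by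
    intro x hx
    have hpos : 0 < ‖(x : ℂ) - w‖ := norm_pos_iff.mpr (sub_ne_zero.mpr hx)
    rw [hne x hx, norm_mul, norm_inv]
    constructor
    · rw [inv_mul_eq_div, le_div_iff₀ hpos]
      exact h1 x
    · rw [inv_mul_eq_div, div_le_iff₀ hpos]
      exact h2 x
  have hcont : Continuous (fun x : ℝ => ‖h x‖) := by
    have hc : ContinuousOn h {z : ℂ | z.im < t} := hhd.continuousOn
    have : Continuous (fun x : ℝ => h x) := by
      apply hc.comp_continuous Complex.continuous_ofReal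
      intro x
      simp [ht]
    exact this.norm
  have hreal : ∀ x : ℝ, a ≤ ‖h x‖ ∧ ‖h x‖ ≤ b := by
    have hclosed : IsClosed {x : ℝ | a ≤ ‖h x‖ ∧ ‖h x‖ ≤ b} := by
      apply IsClosed.and
      · exact isClosed_le continuous_const hcont
      · exact isClosed_le hcont continuous_const
    have hdense : Dense {x : ℝ | (x : ℂ) ≠ w} := by
      have : {x : ℝ | (x : ℂ) ≠ w} ⊇ ({w.re} : Set ℝ)ᶜ := by
        intro x hx hxw
        apply hx
        simp only [mem_singleton_iff]
        rw [← hxw]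
        simp
      exact (dense_compl_singleton w.re).mono this
    have hsub : closure {x : ℝ | (x : ℂ) ≠ w} ⊆ {x : ℝ | a ≤ ‖h x‖ ∧ ‖h x‖ ≤ b} :=
      closure_minimal (fun x hx => hreal0 x hx) hclosed
    intro x
    exact hsub (by rw [hdense.closure_eq]; trivial)
  -- upper bound
  have hup : ∀ z : ℂ, z.im ≤ 0 → ‖h z‖ ≤ b := by
    apply max_half ht hhd (fun x => (hreal x).2)
    intro ε hε
    obtain ⟨R, hR⟩ := near_one (g := g) hB hw hε
    refine ⟨R, fun z hz hz2 => ?_⟩
    have h3 := hR z hz hz2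
    have h4 : ‖h z‖ ≤ ‖h z - 1‖ + ‖(1 : ℂ)‖ := by
      have := norm_add_le (h z - 1) 1
      simpa using this
    rw [norm_one] at h4
    have : ‖h z - 1‖ ≤ ε := h3
    linarith
  -- lower bound
  have hlow : ∀ z : ℂ, z.im ≤ 0 → a ≤ ‖h z‖ := by
    -- `1/h` is not holomorphic on the big half plane, so use a smaller one for each point
    intro z hz
    have hkey : ‖(h z)⁻¹‖ ≤ a⁻¹ := by
      refine le_of_forall_pos_le_add ?_
      intro ε hε
      -- choose η with 1/(1-η) ≤ 1 + ε
      obtain ⟨η, hη0, hη1, hη2⟩ : ∃ η : ℝ, 0 < η ∧ η < 1 ∧ (1 - η)⁻¹ ≤ 1 + ε := by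
        refine ⟨ε / (1 + ε), by positivity, ?_, ?_⟩
        · rw [div_lt_one (by positivity)]
          linarith
        · have : 1 - ε / (1 + ε) = (1 + ε)⁻¹ := by
            field_simp
            ring
          rw [this, inv_inv]
      obtain ⟨R, hR⟩ := near_one (g := g) hB hw hη0
      rcases lt_or_eq_of_le hz with hz0 | hz0
      swap
      · have hzz : z = ((z.re : ℝ) : ℂ) := by
          apply Complex.ext <;> simp [hz0]
        rw [hzz, norm_inv]
        have := inv_anti₀ ha (hreal z.re).1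
        linarith
      set R' : ℝ := max (R + 1) (‖z‖ + 1) with hR'
      set U : Set ℂ := {z : ℂ | z.im < 0} ∩ ball 0 R' with hU
      have hop' : IsOpen {z : ℂ | z.im < 0} := isOpen_lt Complex.continuous_im continuous_const
      have hbd : Bornology.IsBounded U := isBounded_ball.subset inter_subset_right
      have hcl : closure U ⊆ {z : ℂ | z.im ≤ 0} ∩ closedBall 0 R' := by
        apply closure_minimal
        · exact inter_subset_inter (fun w (hw : w.im < 0) => (le_of_lt hw : w.im ≤ 0)) ball_subset_closedBall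
        · exact (isClosed_le Complex.continuous_im continuous_const).inter isClosed_closedBall
      have hdc : DiffContOnCl ℂ (fun z => (h z)⁻¹) U := by
        apply DifferentiableOn.diffContOnCl
        intro w' hw'
        have h5 := (hcl hw').1
        have h6 : w' ∈ {z : ℂ | z.im < t} := by
          exact lt_of_le_of_lt h5 ht
        have h7 : DifferentiableAt ℂ h w' := (hhd w' h6).differentiableAt (hop.mem_nhds h6)
        exact (h7.inv (hzero w' h5)).differentiableWithinAt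
      refine Complex.norm_le_of_forall_mem_frontier_norm_le (f := fun z => (h z)⁻¹) hbd hdc ?_
        (subset_closure (s := U) ⟨hz0, ?_⟩)
      · intro w' hw'
        have h1' := hcl (frontier_subset_closure hw')
        have h2' : w' ∉ U := by
          have : IsOpen U := hop'.inter isOpen_ball
          rw [this.frontier_eq] at hw'
          exact hw'.2
        simp only [norm_inv]
        by_cases h3 : w'.im < 0
        · have h4 : R' ≤ ‖w'‖ := by
            by_contra hlt
            push Not at hlt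
            apply h2'
            refine ⟨h3, ?_⟩
            simpa using hlt
          have h5 : ‖h w' - 1‖ ≤ η := by
            apply hR w' h3.le
            have : R + 1 ≤ R' := le_max_left _ _
            linarith
          have h6 : 1 - η ≤ ‖h w'‖ := by
            have h7 : ‖(1 : ℂ)‖ ≤ ‖h w'‖ + ‖h w' - 1‖ := by
              have := norm_sub_le (h w') (h w' - 1)
              simpa using this
            rw [norm_one] at h7
            linarith
          have h8 : ‖h w'‖⁻¹ ≤ (1 - η)⁻¹ := inv_anti₀ (by linarith) h6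
          have h9 : 1 ≤ a⁻¹ := (one_le_inv₀ ha).mpr ha1
          linarith
        · have h5 : w'.im = 0 := le_antisymm h1'.1 (not_lt.mp h3)
          have hww : w' = ((w'.re : ℝ) : ℂ) := by
            apply Complex.ext <;> simp [h5]
          rw [hww]
          have := inv_anti₀ ha (hreal w'.re).1
          linarith
      · have : ‖z‖ + 1 ≤ R' := le_max_right _ _
        simp only [mem_ball, dist_zero_right]
        linarith
    rw [norm_inv] at hkey
    exact (inv_le_inv₀ (norm_pos_iff.mpr (hzero z hz)) ha).mp hkey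
  intro z hz
  by_cases hzw : z = w
  · rw [hzw]
    simp
  have hpos : 0 < ‖z - w‖ := norm_pos_iff.mpr (sub_ne_zero.mpr hzw)
  have e1 := hup z hz
  have e2 := hlow z hz
  rw [hne z hzw, norm_mul, norm_inv, inv_mul_eq_div] at e1 e2
  rw [div_le_iff₀ hpos] at e1
  rw [le_div_iff₀ hpos] at e2
  exact ⟨e2, e1⟩

end DQ

theorem specDQ : SpecDQ := by
  intro g t B a b ht hg hB hinj hd ha ha1 hb h1 h2
  have s1 : ∀ (y : ℝ) (z : ℂ), z.im ≤ 0 →
      a * ‖z - y‖ ≤ ‖g z - g y‖ ∧ ‖g z - g y‖ ≤ b * ‖z - y‖ := by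
    intro y
    apply DQ.step ht hg hB hinj hd ha ha1 hb (w := (y : ℂ)) (by simp)
    · intro x
      have := h1 x y
      rwa [← Complex.ofReal_sub, Complex.norm_real, Real.norm_eq_abs]
    · intro x
      have := h2 x y
      rwa [← Complex.ofReal_sub, Complex.norm_real, Real.norm_eq_abs]
  intro z w hz hw
  apply DQ.step ht hg hB hinj hd ha ha1 hb hw
  · intro x
    have := (s1 x w hw).1
    rwa [norm_sub_rev w, norm_sub_rev (g w)] at this
  · intro x
    have := (s1 x w hw).2
    rwa [norm_sub_rev w, norm_sub_rev (g w)] at this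
  · exact hz

end MP87
end

section
/-!
DIMN: the Hausdorff dimension of the set of non-uniqueness.
-/
namespace MP87

open Filter Topology Set MeasureTheory Metric
open scoped InnerProductSpace ComplexConjugate Laplacian NNReal

noncomputable section

namespace DimN

theorem holder_of_dist {X Y : Type*} [PseudoMetricSpace X] [PseudoMetricSpace Y] {C r : ℝ≥0}
    {f : X → Y} {S : Set X}
    (h : ∀ x ∈ S, ∀ y ∈ S, dist (f x) (f y) ≤ C * dist x y ^ (r : ℝ)) : HolderOnWith C r f S := by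
  intro x hx y hy
  rw [edist_nndist, edist_nndist, ← ENNReal.coe_rpow_of_nonneg _ r.coe_nonneg, ← ENNReal.coe_mul,
    ENNReal.coe_le_coe]
  rw [← NNReal.coe_le_coe, NNReal.coe_mul, NNReal.coe_rpow, coe_nndist, coe_nndist]
  exact h x hx y hy

theorem finrank_prod_En (m : ℕ) : Module.finrank ℝ (ℝ × En m) = m + 1 := by
  rw [Module.finrank_prod, Module.finrank_self, finrank_euclideanSpace_fin, add_comm]

theorem dist_glue_le {m : ℕ} (p p' : ℂ) (t t' : En m) :
    dist (glue p t) (glue p' t') ≤ dist p p' + dist t t' := by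
  have h := Top.sq_dist_split (glue p t) (glue p' t')
  rw [Top.prj_glue, Top.prj_glue, Top.tl_glue, Top.tl_glue] at h
  have h1 : 0 ≤ dist p p' := dist_nonneg
  have h2 : 0 ≤ dist t t' := dist_nonneg
  nlinarith [dist_nonneg (x := glue p t) (y := glue p' t')]

theorem dist_p_le {m : ℕ} (p p' : ℂ) (t t' : En m) :
    dist p p' ≤ dist (glue p t) (glue p' t') := by
  have h := Top.sq_dist_split (glue p t) (glue p' t')
  rw [Top.prj_glue, Top.prj_glue, Top.tl_glue, Top.tl_glue] at h
  have h1 : 0 ≤ dist p p' := dist_nonneg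
  nlinarith [dist_nonneg (x := glue p t) (y := glue p' t'), sq_nonneg (dist t t')]

theorem dist_t_le {m : ℕ} (p p' : ℂ) (t t' : En m) :
    dist t t' ≤ dist (glue p t) (glue p' t') := by
  have h := Top.sq_dist_split (glue p t) (glue p' t')
  rw [Top.prj_glue, Top.prj_glue, Top.tl_glue, Top.tl_glue] at h
  have h1 : 0 ≤ dist t t' := dist_nonneg
  nlinarith [dist_nonneg (x := glue p t) (y := glue p' t'), sq_nonneg (dist p p')]

theorem inv_Φ (W : Weld) (z : ℂ) : W.inv (W.Φ z) = z :=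
  Function.leftInverse_invFun W.anti.injective z

theorem Φ_inv (W : Weld) (z : ℂ) : W.Φ (W.inv z) = z :=
  Function.rightInverse_invFun W.surj z

/-- the boundary is a Lipschitz image of `ℝ × ℝ^m` -/
theorem upper (hTop : SpecTop) (W : Weld) (m : ℕ) :
    dimH (NU (W.Op m)) ≤ ((m + 1 : ℕ) : ENNReal) := by
  have hsub : NU (W.Op m) ⊆ range (fun q : ℝ × En m => glue (W.Φ q.1) q.2) := by
    intro X hX
    have h1 : X ∈ frontier (W.Op m) := hX.1
    rw [(hTop W m).2.1] at h1
    have h2 : (W.inv (prj X)).im = 0 := h1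
    refine ⟨((W.inv (prj X)).re, tl X), ?_⟩
    have h3 : (((W.inv (prj X)).re : ℝ) : ℂ) = W.inv (prj X) := Complex.ext (by simp) (by simp [h2])
    show glue (W.Φ (((W.inv (prj X)).re : ℝ) : ℂ)) (tl X) = X
    rw [h3, Φ_inv, Top.glue_prj_tl]
  have hlip : LipschitzWith (W.K + 1) (fun q : ℝ × En m => glue (W.Φ q.1) q.2) := by
    apply LipschitzWith.of_dist_le_mul
    intro q q'
    refine (dist_glue_le _ _ _ _).trans ?_
    have h1 := W.lip.dist_le_mul (q.1 : ℂ) (q'.1 : ℂ)
    have h2 : dist (q.1 : ℂ) (q'.1 : ℂ) = dist q.1 q'.1 := by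
      rw [Complex.dist_eq, ← Complex.ofReal_sub, Complex.norm_real, Real.dist_eq, Real.norm_eq_abs]
    rw [h2] at h1
    have h3 : dist q.1 q'.1 ≤ dist q q' := le_max_left _ _
    have h4 : dist q.2 q'.2 ≤ dist q q' := le_max_right _ _
    push_cast
    have h5 : (0 : ℝ) ≤ W.K := W.K.coe_nonneg
    nlinarith
  calc dimH (NU (W.Op m)) ≤ dimH (range (fun q : ℝ × En m => glue (W.Φ q.1) q.2)) :=
        dimH_mono hsub
    _ ≤ dimH (univ : Set (ℝ × En m)) := hlip.dimH_range_le
    _ = ((m + 1 : ℕ) : ENNReal) := by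
        rw [Real.dimH_univ_eq_finrank, finrank_prod_En]

/-- the lower bound -/
theorem lower (hDig : SpecDig) (W : Weld) (m : ℕ) (n w : ℕ → ℕ) (hs : Sparse n w)
    (h : ∀ x : ℝ, InWin n w x → ∀ t : En m, glue (W.Φ x) t ∈ NU (W.Op m)) (s : ℝ≥0)
    (hs0 : 0 < s) (hs1 : s < 1) :
    ((m + 1 : ℕ) : ENNReal) ≤ dimH (NU (W.Op m)) / s := by
  obtain ⟨E, g, C, hE1, hE2, hg, hE3⟩ := hDig n w hs s hs0 hs1
  set S : Set (En (m + 2)) := {X | ∃ x ∈ E, ∃ t ∈ closedBall (0 : En m) 1, glue (W.Φ x) t = X}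
    with hS
  set G : En (m + 2) → ℝ × En m := fun X => (g (W.inv (prj X)).re, tl X) with hG
  have hGv : ∀ (x : ℝ) (t : En m), G (glue (W.Φ x) t) = (g x, t) := by
    intro x t
    rw [hG]
    simp only
    rw [Top.prj_glue, Top.tl_glue, inv_Φ, Complex.ofReal_re]
  have hsubS : S ⊆ NU (W.Op m) := by
    rintro X ⟨x, hx, t, _, rfl⟩
    exact h x (hE2 x hx) t
  have himg : Ico (0 : ℝ) 1 ×ˢ closedBall (0 : En m) 1 ⊆ G '' S := by
    rintro ⟨a, t⟩ ⟨ha, ht⟩
    obtain ⟨x, hx, hxa⟩ := hE3 ha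
    refine ⟨glue (W.Φ x) t, ⟨x, hx, t, ht, rfl⟩, ?_⟩
    rw [hGv, hxa]
  have hhol : HolderOnWith (C * W.K ^ (s : ℝ) + 2) s G S := by
    apply holder_of_dist
    rintro _ ⟨x, hx, t, ht, rfl⟩ _ ⟨x', hx', t', ht', rfl⟩
    rw [hGv, hGv]
    set d := dist (glue (W.Φ x) t) (glue (W.Φ x') t') with hd
    have hd0 : 0 ≤ d := dist_nonneg
    have hds : 0 ≤ d ^ (s : ℝ) := Real.rpow_nonneg hd0 _
    have hK0 : (0 : ℝ) ≤ W.K := W.K.coe_nonneg
    have hKs : 0 ≤ (W.K : ℝ) ^ (s : ℝ) := Real.rpow_nonneg hK0 _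
    have hC0 : (0 : ℝ) ≤ C := C.coe_nonneg
    have h1 : dist x x' ≤ W.K * d := by
      have h2 := W.anti.le_mul_dist (x : ℂ) (x' : ℂ)
      have h3 : dist (x : ℂ) (x' : ℂ) = dist x x' := by
        rw [Complex.dist_eq, ← Complex.ofReal_sub, Complex.norm_real, Real.dist_eq,
          Real.norm_eq_abs]
      rw [h3] at h2
      exact h2.trans (mul_le_mul_of_nonneg_left (dist_p_le _ _ _ _) hK0)
    have h4 : dist (g x) (g x') ≤ C * (W.K : ℝ) ^ (s : ℝ) * d ^ (s : ℝ) := by
      refine (hg.dist_le hx hx').trans ?_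
      rw [mul_assoc, ← Real.mul_rpow hK0 hd0]
      apply mul_le_mul_of_nonneg_left _ hC0
      exact Real.rpow_le_rpow dist_nonneg h1 s.coe_nonneg
    have h5 : dist t t' ≤ 2 * d ^ (s : ℝ) := by
      have h6 : dist t t' ≤ d := dist_t_le _ _ _ _
      have h7 : dist t t' ≤ 2 := by
        have := dist_triangle_right t t' (0 : En m)
        rw [mem_closedBall] at ht ht'
        linarith
      have hs1' : (s : ℝ) ≤ 1 := by exact_mod_cast hs1.le
      have hs0' : (0 : ℝ) < s := by exact_mod_cast hs0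
      rcases (dist_nonneg (x := t) (y := t')).lt_or_eq with h0 | h0
      · have h8 : dist t t' = dist t t' ^ (1 - (s : ℝ)) * dist t t' ^ (s : ℝ) := by
          rw [← Real.rpow_add h0, sub_add_cancel, Real.rpow_one]
        rw [h8]
        have h9 : dist t t' ^ (1 - (s : ℝ)) ≤ 2 := by
          calc dist t t' ^ (1 - (s : ℝ)) ≤ (2 : ℝ) ^ (1 - (s : ℝ)) :=
                Real.rpow_le_rpow dist_nonneg h7 (by linarith)
            _ ≤ (2 : ℝ) ^ (1 : ℝ) := Real.rpow_le_rpow_of_exponent_le (by norm_num) (by linarith)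
            _ = 2 := Real.rpow_one _
        have h10 : dist t t' ^ (s : ℝ) ≤ d ^ (s : ℝ) :=
          Real.rpow_le_rpow dist_nonneg h6 s.coe_nonneg
        exact mul_le_mul h9 h10 (Real.rpow_nonneg dist_nonneg _) (by norm_num)
      · rw [← h0]; positivity
    rw [Prod.dist_eq]
    push_cast
    refine max_le ?_ ?_
    · show dist (g x) (g x') ≤ _
      nlinarith
    · show dist t t' ≤ _
      have : 0 ≤ (C : ℝ) * (W.K : ℝ) ^ (s : ℝ) * d ^ (s : ℝ) := by positivity
      nlinarith
  have hint : (interior (Ico (0 : ℝ) 1 ×ˢ closedBall (0 : En m) 1)).Nonempty := by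
    rw [interior_prod_eq]
    refine ⟨(1 / 2, 0), ?_, ?_⟩
    · rw [interior_Ico]; constructor <;> norm_num
    · exact ball_subset_interior_closedBall (mem_ball_self one_pos)
  have hdim : dimH (Ico (0 : ℝ) 1 ×ˢ closedBall (0 : En m) 1) = ((m + 1 : ℕ) : ENNReal) := by
    rw [Real.dimH_of_nonempty_interior hint, finrank_prod_En]
  calc ((m + 1 : ℕ) : ENNReal) = dimH (Ico (0 : ℝ) 1 ×ˢ closedBall (0 : En m) 1) := hdim.symm
    _ ≤ dimH (G '' S) := dimH_mono himg
    _ ≤ dimH S / s := hhol.dimH_image_le hs0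
    _ ≤ dimH (NU (W.Op m)) / s := ENNReal.div_le_div_right (dimH_mono hsubS) _

end DimN

open DimN in
theorem specDimN (hDig : SpecDig) (hTop : SpecTop) : SpecDimN := by
  intro W m n w hs h
  refine le_antisymm (upper hTop W m) ?_
  by_contra hc
  push Not at hc
  have hne : dimH (NU (W.Op m)) ≠ ⊤ := ne_top_of_lt hc
  set D : ℝ≥0 := (dimH (NU (W.Op m))).toNNReal with hDdef
  have hD : (D : ENNReal) = dimH (NU (W.Op m)) := ENNReal.coe_toNNReal hne
  rw [← hD] at hc
  have hc' : D < ((m + 1 : ℕ) : ℝ≥0) := by exact_mod_cast hc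
  have hpos : (0 : ℝ≥0) < ((m + 1 : ℕ) : ℝ≥0) := by positivity
  obtain ⟨s, hs1, hs2⟩ := exists_between ((div_lt_one hpos).2 hc')
  have hs0 : 0 < s := lt_of_le_of_lt (by positivity) hs1
  have h1 := lower hDig W m n w hs h s hs0 hs2
  rw [← hD, ← ENNReal.coe_div hs0.ne'] at h1
  have h2 : ((m + 1 : ℕ) : ℝ≥0) ≤ D / s := by exact_mod_cast h1
  rw [le_div_iff₀ hs0] at h2
  rw [div_lt_iff₀ hpos] at hs1
  rw [mul_comm] at hs1
  exact absurd h2 (not_le.2 hs1)

end

end MP87
end

section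
/-!
Module DIR: the rotation in the limit.
-/
namespace MP87

open Filter Topology Set MeasureTheory Metric

namespace Dir

variable {s b : ℕ → Stage} {n w : ℕ → ℕ} {r e : ℕ → ℝ}

theorem partial_le (h : IsSeq s b n w r e) (k j : ℕ) {z : ℂ} (hz : 0 ≤ z.im) :
    ‖(s (k + j)).U.f z - (s k).U.f z‖ ≤ ∑ i ∈ Finset.range j, e (k + i) := by
  induction j with
  | zero => simp
  | succ j ih =>
    rw [Finset.sum_range_succ]
    calc ‖(s (k + (j + 1))).U.f z - (s k).U.f z‖
        = ‖((s (k + j + 1)).U.f z - (s (k + j)).U.f z) +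
            ((s (k + j)).U.f z - (s k).U.f z)‖ := by
          congr 1
          rw [← add_assoc]
          ring
      _ ≤ ‖(s (k + j + 1)).U.f z - (s (k + j)).U.f z‖ + ‖(s (k + j)).U.f z - (s k).U.f z‖ :=
          norm_add_le _ _
      _ ≤ e (k + j) + ∑ i ∈ Finset.range j, e (k + i) := add_le_add ((h.close (k + j)).hf z hz) ih
      _ = _ := by ring

theorem sum_le (h : IsSeq s b n w r e) (k j : ℕ) :
    ∑ i ∈ Finset.range j, e (k + i) ≤ 2 * (r k / (k + 1)) := by
  have hr : 0 ≤ r k / (k + 1) := div_nonneg (h.rpos k).le (by positivity)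
  calc ∑ i ∈ Finset.range j, e (k + i)
      ≤ ∑ i ∈ Finset.range j, r k / (k + 1) * (1 / 2) ^ i := by
        apply Finset.sum_le_sum
        intro i _
        refine (h.ler k (k + i) (by omega)).trans ?_
        apply mul_le_mul_of_nonneg_left _ hr
        exact pow_le_pow_of_le_one (by norm_num) (by norm_num) (by omega)
    _ = r k / (k + 1) * ∑ i ∈ Finset.range j, (1 / 2 : ℝ) ^ i := by rw [Finset.mul_sum]
    _ ≤ r k / (k + 1) * 2 := by
        apply mul_le_mul_of_nonneg_left _ hr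
        exact sum_geometric_two_le j
    _ = _ := by ring

theorem lim_le (h : IsSeq s b n w r e) {W : Weld}
    (hW : ∀ z : ℂ, 0 ≤ z.im → Tendsto (fun k => (s k).U.f z) atTop (𝓝 (W.Φ z)))
    (k : ℕ) {z : ℂ} (hz : 0 ≤ z.im) :
    ‖W.Φ z - (s k).U.f z‖ ≤ 2 * (r k / (k + 1)) := by
  have h1 : Tendsto (fun j => ‖(s (k + j)).U.f z - (s k).U.f z‖) atTop
      (𝓝 ‖W.Φ z - (s k).U.f z‖) := by
    have h2 : Tendsto (fun j => (s (k + j)).U.f z) atTop (𝓝 (W.Φ z)) :=
      (hW z hz).comp (tendsto_add_atTop_nat k |>.congr fun j => by rw [add_comm])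
    exact (h2.sub_const _).norm
  exact le_of_tendsto h1 (Eventually.of_forall fun j => (partial_le h k j hz).trans (sum_le h k j))

theorem lam_bounds (h : IsSeq s b n w r e) (k : ℕ) (x : ℝ) :
    1 / 4 ≤ ‖deriv (s k).U.f x‖ ∧ ‖deriv (s k).U.f x‖ ≤ 4 := by
  have h1 := abs_le.1 (h.ld k x)
  have hpos : 0 < ‖deriv (s k).U.f x‖ :=
    norm_pos_iff.2 ((s k).U.deriv_ne (by simpa using (s k).U.hρ))
  have he : Real.exp (Real.log ‖deriv (s k).U.f x‖) = ‖deriv (s k).U.f x‖ := Real.exp_log hpos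
  have h2 : Real.exp 1 ≤ 4 := by have := Real.exp_one_lt_d9; linarith
  constructor
  · have h3 : Real.exp (-1) ≤ ‖deriv (s k).U.f x‖ := by
      rw [← he]; exact Real.exp_le_exp.2 h1.1
    have h4 : (1 : ℝ) / 4 ≤ Real.exp (-1) := by
      rw [Real.exp_neg, one_div]
      exact inv_anti₀ (Real.exp_pos 1) h2
    linarith
  · have h3 : ‖deriv (s k).U.f x‖ ≤ Real.exp 1 := by
      rw [← he]; exact Real.exp_le_exp.2 h1.2
    linarith

end Dir

theorem specDir : SpecDir := by
  intro s b n w r e h W hW x hx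
  have hrot : ∀ k, ∃ θ : ℝ, 1 ≤ θ ∧ θ ≤ 2 ∧ deriv (b k).U.f 0 = Complex.exp (θ * Complex.I) :=
    fun k => (h.block k).rot
  choose θ hθ1 hθ2 hθ3 using hrot
  have hinv : Tendsto (fun k : ℕ => 1 / ((k : ℝ) + 1)) atTop (𝓝 0) :=
    tendsto_one_div_add_atTop_nhds_zero_nat
  refine ⟨r, fun k => deriv (s k).U.f x, θ, fun k => 5 * (1 / ((k : ℝ) + 1)), h.rpos, ?_, ?_,
    fun k => (Dir.lam_bounds h k x).1, fun k => (Dir.lam_bounds h k x).2,
    fun k => ⟨hθ1 k, hθ2 k⟩, ?_, ?_⟩
  · exact squeeze_zero (fun k => (h.rpos k).le) h.rle hinv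
  · simpa using hinv.const_mul 5
  · intro k t ht
    have him : ((x : ℂ) + r k * t).im = 0 := by simp
    have h1 := h.aff k x t ht
    have h2 := Dir.lim_le h hW k (z := x + r k * t) him.ge
    have h3 := Dir.lim_le h hW k (z := x) (by simp)
    have hr := h.rpos k
    calc ‖W.Φ (x + r k * t) - W.Φ x - r k * t * deriv (s k).U.f x‖
        = ‖(W.Φ (x + r k * t) - (s k).U.f (x + r k * t)) - (W.Φ x - (s k).U.f x) +
            ((s k).U.f (x + r k * t) - (s k).U.f x - r k * t * deriv (s k).U.f x)‖ := by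
          congr 1; ring
      _ ≤ ‖W.Φ (x + r k * t) - (s k).U.f (x + r k * t)‖ + ‖W.Φ x - (s k).U.f x‖ +
            ‖(s k).U.f (x + r k * t) - (s k).U.f x - r k * t * deriv (s k).U.f x‖ :=
          (norm_add_le _ _).trans (add_le_add_left (norm_sub_le _ _) _)
      _ ≤ 2 * (r k / (k + 1)) + 2 * (r k / (k + 1)) + r k / (k + 1) :=
          add_le_add (add_le_add h2 h3) h1
      _ = 5 * (1 / ((k : ℝ) + 1)) * r k := by ring
  · rw [tendsto_zero_iff_norm_tendsto_zero]
    have hb : ∀ k : ℕ, ‖deriv (s (k + 1)).U.f x - deriv (s k).U.f x * Complex.exp (θ k * Complex.I)‖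
        ≤ 5 * (1 / 2) ^ k := by
      intro k
      obtain ⟨j, hj⟩ := hx k
      have h1 := (h.close k).hd x
      have h2 := h.win k (2 ^ n k * x) ⟨j, hj⟩
      have h3 := (Dir.lam_bounds h k x).2
      have h4 := h.ele k
      have h5 := h.epos k
      have hcast : (((2 ^ n k * x : ℝ)) : ℂ) = ((2 ^ n k : ℕ) : ℂ) * (x : ℂ) := by push_cast; ring
      rw [hcast] at h2
      rw [← hθ3 k]
      calc ‖deriv (s (k + 1)).U.f x - deriv (s k).U.f x * deriv (b k).U.f 0‖
          = ‖(deriv (s (k + 1)).U.f x - deriv (s k).U.f x *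
              deriv (b k).U.f (((2 ^ n k : ℕ) : ℂ) * (x : ℂ))) +
            deriv (s k).U.f x * (deriv (b k).U.f (((2 ^ n k : ℕ) : ℂ) * (x : ℂ)) -
              deriv (b k).U.f 0)‖ := by congr 1; ring
        _ ≤ e k + 4 * e k := by
            refine (norm_add_le _ _).trans (add_le_add h1 ?_)
            rw [norm_mul]
            exact mul_le_mul h3 h2 (norm_nonneg _) (by norm_num)
        _ ≤ 5 * (1 / 2) ^ k := by
            have : (0 : ℝ) < (1 / 2) ^ k := by positivity
            nlinarith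
    refine squeeze_zero (fun k => norm_nonneg _) hb ?_
    have := (tendsto_pow_atTop_nhds_zero_of_lt_one (r := (1 / 2 : ℝ)) (by norm_num)
      (by norm_num)).const_mul 5
    simpa using this

end MP87
end

section
/-!
Module GEXT: from a lower map with positive derivative of the welding function to a stage.
-/
namespace MP87

open Filter Topology Set MeasureTheory Metric
open scoped InnerProductSpace ComplexConjugate Laplacian NNReal

noncomputable section

namespace Gext

/-- an injective holomorphic function is an open map -/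
theorem nhds_le_map {ψ : ℂ → ℂ} {S : Set ℂ} (hS : IsOpen S) (hd : DifferentiableOn ℂ ψ S)
    (hi : InjOn ψ S) {w : ℂ} (hw : w ∈ S) : 𝓝 (ψ w) ≤ map ψ (𝓝 w) := by
  have ha : AnalyticAt ℂ ψ w := hd.analyticAt (hS.mem_nhds hw)
  refine ha.eventually_constant_or_nhds_le_map_nhds.resolve_left ?_
  intro h
  have h2 : ∀ᶠ z in 𝓝 w, z = w := by
    filter_upwards [h, hS.mem_nhds hw] with z hz hzS
    exact hi hzS hw hz
  have h3 : ∀ᶠ z in 𝓝[≠] w, z = w := h2.filter_mono nhdsWithin_le_nhds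
  have h4 : ∀ᶠ z in 𝓝[≠] w, False := by
    filter_upwards [h3, self_mem_nhdsWithin] with z h5 h6
    exact h6 h5
  exact (inferInstance : (𝓝[≠] w).NeBot).ne (Filter.eventually_false_iff_eq_bot.1 h4)

/-- the inverse of an injective holomorphic function is holomorphic -/
theorem diffAt_inv {ψ g : ℂ → ℂ} {S : Set ℂ} (hS : IsOpen S) (hd : DifferentiableOn ℂ ψ S)
    (hg : ∀ w ∈ S, g (ψ w) = w) {w : ℂ} (hw : w ∈ S) : DifferentiableAt ℂ g (ψ w) := by
  have hi : InjOn ψ S := by
    intro a ha b hb hab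
    rw [← hg a ha, ← hg b hb, hab]
  have hcont : ∀ v ∈ S, ContinuousAt g (ψ v) := by
    intro v hv
    have h1 := nhds_le_map hS hd hi hv
    have h2 : Tendsto g (map ψ (𝓝 v)) (𝓝 v) := by
      rw [tendsto_map'_iff]
      refine tendsto_id.congr' ?_
      filter_upwards [hS.mem_nhds hv] with z hz
      exact (hg z hz).symm
    have h3 : Tendsto g (𝓝 (ψ v)) (𝓝 v) := h2.mono_left h1
    unfold ContinuousAt
    rw [hg v hv]
    exact h3
  have hev : ∀ v ∈ S, ∀ᶠ y in 𝓝 (ψ v), ∃ u ∈ S, ψ u = y := by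
    intro v hv
    have h1 := nhds_le_map hS hd hi hv
    have h2 : ∀ᶠ y in map ψ (𝓝 v), ∃ u ∈ S, ψ u = y := by
      rw [eventually_map]
      filter_upwards [hS.mem_nhds hv] with z hz
      exact ⟨z, hz, rfl⟩
    exact h2.filter_mono h1
  have hdiff : ∀ v ∈ S, deriv ψ v ≠ 0 → DifferentiableAt ℂ g (ψ v) := by
    intro v hv hne
    have h1 : HasDerivAt ψ (deriv ψ v) (g (ψ v)) := by
      rw [hg v hv]
      exact ((hd v hv).differentiableAt (hS.mem_nhds hv)).hasDerivAt
    refine (h1.of_local_left_inverse (hcont v hv) hne ?_).differentiableAt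
    filter_upwards [hev v hv] with y hy
    obtain ⟨u, hu, rfl⟩ := hy
    rw [hg u hu]
  by_cases hne : deriv ψ w = 0
  · have ha : AnalyticAt ℂ (deriv ψ) w := (hd.analyticAt (hS.mem_nhds hw)).deriv
    rcases ha.eventually_eq_zero_or_eventually_ne_zero with h0 | h0
    · exfalso
      -- then `ψ` is constant near `w`
      obtain ⟨ε, hε, hball⟩ := Metric.eventually_nhds_iff_ball.1 (h0.and (hS.mem_nhds hw))
      have hconst : ∀ z ∈ ball w ε, ψ z = ψ w := by
        intro z hz
        refine (convex_ball w ε).is_const_of_fderivWithin_eq_zero (𝕜 := ℂ)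
          (f := ψ) ?_ ?_ hz (mem_ball_self hε)
        · intro y hy
          exact (hd y (hball y hy).2).mono (fun u hu => (hball u hu).2)
        · intro y hy
          rw [fderivWithin_of_isOpen isOpen_ball hy]
          ext
          simpa using (hball y hy).1
      have h5 : w + (ε / 2 : ℝ) ∈ ball w ε := by
        rw [mem_ball, dist_eq_norm, add_sub_cancel_left, Complex.norm_real, Real.norm_eq_abs,
          abs_of_pos (by linarith)]
        linarith
      have h6 := hi (hball _ h5).2 hw (hconst _ h5)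
      have h7 : ((ε / 2 : ℝ) : ℂ) = 0 := by
        have := congrArg (fun u => u - w) h6
        simpa using this
      have h8 : (ε / 2 : ℝ) = 0 := by exact_mod_cast h7
      linarith
    · have h1 := nhds_le_map hS hd hi hw
      have h2 : ∀ᶠ y in 𝓝[≠] (ψ w), DifferentiableAt ℂ g y := by
        rw [eventually_nhdsWithin_iff] at h0 ⊢
        have h3 : ∀ᶠ y in map ψ (𝓝 w), y ∈ ({ψ w}ᶜ : Set ℂ) → DifferentiableAt ℂ g y := by
          rw [eventually_map]
          filter_upwards [h0, hS.mem_nhds hw] with z hz hzS hne'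
          apply hdiff z hzS (hz ?_)
          intro h
          apply hne'
          rw [mem_singleton_iff] at h ⊢
          rw [h]
        exact h3.filter_mono h1
      exact (Complex.analyticAt_of_differentiable_on_punctured_nhds_of_continuousAt h2
        (hcont w hw)).differentiableAt
  · exact hdiff w hw hne

variable {U : Upper} (L : Lower U)

theorem c_im_neg_iff {z : ℂ} (hz : |z.im| < U.ρ) : (L.c z).im < 0 ↔ z.im < 0 := by
  rw [abs_lt] at hz
  constructor
  · intro h
    by_contra hc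
    push Not at hc
    rcases hc.lt_or_eq with h1 | h1
    · exact absurd (L.c_pos h1 hz.2) (not_lt.2 h.le)
    · have h2 : z = (z.re : ℂ) := Complex.ext (by simp) (by simp [← h1])
      rw [h2, L.c_real] at h
      exact lt_irrefl _ h
  · intro h
    exact L.c_neg hz.1 h

theorem c_im_pos_iff {z : ℂ} (hz : |z.im| < U.ρ) : 0 < (L.c z).im ↔ 0 < z.im := by
  rw [abs_lt] at hz
  constructor
  · intro h
    by_contra hc
    push Not at hc
    rcases hc.lt_or_eq with h1 | h1
    · exact absurd (L.c_neg hz.1 h1) (not_lt.2 h.le)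
    · have h2 : z = (z.re : ℂ) := Complex.ext (by simp) (by simp [h1])
      rw [h2, L.c_real] at h
      exact lt_irrefl _ h
  · intro h
    exact L.c_pos h hz.2

theorem c_strictMono (hc : ∀ x : ℝ, 0 < (deriv L.c x).re) :
    StrictMono fun x : ℝ => (L.c x).re := by
  apply strictMono_of_deriv_pos
  intro x
  rw [(L.c_hasDerivAt_real x).deriv]
  exact hc x

theorem c_injOn (hc : ∀ x : ℝ, 0 < (deriv L.c x).re) : InjOn L.c {z : ℂ | |z.im| < U.ρ} := by
  have hneg : ∀ z w : ℂ, |z.im| < U.ρ → |w.im| < U.ρ → z.im < 0 → L.c z = L.c w → z = w := by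
    intro z w hz hw hz0 h
    have hw0 : w.im < 0 := by
      rw [← c_im_neg_iff L hw, ← h, c_im_neg_iff L hz]; exact hz0
    rw [abs_lt] at hz hw
    rw [L.cψ z hz.1 hz0, L.cψ w hw.1 hw0] at h
    exact U.f_inj hz.1 hw.1 (L.ψbij.injOn (U.mem_Om hz.1 hz0) (U.mem_Om hw.1 hw0) h)
  intro z hz w hw h
  have hz' : |z.im| < U.ρ := hz
  have hw' : |w.im| < U.ρ := hw
  rcases lt_trichotomy z.im 0 with h1 | h1 | h1
  · exact hneg z w hz' hw' h1 h
  · have hwim : w.im = 0 := by
      have e1 : (L.c z).im = 0 := by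
        have h2 : z = (z.re : ℂ) := Complex.ext (by simp) (by simp [h1])
        rw [h2]; exact L.c_real _
      rw [h] at e1
      apply le_antisymm
      · by_contra hh
        push Not at hh
        exact absurd ((c_im_pos_iff L hw').2 hh) (by rw [e1]; exact lt_irrefl _)
      · by_contra hh
        push Not at hh
        exact absurd ((c_im_neg_iff L hw').2 hh) (by rw [e1]; exact lt_irrefl _)
    have h2 : z = (z.re : ℂ) := Complex.ext (by simp) (by simp [h1])
    have h3 : w = (w.re : ℂ) := Complex.ext (by simp) (by simp [hwim])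
    rw [h2, h3] at h ⊢
    have h4 := (c_strictMono L hc).injective (congrArg Complex.re h)
    exact congrArg _ h4
  · have e1 := L.cconj z hz'
    have e2 := L.cconj w hw'
    have e3 : L.c (conj z) = L.c (conj w) := by rw [e1, e2, h]
    have e4 := hneg (conj z) (conj w) (by simpa using hz') (by simpa using hw')
      (by simpa using h1) e3
    exact (starRingEnd ℂ).injective e4

theorem c_image_nhds (hc : ∀ x : ℝ, 0 < (deriv L.c x).re) :
    ∃ t : ℝ, 0 < t ∧ {z : ℂ | |z.im| < t} ⊆ L.c '' {z : ℂ | |z.im| < U.ρ} := by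
  have hopen : IsOpen (L.c '' {z : ℂ | |z.im| < U.ρ}) := by
    rw [isOpen_iff_mem_nhds]
    rintro _ ⟨w, hw, rfl⟩
    have h1 := nhds_le_map (Upper.isOpen_strip U.ρ) L.chol (c_injOn L hc) hw
    apply h1
    rw [mem_map]
    filter_upwards [(Upper.isOpen_strip U.ρ).mem_nhds hw] with z hz
    exact mem_image_of_mem _ hz
  -- `c` maps the real axis onto the real axis
  have hcont : Continuous fun x : ℝ => (L.c x).re :=
    continuous_iff_continuousAt.2 fun x => (L.c_hasDerivAt_real x).continuousAt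
  have hint : ∀ n : ℤ, (L.c ((n : ℝ) : ℂ)).re = n := by
    intro n
    have h := L.c_add_int n (z := 0) (by simpa using U.hρ)
    rw [zero_add, L.c0, zero_add] at h
    have h2 : L.c ((n : ℝ) : ℂ) = n := by
      rw [Complex.ofReal_intCast]; exact h
    rw [h2]; simp
  have hK : IsCompact ((fun x : ℝ => (x : ℂ)) '' Icc (0 : ℝ) 1) :=
    isCompact_Icc.image Complex.continuous_ofReal
  have hsub : ((fun x : ℝ => (x : ℂ)) '' Icc (0 : ℝ) 1) ⊆ L.c '' {z : ℂ | |z.im| < U.ρ} := by
    rintro _ ⟨x, hx, rfl⟩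
    have h1 : x ∈ Icc ((fun x : ℝ => (L.c x).re) 0) ((fun x : ℝ => (L.c x).re) 1) := by
      have e0 := hint 0
      have e1 := hint 1
      simp only [Int.cast_zero, Int.cast_one, Complex.ofReal_zero, Complex.ofReal_one] at e0 e1
      simp only [Complex.ofReal_zero, Complex.ofReal_one]
      rw [e0, e1]
      exact hx
    obtain ⟨y, _, hy⟩ := intermediate_value_Icc zero_le_one hcont.continuousOn h1
    refine ⟨y, by simpa using U.hρ, ?_⟩
    rw [L.c_eq_re y]
    exact congrArg _ hy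
  obtain ⟨t, ht, hthick⟩ := hK.exists_thickening_subset_open hopen hsub
  refine ⟨t, ht, ?_⟩
  intro z hz
  have hz' : |z.im| < t := hz
  have h1 : z - (⌊z.re⌋ : ℂ) ∈ L.c '' {z : ℂ | |z.im| < U.ρ} := by
    apply hthick
    rw [mem_thickening_iff]
    refine ⟨((z.re - ⌊z.re⌋ : ℝ) : ℂ), ⟨z.re - ⌊z.re⌋,
      ⟨by linarith [Int.floor_le z.re], by linarith [Int.lt_floor_add_one z.re]⟩, rfl⟩, ?_⟩
    rw [dist_eq_norm]
    have h2 : z - (⌊z.re⌋ : ℂ) - ((z.re - ⌊z.re⌋ : ℝ) : ℂ) = z.im * Complex.I := by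
      apply Complex.ext <;> simp
    rw [h2]
    simpa using hz'
  obtain ⟨w, hw, hcw⟩ := h1
  have hw' : |w.im| < U.ρ := hw
  refine ⟨w + (⌊z.re⌋ : ℤ), by simpa using hw', ?_⟩
  rw [L.c_add_int _ hw', hcw]
  ring

end Gext

open Gext in
/-- GEXT -/
theorem specGext : SpecGext := by
  intro U L hc
  obtain ⟨t, ht, hsub⟩ := c_image_nhds L hc
  set S : Set ℂ := {z : ℂ | |z.im| < U.ρ} with hS
  have hinj := c_injOn L hc
  let e : ℂ → ℂ := Function.invFunOn L.c S
  let p : ℂ → ℂ := Function.invFunOn L.ψ U.Om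
  have he : ∀ w ∈ S, e (L.c w) = w := fun w hw => hinj.leftInvOn_invFunOn hw
  have hp : ∀ w ∈ U.Om, p (L.ψ w) = w := fun w hw => L.ψbij.injOn.leftInvOn_invFunOn hw
  let g : ℂ → ℂ := fun z => if z.im < 0 then p z else U.f (e z)
  have hgneg : ∀ z : ℂ, z.im < 0 → g z = p z := fun z hz => if_pos hz
  have hgstrip : ∀ w ∈ S, g (L.c w) = U.f w := by
    intro w hw
    have hw' : |w.im| < U.ρ := hw
    by_cases h : (L.c w).im < 0
    · rw [hgneg _ h]
      have h1 := (c_im_neg_iff L hw').1 h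
      have h2 := (abs_lt.1 hw').1
      rw [L.cψ w h2 h1, hp _ (U.mem_Om h2 h1)]
    · show (if (L.c w).im < 0 then p (L.c w) else U.f (e (L.c w))) = U.f w
      rw [if_neg h, he w hw]
  have hψ : ∀ z : ℂ, z.im < 0 → ∃ w ∈ U.Om, L.ψ w = z := fun z hz => L.ψbij.surjOn hz
  refine ⟨⟨U, L, g, t, ht, hc, ?_, ?_, ?_, ?_, ?_⟩, rfl, rfl, rfl⟩
  · intro z hz
    have hz' : z.im < t := hz
    apply DifferentiableAt.differentiableWithinAt
    by_cases h : z.im < 0
    · obtain ⟨w, hw, rfl⟩ := hψ z h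
      have h1 := diffAt_inv U.isOpen_Om L.ψhol hp hw
      refine h1.congr_of_eventuallyEq ?_
      filter_upwards [(Upper.isOpen_half' 0).mem_nhds h] with y hy
      exact hgneg y hy
    · have h0 : |z.im| < t := by
        push Not at h
        rw [abs_of_nonneg h]; exact hz'
      obtain ⟨w, hw, rfl⟩ := hsub h0
      have h1 := diffAt_inv (Upper.isOpen_strip U.ρ) L.chol he hw
      have h2 : DifferentiableAt ℂ (fun y => U.f (e y)) (L.c w) := by
        refine DifferentiableAt.comp (L.c w) ?_ h1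
        rw [he w hw]
        exact U.diffAt (abs_lt.1 hw).1
      refine h2.congr_of_eventuallyEq ?_
      have h3 : ∀ᶠ y in 𝓝 (L.c w), |y.im| < t := (Upper.isOpen_strip t).mem_nhds h0
      filter_upwards [h3] with y hy
      obtain ⟨v, hv, rfl⟩ := hsub hy
      rw [hgstrip v hv, he v hv]
  · intro z hz
    obtain ⟨w, hw, rfl⟩ := hψ z hz
    rw [hgneg _ hz, hp w hw]
    exact hw
  · intro w hw
    rw [hgneg _ (L.ψ_neg hw), hp w hw]
  · intro z hz
    obtain ⟨w, hw, rfl⟩ := hψ z hz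
    rw [hgneg _ hz, hp w hw]
  · intro x
    exact hgstrip x (by simpa [hS] using U.hρ)

end

end MP87
end

section
/-!
GLUE: measure and Laplacian in the product coordinates `ℝ^{m+2} = ℂ × ℝ^m`.
-/
namespace MP87

open Filter Topology Set MeasureTheory Metric
open scoped InnerProductSpace ComplexConjugate Laplacian NNReal

namespace Glue

noncomputable section

/-- `glue` as a linear map -/
def gl (m : ℕ) : (ℂ × En m) →ₗ[ℝ] En (m + 2) where
  toFun q := glue q.1 q.2
  map_add' p q := by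
    ext i
    refine Fin.cases ?_ (fun i => ?_) i
    · simp [glue]
    · refine Fin.cases ?_ (fun i => ?_) i
      · simp [glue]
      · simp [glue]
  map_smul' r q := by
    ext i
    refine Fin.cases ?_ (fun i => ?_) i
    · simp [glue]
    · refine Fin.cases ?_ (fun i => ?_) i
      · simp [glue]
      · simp [glue]

/-- `glue` as a continuous linear map -/
def gL (m : ℕ) : (ℂ × En m) →L[ℝ] En (m + 2) := LinearMap.toContinuousLinearMap (gl m)

theorem gL_apply {m : ℕ} (p : ℂ) (t : En m) : gL m (p, t) = glue p t := rfl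

theorem glue_continuous {m : ℕ} : Continuous (fun q : ℂ × En m => glue q.1 q.2) :=
  (gL m).continuous

/-- the first factor -/
def gA (m : ℕ) : ℂ →L[ℝ] En (m + 2) := (gL m).comp (ContinuousLinearMap.inl ℝ ℂ (En m))

/-- the second factor -/
def gB (m : ℕ) : En m →L[ℝ] En (m + 2) := (gL m).comp (ContinuousLinearMap.inr ℝ ℂ (En m))

theorem glue_eq {m : ℕ} (p : ℂ) (t : En m) : glue p t = gA m p + gB m t := by
  have : gA m p + gB m t = gL m ((p, 0) + (0, t)) := by rw [map_add]; rfl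
  rw [this]
  simp [gL_apply]

theorem prj_glue {m : ℕ} (p : ℂ) (t : En m) : prj (glue p t) = p := by
  apply Complex.ext <;> simp [prj, glue]

theorem tl_glue {m : ℕ} (p : ℂ) (t : En m) : tl (glue p t) = t := by
  ext i; simp [tl, glue]

theorem glue_prj_tl {m : ℕ} (X : En (m + 2)) : glue (prj X) (tl X) = X := by
  ext i
  refine Fin.cases ?_ (fun i => ?_) i
  · simp [glue, prj]
  · refine Fin.cases ?_ (fun i => ?_) i
    · simp [glue, prj]
    · simp [glue, tl]

theorem measurePreserving (m : ℕ) :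
    MeasurePreserving (fun q : ℂ × En m => glue q.1 q.2) (volume.prod volume) volume := by
  have h1 : MeasurePreserving (fun q : ℂ × En m => (Complex.measurableEquivRealProd q.1,
      WithLp.ofLp q.2)) (volume.prod volume) (volume.prod volume) :=
    Complex.volume_preserving_equiv_real_prod.prod (PiLp.volume_preserving_ofLp (Fin m))
  have h2 : MeasurePreserving (MeasurableEquiv.prodAssoc : (ℝ × ℝ) × (Fin m → ℝ) ≃ᵐ _)
      ((volume.prod volume).prod volume) (volume.prod (volume.prod volume)) :=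
    measurePreserving_prodAssoc _ _ _
  have h3 : MeasurePreserving
      (Prod.map id (MeasurableEquiv.piFinSuccAbove (fun _ : Fin (m + 1) => ℝ) 0).symm)
      ((volume : Measure ℝ).prod (volume.prod volume)) (volume.prod volume) :=
    (MeasurePreserving.id _).prod
      (volume_preserving_piFinSuccAbove (fun _ : Fin (m + 1) => ℝ) 0).symm
  have h4 : MeasurePreserving
      ((MeasurableEquiv.piFinSuccAbove (fun _ : Fin (m + 2) => ℝ) 0).symm)
      (volume.prod volume) volume :=
    (volume_preserving_piFinSuccAbove (fun _ : Fin (m + 2) => ℝ) 0).symm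
  have h5 : MeasurePreserving (@WithLp.toLp 2 (Fin (m + 2) → ℝ)) volume volume :=
    PiLp.volume_preserving_toLp (Fin (m + 2))
  have := h5.comp (h4.comp (h3.comp (h2.comp h1)))
  have e : (fun q : ℂ × En m => glue q.1 q.2) = (@WithLp.toLp 2 (Fin (m + 2) → ℝ)) ∘
      (((MeasurableEquiv.piFinSuccAbove (fun _ : Fin (m + 2) => ℝ) 0).symm) ∘
      ((Prod.map id (MeasurableEquiv.piFinSuccAbove (fun _ : Fin (m + 1) => ℝ) 0).symm) ∘
      ((MeasurableEquiv.prodAssoc : (ℝ × ℝ) × (Fin m → ℝ) ≃ᵐ _) ∘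
        (fun q : ℂ × En m => (Complex.measurableEquivRealProd q.1, WithLp.ofLp q.2))))) := by
    funext q
    ext i
    refine Fin.cases ?_ (fun i => ?_) i
    · rfl
    · refine Fin.cases ?_ (fun i => ?_) i
      · rfl
      · rfl
  rw [e]
  exact this

theorem lap_split {m : ℕ} {φ : En (m + 2) → ℝ} (hφ : ContDiff ℝ 2 φ) (p : ℂ) (t : En m) :
    (Δ φ) (glue p t) = (Δ (fun q : ℂ => φ (glue q t))) p +
      (Δ (fun u : En m => φ (glue p u))) t := by
  have e1 : (fun q : ℂ => φ (glue q t)) = (fun X => φ (X + gB m t)) ∘ (gA m) := by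
    funext q; simp [glue_eq]
  have e2 : (fun u : En m => φ (glue p u)) = (fun X => φ (X + gA m p)) ∘ (gB m) := by
    funext q; simp [glue_eq, add_comm]
  have c1 : ContDiff ℝ 2 (fun X => φ (X + gB m t)) := hφ.comp (contDiff_id.add contDiff_const)
  have c2 : ContDiff ℝ 2 (fun X => φ (X + gA m p)) := hφ.comp (contDiff_id.add contDiff_const)
  rw [InnerProductSpace.laplacian_eq_iteratedFDeriv_orthonormalBasis φ
    (EuclideanSpace.basisFun (Fin (m + 2)) ℝ), e1, e2,
    InnerProductSpace.laplacian_eq_iteratedFDeriv_orthonormalBasis _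
    (EuclideanSpace.basisFun (Fin m) ℝ),
    InnerProductSpace.laplacian_eq_iteratedFDeriv_complexPlane]
  simp only [(gA m).iteratedFDeriv_comp_right c1 _ le_rfl,
    (gB m).iteratedFDeriv_comp_right c2 _ le_rfl, iteratedFDeriv_comp_add_right,
    Fin.sum_univ_succ]
  have g1 : gA m p + gB m t = glue p t := (glue_eq p t).symm
  have g2 : gB m t + gA m p = glue p t := (add_comm _ _).trans g1
  rw [g1, g2]
  have a1 : gA m 1 = EuclideanSpace.basisFun (Fin (m + 2)) ℝ 0 := by
    ext i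
    refine Fin.cases ?_ (fun i => ?_) i
    · simp [gA, gL_apply, glue]
    · refine Fin.cases ?_ (fun i => ?_) i
      · simp [gA, gL_apply, glue]
      · simp [gA, gL_apply, glue]
  have a2 : gA m Complex.I = EuclideanSpace.basisFun (Fin (m + 2)) ℝ (Fin.succ 0) := by
    ext i
    refine Fin.cases ?_ (fun i => ?_) i
    · simp [gA, gL_apply, glue]
    · refine Fin.cases ?_ (fun i => ?_) i
      · simp [gA, gL_apply, glue]
      · have : ¬ (i.succ.succ = (1 : Fin (m + 2))) := fun h => by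
          have := congrArg Fin.val h
          simp at this
        simp [gA, gL_apply, glue, this]
  have a3 : ∀ j : Fin m, gB m (EuclideanSpace.basisFun (Fin m) ℝ j) =
      EuclideanSpace.basisFun (Fin (m + 2)) ℝ j.succ.succ := by
    intro j
    ext i
    refine Fin.cases ?_ (fun i => ?_) i
    · simp [gB, gL_apply, glue]
    · refine Fin.cases ?_ (fun i => ?_) i
      · have : ¬ ((1 : Fin (m + 2)) = j.succ.succ) := fun h => by
          have := congrArg Fin.val h
          simp at this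
        simp [gB, gL_apply, glue, this]
      · simp [gB, gL_apply, glue, Pi.single_apply]
  have v1 : ∀ {k : ℕ} (L : En k →L[ℝ] En (m + 2)) (x : En k), (fun i : Fin 2 => L (![x, x] i)) = ![L x, L x] := by
    intro k L x
    funext i; fin_cases i <;> rfl
  have v2 : ∀ x : ℂ, (fun i : Fin 2 => gA m (![x, x] i)) = ![gA m x, gA m x] := by
    intro x
    funext i; fin_cases i <;> rfl
  simp only [ContinuousMultilinearMap.compContinuousLinearMap_apply, v1, v2, a1, a2, a3]
  ring

/-- the integral of the Laplacian of a test function vanishes -/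
theorem lap_int {m : ℕ} {ψ : En m → ℝ} (hψ : ContDiff ℝ 2 ψ) (hc : HasCompactSupport ψ) :
    ∫ t, (Δ ψ) t = 0 := by
  rw [InnerProductSpace.laplacian_eq_iteratedFDeriv_orthonormalBasis ψ
    (EuclideanSpace.basisFun (Fin m) ℝ)]
  have hd : ContDiff ℝ 1 (fderiv ℝ ψ) := hψ.fderiv_right (m := 1) le_rfl
  have hdc : HasCompactSupport (fderiv ℝ ψ) := hc.fderiv (𝕜 := ℝ)
  have hdd : Continuous (fderiv ℝ (fderiv ℝ ψ)) := hd.continuous_fderiv one_ne_zero
  have hddc : HasCompactSupport (fderiv ℝ (fderiv ℝ ψ)) := hdc.fderiv (𝕜 := ℝ)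
  have key : ∀ v : En m, Integrable (fun t => iteratedFDeriv ℝ 2 ψ t ![v, v]) ∧
      ∫ t, iteratedFDeriv ℝ 2 ψ t ![v, v] = 0 := by
    intro v
    have e : ∀ t, iteratedFDeriv ℝ 2 ψ t ![v, v] = fderiv ℝ (fderiv ℝ ψ) t v v := by
      intro t; simp [iteratedFDeriv_two_apply]
    simp only [e]
    have i1 : Integrable (fun t => fderiv ℝ (fderiv ℝ ψ) t v v) := by
      apply Continuous.integrable_of_hasCompactSupport
      · fun_prop
      · exact hddc.comp_left (g := fun A : En m →L[ℝ] En m →L[ℝ] ℝ => A v v) (by simp)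
    have i2 : Integrable (fun t => fderiv ℝ ψ t v) := by
      apply Continuous.integrable_of_hasCompactSupport
      · have := hd.continuous; fun_prop
      · exact hdc.comp_left (g := fun A : En m →L[ℝ] ℝ => A v) (by simp)
    refine ⟨i1, ?_⟩
    have := integral_bilinear_hasLineDerivAt_right_eq_neg_left_of_integrable
      (μ := (volume : Measure (En m))) (f := fun _ : En m => (1 : ℝ)) (f' := fun _ => 0)
      (g := fun t => fderiv ℝ ψ t v) (g' := fun t => fderiv ℝ (fderiv ℝ ψ) t v v) (v := v)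
      (B := ContinuousLinearMap.mul ℝ ℝ) (by simp) (by simpa using i1) (by simpa using i2)
      (fun x _ => by
        simpa using (hasFDerivAt_const (1 : ℝ) x).hasLineDerivAt v)
      (fun x _ => by
        have h1 : HasFDerivAt (fderiv ℝ ψ) (fderiv ℝ (fderiv ℝ ψ) x) x :=
          (hd.differentiable (by simp) x).hasFDerivAt
        have h2 := (ContinuousLinearMap.apply ℝ ℝ v).hasFDerivAt.comp x h1
        simpa using! h2.hasLineDerivAt v)
    simpa using this
  rw [integral_finsetSum _ (fun i _ => (key _).1)]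
  exact Finset.sum_eq_zero (fun i _ => (key _).2)

end

end Glue

theorem specGlue : SpecGlue := fun m =>
  ⟨Glue.measurePreserving m, fun _ hφ p t => Glue.lap_split hφ p t,
    fun _ hψ hc => Glue.lap_int hψ hc⟩

end MP87
end

section
/-! MP_87ece0_an, GRAD: gradient estimate from the imaginary part. -/
namespace MP87

open Filter Topology Set MeasureTheory Metric

theorem specGrad : SpecGrad := by
  intro ρ M R x hρ hR hM
  have hM0 : 0 ≤ M := (abs_nonneg _).trans (hM x (mem_ball_self hρ))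
  apply le_of_forall_pos_le_add
  intro ε hε
  set δ : ℝ := ε * ρ / 8 with hδ
  have hδ0 : 0 < δ := by positivity
  set f : ℂ → ℂ := fun z => -Complex.I * (R (x + z) - R x) with hf
  have hmem : ∀ z ∈ ball (0 : ℂ) ρ, x + z ∈ ball x ρ := by
    intro z hz
    rw [mem_ball_zero_iff] at hz
    rw [mem_ball, dist_eq_norm]
    simpa using hz
  have hfd : DifferentiableOn ℂ f (ball 0 ρ) := by
    have h1 : DifferentiableOn ℂ (fun z => R (x + z)) (ball 0 ρ) :=
      hR.comp (by fun_prop) (fun z hz => hmem z hz)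
    exact (h1.sub_const _).const_mul _
  have hre : MapsTo f (ball 0 ρ) {z | z.re ≤ 2 * (M + δ)} := by
    intro z hz
    have h1 := (abs_le.1 (hM _ (hmem z hz))).2
    have h2 := (abs_le.1 (hM x (mem_ball_self hρ))).1
    have h3 : (f z).re = (R (x + z)).im - (R x).im := by
      simp [hf]
    show (f z).re ≤ 2 * (M + δ)
    rw [h3]
    linarith
  have hbc : ∀ z ∈ sphere (0 : ℂ) (ρ / 2), ‖f z‖ ≤ 4 * (M + δ) := by
    intro z hz
    rw [mem_sphere_zero_iff_norm] at hz
    have h1 := Complex.borelCaratheodory_zero (M := 2 * (M + δ)) (R := ρ) (f := f) (z := z)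
      (by positivity) hfd hre hρ (by rw [mem_ball_zero_iff, hz]; linarith) (by simp [hf])
    rw [hz] at h1
    refine h1.trans (le_of_eq ?_)
    have : ρ - ρ / 2 = ρ / 2 := by ring
    rw [this]
    field_simp
    ring
  have hdc : DiffContOnCl ℂ f (ball 0 (ρ / 2)) := by
    apply DifferentiableOn.diffContOnCl
    rw [closure_ball _ (by positivity)]
    exact hfd.mono (closedBall_subset_ball (by linarith))
  have h1 := Complex.norm_deriv_le_of_forall_mem_sphere_norm_le (by positivity) hdc hbc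
  have h2 : deriv f 0 = -Complex.I * deriv R x := by
    have hx : HasDerivAt R (deriv R x) (x + 0) := by
      rw [add_zero]
      exact (hR.differentiableAt (isOpen_ball.mem_nhds (mem_ball_self hρ))).hasDerivAt
    have h3 : HasDerivAt (fun z => R (x + z)) (deriv R x) 0 := hx.comp_const_add x 0
    exact ((h3.sub_const _).const_mul _).deriv
  rw [h2] at h1
  have h4 : ‖-Complex.I * deriv R x‖ = ‖deriv R x‖ := by simp
  rw [h4] at h1
  refine h1.trans (le_of_eq ?_)
  rw [hδ]
  field_simp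
  ring

end MP87
end

section
/-!
HARM: a harmonic function of the first two coordinates is harmonic.
-/
namespace MP87

open Filter Topology Set MeasureTheory Metric
open scoped InnerProductSpace ComplexConjugate Laplacian NNReal

noncomputable section

namespace Harm

/-- the projection to the first two coordinates as a continuous linear map -/
def prjL (m : ℕ) : En (m + 2) →L[ℝ] ℂ :=
  (EuclideanSpace.proj (0 : Fin (m + 2)) : En (m + 2) →L[ℝ] ℝ).smulRight (1 : ℂ) +
    (EuclideanSpace.proj (1 : Fin (m + 2)) : En (m + 2) →L[ℝ] ℝ).smulRight Complex.I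

lemma prjL_apply {m : ℕ} (X : En (m + 2)) : prjL m X = prj X := by
  apply Complex.ext <;> simp [prjL, prj]

lemma prjL_eq (m : ℕ) : (prjL m : En (m + 2) → ℂ) = prj := funext prjL_apply

lemma prj_zero {m : ℕ} : prjL m (EuclideanSpace.basisFun (Fin (m + 2)) ℝ 0) = 1 := by
  rw [prjL_apply]
  apply Complex.ext <;> simp [prj]

lemma prj_one {m : ℕ} : prjL m (EuclideanSpace.basisFun (Fin (m + 2)) ℝ 1) = Complex.I := by
  rw [prjL_apply]
  apply Complex.ext <;> simp [prj]

lemma prj_succ {m : ℕ} (i : Fin m) :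
    prjL m (EuclideanSpace.basisFun (Fin (m + 2)) ℝ i.succ.succ) = 0 := by
  rw [prjL_apply]
  apply Complex.ext <;> simp [prj, Fin.ext_iff]

/-- the Laplacian of a function of the first two coordinates -/
lemma laplacian_comp_prj {m : ℕ} {v : ℂ → ℝ} {X : En (m + 2)} (hv : ContDiffAt ℝ 2 v (prj X)) :
    (Δ (fun Y : En (m + 2) => v (prj Y))) X = (Δ v) (prj X) := by
  obtain ⟨u, hu, huv⟩ : ∃ u ∈ 𝓝 (prj X), ContDiffOn ℝ 2 v u := by
    obtain ⟨u, hu, hc⟩ := (contDiffWithinAt_univ.2 hv).contDiffOn' le_rfl (by simp)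
    refine ⟨u, ?_, ?_⟩
    · exact hu.mem_nhds hc.1
    · simpa using hc.2
  obtain ⟨s, hsu, hso, hXs⟩ := _root_.mem_nhds_iff.1 hu
  have hvs : ContDiffOn ℝ 2 v s := huv.mono hsu
  have hpo : IsOpen ((prjL m) ⁻¹' s) := hso.preimage (prjL m).continuous
  have hXp : prjL m X ∈ s := by rw [prjL_apply]; exact hXs
  have hmem : X ∈ (prjL m) ⁻¹' s := hXp
  have key : iteratedFDeriv ℝ 2 (v ∘ prjL m) X =
      (iteratedFDeriv ℝ 2 v (prjL m X)).compContinuousLinearMap fun _ => prjL m := by
    have h := (prjL m).iteratedFDerivWithin_comp_right hvs hso.uniqueDiffOn hpo.uniqueDiffOn hXp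
      (i := 2) le_rfl
    rwa [iteratedFDerivWithin_of_isOpen 2 hpo hmem, iteratedFDerivWithin_of_isOpen 2 hso hXp] at h
  have hfun : (fun Y : En (m + 2) => v (prj Y)) = v ∘ prjL m := by
    funext Y; simp [prjL_apply]
  rw [hfun, InnerProductSpace.laplacian_eq_iteratedFDeriv_orthonormalBasis _
    (EuclideanSpace.basisFun (Fin (m + 2)) ℝ),
    InnerProductSpace.laplacian_eq_iteratedFDeriv_complexPlane]
  simp only [key]
  rw [Fin.sum_univ_succ, Fin.sum_univ_succ]
  have h0 : (fun i : Fin 2 => (prjL m) (![(EuclideanSpace.basisFun (Fin (m + 2)) ℝ) 0,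
      (EuclideanSpace.basisFun (Fin (m + 2)) ℝ) 0] i)) = ![1, 1] := by
    funext i; fin_cases i <;> simp [prj_zero, -EuclideanSpace.basisFun_apply]
  have h1 : (fun i : Fin 2 => (prjL m) (![(EuclideanSpace.basisFun (Fin (m + 2)) ℝ) 1,
      (EuclideanSpace.basisFun (Fin (m + 2)) ℝ) 1] i)) = ![Complex.I, Complex.I] := by
    funext i; fin_cases i <;> simp [prj_one, -EuclideanSpace.basisFun_apply]
  have h2 : ∀ j : Fin m, (fun i : Fin 2 =>
      (prjL m) (![(EuclideanSpace.basisFun (Fin (m + 2)) ℝ) j.succ.succ,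
      (EuclideanSpace.basisFun (Fin (m + 2)) ℝ) j.succ.succ] i)) = ![0, 0] := by
    intro j; funext i; fin_cases i <;> simp [prj_succ, -EuclideanSpace.basisFun_apply]
  have hz : ∀ j : Fin m, (iteratedFDeriv ℝ 2 v (prjL m X)) ![0, 0] = 0 := by
    intro j
    exact ContinuousMultilinearMap.map_coord_zero _ 0 rfl
  simp only [ContinuousMultilinearMap.compContinuousLinearMap_apply]
  rw [h0]
  simp only [h2]
  have h1' : (fun i : Fin 2 => (prjL m)
      (![(EuclideanSpace.basisFun (Fin (m + 2)) ℝ) (Fin.succ (0 : Fin (m + 1))),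
      (EuclideanSpace.basisFun (Fin (m + 2)) ℝ) (Fin.succ (0 : Fin (m + 1)))] i)) =
      ![Complex.I, Complex.I] := h1
  rw [h1', Finset.sum_eq_zero (fun j _ => hz j), prjL_apply, add_zero]

end Harm

/-- HARM -/
theorem specHarm : SpecHarm := by
  intro m v S hS hv X hX
  have hX' : prj X ∈ S := hX
  obtain ⟨h1, h2⟩ := hv (prj X) hX'
  have hcont : Continuous (prj : En (m + 2) → ℂ) := by
    rw [← Harm.prjL_eq]; exact (Harm.prjL m).continuous
  have hpt : ContDiff ℝ 2 (prj : En (m + 2) → ℂ) := by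
    rw [← Harm.prjL_eq]; exact (Harm.prjL m).contDiff
  refine ⟨ContDiffAt.comp (g := v) X h1 hpt.contDiffAt, ?_⟩
  have hS' : ∀ᶠ Y : En (m + 2) in 𝓝 X, prj Y ∈ S :=
    hcont.continuousAt (hS.mem_nhds hX')
  filter_upwards [hS', hcont.continuousAt h2] with Y hY hY2
  rw [Harm.laplacian_comp_prj (hv _ hY).1]
  exact hY2

end

end MP87
end

section
/-!
Module LIMW: the limit object.
-/
namespace MP87

open Filter Topology Set MeasureTheory Metric
open scoped NNReal

namespace LimW

theorem unif_lim {X E : Type*} [NormedAddCommGroup E] [CompleteSpace E] (F : ℕ → X → E)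
    (S : Set X) (C : ℝ) (h : ∀ k, ∀ z ∈ S, ‖F (k + 1) z - F k z‖ ≤ C * (1 / 2) ^ k) :
    ∃ G : X → E, (∀ z ∈ S, Tendsto (fun k => F k z) atTop (𝓝 (G z))) ∧
      ∀ k, ∀ z ∈ S, ‖G z - F k z‖ ≤ 2 * C * (1 / 2) ^ k := by
  classical
  have h1 : ∀ z ∈ S, ∀ k, dist (F k z) (F (k + 1) z) ≤ C * (1 / 2) ^ k := by
    intro z hz k
    rw [dist_comm, dist_eq_norm]
    exact h k z hz
  have h2 : ∀ z ∈ S, ∃ y, Tendsto (fun k => F k z) atTop (𝓝 y) := fun z hz =>
    cauchySeq_tendsto_of_complete (cauchySeq_of_le_geometric (1 / 2) C (by norm_num) (h1 z hz))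
  refine ⟨fun z => if hz : z ∈ S then (h2 z hz).choose else 0, ?_, ?_⟩
  · intro z hz
    simp only [dif_pos hz]
    exact (h2 z hz).choose_spec
  · intro k z hz
    simp only [dif_pos hz]
    have := dist_le_of_le_geometric_of_tendsto (1 / 2) C (by norm_num) (h1 z hz)
      (h2 z hz).choose_spec k
    rw [dist_comm, dist_eq_norm] at this
    refine this.trans (le_of_eq ?_)
    ring

theorem unif_of_le {X E : Type*} [NormedAddCommGroup E] {F : ℕ → X → E} {G : X → E}
    {S : Set X} {C : ℝ} (h : ∀ k, ∀ z ∈ S, ‖G z - F k z‖ ≤ C * (1 / 2) ^ k) :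
    TendstoUniformlyOn F G atTop S := by
  rw [Metric.tendstoUniformlyOn_iff]
  intro ε hε
  have h1 : Tendsto (fun k : ℕ => C * (1 / 2 : ℝ) ^ k) atTop (𝓝 0) := by
    have := (tendsto_pow_atTop_nhds_zero_of_lt_one (r := (1 / 2 : ℝ)) (by norm_num)
      (by norm_num)).const_mul C
    simpa using this
  filter_upwards [h1.eventually (gt_mem_nhds hε)] with k hk z hz
  rw [dist_eq_norm]
  exact (h k z hz).trans_lt hk

theorem exp_close {a b : ℝ} (ha : |a| ≤ 1) (hab : |b - a| ≤ 1) :
    |Real.exp b - Real.exp a| ≤ 6 * |b - a| := by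
  have h1 : Real.exp b - Real.exp a = Real.exp a * (Real.exp (b - a) - 1) := by
    rw [mul_sub, ← Real.exp_add]; congr 2 <;> ring
  have h2 : Real.exp a ≤ 3 := by
    have h3 : Real.exp a ≤ Real.exp 1 := Real.exp_le_exp.2 (abs_le.1 ha).2
    have := Real.exp_one_lt_d9
    linarith
  have h4 := Real.abs_exp_sub_one_le hab
  rw [h1, abs_mul, abs_of_pos (Real.exp_pos a)]
  nlinarith [abs_nonneg (Real.exp (b - a) - 1), abs_nonneg (b - a), Real.exp_pos a]

theorem lc_continuous (s : Stage) : Continuous s.lc := by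
  have h1 : DifferentiableOn ℂ (deriv s.L.c) {z : ℂ | |z.im| < s.U.ρ} :=
    s.L.chol.deriv (Upper.isOpen_strip _)
  have h2 : Continuous fun x : ℝ => deriv s.L.c x := by
    rw [continuous_iff_continuousAt]
    intro x
    have h3 : ContinuousAt (deriv s.L.c) x :=
      (h1 x (Lower.real_lt s.U x)).differentiableAt
        ((Upper.isOpen_strip _).mem_nhds (Lower.real_lt s.U x)) |>.continuousAt
    exact ContinuousAt.comp (f := fun x : ℝ => (x : ℂ)) h3 Complex.continuous_ofReal.continuousAt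
  exact (Complex.continuous_re.comp h2).log fun x => (s.cpos x).ne'

end LimW

theorem specLimW (hBilip : SpecBilip) : SpecLimW := by
  intro s b n w r e h
  have he : ∀ k, e k ≤ 1 / 1000 * (1 / 2) ^ k := fun k => by
    have := h.ele k; linarith
  -- the limits
  obtain ⟨f, hf1, hf2⟩ := LimW.unif_lim (fun k z => (s k).U.f z) {z : ℂ | 0 ≤ z.im} (1 / 1000)
    fun k z hz => ((h.close k).hf z hz).trans (he k)
  obtain ⟨g, hg1, hg2⟩ := LimW.unif_lim (fun k z => (s k).g z) {z : ℂ | z.im ≤ 0} (1 / 1000)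
    fun k z hz => ((h.close k).hg z hz).trans (he k)
  obtain ⟨c, hc1, hc2⟩ := LimW.unif_lim (fun k (x : ℝ) => ((s k).L.c x).re) univ (1 / 1000)
    fun k x _ => by
      rw [Real.norm_eq_abs]
      exact ((h.close k).hc x).trans (he k)
  obtain ⟨l, hl1, hl2⟩ := LimW.unif_lim (fun k (x : ℝ) => (s k).lc x) univ (2 / 1000)
    fun k x _ => by
      rw [Real.norm_eq_abs]
      have h1 := (h.close k).hl x
      have h2 := (h.block k).lc (((2 ^ n k : ℕ) : ℝ) * x)
      have h3 := he k
      rw [abs_le] at h1 h2 ⊢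
      constructor <;> linarith [h1.1, h1.2, h2.1, h2.2]
  -- uniform convergence
  have hfu := LimW.unif_of_le hf2
  have hgu := LimW.unif_of_le hg2
  have hlu := LimW.unif_of_le hl2
  have hlcont : Continuous l := by
    rw [← continuousOn_univ]
    exact hlu.continuousOn (Eventually.frequently (Eventually.of_forall fun k =>
      (LimW.lc_continuous (s k)).continuousOn))
  have hlb : ∀ x, |l x| ≤ 1 := fun x =>
    le_of_tendsto (hl1 x (mem_univ x)).abs (Eventually.of_forall fun k => h.lc k x)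
  have hcder : ∀ x, HasDerivAt c (Real.exp (l x)) x := by
    refine hasDerivAt_of_tendstoUniformly (l := atTop) (f := fun k (x : ℝ) => ((s k).L.c x).re)
      (f' := fun k (x : ℝ) => Real.exp ((s k).lc x)) (g' := fun x => Real.exp (l x)) ?_
      (Eventually.of_forall fun k x => ?_) (fun x => hc1 x (mem_univ x))
    · rw [← tendstoUniformlyOn_univ]
      apply LimW.unif_of_le (C := 6 * (2 * (2 / 1000)))
      intro k x _
      have h1 := hl2 k x (mem_univ x)
      rw [Real.norm_eq_abs] at h1 ⊢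
      have h2 : |l x - (s k).lc x| ≤ 1 := by
        refine h1.trans ?_
        have : ((1 : ℝ) / 2) ^ k ≤ 1 := pow_le_one₀ (by norm_num) (by norm_num)
        linarith
      have h3 := LimW.exp_close (h.lc k x) h2
      linarith
    · rw [(s k).exp_lc]
      exact (s k).L.c_hasDerivAt_real x
  have hgcont : ContinuousOn g {z : ℂ | z.im ≤ 0} := by
    refine hgu.continuousOn (Eventually.frequently (Eventually.of_forall fun k => ?_))
    intro z hz
    have hz' : z.im < (s k).t := lt_of_le_of_lt hz (s k).ht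
    exact ((s k).g_diffAt hz').continuousAt.continuousWithinAt
  -- the lower part
  have hlow : ∀ (x y : ℝ), y ≤ 0 → Tendsto
      (fun k => (s k).g ((((s k).L.c x).re : ℂ) + y * Complex.I)) atTop
      (𝓝 (g ((c x : ℂ) + y * Complex.I))) := by
    intro x y hy
    have him : ∀ a : ℝ, ((a : ℂ) + y * Complex.I) ∈ {z : ℂ | z.im ≤ 0} := by
      intro a; simpa using hy
    have h1 : Tendsto (fun k => ((((s k).L.c x).re : ℂ) + y * Complex.I)) atTop
        (𝓝[{z : ℂ | z.im ≤ 0}] ((c x : ℂ) + y * Complex.I)) := by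
      apply tendsto_nhdsWithin_of_tendsto_nhds_of_eventually_within
      · exact (Complex.continuous_ofReal.continuousAt.tendsto.comp (hc1 x (mem_univ x))).add_const _
      · exact Eventually.of_forall fun k => him _
    exact hgu.tendsto_comp (hgcont _ (him (c x))) h1
  have hreal : ∀ x : ℝ, f x = g (c x) := by
    intro x
    have h1 := hlow x 0 le_rfl
    have h2 := hf1 x (by simp)
    simp only [Complex.ofReal_zero, zero_mul, add_zero] at h1
    refine tendsto_nhds_unique h2 (h1.congr fun k => ?_)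
    rw [← (s k).L.c_eq_re, (s k).gc]
  -- Φ
  set Φ : ℂ → ℂ := fun z => if 0 ≤ z.im then f z else g ((c z.re : ℂ) + z.im * Complex.I) with hΦ
  have hΦf : ∀ z : ℂ, 0 ≤ z.im → Φ z = f z := fun z hz => if_pos hz
  have hΦg : ∀ z : ℂ, z.im ≤ 0 → Φ z = g ((c z.re : ℂ) + z.im * Complex.I) := by
    intro z hz
    rcases hz.lt_or_eq with h1 | h1
    · exact if_neg (not_le.2 h1)
    · rw [hΦf z h1.ge, h1, Complex.ofReal_zero, zero_mul, add_zero, ← hreal]
      congr 1
      exact Complex.ext (by simp) (by simp [h1])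
  have hlim : ∀ z, Tendsto (fun k => (s k).Phi z) atTop (𝓝 (Φ z)) := by
    intro z
    by_cases hz : 0 ≤ z.im
    · rw [hΦf z hz]
      refine (hf1 z hz).congr fun k => ?_
      exact (if_pos hz).symm
    · rw [hΦg z (not_le.1 hz).le]
      refine (hlow z.re z.im (not_le.1 hz).le).congr fun k => ?_
      exact (if_neg hz).symm
  -- bi-Lipschitz bounds
  obtain ⟨K, hK⟩ := hBilip 1 (1 / 8) (by norm_num)
  have hKk : ∀ k, LipschitzWith K (s k).Phi ∧ AntilipschitzWith K (s k).Phi ∧
      Function.Surjective (s k).Phi := by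
    intro k
    refine hK (s k) (h.lc k) (fun x => ?_) (h.chord k)
    have h1 := abs_le.1 (h.ld k x)
    have hpos : 0 < ‖deriv (s k).U.f x‖ :=
      norm_pos_iff.2 ((s k).U.deriv_ne (by simpa using (s k).U.hρ))
    rw [← Real.exp_log hpos]
    exact Real.exp_le_exp.2 h1.2
  have hlip : LipschitzWith K Φ := by
    refine LipschitzWith.of_dist_le_mul fun x y => ?_
    exact le_of_tendsto ((hlim x).dist (hlim y)) (Eventually.of_forall fun k =>
      (hKk k).1.dist_le_mul x y)
  have hanti : AntilipschitzWith K Φ := by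
    refine AntilipschitzWith.of_le_mul_dist fun x y => ?_
    exact ge_of_tendsto (((hlim x).dist (hlim y)).const_mul _) (Eventually.of_forall fun k =>
      (hKk k).2.1.le_mul_dist x y)
  have hsurj : Function.Surjective Φ := by
    intro p
    choose z hz using fun k => (hKk k).2.2 p
    -- bounded
    obtain ⟨R, hR⟩ : ∃ R : ℝ, ∀ k, dist (z k) 0 ≤ R := by
      have h1 : Tendsto (fun k => (K : ℝ) * dist p ((s k).Phi 0)) atTop
          (𝓝 ((K : ℝ) * dist p (Φ 0))) := (tendsto_const_nhds.dist (hlim 0)).const_mul _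
      obtain ⟨R, hR⟩ := h1.bddAbove_range
      refine ⟨R, fun k => ?_⟩
      have h2 := (hKk k).2.1.le_mul_dist (z k) 0
      rw [hz k] at h2
      exact h2.trans (hR ⟨k, rfl⟩)
    have hmem : ∀ k, z k ∈ closedBall (0 : ℂ) R := fun k => hR k
    obtain ⟨a, -, φ, hφ, ha⟩ := (isCompact_closedBall (0 : ℂ) R).tendsto_subseq hmem
    refine ⟨a, ?_⟩
    have h3 : Tendsto (fun k => (s (φ k)).Phi a) atTop (𝓝 (Φ a)) := (hlim a).comp hφ.tendsto_atTop
    have h4 : Tendsto (fun k => (s (φ k)).Phi a) atTop (𝓝 p) := by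
      rw [tendsto_iff_dist_tendsto_zero]
      have h5 : Tendsto (fun k => (K : ℝ) * dist a (z (φ k))) atTop (𝓝 0) := by
        have := (tendsto_const_nhds (x := a)).dist ha
        rw [dist_self] at this
        simpa using this.const_mul (K : ℝ)
      refine squeeze_zero (fun _ => dist_nonneg) (fun k => ?_) h5
      have h6 := (hKk (φ k)).1.dist_le_mul a (z (φ k))
      rwa [hz (φ k)] at h6
    exact tendsto_nhds_unique h3 h4
  refine ⟨⟨f, g, c, l, Φ, K, ?_, ?_, hlcont, fun x => (hlb x).trans (by norm_num), hcder, hΦf, hΦg,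
    hlip, hanti, hsurj⟩, fun z hz => ?_⟩
  · refine TendstoLocallyUniformlyOn.differentiableOn
      (hfu.mono fun z (hz : 0 < z.im) => le_of_lt hz).tendstoLocallyUniformlyOn
      (Eventually.of_forall fun k => ?_) (Upper.isOpen_half 0)
    intro z hz
    exact ((s k).U.diffAt ((s k).U.im_pos_lt (le_of_lt hz))).differentiableWithinAt
  · refine TendstoLocallyUniformlyOn.differentiableOn
      (hgu.mono fun z (hz : z.im < 0) => le_of_lt hz).tendstoLocallyUniformlyOn
      (Eventually.of_forall fun k => ?_) (Upper.isOpen_half' 0)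
    intro z hz
    exact ((s k).g_diffAt (lt_trans hz (s k).ht)).differentiableWithinAt
  · change Tendsto (fun k => (s k).U.f z) atTop (𝓝 (Φ z))
    rw [hΦf z hz]
    exact hf1 z hz

end MP87
end
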