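import Pool.Agent.Lib.MP_87ece0_an.Defs

/-!
Specifications of the modules. Every module is one file `<Name>.lean` in this directory with
final theorem `MP87.specXxx (hyps : other Specs) : SpecXxx`.
The proofs are in /team-store/MP_87ece0_an_PROOF.md
-/

namespace MP87

open Filter Topology Set MeasureTheory Metric
open scoped InnerProductSpace ComplexConjugate Laplacian NNReal

noncomputable section

/-! ### Upper maps, lower maps, stages -/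

/-- An upper map: a `1`-periodic (commuting with `z ↦ z + 1`) holomorphic map `f` of a
neighbourhood `im z > -ρ` of the closed upper half plane, together with a homeomorphism `τ` of the
plane extending it. -/
structure Upper where
  f : ℂ → ℂ
  ρ : ℝ
  κ : ℝ
  B : ℝ
  τ : ℂ ≃ₜ ℂ
  hρ : 0 < ρ
  hκ : 0 < κ
  hol : DifferentiableOn ℂ f {z | -ρ < z.im}
  per : ∀ z : ℂ, -ρ < z.im → f (z + 1) = f z + 1
  bdd : ∀ z : ℂ, -ρ < z.im → ‖f z - z‖ ≤ B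
  inj : ∀ z w : ℂ, -ρ < z.im → -ρ < w.im → κ * ‖z - w‖ ≤ ‖f z - f w‖
  τper : ∀ z : ℂ, τ (z + 1) = τ z + 1
  τbdd : ∀ z : ℂ, ‖τ z - z‖ ≤ B
  τf : ∀ z : ℂ, -ρ < z.im → τ z = f z

/-- the lower domain, the complement of the image of the closed upper half plane -/
def Upper.Om (U : Upper) : Set ℂ := (U.f '' {z : ℂ | 0 ≤ z.im})ᶜ

/-- A lower map: the conformal map `ψ` of the lower domain onto the lower half plane and the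
welding function `c = ψ ∘ f`, which is holomorphic across the real axis. -/
structure Lower (U : Upper) where
  ψ : ℂ → ℂ
  c : ℂ → ℂ
  B : ℝ
  ψhol : DifferentiableOn ℂ ψ U.Om
  ψper : ∀ w ∈ U.Om, ψ (w + 1) = ψ w + 1
  ψbdd : ∀ w ∈ U.Om, ‖ψ w - w‖ ≤ B
  ψbij : BijOn ψ U.Om {z : ℂ | z.im < 0}
  ψbd : ∀ ε : ℝ, 0 < ε → ∃ δ : ℝ, 0 < δ ∧ ∀ w ∈ U.Om, (∃ x : ℝ, ‖w - U.f x‖ < δ) → -ε < (ψ w).im
  chol : DifferentiableOn ℂ c {z : ℂ | |z.im| < U.ρ}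
  cper : ∀ z : ℂ, |z.im| < U.ρ → c (z + 1) = c z + 1
  cconj : ∀ z : ℂ, |z.im| < U.ρ → c (conj z) = conj (c z)
  cψ : ∀ z : ℂ, -U.ρ < z.im → z.im < 0 → c z = ψ (U.f z)
  c0 : c 0 = 0

/-- A stage: an upper map, a lower map with `c' > 0` on the real axis and the inverse `g` of `ψ`,
extended holomorphically across the real axis. -/
structure Stage where
  U : Upper
  L : Lower U
  g : ℂ → ℂ
  t : ℝ
  ht : 0 < t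
  cpos : ∀ x : ℝ, 0 < (deriv L.c x).re
  ghol : DifferentiableOn ℂ g {z : ℂ | z.im < t}
  gmem : ∀ z : ℂ, z.im < 0 → g z ∈ U.Om
  gψ : ∀ w ∈ U.Om, g (L.ψ w) = w
  ψg : ∀ z : ℂ, z.im < 0 → L.ψ (g z) = z
  gc : ∀ x : ℝ, g (L.c x) = U.f x

/-- the logarithm of the derivative of the welding function -/
def Stage.lc (s : Stage) (x : ℝ) : ℝ := Real.log (deriv s.L.c x).re

/-- the homeomorphism of the plane attached to a stage -/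
def Stage.Phi (s : Stage) (z : ℂ) : ℂ :=
  if 0 ≤ z.im then s.U.f z else s.g (((s.L.c z.re).re : ℂ) + z.im * Complex.I)

/-! ### One complex variable -/

/-- RMT: Riemann mapping theorem for bounded simply connected domains -/
def SpecRMT : Prop :=
  ∀ D : Set ℂ, IsOpen D → Bornology.IsBounded D → (0 : ℂ) ∈ D → IsSimplyConnected D →
    ∃ F : ℂ → ℂ, DifferentiableOn ℂ F D ∧ BijOn F D (ball 0 1) ∧ F 0 = 0

/-- the lower domain in the coordinate `q = exp(-2πiw)`, with the point `0` (`w = -i∞`) added -/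
def Upper.D (U : Upper) : Set ℂ :=
  insert 0 ((fun w : ℂ => Complex.exp (-(2 * Real.pi * Complex.I * w))) '' U.Om)

/-- DISC -/
def SpecDisc : Prop :=
  ∀ U : Upper, IsOpen U.D ∧ Bornology.IsBounded U.D ∧ IsSimplyConnected U.D

/-- MAX: maximum principle on the lower domain for periodic functions -/
def SpecMax : Prop :=
  ∀ (U : Upper) (s : ℂ → ℂ) (M : ℝ), DifferentiableOn ℂ s U.Om →
    (∀ w ∈ U.Om, s (w + 1) = s w) →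
    (∃ R C : ℝ, ∀ w ∈ U.Om, w.im < -R → ‖s w‖ ≤ C) →
    (∀ ε : ℝ, 0 < ε → ∃ δ : ℝ, 0 < δ ∧ ∀ w ∈ U.Om, (∃ x : ℝ, ‖w - U.f x‖ < δ) → ‖s w‖ ≤ M + ε) →
    ∀ w ∈ U.Om, ‖s w‖ ≤ M

/-- MAXIM: the same for the imaginary part -/
def SpecMaxIm : Prop :=
  ∀ (U : Upper) (s : ℂ → ℂ) (M : ℝ), DifferentiableOn ℂ s U.Om →
    (∀ w ∈ U.Om, s (w + 1) = s w) →
    (∃ R C : ℝ, ∀ w ∈ U.Om, w.im < -R → ‖s w‖ ≤ C) →
    (∀ ε : ℝ, 0 < ε → ∃ δ : ℝ, 0 < δ ∧ ∀ w ∈ U.Om, (∃ x : ℝ, ‖w - U.f x‖ < δ) →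
      |(s w).im| ≤ M + ε) →
    ∀ w ∈ U.Om, |(s w).im| ≤ M

/-- REFLECT: Schwarz reflection for periodic functions on a strip -/
def SpecReflect : Prop :=
  ∀ (ρ : ℝ) (h : ℂ → ℂ), 0 < ρ → DifferentiableOn ℂ h {z : ℂ | -ρ < z.im ∧ z.im < 0} →
    (∀ z : ℂ, -ρ < z.im → z.im < 0 → h (z + 1) = h z + 1) →
    (∀ ε : ℝ, 0 < ε → ∃ δ : ℝ, 0 < δ ∧ ∀ z : ℂ, -δ < z.im → z.im < 0 → |(h z).im| < ε) →
    ∃ H : ℂ → ℂ, DifferentiableOn ℂ H {z : ℂ | |z.im| < ρ} ∧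
      (∀ z : ℂ, -ρ < z.im → z.im < 0 → H z = h z) ∧
      (∀ z : ℂ, |z.im| < ρ → H (z + 1) = H z + 1) ∧
      ∀ z : ℂ, |z.im| < ρ → H (conj z) = conj (H z)

/-- GRAD: gradient estimate from the imaginary part -/
def SpecGrad : Prop :=
  ∀ (ρ M : ℝ) (R : ℂ → ℂ) (x : ℂ), 0 < ρ → DifferentiableOn ℂ R (ball x ρ) →
    (∀ z ∈ ball x ρ, |(R z).im| ≤ M) → ‖deriv R x‖ ≤ 8 * M / ρ

/-- LOWER: existence of the lower map (from RMT, DISC, REFLECT) -/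
def SpecLower : Prop := ∀ U : Upper, Nonempty (Lower U)

/-- GEXT: from a lower map with positive derivative of the welding function to a stage -/
def SpecGext : Prop :=
  ∀ (U : Upper) (L : Lower U), (∀ x : ℝ, 0 < (deriv L.c x).re) →
    ∃ s : Stage, s.U = U ∧ s.L.ψ = L.ψ ∧ s.L.c = L.c

/-- DQ: maximum principle for difference quotients -/
def SpecDQ : Prop :=
  ∀ (g : ℂ → ℂ) (t B a b : ℝ), 0 < t → DifferentiableOn ℂ g {z : ℂ | z.im < t} →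
    (∀ z : ℂ, z.im ≤ 0 → ‖g z - z‖ ≤ B) → InjOn g {z : ℂ | z.im ≤ 0} →
    (∀ z : ℂ, z.im ≤ 0 → deriv g z ≠ 0) → 0 < a → a ≤ 1 → 1 ≤ b →
    (∀ x y : ℝ, a * |x - y| ≤ ‖g x - g y‖) → (∀ x y : ℝ, ‖g x - g y‖ ≤ b * |x - y|) →
    ∀ z w : ℂ, z.im ≤ 0 → w.im ≤ 0 → a * ‖z - w‖ ≤ ‖g z - g w‖ ∧ ‖g z - g w‖ ≤ b * ‖z - w‖

/-- BILIP: uniform bi-Lipschitz bounds of the homeomorphisms `Φ` -/
def SpecBilip : Prop :=
  ∀ M κ : ℝ, 0 < κ → ∃ K : ℝ≥0, ∀ s : Stage, (∀ x : ℝ, |s.lc x| ≤ M) →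
    (∀ x : ℝ, ‖deriv s.U.f x‖ ≤ Real.exp M) →
    (∀ x y : ℝ, κ * |x - y| ≤ ‖s.U.f x - s.U.f y‖) →
    LipschitzWith K s.Phi ∧ AntilipschitzWith K s.Phi ∧ Function.Surjective s.Phi

/-! ### Composition of stages -/

/-- `w` is the upper map `z ↦ u(v(N z) / N)` -/
def IsComp (u v : Upper) (N : ℕ) (w : Upper) : Prop :=
  0 < N ∧ v.B / N ≤ u.ρ / 4 ∧ w.ρ ≤ v.ρ / N ∧ w.ρ ≤ u.ρ / 4 ∧
    (∀ z : ℂ, -w.ρ < z.im → w.f z = u.f (v.f (N * z) / N)) ∧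
    ∀ z : ℂ, w.τ z = u.τ (v.τ (N * z) / N)

/-- COMP -/
def SpecComp : Prop :=
  ∀ (u v : Upper) (N : ℕ), 0 < N → v.B / N ≤ u.ρ / 4 → ∃ w : Upper, IsComp u v N w

/-- D1: comparison of `ψ` for the composed map with `ψ` for the first map -/
def SpecD1 : Prop :=
  ∀ s b : Stage, ∃ (C : ℝ) (N₁ : ℕ), ∀ N ≥ N₁, ∀ w : Upper, IsComp s.U b.U N w →
    ∀ L : Lower w, ∀ z : ℂ, |z.im| < s.U.ρ / 2 → s.U.f z ∈ w.Om →
      |(L.ψ (s.U.f z)).im - (s.L.c z).im| ≤ C / N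

/-- D2: factorization of the welding function of the composed map -/
def SpecD2 : Prop :=
  ∀ (s b : Stage) (η : ℝ), 0 < η → ∃ N₁ : ℕ, ∀ N ≥ N₁, ∀ w : Upper, IsComp s.U b.U N w →
    ∀ L : Lower w, ∃ ct : ℂ → ℂ, DifferentiableOn ℂ ct {z : ℂ | |z.im| < s.U.ρ / 4} ∧
      (∀ x : ℝ, (ct x).im = 0) ∧ (∀ x : ℝ, ct (x + 1) = ct x + 1) ∧
      (∀ x : ℝ, ‖deriv ct x - deriv s.L.c x‖ ≤ η) ∧
      ∃ t : ℝ, 0 < t ∧ ∀ z : ℂ, |z.im| < t →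
        |(b.L.c (N * z) / N).im| < s.U.ρ / 4 ∧ L.c z = ct (b.L.c (N * z) / N)

/-- STEP -/
def SpecStep : Prop :=
  ∀ (s b : Stage) (η : ℝ), 0 < η → ∃ N₁ : ℕ, ∀ N ≥ N₁, ∃ s' : Stage, IsComp s.U b.U N s'.U ∧
    (∀ x : ℝ, |s'.lc x - s.lc x - b.lc (N * x)| ≤ η) ∧
    ∀ x : ℝ, |(s'.L.c x).re - (s.L.c x).re| ≤ η

/-- STEPG: closeness of the lower maps -/
def SpecStepG : Prop :=
  ∀ (s : Stage) (η : ℝ), 0 < η → ∃ δ : ℝ, 0 < δ ∧ ∀ s' : Stage,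
    (∀ x : ℝ, ‖s'.U.f x - s.U.f x‖ ≤ δ) → (∀ x : ℝ, |(s'.L.c x).re - (s.L.c x).re| ≤ δ) →
    ∀ z : ℂ, z.im ≤ 0 → ‖s'.g z - s.g z‖ ≤ η

/-- NEAR: closeness of the upper maps -/
def SpecNear : Prop :=
  ∀ (u v : Upper) (η : ℝ), 0 < η → ∃ N₁ : ℕ, ∀ N ≥ N₁, ∀ w : Upper, IsComp u v N w →
    (∀ z : ℂ, 0 ≤ z.im → ‖w.f z - u.f z‖ ≤ η) ∧
    (∀ x : ℝ, deriv w.f x = deriv u.f (v.f (N * x) / N) * deriv v.f (N * x)) ∧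
    ∀ x : ℝ, ‖deriv w.f x - deriv u.f x * deriv v.f (N * x)‖ ≤ η

/-- CHORD: lower bound of chords -/
def SpecChord : Prop :=
  ∀ (u v : Upper) (κ₁ κ₂ m η : ℝ), 0 < κ₁ → 0 < κ₂ → 0 < m → 0 < η →
    (∀ x y : ℝ, κ₁ * |x - y| ≤ ‖u.f x - u.f y‖) →
    (∀ x y : ℝ, κ₂ * |x - y| ≤ ‖v.f x - v.f y‖) → (∀ x : ℝ, m ≤ ‖deriv u.f x‖) →
    ∃ N₁ : ℕ, ∀ N ≥ N₁, ∀ w : Upper, IsComp u v N w →
      ∀ x y : ℝ, (min κ₁ (m * κ₂) - η) * |x - y| ≤ ‖w.f x - w.f y‖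

/-- everything about one step of the construction -/
structure Close (s b s' : Stage) (N : ℕ) (η : ℝ) : Prop where
  comp : IsComp s.U b.U N s'.U
  hf : ∀ z : ℂ, 0 ≤ z.im → ‖s'.U.f z - s.U.f z‖ ≤ η
  hd : ∀ x : ℝ, ‖deriv s'.U.f x - deriv s.U.f x * deriv b.U.f (N * x)‖ ≤ η
  hd' : ∀ x : ℝ, deriv s'.U.f x = deriv s.U.f (b.U.f (N * x) / N) * deriv b.U.f (N * x)
  hl : ∀ x : ℝ, |s'.lc x - s.lc x - b.lc (N * x)| ≤ η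
  hc : ∀ x : ℝ, |(s'.L.c x).re - (s.L.c x).re| ≤ η
  hg : ∀ z : ℂ, z.im ≤ 0 → ‖s'.g z - s.g z‖ ≤ η

/-- ALL (from STEP, STEPG, NEAR, CHORD) -/
def SpecAll : Prop :=
  ∀ (s b : Stage) (κ₁ κ₂ m η : ℝ), 0 < κ₁ → 0 < κ₂ → 0 < m → 0 < η →
    (∀ x y : ℝ, κ₁ * |x - y| ≤ ‖s.U.f x - s.U.f y‖) →
    (∀ x y : ℝ, κ₂ * |x - y| ≤ ‖b.U.f x - b.U.f y‖) → (∀ x : ℝ, m ≤ ‖deriv s.U.f x‖) →
    ∃ N₁ : ℕ, ∀ N ≥ N₁, ∃ s' : Stage, Close s b s' N η ∧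
      ∀ x y : ℝ, (min κ₁ (m * κ₂) - η) * |x - y| ≤ ‖s'.U.f x - s'.U.f y‖

/-! ### The basic block -/

/-- MICU: the upper maps with `f' = exp(εφ)` -/
def SpecMicU : Prop :=
  ∀ L : ℝ, 0 < L → ∃ (ρ C ε₁ : ℝ) (φ P : ℂ → ℂ), 0 < ρ ∧ 0 < ε₁ ∧
    (∀ z : ℂ, -ρ < z.im → HasDerivAt P (φ z) z) ∧ DifferentiableOn ℂ φ {z : ℂ | -ρ < z.im} ∧
    (∀ z : ℂ, -ρ < z.im → ‖P z‖ ≤ C) ∧ (∀ z : ℂ, -ρ < z.im → ‖φ z‖ ≤ C) ∧
    (∀ z : ℂ, -ρ < z.im → P (z + 1) = P z) ∧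
    (∀ x : ℝ, |(φ x).re| ≤ Real.pi / 2) ∧ φ 0 = L * Complex.I ∧
    ∀ ε : ℝ, 0 < ε → ε < ε₁ → ∃ U : Upper, U.ρ = ρ ∧ U.f 0 = 0 ∧
      (∀ z : ℂ, -ρ < z.im → deriv U.f z = Complex.exp (ε * φ z)) ∧
      (∀ z : ℂ, -ρ < z.im → ‖U.f z - z - ε * (P z - P 0)‖ ≤ C * ε ^ 2) ∧
      ∀ x y : ℝ, 9 / 10 * |x - y| ≤ ‖U.f x - U.f y‖

/-- MICL: the welding function to first order -/
def SpecMicL : Prop :=
  ∀ (ρ C : ℝ) (φ P : ℂ → ℂ), 0 < ρ → (∀ z : ℂ, -ρ < z.im → HasDerivAt P (φ z) z) →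
    DifferentiableOn ℂ φ {z : ℂ | -ρ < z.im} →
    (∀ z : ℂ, -ρ < z.im → ‖P z‖ ≤ C) → (∀ z : ℂ, -ρ < z.im → ‖φ z‖ ≤ C) →
    (∀ z : ℂ, -ρ < z.im → P (z + 1) = P z) →
    ∃ (C' ε₂ : ℝ), 0 < ε₂ ∧ ∀ ε : ℝ, 0 < ε → ε < ε₂ → ∀ U : Upper, U.ρ = ρ →
      (∀ z : ℂ, -ρ < z.im → ‖U.f z - z - ε * (P z - P 0)‖ ≤ C * ε ^ 2) →
      ∀ L : Lower U, ∀ x : ℝ, ‖deriv L.c x - 1 - ε * (φ x + conj (φ x))‖ ≤ C' * ε ^ 2

/-- MICRO (from MICU, MICL, LOWER, GEXT) -/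
def SpecMicro : Prop :=
  ∀ L : ℝ, 0 < L → ∀ ε₀ : ℝ, 0 < ε₀ → ∃ ε : ℝ, 0 < ε ∧ ε < ε₀ ∧ ∃ a : Stage, a.U.f 0 = 0 ∧
    deriv a.U.f 0 = Complex.exp (ε * L * Complex.I) ∧ (∀ x : ℝ, |a.lc x| ≤ 4 * ε) ∧
    (∀ x : ℝ, |Real.log ‖deriv a.U.f x‖| ≤ 2 * ε) ∧
    ∀ x y : ℝ, 9 / 10 * |x - y| ≤ ‖a.U.f x - a.U.f y‖

/-- the blocks used in the construction -/
structure IsBlock (b : Stage) (η : ℝ) : Prop where
  b0 : b.U.f 0 = 0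
  rot : ∃ θ : ℝ, 1 ≤ θ ∧ θ ≤ 2 ∧ deriv b.U.f 0 = Complex.exp (θ * Complex.I)
  lc : ∀ x : ℝ, |b.lc x| ≤ η
  ld : ∀ x : ℝ, |Real.log ‖deriv b.U.f x‖| ≤ η
  chord : ∀ x y : ℝ, 1 / 2 * |x - y| ≤ ‖b.U.f x - b.U.f y‖

/-- BLOCK (from MICRO, ALL) -/
def SpecBlock : Prop := ∀ η : ℝ, 0 < η → ∃ b : Stage, IsBlock b η

/-! ### The limit object -/

/-- sparse windows: at the binary positions `n m, ..., n m + w m - 1` the digits are prescribed -/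
def Sparse (n w : ℕ → ℕ) : Prop :=
  (∀ m, (m + 1) * ∑ i ∈ Finset.range (m + 1), w i ≤ n m) ∧ ∀ m, n m + w m ≤ n (m + 1)

/-- `2 ^ (n m) x` is within `2 ^ (- w m)` of an integer for all `m` -/
def InWin (n w : ℕ → ℕ) (x : ℝ) : Prop := ∀ m, ∃ k : ℤ, |2 ^ n m * x - k| ≤ (2 ^ w m)⁻¹

/-- the sequence of stages (from BLOCK, ALL) -/
structure IsSeq (s b : ℕ → Stage) (n w : ℕ → ℕ) (r e : ℕ → ℝ) : Prop where
  sparse : Sparse n w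
  close : ∀ k, Close (s k) (b k) (s (k + 1)) (2 ^ n k) (e k)
  epos : ∀ k, 0 < e k
  ele : ∀ k, e k ≤ (1 / 2) ^ k / 1000
  block : ∀ k, IsBlock (b k) (e k)
  win : ∀ k, ∀ x : ℝ, (∃ j : ℤ, |x - j| ≤ (2 ^ w k)⁻¹) →
    ‖deriv (b k).U.f x - deriv (b k).U.f 0‖ ≤ e k
  rpos : ∀ k, 0 < r k
  rle : ∀ k : ℕ, r k ≤ 1 / (k + 1)
  aff : ∀ k : ℕ, ∀ x t : ℝ, |t| ≤ k →
    ‖(s k).U.f (x + r k * t) - (s k).U.f x - r k * t * deriv (s k).U.f x‖ ≤ r k / (k + 1)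
  ler : ∀ k j : ℕ, k ≤ j → e j ≤ r k / (k + 1) * (1 / 2) ^ j
  chord : ∀ k, ∀ x y : ℝ, 1 / 8 * |x - y| ≤ ‖(s k).U.f x - (s k).U.f y‖
  lc : ∀ k, ∀ x : ℝ, |(s k).lc x| ≤ 1
  ld : ∀ k, ∀ x : ℝ, |Real.log ‖deriv (s k).U.f x‖| ≤ 1

/-- SEQ -/
def SpecSeq : Prop :=
  ∃ (s b : ℕ → Stage) (n w : ℕ → ℕ) (r e : ℕ → ℝ), IsSeq s b n w r e

/-- the limit object: two conformal maps with a common boundary curve, the welding function with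
continuous derivative `exp l` and the bi-Lipschitz homeomorphism `Φ` -/
structure Weld where
  f : ℂ → ℂ
  g : ℂ → ℂ
  c : ℝ → ℝ
  l : ℝ → ℝ
  Φ : ℂ → ℂ
  K : ℝ≥0
  fhol : DifferentiableOn ℂ f {z : ℂ | 0 < z.im}
  ghol : DifferentiableOn ℂ g {z : ℂ | z.im < 0}
  lcont : Continuous l
  lbdd : ∀ x, |l x| ≤ 2
  cder : ∀ x, HasDerivAt c (Real.exp (l x)) x
  Φf : ∀ z : ℂ, 0 ≤ z.im → Φ z = f z
  Φg : ∀ z : ℂ, z.im ≤ 0 → Φ z = g ((c z.re : ℂ) + z.im * Complex.I)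
  lip : LipschitzWith K Φ
  anti : AntilipschitzWith K Φ
  surj : Function.Surjective Φ

/-- at the boundary parameter `x` the curve rotates by a non-trivial angle infinitely often -/
def Weld.Dir (W : Weld) (x : ℝ) : Prop :=
  ∃ (r : ℕ → ℝ) (lam : ℕ → ℂ) (θ e : ℕ → ℝ), (∀ k, 0 < r k) ∧ Tendsto r atTop (𝓝 0) ∧
    Tendsto e atTop (𝓝 0) ∧ (∀ k, 1 / 4 ≤ ‖lam k‖) ∧ (∀ k, ‖lam k‖ ≤ 4) ∧
    (∀ k, 1 ≤ θ k ∧ θ k ≤ 2) ∧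
    (∀ k : ℕ, ∀ t : ℝ, |t| ≤ k → ‖W.Φ (x + r k * t) - W.Φ x - r k * t * lam k‖ ≤ e k * r k) ∧
    Tendsto (fun k => lam (k + 1) - lam k * Complex.exp (θ k * Complex.I)) atTop (𝓝 0)

/-- LIMW: the limit (from BILIP) -/
def SpecLimW : Prop :=
  ∀ (s b : ℕ → Stage) (n w : ℕ → ℕ) (r e : ℕ → ℝ), IsSeq s b n w r e →
    ∃ W : Weld, ∀ z : ℂ, 0 ≤ z.im → Tendsto (fun k => (s k).U.f z) atTop (𝓝 (W.Φ z))

/-- DIR: the rotation in the limit -/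
def SpecDir : Prop :=
  ∀ (s b : ℕ → Stage) (n w : ℕ → ℕ) (r e : ℕ → ℝ), IsSeq s b n w r e →
    ∀ W : Weld, (∀ z : ℂ, 0 ≤ z.im → Tendsto (fun k => (s k).U.f z) atTop (𝓝 (W.Φ z))) →
    ∀ x : ℝ, InWin n w x → W.Dir x

/-- DIG: the exceptional set has dimension one -/
def SpecDig : Prop :=
  ∀ n w : ℕ → ℕ, Sparse n w → ∀ s : ℝ≥0, 0 < s → s < 1 →
    ∃ (E : Set ℝ) (h : ℝ → ℝ) (C : ℝ≥0), E ⊆ Icc 0 1 ∧ (∀ x ∈ E, InWin n w x) ∧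
      HolderOnWith C s h E ∧ Ico 0 1 ⊆ h '' E

/-! ### The domains in `ℝⁿ`, `n = m + 2` -/

/-- the point of `ℝ^{m+2}` with first two coordinates `p` and last coordinates `t` -/
def glue {m : ℕ} (p : ℂ) (t : En m) : En (m + 2) :=
  WithLp.toLp 2 (Fin.cons p.re (Fin.cons p.im (WithLp.ofLp t)))

/-- the first two coordinates -/
def prj {m : ℕ} (X : En (m + 2)) : ℂ := ⟨X 0, X 1⟩

/-- the last coordinates -/
def tl {m : ℕ} (X : En (m + 2)) : En m := WithLp.toLp 2 (fun i => X i.succ.succ)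

/-- GLUE: measure and Laplacian in the product coordinates -/
def SpecGlue : Prop :=
  ∀ m : ℕ, MeasurePreserving (fun q : ℂ × En m => glue q.1 q.2) (volume.prod volume) volume ∧
    (∀ φ : En (m + 2) → ℝ, ContDiff ℝ 2 φ → ∀ (p : ℂ) (t : En m),
      (Δ φ) (glue p t) = (Δ (fun q : ℂ => φ (glue q t))) p + (Δ (fun u : En m => φ (glue p u))) t)
    ∧ ∀ ψ : En m → ℝ, ContDiff ℝ 2 ψ → HasCompactSupport ψ → ∫ t, (Δ ψ) t = 0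

/-- HARM: functions of the first two coordinates -/
def SpecHarm : Prop :=
  ∀ (m : ℕ) (v : ℂ → ℝ) (S : Set ℂ), IsOpen S → InnerProductSpace.HarmonicOnNhd v S →
    InnerProductSpace.HarmonicOnNhd (fun X : En (m + 2) => v (prj X)) {X | prj X ∈ S}

/-- RIESZ: the planar Riesz formula for conformal maps which are bi-Lipschitz -/
def SpecRiesz : Prop :=
  ∀ (F : ℂ → ℂ) (K : ℝ) (φ : ℂ → ℝ), DifferentiableOn ℂ F {z : ℂ | 0 < z.im} →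
    (∀ z w : ℂ, 0 ≤ z.im → 0 ≤ w.im → ‖F z - F w‖ ≤ K * ‖z - w‖) →
    (∀ z w : ℂ, 0 ≤ z.im → 0 ≤ w.im → ‖z - w‖ ≤ K * ‖F z - F w‖) →
    ContDiff ℝ 2 φ → HasCompactSupport φ →
    ∫ z in {z : ℂ | 0 < z.im}, z.im * ((Δ φ) (F z) * ‖deriv F z‖ ^ 2) = ∫ x : ℝ, φ (F x)

/-- the inverse of `Φ` -/
def Weld.inv (W : Weld) : ℂ → ℂ := Function.invFun W.Φ

/-- the domain `Ω⁺` -/
def Weld.Op (W : Weld) (m : ℕ) : Set (En (m + 2)) := {X | 0 < (W.inv (prj X)).im}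

/-- the domain `Ω⁻` -/
def Weld.Om (W : Weld) (m : ℕ) : Set (En (m + 2)) := {X | (W.inv (prj X)).im < 0}

/-- the Green function of `Ω⁺` -/
def Weld.up (W : Weld) (m : ℕ) (X : En (m + 2)) : ℝ := max 0 (W.inv (prj X)).im

/-- the Green function of `Ω⁻` -/
def Weld.um (W : Weld) (m : ℕ) (X : En (m + 2)) : ℝ := max 0 (-(W.inv (prj X)).im)

/-- the harmonic measure of `Ω⁺` -/
def Weld.ωp (W : Weld) (m : ℕ) : Measure (En (m + 2)) :=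
  Measure.map (fun q : ℝ × En m => glue (W.Φ q.1) q.2) (volume.prod volume)

/-- the density -/
def Weld.h (W : Weld) (m : ℕ) (X : En (m + 2)) : ℝ := Real.exp (W.l (W.inv (prj X)).re)

/-- the harmonic measure of `Ω⁻` -/
def Weld.ωm (W : Weld) (m : ℕ) : Measure (En (m + 2)) :=
  (W.ωp m).withDensity (fun X => ENNReal.ofReal (W.h m X))

/-- NTA: bi-Lipschitz images of half spaces -/
def SpecNTA : Prop :=
  ∀ (m : ℕ) (Ψ : En (m + 2) → En (m + 2)) (K : ℝ≥0), LipschitzWith K Ψ → AntilipschitzWith K Ψ →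
    Function.Surjective Ψ → ∃ M : ℝ, IsNTA (Ψ '' {X | 0 < X 1}) M ∧ IsNTA (Ψ '' {X | X 1 < 0}) M

/-- TOP: topology of the two domains -/
def SpecTop : Prop :=
  ∀ (W : Weld) (m : ℕ), W.Om m = (closure (W.Op m))ᶜ ∧
    frontier (W.Op m) = {X | (W.inv (prj X)).im = 0} ∧
    frontier (W.Om m) = {X | (W.inv (prj X)).im = 0} ∧
    ∃ (Ψ : En (m + 2) → En (m + 2)) (K : ℝ≥0), LipschitzWith K Ψ ∧ AntilipschitzWith K Ψ ∧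
      Function.Surjective Ψ ∧ W.Op m = Ψ '' {X | 0 < X 1} ∧ W.Om m = Ψ '' {X | X 1 < 0}

/-- POLEP (from GLUE, HARM, RIESZ, TOP) -/
def SpecPoleP : Prop := ∀ (W : Weld) (m : ℕ), IsPoleInfty (W.Op m) (W.up m) (W.ωp m)

/-- POLEM (from GLUE, HARM, RIESZ, TOP) -/
def SpecPoleM : Prop := ∀ (W : Weld) (m : ℕ), IsPoleInfty (W.Om m) (W.um m) (W.ωm m)

/-- BLOW (from TOP): two different blow-ups -/
def SpecBlow : Prop :=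
  ∀ (W : Weld) (m : ℕ) (x : ℝ) (t : En m), W.Dir x → glue (W.Φ x) t ∈ NU (W.Op m)

/-- DIMN (from DIG, TOP): dimension of the non-uniqueness set -/
def SpecDimN : Prop :=
  ∀ (W : Weld) (m : ℕ) (n w : ℕ → ℕ), Sparse n w →
    (∀ x : ℝ, InWin n w x → ∀ t : En m, glue (W.Φ x) t ∈ NU (W.Op m)) →
    dimH (NU (W.Op m)) = ((m + 1 : ℕ) : ENNReal)

end

end MP87
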